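import Mathlib

/-!
# Definitions for the Faber-Krahn inequality of the infinite-mass Dirac operator

Everything is written on the complex plane; the equations are
`dzb u₁ = (i E / 2) u₂`, `dz u₂ = (i E / 2) u₁`.
-/

set_option autoImplicit false

open Complex MeasureTheory Set Metric
open scoped ComplexConjugate

namespace Pool.Agent.FK

noncomputable section

/-- Wirtinger derivative with respect to `z` -/
def dz (u : ℂ → ℂ) (z : ℂ) : ℂ := (fderiv ℝ u z 1 - I * fderiv ℝ u z I) / 2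

/-- Wirtinger derivative with respect to the conjugate of `z` -/
def dzb (u : ℂ → ℂ) (z : ℂ) : ℂ := (fderiv ℝ u z 1 + I * fderiv ℝ u z I) / 2

/-- square of the Euclidean norm of the gradient of a real function -/
def gsq (h : ℂ → ℝ) (z : ℂ) : ℝ := (fderiv ℝ h z 1) ^ 2 + (fderiv ℝ h z I) ^ 2

/-- Laplacian of a real function on the plane -/
def lap (h : ℂ → ℝ) (z : ℂ) : ℝ :=
  fderiv ℝ (fun w => fderiv ℝ h w 1) z 1 + fderiv ℝ (fun w => fderiv ℝ h w I) z I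

/-- `(u₁, u₂)` solves the Dirac eigenvalue equation with eigenvalue `E` in the open set `Ω` -/
structure Sol (E : ℝ) (Ω : Set ℂ) (u₁ u₂ : ℂ → ℂ) : Prop where
  pos : 0 < E
  isOpen : IsOpen Ω
  smooth₁ : ∀ k : ℕ, ContDiff ℝ k u₁
  smooth₂ : ∀ k : ℕ, ContDiff ℝ k u₂
  eq₁ : ∀ z ∈ Ω, dzb u₁ z = I * E / 2 * u₂ z
  eq₂ : ∀ z ∈ Ω, dz u₂ z = I * E / 2 * u₁ z

section fields

variable (E : ℝ) (u₁ u₂ : ℂ → ℂ) (z : ℂ)

/-- `N = |u₁|² + |u₂|²` -/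
def NN : ℝ := ‖u₁ z‖ ^ 2 + ‖u₂ z‖ ^ 2

/-- `P = |u₁|² - |u₂|²` -/
def PP : ℝ := ‖u₁ z‖ ^ 2 - ‖u₂ z‖ ^ 2

/-- `c = P / N` -/
def cc : ℝ := PP u₁ u₂ z / NN u₁ u₂ z

/-- `q = conj u₁ * u₂` -/
def qq : ℂ := conj (u₁ z) * u₂ z

/-- `S = conj (∂ u₁) u₂ - (∂̄ u₂) conj u₁` -/
def SS : ℂ := conj (dz u₁ z) * u₂ z - dzb u₂ z * conj (u₁ z)

/-- `J = E² - 4 |S|² / N²` -/
def JJ : ℝ := E ^ 2 - 4 * ‖SS u₁ u₂ z‖ ^ 2 / NN u₁ u₂ z ^ 2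

/-- `ξ = E q / N + 2 i conj q S / N²` -/
def xi : ℂ :=
  E * qq u₁ u₂ z / NN u₁ u₂ z + 2 * I * conj (qq u₁ u₂ z) * SS u₁ u₂ z / (NN u₁ u₂ z) ^ 2

end fields

/-- the information on the eigenfunction which comes from the boundary condition -/
structure Good (E : ℝ) (Ω : Set ℂ) (u₁ u₂ : ℂ → ℂ) : Prop where
  sol : Sol E Ω u₁ u₂
  bdd : Bornology.IsBounded Ω
  /-- `N` vanishes only on a null set -/
  null : volume {z | z ∈ Ω ∧ NN u₁ u₂ z = 0} = 0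
  /-- `|S|²/N²` is integrable -/
  integrable : IntegrableOn (fun z => ‖SS u₁ u₂ z‖ ^ 2 / NN u₁ u₂ z ^ 2) Ω
  /-- total curvature -/
  total : 2 * Real.pi ≤ ∫ z in Ω, JJ E u₁ u₂ z
  /-- logarithmic energy -/
  energy : ∃ C : ℝ, ∀ ε ∈ Ioo (0 : ℝ) 1,
    ∫ z in Ω, gsq (NN u₁ u₂) z / (NN u₁ u₂ z + ε) ^ 2 ≤ C * (1 + |Real.log ε|)
  /-- boundary condition -/
  bdry : ∀ z ∈ frontier Ω, PP u₁ u₂ z = 0

/-- `f` maps the open unit disc conformally onto `Ω`, smoothly up to the boundary -/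
structure Conf (f : ℂ → ℂ) (Ω : Set ℂ) : Prop where
  smooth : ∀ k : ℕ, ContDiff ℝ k f
  holo : DifferentiableOn ℂ f (ball 0 1)
  inj : InjOn f (closedBall 0 1)
  nd : ∀ z ∈ closedBall (0 : ℂ) 1, fderiv ℝ f z ≠ 0
  img : Ω = f '' ball 0 1

/-- the derivative of `f` (equal to the complex derivative on the closed disc) -/
def DD (f : ℂ → ℂ) (z : ℂ) : ℂ := fderiv ℝ f z 1

/-- the infinite-mass boundary condition in the conformal chart -/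
def Bc (f u₁ u₂ : ℂ → ℂ) : Prop :=
  ∀ w : ℂ, ‖w‖ = 1 → I * (w * DD f w / (‖DD f w‖ : ℂ)) * u₁ (f w) = u₂ (f w)

/-- a nonnegative function on the unit disc whose logarithm has curvature `g - Q/M²` and whose
radial derivative on the unit circle is `-M` -/
structure DiscData (R G : ℝ) (M Q g : ℂ → ℝ) : Prop where
  one_lt : 1 < R
  smooth : ContDiffOn ℝ 2 M (ball 0 R)
  nonneg : ∀ z ∈ ball (0 : ℂ) R, 0 ≤ M z
  contQ : ContinuousOn Q (closedBall 0 1)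
  contg : ContinuousOn g (closedBall 0 1)
  Qnonneg : ∀ z ∈ ball (0 : ℂ) 1, 0 ≤ Q z
  gnonneg : ∀ z ∈ ball (0 : ℂ) 1, 0 ≤ g z
  gle : ∀ z ∈ ball (0 : ℂ) 1, g z ≤ G
  ident : ∀ z ∈ ball (0 : ℂ) 1, M z * lap M z - gsq M z = Q z - g z * M z ^ 2
  lap_ge : ∀ z ∈ ball (0 : ℂ) 1, -(g z * M z) ≤ lap M z
  bdry : ∀ z : ℂ, ‖z‖ = 1 → fderiv ℝ M z z = - M z
  ne : ∃ z ∈ ball (0 : ℂ) 1, M z ≠ 0

/-! ### Bessel functions -/

/-- `J₀(x) = g₀(x²)` -/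
def g0 (t : ℝ) : ℝ := ∑' k : ℕ, (-1) ^ k * t ^ k / (4 ^ k * ((k.factorial : ℝ)) ^ 2)

/-- `J₁(x) = x g₁(x²)` -/
def g1 (t : ℝ) : ℝ :=
  ∑' k : ℕ, (-1) ^ k * t ^ k / (2 * 4 ^ k * ((k.factorial : ℝ) * ((k + 1).factorial : ℝ)))

def j0 (x : ℝ) : ℝ := g0 (x ^ 2)

def j1 (x : ℝ) : ℝ := x * g1 (x ^ 2)

def nn (x : ℝ) : ℝ := j0 x ^ 2 + j1 x ^ 2

/-- the cosine of the angle of the disc profile -/
def cs (x : ℝ) : ℝ := (j0 x ^ 2 - j1 x ^ 2) / nn x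

/-- the sine of the angle of the disc profile -/
def sn (x : ℝ) : ℝ := 2 * j0 x * j1 x / nn x

/-- the derivative of the angle of the disc profile -/
def TT (x : ℝ) : ℝ := 2 - sn x / x

/-- the facts about the disc profile up to the first positive root `X` of `J₀ = J₁` -/
structure Profile (X : ℝ) : Prop where
  pos : 0 < X
  root : j0 X = j1 X
  j0_pos : ∀ x ∈ Icc (0 : ℝ) X, 0 < j0 x
  j1_pos : ∀ x ∈ Ioc (0 : ℝ) X, 0 < j1 x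
  lt : ∀ x ∈ Ico (0 : ℝ) X, j1 x < j0 x
  cs_zero : cs 0 = 1
  cs_X : cs X = 0
  cs_mem : ∀ x ∈ Ioo (0 : ℝ) X, cs x ∈ Ioo (0 : ℝ) 1
  cs_cont : ContinuousOn cs (Icc 0 X)
  sn_pos : ∀ x ∈ Ioo (0 : ℝ) X, 0 < sn x
  sn_cont : ContinuousOn sn (Icc 0 X)
  sq : ∀ x ∈ Icc (0 : ℝ) X, cs x ^ 2 + sn x ^ 2 = 1
  deriv : ∀ x ∈ Ioo (0 : ℝ) X, HasDerivAt cs (-(sn x * TT x)) x
  T_ge : ∀ x ∈ Ioc (0 : ℝ) X, 1 ≤ TT x
  T_lt : ∀ x ∈ Ioc (0 : ℝ) X, TT x < 2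
  T_bound : ∃ K : ℝ, 0 ≤ K ∧ ∀ x ∈ Ioo (0 : ℝ) X, TT x - 1 ≤ K * x ^ 2

/-- the distribution function of `|c|` -/
def bb (Ω : Set ℂ) (u₁ u₂ : ℂ → ℂ) (x : ℝ) : ℝ :=
  (volume {z | z ∈ Ω ∧ cs x < |cc u₁ u₂ z|}).toReal

end

end Pool.Agent.FK
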