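import Mathlib
import Pool.Agent.Helper99.FK.Defs

/-! FK-16: the entire functions `g₀, g₁` -/

set_option autoImplicit false

open Complex MeasureTheory Set Metric
open scoped ComplexConjugate Topology

namespace Pool.Agent.FK

/-- A power series. -/
noncomputable def psum (a : ℕ → ℝ) (t : ℝ) : ℝ := ∑' k : ℕ, a k * t ^ k

/-- The coefficients decay like those of the exponential series. -/
def Small (a : ℕ → ℝ) : Prop := ∃ C : ℝ, 0 ≤ C ∧ ∀ k, |a k| ≤ C / (k.factorial : ℝ)

theorem Small.norm_le {a : ℕ → ℝ} {C : ℝ} (h : ∀ k, |a k| ≤ C / (k.factorial : ℝ)) {t r : ℝ}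
    (ht : |t| ≤ r) (k : ℕ) : ‖a k * t ^ k‖ ≤ C * (r ^ k / (k.factorial : ℝ)) := by
  rw [norm_mul, norm_pow, Real.norm_eq_abs, Real.norm_eq_abs]
  have h1 : |t| ^ k ≤ r ^ k := pow_le_pow_left₀ (abs_nonneg t) ht k
  have h2 : |a k| * |t| ^ k ≤ C / (k.factorial : ℝ) * r ^ k :=
    mul_le_mul (h k) h1 (pow_nonneg (abs_nonneg t) k) ((abs_nonneg _).trans (h k))
  calc |a k| * |t| ^ k ≤ C / (k.factorial : ℝ) * r ^ k := h2
    _ = C * (r ^ k / (k.factorial : ℝ)) := by ring

theorem Small.summable {a : ℕ → ℝ} (h : Small a) (t : ℝ) : Summable (fun k => a k * t ^ k) := by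
  obtain ⟨C, -, hC⟩ := h
  exact Summable.of_norm_bounded ((Real.summable_pow_div_factorial |t|).mul_left C)
    (fun k => Small.norm_le hC le_rfl k)

/-- The coefficients of the derivative. -/
def shiftc (a : ℕ → ℝ) (k : ℕ) : ℝ := (k + 1) * a (k + 1)

theorem Small.shiftc {a : ℕ → ℝ} (h : Small a) : Small (shiftc a) := by
  obtain ⟨C, h0, hC⟩ := h
  refine ⟨C, h0, fun k => ?_⟩
  have h1 := hC (k + 1)
  have hk : (0 : ℝ) < (k : ℝ) + 1 := by positivity
  have hf : (0 : ℝ) < (k.factorial : ℝ) := by positivity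
  unfold Pool.Agent.FK.shiftc
  rw [abs_mul, abs_of_pos hk]
  rw [Nat.factorial_succ] at h1
  push_cast at h1
  rw [le_div_iff₀ (by positivity)] at h1 ⊢
  calc ((k : ℝ) + 1) * |a (k + 1)| * (k.factorial : ℝ)
      = |a (k + 1)| * (((k : ℝ) + 1) * (k.factorial : ℝ)) := by ring
    _ ≤ C := h1

theorem hasDerivAt_psum {a : ℕ → ℝ} (h : Small a) (t : ℝ) :
    HasDerivAt (psum a) (psum (shiftc a) t) t := by
  obtain ⟨C, h0, hC⟩ := h.shiftc
  have hs := h.shiftc
  set r : ℝ := |t| + 1 with hr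
  have hr0 : 0 < r := by positivity
  set g' : ℕ → ℝ → ℝ := fun k y => match k with
    | 0 => 0
    | k + 1 => shiftc a k * y ^ k with hg'
  set u : ℕ → ℝ := fun k => match k with
    | 0 => 0
    | k + 1 => C * (r ^ k / (k.factorial : ℝ)) with hu
  have hus : Summable u := by
    rw [← summable_nat_add_iff 1]
    exact (Real.summable_pow_div_factorial r).mul_left C
  have hd : ∀ (n : ℕ) (y : ℝ), y ∈ ball (0 : ℝ) r →
      HasDerivAt (fun y => a n * y ^ n) (g' n y) y := by
    intro n y _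
    rcases n with _ | n
    · simpa [hg'] using hasDerivAt_const y (a 0)
    · have := (hasDerivAt_pow (n + 1) y).const_mul (a (n + 1))
      convert! this using 1
      simp only [hg', shiftc, Nat.add_sub_cancel]
      push_cast
      ring
  have hb : ∀ (n : ℕ) (y : ℝ), y ∈ ball (0 : ℝ) r → ‖g' n y‖ ≤ u n := by
    intro n y hy
    rcases n with _ | n
    · simp [hg', hu]
    · have hy' : |y| ≤ r := by
        rw [mem_ball_zero_iff, Real.norm_eq_abs] at hy
        exact hy.le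
      exact Small.norm_le hC hy' n
  have hmem : t ∈ ball (0 : ℝ) r := by
    rw [mem_ball_zero_iff, Real.norm_eq_abs]
    linarith
  have hmain := hasDerivAt_tsum_of_isPreconnected hus isOpen_ball
    (convex_ball (0 : ℝ) r).isPreconnected hd hb hmem (h.summable t) hmem
  have heq : (∑' n, g' n t) = psum (shiftc a) t := by
    have hsum : Summable (fun n => g' n t) := by
      rw [← summable_nat_add_iff 1]
      exact hs.summable t
    rw [hsum.tsum_eq_zero_add]
    simp only [hg', zero_add]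
    rfl
  rw [← heq]
  exact hmain

theorem contDiff_psum (k : ℕ) : ∀ {a : ℕ → ℝ}, Small a → ContDiff ℝ k (psum a) := by
  induction k with
  | zero =>
    intro a h
    have : Differentiable ℝ (psum a) := fun t => (hasDerivAt_psum h t).differentiableAt
    exact contDiff_zero.2 this.continuous
  | succ k ih =>
    intro a h
    have hd : Differentiable ℝ (psum a) := fun t => (hasDerivAt_psum h t).differentiableAt
    have hderiv : deriv (psum a) = psum (shiftc a) := by
      funext t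
      exact (hasDerivAt_psum h t).deriv
    push_cast
    rw [contDiff_succ_iff_deriv]
    refine ⟨hd, ?_, ?_⟩
    · intro hcon
      exact absurd hcon (by simp)
    · rw [hderiv]
      exact ih h.shiftc

/-- Multiplication with the variable. -/
def consc (a : ℕ → ℝ) : ℕ → ℝ
  | 0 => 0
  | k + 1 => a k

theorem psum_consc {a : ℕ → ℝ} (h : Small (consc a)) (t : ℝ) :
    psum (consc a) t = t * psum a t := by
  unfold psum
  rw [(h.summable t).tsum_eq_zero_add]
  simp only [consc, zero_mul, zero_add]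
  rw [← tsum_mul_left]
  congr 1
  funext k
  ring

theorem psum_zero (a : ℕ → ℝ) : psum a 0 = a 0 := by
  unfold psum
  rw [tsum_eq_single 0]
  · simp
  · intro k hk
    simp [hk]

/-- coefficients of `g₀` -/
noncomputable def a0 (k : ℕ) : ℝ := (-1) ^ k / (4 ^ k * ((k.factorial : ℝ)) ^ 2)

/-- coefficients of `g₁` -/
noncomputable def a1 (k : ℕ) : ℝ :=
  (-1) ^ k / (2 * 4 ^ k * ((k.factorial : ℝ) * ((k + 1).factorial : ℝ)))

theorem g0_eq : g0 = psum a0 := by
  funext t
  unfold g0 psum a0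
  congr 1
  funext k
  ring

theorem g1_eq : g1 = psum a1 := by
  funext t
  unfold g1 psum a1
  congr 1
  funext k
  ring

theorem one_le_fact (k : ℕ) : (1 : ℝ) ≤ (k.factorial : ℝ) := by
  exact_mod_cast Nat.one_le_iff_ne_zero.2 (Nat.factorial_ne_zero k)

theorem one_le_four_pow (k : ℕ) : (1 : ℝ) ≤ 4 ^ k := one_le_pow₀ (by norm_num)

theorem small_a0 : Small a0 := by
  refine ⟨1, zero_le_one, fun k => ?_⟩
  unfold a0
  rw [abs_div, abs_pow, abs_neg, abs_one, one_pow, abs_of_pos (by positivity)]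
  have h1 := one_le_fact k
  have h2 := one_le_four_pow k
  apply div_le_div_of_nonneg_left zero_le_one (by positivity)
  calc (k.factorial : ℝ) = 1 * (k.factorial : ℝ) * 1 := by ring
    _ ≤ 4 ^ k * (k.factorial : ℝ) * (k.factorial : ℝ) := by gcongr
    _ = 4 ^ k * (k.factorial : ℝ) ^ 2 := by ring

theorem abs_a1_le (k : ℕ) : |a1 k| ≤ 1 / ((k + 1).factorial : ℝ) := by
  unfold a1
  rw [abs_div, abs_pow, abs_neg, abs_one, one_pow, abs_of_pos (by positivity)]
  have h1 := one_le_fact k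
  have h2 := one_le_four_pow k
  apply div_le_div_of_nonneg_left zero_le_one (by positivity)
  calc ((k + 1).factorial : ℝ) = 1 * 1 * (1 * ((k + 1).factorial : ℝ)) := by ring
    _ ≤ 2 * 4 ^ k * ((k.factorial : ℝ) * ((k + 1).factorial : ℝ)) := by
        gcongr
        norm_num

theorem small_a1 : Small a1 := by
  refine ⟨1, zero_le_one, fun k => (abs_a1_le k).trans ?_⟩
  apply div_le_div_of_nonneg_left zero_le_one (by positivity)
  exact_mod_cast Nat.factorial_le (Nat.le_succ k)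

theorem small_consc_a1 : Small (consc a1) := by
  refine ⟨1, zero_le_one, fun k => ?_⟩
  rcases k with _ | k
  · simp [consc]
  · exact abs_a1_le k

theorem contDiff_g0 (k : ℕ) : ContDiff ℝ k g0 := by
  rw [g0_eq]; exact contDiff_psum k small_a0

theorem contDiff_g1 (k : ℕ) : ContDiff ℝ k g1 := by
  rw [g1_eq]; exact contDiff_psum k small_a1

theorem g0_zero : g0 0 = 1 := by
  rw [g0_eq, psum_zero]; simp [a0]

theorem g1_zero : g1 0 = 1 / 2 := by
  rw [g1_eq, psum_zero]; simp [a1]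

/-- `2 g₀' = - g₁` -/
theorem hasDerivAt_g0 (t : ℝ) : HasDerivAt g0 (-(g1 t) / 2) t := by
  have h := hasDerivAt_psum small_a0 t
  rw [g0_eq]
  convert! h using 1
  rw [g1_eq]
  unfold psum
  rw [← tsum_neg, ← tsum_div_const]
  congr 1
  funext k
  unfold shiftc a0 a1
  have hk : ((k : ℝ) + 1) ≠ 0 := by positivity
  have hf : (k.factorial : ℝ) ≠ 0 := by positivity
  rw [Nat.factorial_succ]
  push_cast
  field_simp
  ring

/-- `2 (t g₁)' = g₀` -/
theorem hasDerivAt_g1 (t : ℝ) : HasDerivAt (fun s => s * g1 s) (g0 t / 2) t := by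
  have h := hasDerivAt_psum small_consc_a1 t
  have h1 : (fun s => s * g1 s) = psum (consc a1) := by
    funext s
    rw [psum_consc small_consc_a1, g1_eq]
  rw [h1]
  convert! h using 1
  rw [g0_eq]
  unfold psum
  rw [← tsum_div_const]
  congr 1
  funext k
  have hc : consc a1 (k + 1) = a1 k := rfl
  unfold shiftc
  rw [hc]
  unfold a0 a1
  have hk : ((k : ℝ) + 1) ≠ 0 := by positivity
  have hf : (k.factorial : ℝ) ≠ 0 := by positivity
  rw [Nat.factorial_succ]
  push_cast
  field_simp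

/-- The absolute values of the terms of `g₁`. -/
noncomputable def f1 (t : ℝ) (k : ℕ) : ℝ :=
  t ^ k / (2 * 4 ^ k * ((k.factorial : ℝ) * ((k + 1).factorial : ℝ)))

/-- The absolute values of the terms of `g₀`. -/
noncomputable def f0 (t : ℝ) (k : ℕ) : ℝ := t ^ k / (4 ^ k * ((k.factorial : ℝ)) ^ 2)

theorem antitone_f1 {t : ℝ} (h0 : 0 ≤ t) (h4 : t ≤ 4) : Antitone (f1 t) := by
  apply antitone_nat_of_succ_le
  intro k
  unfold f1
  rw [div_le_div_iff₀ (by positivity) (by positivity)]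
  have h1 := one_le_fact k
  have e1 : ((k + 1).factorial : ℝ) = (k + 1) * (k.factorial : ℝ) := by
    rw [Nat.factorial_succ]; push_cast; ring
  have e2 : ((k + 1 + 1).factorial : ℝ) = (k + 1 + 1) * ((k + 1).factorial : ℝ) := by
    rw [Nat.factorial_succ (k + 1)]; push_cast; ring
  have hk : (0 : ℝ) ≤ k := Nat.cast_nonneg k
  have hA : (0 : ℝ) ≤ t ^ k * (2 * 4 ^ k * ((k.factorial : ℝ) * ((k + 1).factorial : ℝ))) := by
    positivity
  calc t ^ (k + 1) * (2 * 4 ^ k * ((k.factorial : ℝ) * ((k + 1).factorial : ℝ)))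
      = t * (t ^ k * (2 * 4 ^ k * ((k.factorial : ℝ) * ((k + 1).factorial : ℝ)))) := by ring
    _ ≤ 4 * (t ^ k * (2 * 4 ^ k * ((k.factorial : ℝ) * ((k + 1).factorial : ℝ)))) := by
        gcongr
    _ = 4 * 1 * 1 * (t ^ k * (2 * 4 ^ k * ((k.factorial : ℝ) * ((k + 1).factorial : ℝ)))) := by
        ring
    _ ≤ 4 * (k + 1) * (k + 1 + 1) *
        (t ^ k * (2 * 4 ^ k * ((k.factorial : ℝ) * ((k + 1).factorial : ℝ)))) := by
        gcongr <;> linarith
    _ = t ^ k * (2 * 4 ^ (k + 1) *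
        (((k + 1) * (k.factorial : ℝ)) * ((k + 1 + 1) * ((k + 1).factorial : ℝ)))) := by ring
    _ = t ^ k * (2 * 4 ^ (k + 1) *
        (((k + 1).factorial : ℝ) * ((k + 1 + 1).factorial : ℝ))) := by
        rw [e2, ← e1]

theorem antitone_f0 {t : ℝ} (h0 : 0 ≤ t) (h4 : t ≤ 4) : Antitone (f0 t) := by
  apply antitone_nat_of_succ_le
  intro k
  unfold f0
  rw [div_le_div_iff₀ (by positivity) (by positivity)]
  have e1 : ((k + 1).factorial : ℝ) = (k + 1) * (k.factorial : ℝ) := by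
    rw [Nat.factorial_succ]; push_cast; ring
  have hk : (0 : ℝ) ≤ k := Nat.cast_nonneg k
  have hk2 : (1 : ℝ) ≤ (k + 1) ^ 2 := by nlinarith
  calc t ^ (k + 1) * (4 ^ k * (k.factorial : ℝ) ^ 2)
      = t * (t ^ k * (4 ^ k * (k.factorial : ℝ) ^ 2)) := by ring
    _ ≤ 4 * (t ^ k * (4 ^ k * (k.factorial : ℝ) ^ 2)) := by gcongr
    _ = 4 * 1 * (t ^ k * (4 ^ k * (k.factorial : ℝ) ^ 2)) := by ring
    _ ≤ 4 * (k + 1) ^ 2 * (t ^ k * (4 ^ k * (k.factorial : ℝ) ^ 2)) := by gcongr
    _ = t ^ k * (4 ^ (k + 1) * ((k + 1).factorial : ℝ) ^ 2) := by rw [e1]; ring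

theorem tendsto_f1 (t : ℝ) : Filter.Tendsto (fun n => ∑ i ∈ Finset.range n, (-1) ^ i * f1 t i)
    Filter.atTop (𝓝 (g1 t)) := by
  have h := (small_a1.summable t).hasSum.tendsto_sum_nat
  have h2 : ∑' k, a1 k * t ^ k = g1 t := by rw [g1_eq]; rfl
  rw [h2] at h
  refine h.congr fun n => Finset.sum_congr rfl fun k _ => ?_
  unfold a1 f1
  ring

theorem tendsto_f0 (t : ℝ) : Filter.Tendsto (fun n => ∑ i ∈ Finset.range n, (-1) ^ i * f0 t i)
    Filter.atTop (𝓝 (g0 t)) := by
  have h := (small_a0.summable t).hasSum.tendsto_sum_nat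
  have h2 : ∑' k, a0 k * t ^ k = g0 t := by rw [g0_eq]; rfl
  rw [h2] at h
  refine h.congr fun n => Finset.sum_congr rfl fun k _ => ?_
  unfold a0 f0
  ring

theorem g1_ge {t : ℝ} (h0 : 0 ≤ t) (h4 : t ≤ 4) : 1 / 2 - t / 16 ≤ g1 t := by
  have h := (antitone_f1 h0 h4).alternating_series_le_tendsto (tendsto_f1 t) 1
  have h2 : ∑ i ∈ Finset.range (2 * 1), (-1) ^ i * f1 t i = 1 / 2 - t / 16 := by
    simp [Finset.sum_range_succ, f1, Nat.factorial]
    ring
  rw [h2] at h
  exact h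

/-- bounds from the alternating series: `g₁ > 0` on `[0, 4]` and `J₀(2) < J₁(2)` -/
theorem g1_pos {t : ℝ} (h0 : 0 ≤ t) (h4 : t ≤ 4) : 0 < g1 t := by
  have := g1_ge h0 h4
  linarith

theorem g1_le {t : ℝ} (h0 : 0 ≤ t) (h4 : t ≤ 4) : g1 t ≤ 1 / 2 := by
  have h := (antitone_f1 h0 h4).tendsto_le_alternating_series (tendsto_f1 t) 0
  have h2 : ∑ i ∈ Finset.range (2 * 0 + 1), (-1) ^ i * f1 t i = 1 / 2 := by
    simp [f1]
  rw [h2] at h
  exact h

theorem g0_four_lt : g0 4 < 2 * g1 4 := by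
  have h := (antitone_f0 (by norm_num) le_rfl).tendsto_le_alternating_series (tendsto_f0 4) 1
  have h2 : ∑ i ∈ Finset.range (2 * 1 + 1), (-1) ^ i * f0 4 i = 1 / 4 := by
    simp [Finset.sum_range_succ, f0, Nat.factorial]
    norm_num
  rw [h2] at h
  have h3 := g1_ge (t := 4) (by norm_num) le_rfl
  linarith

end Pool.Agent.FK
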