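import Mathlib
import Pool.Agent.Helper99.FK.Bes1

/-! FK-17: the disc profile -/

set_option autoImplicit false

open Complex MeasureTheory Set Metric
open scoped ComplexConjugate Topology

namespace Pool.Agent.FK

theorem hasDerivAt_j0 (x : ℝ) : HasDerivAt j0 (-(j1 x)) x := by
  have h := (hasDerivAt_g0 (x ^ 2)).comp x (hasDerivAt_pow 2 x)
  refine (h.congr_deriv ?_)
  unfold j1
  push_cast
  ring

/-- `(x j₁)' = x j₀` -/
theorem hasDerivAt_xj1 (x : ℝ) : HasDerivAt (fun x => x * j1 x) (x * j0 x) x := by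
  have h := (hasDerivAt_g1 (x ^ 2)).comp x (hasDerivAt_pow 2 x)
  have h1 : ((fun s => s * g1 s) ∘ fun x : ℝ => x ^ 2) = fun x => x * j1 x := by
    funext y
    simp only [Function.comp, j1]
    ring
  rw [h1] at h
  refine h.congr_deriv ?_
  unfold j0
  push_cast
  ring

theorem hasDerivAt_j1 {x : ℝ} (hx : x ≠ 0) : HasDerivAt j1 (j0 x - j1 x / x) x := by
  have h := (hasDerivAt_xj1 x).div (hasDerivAt_id x) hx
  have h2 : (fun y : ℝ => y * j1 y) / id =ᶠ[𝓝 x] j1 := by
    filter_upwards [isOpen_ne.mem_nhds hx] with y hy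
    simp only [Pi.div_apply, id]
    field_simp
  have h3 := h.congr_of_eventuallyEq h2.symm
  refine h3.congr_deriv ?_
  simp only [id]
  field_simp

theorem continuous_j0 : Continuous j0 := by
  have : Differentiable ℝ j0 := fun x => (hasDerivAt_j0 x).differentiableAt
  exact this.continuous

theorem continuous_j1 : Continuous j1 := by
  unfold j1
  exact continuous_id.mul ((contDiff_g1 0).continuous.comp (continuous_pow 2))

theorem continuous_nn : Continuous nn := by
  unfold nn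
  exact (continuous_j0.pow 2).add (continuous_j1.pow 2)

theorem j0_zero : j0 0 = 1 := by
  unfold j0; norm_num [g0_zero]

theorem j1_zero : j1 0 = 0 := by
  unfold j1; simp

theorem j0_two_lt : j0 2 < j1 2 := by
  unfold j0 j1
  have := g0_four_lt
  norm_num
  exact this

theorem j1_pos_of {x : ℝ} (h0 : 0 < x) (h2 : x ≤ 2) : 0 < j1 x := by
  unfold j1
  exact mul_pos h0 (g1_pos (by positivity) (by nlinarith))

theorem j1_le_of {x : ℝ} (h0 : 0 ≤ x) (h2 : x ≤ 2) : j1 x ≤ x / 2 := by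
  unfold j1
  have := g1_le (t := x ^ 2) (by positivity) (by nlinarith)
  nlinarith

theorem hasDerivAt_nn {x : ℝ} (hx : x ≠ 0) : HasDerivAt nn (-(2 * j1 x ^ 2 / x)) x := by
  have h := ((hasDerivAt_j0 x).pow 2).add ((hasDerivAt_j1 hx).pow 2)
  refine h.congr_deriv ?_
  push_cast
  field_simp
  ring

/-- `x Z(x) = x² n(x) - 2 x j₀ j₁` -/
noncomputable def xZ (x : ℝ) : ℝ := x ^ 2 * nn x - 2 * (j0 x * (x * j1 x))

theorem hasDerivAt_xZ (x : ℝ) : HasDerivAt xZ (2 * x * j1 x ^ 2) x := by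
  -- write `x² n = (x j₀)² + (x j₁)²`
  have e : xZ = fun x => (x * j0 x) ^ 2 + (x * j1 x) ^ 2 - 2 * (j0 x * (x * j1 x)) := by
    funext y
    unfold xZ nn
    ring
  have h0 : HasDerivAt (fun x => x * j0 x) (1 * j0 x + x * (-(j1 x))) x :=
    (hasDerivAt_id x).mul (hasDerivAt_j0 x)
  have h1 := hasDerivAt_xj1 x
  have h := ((h0.pow 2).add (h1.pow 2)).sub (((hasDerivAt_j0 x).mul h1).const_mul 2)
  rw [e]
  refine h.congr_deriv ?_
  push_cast
  ring

theorem xZ_nonneg {x : ℝ} (h0 : 0 ≤ x) : 0 ≤ xZ x := by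
  have hmono : MonotoneOn xZ (Ici 0) := by
    apply monotoneOn_of_deriv_nonneg (convex_Ici 0)
    · exact fun y _ => (hasDerivAt_xZ y).continuousAt.continuousWithinAt
    · exact fun y _ => (hasDerivAt_xZ y).differentiableAt.differentiableWithinAt
    · intro y hy
      rw [interior_Ici] at hy
      rw [(hasDerivAt_xZ y).deriv]
      have : (0 : ℝ) < y := hy
      positivity
  have h1 := hmono (mem_Ici.2 le_rfl) (mem_Ici.2 h0) h0
  have h2 : xZ 0 = 0 := by unfold xZ; simp
  rw [h2] at h1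
  exact h1

theorem xZ_le {x : ℝ} (h0 : 0 ≤ x) (h2 : x ≤ 2) : xZ x ≤ x ^ 4 / 8 := by
  have hd : ∀ y : ℝ, HasDerivAt (fun y => y ^ 4 / 8 - xZ y) (4 * y ^ 3 / 8 - 2 * y * j1 y ^ 2) y := by
    intro y
    have h := ((hasDerivAt_pow 4 y).div_const 8).sub (hasDerivAt_xZ y)
    refine h.congr_deriv ?_
    push_cast
    norm_num
  have hmono : MonotoneOn (fun y => y ^ 4 / 8 - xZ y) (Icc 0 2) := by
    apply monotoneOn_of_deriv_nonneg (convex_Icc 0 2)
    · exact fun y _ => (hd y).continuousAt.continuousWithinAt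
    · exact fun y _ => (hd y).differentiableAt.differentiableWithinAt
    · intro y hy
      rw [interior_Icc] at hy
      rw [(hd y).deriv]
      have hy0 : (0 : ℝ) < y := hy.1
      have h1 := j1_pos_of hy0 hy.2.le
      have h2 := j1_le_of hy0.le hy.2.le
      have h3 : j1 y ^ 2 ≤ (y / 2) ^ 2 := by
        apply pow_le_pow_left₀ h1.le h2
      nlinarith
  have h1 := hmono ⟨le_rfl, by norm_num⟩ ⟨h0, h2⟩ h0
  have h3 : xZ 0 = 0 := by unfold xZ; simp
  simp only [h3] at h1
  norm_num at h1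
  linarith

theorem exists_profile : ∃ X : ℝ, Profile X := by
  -- the first root
  set A : Set ℝ := {x | x ∈ Icc (0 : ℝ) 2 ∧ j0 x ≤ j1 x} with hA
  have hAne : A.Nonempty := ⟨2, ⟨by norm_num, le_rfl⟩, j0_two_lt.le⟩
  have hAc : IsClosed A := by
    have h1 : IsClosed {x : ℝ | j0 x ≤ j1 x} := isClosed_le continuous_j0 continuous_j1
    exact isClosed_Icc.inter h1
  have hAb : BddBelow A := ⟨0, fun x hx => hx.1.1⟩
  set X := sInf A with hX
  have hXA : X ∈ A := hAc.csInf_mem hAne hAb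
  have hX0 : 0 ≤ X := hXA.1.1
  have hX2 : X ≤ 2 := hXA.1.2
  have hlt : ∀ x ∈ Ico (0 : ℝ) X, j1 x < j0 x := by
    intro x hx
    by_contra hcon
    push Not at hcon
    have : x ∈ A := ⟨⟨hx.1, hx.2.le.trans hX2⟩, hcon⟩
    have := csInf_le hAb this
    exact absurd hx.2 (not_lt.2 this)
  have hpos : 0 < X := by
    rcases hX0.lt_or_eq with h | h
    · exact h
    · have := hXA.2
      rw [← h, j0_zero, j1_zero] at this
      exact absurd this (by norm_num)
  have hroot : j0 X = j1 X := by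
    apply le_antisymm hXA.2
    have hcl : X ∈ closure (Ico (0 : ℝ) X) := by
      rw [closure_Ico hpos.ne]
      exact ⟨hX0, le_rfl⟩
    have hsub : Ico (0 : ℝ) X ⊆ {x : ℝ | j1 x ≤ j0 x} := fun x hx => (hlt x hx).le
    have hcc : IsClosed {x : ℝ | j1 x ≤ j0 x} := isClosed_le continuous_j1 continuous_j0
    exact (closure_minimal hsub hcc) hcl
  have hj1 : ∀ x ∈ Ioc (0 : ℝ) X, 0 < j1 x := fun x hx => j1_pos_of hx.1 (hx.2.trans hX2)
  have hj1' : ∀ x ∈ Icc (0 : ℝ) X, 0 ≤ j1 x := by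
    intro x hx
    rcases hx.1.lt_or_eq with h | h
    · exact (hj1 x ⟨h, hx.2⟩).le
    · rw [← h, j1_zero]
  have hj0 : ∀ x ∈ Icc (0 : ℝ) X, 0 < j0 x := by
    intro x hx
    rcases hx.2.lt_or_eq with h | h
    · exact (hj1' x hx).trans_lt (hlt x ⟨hx.1, h⟩)
    · rw [h, hroot]
      exact hj1 X ⟨hpos, le_rfl⟩
  have hnn : ∀ x ∈ Icc (0 : ℝ) X, 0 < nn x := by
    intro x hx
    have := hj0 x hx
    unfold nn
    positivity
  have hsnpos : ∀ x ∈ Ioc (0 : ℝ) X, 0 < sn x := by
    intro x hx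
    have h1 := hj0 x ⟨hx.1.le, hx.2⟩
    have h2 := hj1 x hx
    have h3 := hnn x ⟨hx.1.le, hx.2⟩
    unfold sn
    positivity
  refine ⟨X, ⟨hpos, hroot, hj0, hj1, hlt, ?_, ?_, ?_, ?_, ?_, ?_, ?_, ?_, ?_, ?_, ?_⟩⟩
  · unfold cs nn
    rw [j0_zero, j1_zero]
    norm_num
  · unfold cs
    rw [hroot]
    simp
  · intro x hx
    have h1 := hj0 x ⟨hx.1.le, hx.2.le⟩
    have h2 := hj1 x ⟨hx.1, hx.2.le⟩
    have h3 := hlt x ⟨hx.1.le, hx.2⟩
    have h4 := hnn x ⟨hx.1.le, hx.2.le⟩
    unfold cs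
    constructor
    · apply div_pos _ h4
      nlinarith
    · rw [div_lt_one h4]
      unfold nn
      nlinarith [mul_pos h2 h2]
  · intro x hx
    unfold cs
    apply ContinuousWithinAt.div _ _ (hnn x hx).ne'
    · exact ((continuous_j0.pow 2).sub (continuous_j1.pow 2)).continuousWithinAt
    · exact continuous_nn.continuousWithinAt
  · intro x hx
    exact hsnpos x ⟨hx.1, hx.2.le⟩
  · intro x hx
    unfold sn
    apply ContinuousWithinAt.div _ _ (hnn x hx).ne'
    · exact ((continuous_const.mul continuous_j0).mul continuous_j1).continuousWithinAt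
    · exact continuous_nn.continuousWithinAt
  · intro x hx
    have h := (hnn x hx).ne'
    unfold cs sn
    field_simp
    unfold nn
    ring
  · intro x hx
    have hx0 : x ≠ 0 := hx.1.ne'
    have h := (hnn x ⟨hx.1.le, hx.2.le⟩).ne'
    have hd := (((hasDerivAt_j0 x).pow 2).sub ((hasDerivAt_j1 hx0).pow 2)).div
      (hasDerivAt_nn hx0) h
    have e : cs = ((j0 ^ 2 - j1 ^ 2) / nn) := by
      funext y
      rfl
    rw [e]
    refine hd.congr_deriv ?_
    unfold TT sn
    simp only [Pi.sub_apply, Pi.pow_apply]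
    have hnn2 : nn x = j0 x ^ 2 + j1 x ^ 2 := rfl
    rw [hnn2] at h ⊢
    push_cast
    field_simp
    ring
  · intro x hx
    have h1 := hnn x ⟨hx.1.le, hx.2⟩
    have h2 := xZ_nonneg hx.1.le
    have h3 : TT x - 1 = xZ x / (x ^ 2 * nn x) := by
      have hx0 : x ≠ 0 := hx.1.ne'
      unfold TT sn xZ
      field_simp
      ring
    have h4 : 0 ≤ xZ x / (x ^ 2 * nn x) := by
      apply div_nonneg h2
      have := hx.1
      positivity
    linarith
  · intro x hx
    have h1 := hsnpos x hx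
    have h2 : 0 < sn x / x := div_pos h1 hx.1
    unfold TT
    linarith
  · -- a positive lower bound of `nn`
    obtain ⟨x0, hx0, hmin⟩ := isCompact_Icc.exists_isMinOn (nonempty_Icc.2 hX0)
      continuous_nn.continuousOn
    set m := nn x0 with hm
    have hm0 : 0 < m := hnn x0 hx0
    refine ⟨1 / (8 * m), by positivity, ?_⟩
    intro x hx
    have hxI : x ∈ Icc (0 : ℝ) X := ⟨hx.1.le, hx.2.le⟩
    have h1 := hnn x hxI
    have h2 : m ≤ nn x := hmin hxI
    have h3 : TT x - 1 = xZ x / (x ^ 2 * nn x) := by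
      have hx0 : x ≠ 0 := hx.1.ne'
      unfold TT sn xZ
      field_simp
      ring
    have h4 := xZ_le hx.1.le (hx.2.le.trans hX2)
    have hx1 := hx.1
    rw [h3, div_le_iff₀ (by positivity)]
    calc xZ x ≤ x ^ 4 / 8 := h4
      _ = 1 / (8 * m) * x ^ 2 * (x ^ 2 * m) := by field_simp
      _ ≤ 1 / (8 * m) * x ^ 2 * (x ^ 2 * nn x) := by gcongr

end Pool.Agent.FK
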