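import Mathlib

/-! FK-1: one-dimensional Brunn-Minkowski inequality -/

set_option autoImplicit false

open Complex MeasureTheory Set Metric
open scoped ComplexConjugate Topology

namespace Pool.Agent.FK

theorem bm1 {A B C : Set ℝ} (hA : MeasurableSet A) (hB : MeasurableSet B)
    (hC : MeasurableSet C) (hAb : Bornology.IsBounded A) (hBb : Bornology.IsBounded B)
    (hAn : A.Nonempty) (hBn : B.Nonempty) (h : ∀ x ∈ A, ∀ y ∈ B, x + y ∈ C) :
    volume A + volume B ≤ volume C := by
  have hAa : BddAbove A := hAb.bddAbove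
  have hBa : BddBelow B := hBb.bddBelow
  refine ENNReal.le_of_forall_pos_le_add fun ε hε _ => ?_
  obtain ⟨x, hx, hx'⟩ := exists_lt_of_lt_csSup hAn
    (show sSup A - ε / 2 < sSup A by
      have : (0 : ℝ) < ε := hε
      linarith)
  obtain ⟨y, hy, hy'⟩ := exists_lt_of_csInf_lt hBn
    (show sInf B < sInf B + ε / 2 by
      have : (0 : ℝ) < ε := hε
      linarith)
  have hA' : MeasurableSet ((fun t : ℝ => t + (-y)) ⁻¹' A) :=
    (measurable_id.add_const (-y)) hA
  have hB' : MeasurableSet ((fun t : ℝ => t + (-x)) ⁻¹' B) :=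
    (measurable_id.add_const (-x)) hB
  have h1 : volume ((fun t : ℝ => t + (-y)) ⁻¹' A) = volume A :=
    measure_preimage_add_right volume (-y) A
  have h2 : volume ((fun t : ℝ => t + (-x)) ⁻¹' B) = volume B :=
    measure_preimage_add_right volume (-x) B
  have h3 : (fun t : ℝ => t + (-y)) ⁻¹' A ∪ (fun t : ℝ => t + (-x)) ⁻¹' B ⊆ C := by
    rintro t (ht | ht)
    · have := h _ ht _ hy
      simpa using this
    · have := h _ hx _ ht
      simpa using this
  have h4 : (fun t : ℝ => t + (-y)) ⁻¹' A ∩ (fun t : ℝ => t + (-x)) ⁻¹' B ⊆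
      Icc (x + sInf B) (sSup A + y) := by
    rintro t ⟨ht, ht'⟩
    have e1 : t + (-y) ≤ sSup A := le_csSup hAa ht
    have e2 : sInf B ≤ t + (-x) := csInf_le hBa ht'
    exact ⟨by linarith, by linarith⟩
  have h5 : volume ((fun t : ℝ => t + (-y)) ⁻¹' A ∩ (fun t : ℝ => t + (-x)) ⁻¹' B) ≤ ε := by
    refine (measure_mono h4).trans ?_
    rw [Real.volume_Icc]
    refine (ENNReal.ofReal_le_ofReal (show sSup A + y - (x + sInf B) ≤ ε by linarith)).trans ?_
    rw [ENNReal.ofReal_coe_nnreal]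
  calc volume A + volume B = volume ((fun t : ℝ => t + (-y)) ⁻¹' A) +
        volume ((fun t : ℝ => t + (-x)) ⁻¹' B) := by rw [h1, h2]
    _ = volume ((fun t : ℝ => t + (-y)) ⁻¹' A ∪ (fun t : ℝ => t + (-x)) ⁻¹' B) +
        volume ((fun t : ℝ => t + (-y)) ⁻¹' A ∩ (fun t : ℝ => t + (-x)) ⁻¹' B) :=
        (measure_union_add_inter _ hB').symm
    _ ≤ volume C + ε := add_le_add (measure_mono h3) h5

end Pool.Agent.FK
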