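import Mathlib
import Pool.Agent.Helper99.FK.BM1

/-! FK-2: planar Brunn-Minkowski inequality for open sets -/

set_option autoImplicit false

open Complex MeasureTheory Set Metric
open scoped ComplexConjugate Topology

namespace Pool.Agent.FK

open scoped Pointwise

namespace BM2Aux

/-- vertical section -/
def sec (U : Set (ℝ × ℝ)) (x : ℝ) : Set ℝ := Prod.mk x ⁻¹' U

/-- length of the vertical section -/
noncomputable def len (U : Set (ℝ × ℝ)) (x : ℝ) : ℝ := (volume (sec U x)).toReal

theorem bounds {U : Set (ℝ × ℝ)} (hb : Bornology.IsBounded U) :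
    ∃ R : ℝ, 0 < R ∧ (∀ x, sec U x ⊆ Icc (-R) R) ∧ ∀ x, (sec U x).Nonempty → x ∈ Icc (-R) R := by
  obtain ⟨R, hR0, hR⟩ := hb.exists_pos_norm_lt
  refine ⟨R, hR0, fun x y hy => ?_, fun x hx => ?_⟩
  · have h1 := (norm_snd_le (x, y)).trans (hR (x, y) hy).le
    exact abs_le.mp h1
  · obtain ⟨y, hy⟩ := hx
    have h1 := (norm_fst_le (x, y)).trans (hR (x, y) hy).le
    exact abs_le.mp h1

theorem vol_ne_top {U : Set (ℝ × ℝ)} (hb : Bornology.IsBounded U) (x : ℝ) :
    volume (sec U x) ≠ ⊤ := by
  obtain ⟨R, _, hR, _⟩ := bounds hb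
  exact measure_ne_top_of_subset (hR x) (by rw [Real.volume_Icc]; exact ENNReal.ofReal_ne_top)

theorem len_nonneg (U : Set (ℝ × ℝ)) (x : ℝ) : 0 ≤ len U x := ENNReal.toReal_nonneg

theorem measurable_len {U : Set (ℝ × ℝ)} (hU : IsOpen U) : Measurable (len U) :=
  (measurable_measure_prodMk_left hU.measurableSet).ennreal_toReal

theorem lintegral_len {U : Set (ℝ × ℝ)} (hU : IsOpen U) (hb : Bornology.IsBounded U) :
    ∫⁻ x, ENNReal.ofReal (len U x) = volume U := by
  rw [Measure.volume_eq_prod, Measure.prod_apply hU.measurableSet]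
  refine lintegral_congr fun x => ?_
  exact ENNReal.ofReal_toReal (vol_ne_top hb x)

theorem len_le {U : Set (ℝ × ℝ)} (hb : Bornology.IsBounded U) : BddAbove (range (len U)) := by
  obtain ⟨R, hR0, hR, _⟩ := bounds hb
  refine ⟨2 * R, ?_⟩
  rintro _ ⟨x, rfl⟩
  unfold len
  have h1 : volume (sec U x) ≤ ENNReal.ofReal (2 * R) := by
    refine (measure_mono (hR x)).trans ?_
    rw [Real.volume_Icc]
    exact ENNReal.ofReal_le_ofReal (by linarith)
  exact ENNReal.toReal_le_of_le_ofReal (by positivity) h1

theorem sec_open {U : Set (ℝ × ℝ)} (hU : IsOpen U) (x : ℝ) : IsOpen (sec U x) :=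
  hU.preimage (Continuous.prodMk_right x)

theorem len_pos {U : Set (ℝ × ℝ)} (hU : IsOpen U) (hb : Bornology.IsBounded U) {x y : ℝ}
    (h : (x, y) ∈ U) : 0 < len U x := by
  have h1 : 0 < volume (sec U x) := (sec_open hU x).measure_pos volume ⟨y, h⟩
  exact ENNReal.toReal_pos h1.ne' (vol_ne_top hb x)

theorem sec_nonempty {U : Set (ℝ × ℝ)} {x : ℝ} (h : 0 < len U x) : (sec U x).Nonempty := by
  rcases (sec U x).eq_empty_or_nonempty with h1 | h1
  · unfold len at h
    rw [h1, measure_empty] at h
    exact absurd h (by simp)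
  · exact h1

theorem sum_le {A B : Set (ℝ × ℝ)} (hA : IsOpen A) (hB : IsOpen B)
    (hAb : Bornology.IsBounded A) (hBb : Bornology.IsBounded B) {x y : ℝ}
    (hx : 0 < len A x) (hy : 0 < len B y) : len A x + len B y ≤ len (A + B) (x + y) := by
  have hC : IsOpen (A + B) := hA.add_right
  have hCb : Bornology.IsBounded (A + B) := hAb.add hBb
  obtain ⟨R, _, hR, _⟩ := bounds hAb
  obtain ⟨R', _, hR', _⟩ := bounds hBb
  have h1 := bm1 (A := sec A x) (B := sec B y) (C := sec (A + B) (x + y))
    (sec_open hA x).measurableSet (sec_open hB y).measurableSet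
    (sec_open hC (x + y)).measurableSet
    ((isBounded_Icc _ _).subset (hR x)) ((isBounded_Icc _ _).subset (hR' y))
    (sec_nonempty hx) (sec_nonempty hy)
    (fun u hu v hv => ⟨(x, u), hu, (y, v), hv, rfl⟩)
  unfold len
  rw [← ENNReal.toReal_add (vol_ne_top hAb x) (vol_ne_top hBb y)]
  exact ENNReal.toReal_mono (vol_ne_top hCb (x + y)) h1

theorem level_bdd {U : Set (ℝ × ℝ)} (hb : Bornology.IsBounded U) {s : ℝ} (hs : 0 ≤ s) :
    Bornology.IsBounded {x | s < len U x} := by
  obtain ⟨R, _, _, hR⟩ := bounds hb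
  exact (isBounded_Icc _ _).subset fun x hx => hR x (sec_nonempty (lt_of_le_of_lt hs hx))

theorem layer {U : Set (ℝ × ℝ)} (hU : IsOpen U) (hb : Bornology.IsBounded U) {α : ℝ}
    (hα : 0 < α) :
    ENNReal.ofReal ((volume U).toReal / α) =
      ∫⁻ t in Ioi (0 : ℝ), volume {x | t < len U x / α} := by
  rw [← lintegral_eq_lintegral_meas_lt volume
    (Filter.Eventually.of_forall fun x => div_nonneg (len_nonneg U x) hα.le)
    ((measurable_len hU).div_const α).aemeasurable]
  have h1 : ∀ x, ENNReal.ofReal (len U x / α) = ENNReal.ofReal (len U x) * ENNReal.ofReal (α⁻¹) := by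
    intro x
    rw [div_eq_mul_inv, ENNReal.ofReal_mul (len_nonneg U x)]
  simp_rw [h1]
  rw [lintegral_mul_const _ (measurable_len hU).ennreal_ofReal, lintegral_len hU hb,
    div_eq_mul_inv, ENNReal.ofReal_mul ENNReal.toReal_nonneg,
    ENNReal.ofReal_toReal hb.measure_lt_top.ne]

end BM2Aux

open BM2Aux

theorem bm2 {A B : Set (ℝ × ℝ)} (hA : IsOpen A) (hB : IsOpen B)
    (hAb : Bornology.IsBounded A) (hBb : Bornology.IsBounded B)
    (hAn : A.Nonempty) (hBn : B.Nonempty) :
    (Real.sqrt (volume A).toReal + Real.sqrt (volume B).toReal) ^ 2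
      ≤ (volume (A + B)).toReal := by
  have hC : IsOpen (A + B) := hA.add_right
  have hCb : Bornology.IsBounded (A + B) := hAb.add hBb
  let α : ℝ := ⨆ x, len A x
  let β : ℝ := ⨆ x, len B x
  have hα : 0 < α := by
    obtain ⟨⟨x, y⟩, h⟩ := hAn
    exact (len_pos hA hAb h).trans_le (le_ciSup (len_le hAb) x)
  have hβ : 0 < β := by
    obtain ⟨⟨x, y⟩, h⟩ := hBn
    exact (len_pos hB hBb h).trans_le (le_ciSup (len_le hBb) x)
  have key : ∀ t ∈ Ioi (0 : ℝ), volume {x | t < len A x / α} + volume {x | t < len B x / β} ≤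
      volume {x | t < len (A + B) x / (α + β)} := by
    intro t ht
    rw [mem_Ioi] at ht
    have eA : {x | t < len A x / α} = {x | t * α < len A x} := by
      ext x
      exact lt_div_iff₀ hα
    have eB : {x | t < len B x / β} = {x | t * β < len B x} := by
      ext x
      exact lt_div_iff₀ hβ
    have eC : {x | t < len (A + B) x / (α + β)} = {x | t * (α + β) < len (A + B) x} := by
      ext x
      exact lt_div_iff₀ (add_pos hα hβ)
    rw [eA, eB, eC]
    rcases lt_or_ge t 1 with ht1 | ht1
    · have hA1 : ({x | t * α < len A x}).Nonempty := by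
        have h1 : t * α < ⨆ x, len A x := by
          change t * α < α
          nlinarith
        obtain ⟨x, hx⟩ := exists_lt_of_lt_ciSup h1
        exact ⟨x, hx⟩
      have hB1 : ({x | t * β < len B x}).Nonempty := by
        have h1 : t * β < ⨆ x, len B x := by
          change t * β < β
          nlinarith
        obtain ⟨x, hx⟩ := exists_lt_of_lt_ciSup h1
        exact ⟨x, hx⟩
      refine bm1 (measurableSet_lt measurable_const (measurable_len hA))
        (measurableSet_lt measurable_const (measurable_len hB))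
        (measurableSet_lt measurable_const (measurable_len hC))
        (level_bdd hAb (by positivity)) (level_bdd hBb (by positivity)) hA1 hB1 ?_
      intro x hx y hy
      have hx' : t * α < len A x := hx
      have hy' : t * β < len B y := hy
      have h1 := sum_le hA hB hAb hBb (lt_trans (by positivity) hx') (lt_trans (by positivity) hy')
      change t * (α + β) < len (A + B) (x + y)
      linarith
    · have hA1 : {x | t * α < len A x} = ∅ := by
        ext x
        simp only [mem_ofPred_eq, mem_empty_iff_false, iff_false, not_lt]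
        have h1 : len A x ≤ α := le_ciSup (len_le hAb) x
        nlinarith
      have hB1 : {x | t * β < len B x} = ∅ := by
        ext x
        simp only [mem_ofPred_eq, mem_empty_iff_false, iff_false, not_lt]
        have h1 : len B x ≤ β := le_ciSup (len_le hBb) x
        nlinarith
      rw [hA1, hB1, measure_empty, add_zero]
      exact zero_le
  have h1 : ENNReal.ofReal ((volume A).toReal / α) + ENNReal.ofReal ((volume B).toReal / β) ≤
      ENNReal.ofReal ((volume (A + B)).toReal / (α + β)) := by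
    rw [layer hA hAb hα, layer hB hBb hβ, layer hC hCb (by positivity)]
    exact (le_lintegral_add _ _).trans (setLIntegral_mono' measurableSet_Ioi key)
  set a := (volume A).toReal with ha
  set b := (volume B).toReal with hb
  set c := (volume (A + B)).toReal with hc
  have ha0 : 0 ≤ a := ENNReal.toReal_nonneg
  have hb0 : 0 ≤ b := ENNReal.toReal_nonneg
  have hc0 : 0 ≤ c := ENNReal.toReal_nonneg
  rw [← ENNReal.ofReal_add (by positivity) (by positivity),
    ENNReal.ofReal_le_ofReal_iff (by positivity)] at h1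
  have h2 : (a / α + b / β) * (α + β) ≤ c := by
    rwa [le_div_iff₀ (by positivity)] at h1
  refine le_trans ?_ h2
  have h3 : (a / α + b / β) * (α + β) = a + b + (a * (β / α) + b * (α / β)) := by
    field_simp
    ring
  rw [h3, add_sq, Real.sq_sqrt ha0, Real.sq_sqrt hb0]
  have h4 : 2 * √a * √b ≤ a * (β / α) + b * (α / β) := by
    set r := β / α with hr
    have hr0 : 0 < r := by positivity
    have h5 : α / β = r⁻¹ := by
      rw [hr, inv_div]
    rw [h5]
    have h6 := sq_nonneg (√a * √r - √b * √(r⁻¹))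
    have h7 : √r * √(r⁻¹) = 1 := by
      rw [← Real.sqrt_mul hr0.le, mul_inv_cancel₀ hr0.ne', Real.sqrt_one]
    have h8 : (√a * √r - √b * √(r⁻¹)) ^ 2 = a * r + b * r⁻¹ - 2 * √a * √b * (√r * √(r⁻¹)) := by
      have e1 := Real.sq_sqrt ha0
      have e2 := Real.sq_sqrt hb0
      have e3 := Real.sq_sqrt hr0.le
      have e4 := Real.sq_sqrt (inv_pos.mpr hr0).le
      calc (√a * √r - √b * √(r⁻¹)) ^ 2
          = √a ^ 2 * √r ^ 2 + √b ^ 2 * √(r⁻¹) ^ 2 - 2 * √a * √b * (√r * √(r⁻¹)) := by ring
        _ = _ := by rw [e1, e2, e3, e4]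
    rw [h8, h7] at h6
    linarith
  linarith

end Pool.Agent.FK
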