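import Mathlib
import Pool.Agent.Helper99.FK.Defs
import Pool.Agent.Helper99.FK.BM2

/-! FK-3: functional isoperimetric inequality in the plane -/

set_option autoImplicit false

open Complex MeasureTheory Set Metric
open scoped ComplexConjugate Topology

namespace Pool.Agent.FK

open scoped Pointwise

theorem iso1_fderiv_le (g : ℂ → ℝ) (z : ℂ) : ‖fderiv ℝ g z‖ ≤ Real.sqrt (gsq g z) := by
  apply ContinuousLinearMap.opNorm_le_bound _ (Real.sqrt_nonneg _)
  intro v
  have h1 : fderiv ℝ g z v = v.re * fderiv ℝ g z 1 + v.im * fderiv ℝ g z I := by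
    conv_lhs => rw [← Complex.re_add_im v]
    rw [map_add]
    have e1 : ((v.re : ℝ) : ℂ) = (v.re : ℝ) • (1 : ℂ) := by simp
    have e2 : ((v.im : ℝ) : ℂ) * I = (v.im : ℝ) • I := by simp
    rw [e1, e2, map_smul, map_smul, smul_eq_mul, smul_eq_mul]
  rw [h1, Real.norm_eq_abs]
  apply abs_le_of_sq_le_sq _ (by positivity)
  rw [mul_pow, Real.sq_sqrt (by unfold gsq; positivity), ← Complex.normSq_eq_norm_sq,
    Complex.normSq_apply]
  unfold gsq
  nlinarith [sq_nonneg (v.re * fderiv ℝ g z I - v.im * fderiv ℝ g z 1)]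

theorem iso1_bm {S T : Set ℂ} (hS : IsOpen S) (hSb : Bornology.IsBounded S) {d : ℝ}
    (hd : 0 < d) (hT : ∀ a ∈ S, ∀ y : ℂ, ‖y‖ < d → a + y ∈ T) :
    volume S + ENNReal.ofReal (2 * Real.sqrt Real.pi * d * Real.sqrt (volume S).toReal) ≤
      volume T := by
  rcases S.eq_empty_or_nonempty with rfl | hne
  · simp
  let e := Complex.equivRealProdCLM
  have hv : ∀ U : Set ℂ, volume (e '' U) = volume U := by
    intro U
    have h1 := (Complex.volume_preserving_equiv_real_prod.symm _).measure_preimage_equiv U
    rw [← h1]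
    congr 1
    ext p
    constructor
    · rintro ⟨u, hu, rfl⟩
      have h2 : Complex.measurableEquivRealProd.symm (e u) = u :=
        Complex.measurableEquivRealProd.symm_apply_apply u
      show Complex.measurableEquivRealProd.symm (e u) ∈ U
      rw [h2]
      exact hu
    · intro hp
      exact ⟨_, hp, by
        show Complex.equivRealProdCLM (Complex.measurableEquivRealProd.symm p) = p
        rfl⟩
  have hopen : ∀ U : Set ℂ, IsOpen U → IsOpen (e '' U) := fun U hU => e.isOpenMap U hU
  have hbd : ∀ U : Set ℂ, Bornology.IsBounded U → Bornology.IsBounded (e '' U) := fun U hU =>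
    (e : ℂ →L[ℝ] ℝ × ℝ).lipschitz.isBounded_image hU
  have h1 := bm2 (hopen S hS) (hopen (ball 0 d) isOpen_ball) (hbd S hSb) (hbd _ isBounded_ball)
    (hne.image _) ((nonempty_ball.2 hd).image _)
  have h2 : e '' S + e '' ball 0 d = e '' (S + ball 0 d) := (image_add e).symm
  rw [h2, hv, hv, hv] at h1
  have hST : S + ball 0 d ⊆ T := by
    rintro _ ⟨a, ha, y, hy, rfl⟩
    exact hT a ha y (by simpa using hy)
  have hSfin : volume S ≠ ⊤ := hSb.measure_lt_top.ne
  have hsum : Bornology.IsBounded (S + ball (0 : ℂ) d) := hSb.add isBounded_ball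
  have hsfin : volume (S + ball (0 : ℂ) d) ≠ ⊤ := hsum.measure_lt_top.ne
  have hball : (volume (ball (0 : ℂ) d)).toReal = d ^ 2 * Real.pi := by
    rw [Complex.volume_ball]
    rw [ENNReal.toReal_mul, ENNReal.toReal_pow, ENNReal.toReal_ofReal hd.le]
    rfl
  have hsq : Real.sqrt (d ^ 2 * Real.pi) = d * Real.sqrt Real.pi := by
    rw [Real.sqrt_mul (by positivity), Real.sqrt_sq hd.le]
  rw [hball, hsq] at h1
  have hs : Real.sqrt (volume S).toReal ^ 2 = (volume S).toReal := Real.sq_sqrt ENNReal.toReal_nonneg
  have h3 : (volume S).toReal + 2 * Real.sqrt Real.pi * d * Real.sqrt (volume S).toReal ≤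
      (volume (S + ball (0 : ℂ) d)).toReal := by
    nlinarith [h1, hs, sq_nonneg (d * Real.sqrt Real.pi)]
  calc volume S + ENNReal.ofReal (2 * Real.sqrt Real.pi * d * Real.sqrt (volume S).toReal)
      = ENNReal.ofReal ((volume S).toReal +
        2 * Real.sqrt Real.pi * d * Real.sqrt (volume S).toReal) := by
        rw [ENNReal.ofReal_add ENNReal.toReal_nonneg (by positivity), ENNReal.ofReal_toReal hSfin]
    _ ≤ ENNReal.ofReal (volume (S + ball (0 : ℂ) d)).toReal := ENNReal.ofReal_le_ofReal h3
    _ = volume (S + ball (0 : ℂ) d) := ENNReal.ofReal_toReal hsfin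
    _ ≤ volume T := measure_mono hST

theorem iso1 {g : ℂ → ℝ} (hg : ContDiff ℝ 1 g) (hc : HasCompactSupport g)
    (h0 : ∀ z, 0 ≤ g z) :
    2 * Real.sqrt Real.pi * ∫ t in Ioi (0 : ℝ), Real.sqrt (volume {z | t < g z}).toReal
      ≤ ∫ z, Real.sqrt (gsq g z) := by
  have hgc : Continuous g := hg.continuous
  have hfd : Continuous (fderiv ℝ g) := hg.continuous_fderiv (by norm_num)
  have hfc : HasCompactSupport (fderiv ℝ g) := hc.fderiv ℝ
  have hF : Continuous (fun z => Real.sqrt (gsq g z)) := by
    unfold gsq
    fun_prop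
  have hFc : HasCompactSupport (fun z => Real.sqrt (gsq g z)) := by
    apply hfc.mono'
    intro z hz
    apply subset_tsupport
    intro h
    apply hz
    simp only [gsq]
    rw [h]
    simp
  have hFu : UniformContinuous (fun z => Real.sqrt (gsq g z)) :=
    hFc.uniformContinuous_of_continuous hF
  have hFi : Integrable (fun z => Real.sqrt (gsq g z)) := hF.integrable_of_hasCompactSupport hFc
  have hgi : Integrable g := hgc.integrable_of_hasCompactSupport hc
  -- a large ball
  obtain ⟨R, hR⟩ : ∃ R : ℝ, ∀ z, g z ≠ 0 → ‖z‖ < R := by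
    obtain ⟨R, hR⟩ := hc.isCompact.isBounded.subset_ball 0
    exact ⟨R, fun z hz => by simpa using hR (subset_tsupport _ hz)⟩
  set B : Set ℂ := ball 0 (R + 1) with hB
  have hBm : MeasurableSet B := isOpen_ball.measurableSet
  have hBfin : volume B ≠ ⊤ := isBounded_ball.measure_lt_top.ne
  -- it is enough to have the inequality with an error
  have key : ∀ ε > 0, 2 * Real.sqrt Real.pi *
      ∫ t in Ioi (0 : ℝ), Real.sqrt (volume {z | t < g z}).toReal ≤
        (∫ z, Real.sqrt (gsq g z)) + ε * (volume B).toReal := by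
    intro ε hε
    obtain ⟨δ, hδ, hδu⟩ := Metric.uniformContinuous_iff.1 hFu ε hε
    set d : ℝ := min δ 1 with hd
    have hd0 : 0 < d := lt_min hδ one_pos
    have hd1 : d ≤ 1 := min_le_right _ _
    let G : ℂ → ℝ := fun z => g z + d * (Real.sqrt (gsq g z) + B.indicator (fun _ => ε) z)
    have hind0 : ∀ z, 0 ≤ B.indicator (fun _ => ε) z := fun z =>
      indicator_nonneg (fun _ _ => hε.le) z
    have hG0 : ∀ z, 0 ≤ G z := fun z => by
      have := h0 z
      have := hind0 z
      have := Real.sqrt_nonneg (gsq g z)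
      positivity
    have hindi : Integrable (B.indicator (fun _ : ℂ => ε)) :=
      (integrable_indicator_iff hBm).2 (integrableOn_const hBfin)
    have hGi : Integrable G := hgi.add ((hFi.add hindi).const_mul d)
    -- the mean value inequality
    have hmv : ∀ a y : ℂ, ‖y‖ < d → g a ≤ G (a + y) := by
      intro a y hy
      by_cases ha : g a = 0
      · rw [ha]; exact hG0 _
      have haR := hR a ha
      have hB' : a + y ∈ B := by
        rw [hB, mem_ball_zero_iff]
        calc ‖a + y‖ ≤ ‖a‖ + ‖y‖ := norm_add_le _ _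
          _ < R + 1 := by linarith
      have hbd : ∀ x ∈ ball (a + y) d, ‖fderiv ℝ g x‖ ≤ Real.sqrt (gsq g (a + y)) + ε := by
        intro x hx
        have h1 := hδu (a := x) (b := a + y) (lt_of_lt_of_le hx (min_le_left _ _))
        rw [Real.dist_eq] at h1
        have h2 := (abs_lt.1 h1).2
        linarith [iso1_fderiv_le g x]
      have h3 := (convex_ball (a + y) d).norm_image_sub_le_of_norm_fderiv_le
        (f := g) (fun x _ => (hg.differentiable (by norm_num)).differentiableAt) hbd
        (x := a + y) (y := a) (mem_ball_self hd0) (by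
          rw [mem_ball, dist_eq_norm]
          simpa using hy)
      have h4 : ‖a - (a + y)‖ = ‖y‖ := by
        rw [show a - (a + y) = -y by ring, norm_neg]
      rw [h4, Real.norm_eq_abs] at h3
      have h5 := (abs_le.1 h3).2
      have h6 : (Real.sqrt (gsq g (a + y)) + ε) * ‖y‖ ≤ (Real.sqrt (gsq g (a + y)) + ε) * d :=
        mul_le_mul_of_nonneg_left hy.le (by positivity)
      simp only [G]
      rw [indicator_of_mem hB']
      linarith
    -- level sets
    have hlev : ∀ t ∈ Ioi (0 : ℝ), volume {z | t < g z} +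
        ENNReal.ofReal (2 * Real.sqrt Real.pi * d * Real.sqrt (volume {z | t < g z}).toReal) ≤
          volume {z | t < G z} := by
      intro t ht
      have hsb : Bornology.IsBounded {z | t < g z} := by
        apply (isBounded_ball (x := (0 : ℂ)) (r := R)).subset
        intro z hz
        have h1 : t < g z := hz
        have h2 : 0 < t := ht
        simpa using hR z (lt_trans h2 h1).ne'
      exact iso1_bm (isOpen_lt continuous_const hgc) hsb hd0
        (fun a ha y hy => lt_of_lt_of_le ha (hmv a y hy))
    have hmeas : Measurable (fun t : ℝ => volume {z | t < g z}) := by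
      apply Antitone.measurable
      intro s t hst
      exact measure_mono (fun z hz => lt_of_le_of_lt hst hz)
    have hlc1 := lintegral_eq_lintegral_meas_lt volume (Filter.Eventually.of_forall h0)
      hgi.aestronglyMeasurable.aemeasurable
    have hlc2 := lintegral_eq_lintegral_meas_lt volume (Filter.Eventually.of_forall hG0)
      hGi.aestronglyMeasurable.aemeasurable
    have h1 : (∫⁻ z, ENNReal.ofReal (g z)) + ∫⁻ t in Ioi (0 : ℝ),
        ENNReal.ofReal (2 * Real.sqrt Real.pi * d * Real.sqrt (volume {z | t < g z}).toReal) ≤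
          ∫⁻ z, ENNReal.ofReal (G z) := by
      rw [hlc1, hlc2, ← lintegral_add_left hmeas]
      exact setLIntegral_mono_ae' measurableSet_Ioi (Filter.Eventually.of_forall hlev)
    rw [← ofReal_integral_eq_lintegral_ofReal hgi (Filter.Eventually.of_forall h0),
      ← ofReal_integral_eq_lintegral_ofReal hGi (Filter.Eventually.of_forall hG0)] at h1
    have hGint : ∫ z, G z = (∫ z, g z) + d * ((∫ z, Real.sqrt (gsq g z)) + ε * (volume B).toReal) := by
      have e1 : ∫ z, G z = (∫ z, g z) +
          ∫ z, d * (Real.sqrt (gsq g z) + B.indicator (fun _ => ε) z) :=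
        integral_add hgi ((hFi.add hindi).const_mul d)
      have e2 : ∫ z, (Real.sqrt (gsq g z) + B.indicator (fun _ => ε) z) =
          (∫ z, Real.sqrt (gsq g z)) + ∫ z, B.indicator (fun _ => ε) z :=
        integral_add hFi hindi
      rw [e1, integral_const_mul, e2, integral_indicator hBm]
      simp [Measure.real, mul_comm]
    rw [hGint] at h1
    have hI0 : 0 ≤ ∫ z, g z := integral_nonneg h0
    have hJ0 : 0 ≤ ∫ z, Real.sqrt (gsq g z) := integral_nonneg (fun z => Real.sqrt_nonneg _)
    rw [ENNReal.ofReal_add hI0 (by positivity)] at h1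
    have h2 := (ENNReal.add_le_add_iff_left ENNReal.ofReal_ne_top).1 h1
    have h3 : 2 * Real.sqrt Real.pi * d *
        ∫ t in Ioi (0 : ℝ), Real.sqrt (volume {z | t < g z}).toReal ≤
          d * ((∫ z, Real.sqrt (gsq g z)) + ε * (volume B).toReal) := by
      rw [← integral_const_mul, integral_eq_lintegral_of_nonneg_ae
        (Filter.Eventually.of_forall (fun t => by positivity))
        ((hmeas.ennreal_toReal.sqrt.const_mul _).aestronglyMeasurable)]
      exact ENNReal.toReal_le_of_le_ofReal (by positivity) h2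
    have h4 : d * (2 * Real.sqrt Real.pi *
        ∫ t in Ioi (0 : ℝ), Real.sqrt (volume {z | t < g z}).toReal) ≤
          d * ((∫ z, Real.sqrt (gsq g z)) + ε * (volume B).toReal) := by
      calc _ = _ := by ring
        _ ≤ _ := h3
    exact le_of_mul_le_mul_left h4 hd0
  apply le_of_forall_pos_le_add
  intro η hη
  have hv : 0 ≤ (volume B).toReal := ENNReal.toReal_nonneg
  have h1 := key (η / ((volume B).toReal + 1)) (by positivity)
  have h2 : η / ((volume B).toReal + 1) * (volume B).toReal ≤ η := by
    rw [div_mul_eq_mul_div, div_le_iff₀ (by positivity)]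
    nlinarith
  linarith

end Pool.Agent.FK
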