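import Mathlib
import Pool.Agent.Helper99.FK.Bes1

/-! FK-18: the eigenfunction of the disc -/

set_option autoImplicit false

open Complex MeasureTheory Set Metric
open scoped ComplexConjugate Topology

namespace Pool.Agent.FK

theorem fderiv_fst_of {u : ℝ × ℝ → ℂ} {x : ℝ × ℝ} {d : ℂ} (hu : DifferentiableAt ℝ u x)
    (h : HasDerivAt (fun s : ℝ => u (s, x.2)) d x.1) : fderiv ℝ u x (1, 0) = d := by
  have h1 : HasDerivAt (fun s : ℝ => (s, x.2)) ((1 : ℝ), (0 : ℝ)) x.1 :=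
    (hasDerivAt_id x.1).prodMk (hasDerivAt_const x.1 x.2)
  have h2 : HasFDerivAt u (fderiv ℝ u x) ((fun s : ℝ => (s, x.2)) x.1) := hu.hasFDerivAt
  exact (h2.comp_hasDerivAt x.1 h1).unique h

theorem fderiv_snd_of {u : ℝ × ℝ → ℂ} {x : ℝ × ℝ} {d : ℂ} (hu : DifferentiableAt ℝ u x)
    (h : HasDerivAt (fun s : ℝ => u (x.1, s)) d x.2) : fderiv ℝ u x (0, 1) = d := by
  have h1 : HasDerivAt (fun s : ℝ => (x.1, s)) ((0 : ℝ), (1 : ℝ)) x.2 :=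
    (hasDerivAt_const x.2 x.1).prodMk (hasDerivAt_id x.2)
  have h2 : HasFDerivAt u (fderiv ℝ u x) ((fun s : ℝ => (x.1, s)) x.2) := hu.hasFDerivAt
  exact (h2.comp_hasDerivAt x.2 h1).unique h

/-- first component of the eigenfunction -/
noncomputable def ve1 (k : ℝ) (x : ℝ × ℝ) : ℂ := ((g0 (k ^ 2 * (x.1 ^ 2 + x.2 ^ 2)) : ℝ) : ℂ)

/-- second component of the eigenfunction -/
noncomputable def ve2 (k : ℝ) (x : ℝ × ℝ) : ℂ :=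
  Complex.I * k * (((x.1 : ℝ) : ℂ) + Complex.I * ((x.2 : ℝ) : ℂ)) *
    ((g1 (k ^ 2 * (x.1 ^ 2 + x.2 ^ 2)) : ℝ) : ℂ)

theorem contDiff_ve1 (k : ℝ) (m : ℕ) : ContDiff ℝ m (ve1 k) := by
  unfold ve1
  have h1 : ContDiff ℝ m (fun x : ℝ × ℝ => k ^ 2 * (x.1 ^ 2 + x.2 ^ 2)) := by fun_prop
  exact Complex.ofRealCLM.contDiff.comp ((contDiff_g0 m).comp h1)

theorem contDiff_ve2 (k : ℝ) (m : ℕ) : ContDiff ℝ m (ve2 k) := by
  unfold ve2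
  have h1 : ContDiff ℝ m (fun x : ℝ × ℝ => k ^ 2 * (x.1 ^ 2 + x.2 ^ 2)) := by fun_prop
  have h2 : ContDiff ℝ m (fun x : ℝ × ℝ => ((g1 (k ^ 2 * (x.1 ^ 2 + x.2 ^ 2)) : ℝ) : ℂ)) :=
    Complex.ofRealCLM.contDiff.comp ((contDiff_g1 m).comp h1)
  have h3 : ContDiff ℝ m (fun x : ℝ × ℝ => ((x.1 : ℝ) : ℂ)) :=
    Complex.ofRealCLM.contDiff.comp contDiff_fst
  have h4 : ContDiff ℝ m (fun x : ℝ × ℝ => ((x.2 : ℝ) : ℂ)) :=
    Complex.ofRealCLM.contDiff.comp contDiff_snd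
  exact (contDiff_const.mul (h3.add (contDiff_const.mul h4))).mul h2

theorem deriv_g1_rel (t : ℝ) : g1 t + t * deriv g1 t = g0 t / 2 := by
  have h1 : HasDerivAt g1 (deriv g1 t) t :=
    ((contDiff_g1 1).differentiable (by norm_num)).differentiableAt.hasDerivAt
  have h2 : HasDerivAt (fun s => s * g1 s) (1 * g1 t + t * deriv g1 t) t := (hasDerivAt_id t).mul h1
  have h3 := h2.unique (hasDerivAt_g1 t)
  linarith

theorem hasDerivAt_tt (k c s : ℝ) :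
    HasDerivAt (fun s : ℝ => k ^ 2 * (s ^ 2 + c)) (2 * k ^ 2 * s) s := by
  have h := ((hasDerivAt_pow 2 s).add_const c).const_mul (k ^ 2)
  refine h.congr_deriv ?_
  push_cast
  ring

theorem disc_eq1 (k : ℝ) (x : ℝ × ℝ) :
    -Complex.I * fderiv ℝ (ve2 k) x (1, 0) - fderiv ℝ (ve2 k) x (0, 1) = (k : ℂ) * ve1 k x := by
  have hd : DifferentiableAt ℝ (ve2 k) x :=
    ((contDiff_ve2 k 1).differentiable (by norm_num)).differentiableAt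
  set t := k ^ 2 * (x.1 ^ 2 + x.2 ^ 2) with ht
  have hg : HasDerivAt g1 (deriv g1 t) t :=
    ((contDiff_g1 1).differentiable (by norm_num)).differentiableAt.hasDerivAt
  have e1 : HasDerivAt (fun s : ℝ => ve2 k (s, x.2))
      (Complex.I * k * 1 * ((g1 t : ℝ) : ℂ) + Complex.I * k * (((x.1 : ℝ) : ℂ) +
        Complex.I * ((x.2 : ℝ) : ℂ)) * ((deriv g1 t * (2 * k ^ 2 * x.1) : ℝ) : ℂ)) x.1 := by
    have h1 : HasDerivAt (fun s : ℝ => g1 (k ^ 2 * (s ^ 2 + x.2 ^ 2)))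
        (deriv g1 t * (2 * k ^ 2 * x.1)) x.1 := by
      have hg' : HasDerivAt g1 (deriv g1 t) ((fun s : ℝ => k ^ 2 * (s ^ 2 + x.2 ^ 2)) x.1) := hg
      exact hg'.comp x.1 (hasDerivAt_tt k (x.2 ^ 2) x.1)
    have h2 : HasDerivAt (fun s : ℝ => Complex.I * k * (((s : ℝ) : ℂ) +
        Complex.I * ((x.2 : ℝ) : ℂ))) (Complex.I * k * 1) x.1 :=
      ((Complex.ofRealCLM.hasDerivAt (x := x.1)).add_const _).const_mul _
    exact h2.mul h1.ofReal_comp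
  have e2 : HasDerivAt (fun s : ℝ => ve2 k (x.1, s))
      (Complex.I * k * (Complex.I * 1) * ((g1 t : ℝ) : ℂ) + Complex.I * k * (((x.1 : ℝ) : ℂ) +
        Complex.I * ((x.2 : ℝ) : ℂ)) * ((deriv g1 t * (2 * k ^ 2 * x.2) : ℝ) : ℂ)) x.2 := by
    have h0 := hasDerivAt_tt k (x.1 ^ 2) x.2
    have h0' : HasDerivAt (fun s : ℝ => k ^ 2 * (x.1 ^ 2 + s ^ 2)) (2 * k ^ 2 * x.2) x.2 := by
      have : (fun s : ℝ => k ^ 2 * (x.1 ^ 2 + s ^ 2)) = fun s : ℝ => k ^ 2 * (s ^ 2 + x.1 ^ 2) := by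
        funext s; ring
      rw [this]; exact h0
    have h1 : HasDerivAt (fun s : ℝ => g1 (k ^ 2 * (x.1 ^ 2 + s ^ 2)))
        (deriv g1 t * (2 * k ^ 2 * x.2)) x.2 := by
      have hg' : HasDerivAt g1 (deriv g1 t) ((fun s : ℝ => k ^ 2 * (x.1 ^ 2 + s ^ 2)) x.2) := hg
      exact hg'.comp x.2 h0'
    have h2 : HasDerivAt (fun s : ℝ => Complex.I * k * (((x.1 : ℝ) : ℂ) +
        Complex.I * ((s : ℝ) : ℂ))) (Complex.I * k * (Complex.I * 1)) x.2 :=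
      (((Complex.ofRealCLM.hasDerivAt (x := x.2)).const_mul Complex.I).const_add _).const_mul _
    exact h2.mul h1.ofReal_comp
  rw [fderiv_fst_of hd e1, fderiv_snd_of hd e2]
  have h3 := deriv_g1_rel t
  have h4 : ((g0 t : ℝ) : ℂ) = 2 * ((g1 t : ℝ) : ℂ) + 2 * ((t : ℝ) : ℂ) * ((deriv g1 t : ℝ) : ℂ) := by
    have : g0 t = 2 * g1 t + 2 * t * deriv g1 t := by linarith
    rw [this]; push_cast; ring
  unfold ve1
  rw [← ht, h4]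
  have h5 : ((t : ℝ) : ℂ) = (k : ℂ) ^ 2 * ((x.1 : ℂ) ^ 2 + (x.2 : ℂ) ^ 2) := by
    rw [ht]; push_cast; ring
  rw [h5]
  generalize deriv g1 t = D
  generalize g1 t = G
  push_cast
  have hI : Complex.I ^ 2 = -1 := Complex.I_sq
  linear_combination (-(2 * (k : ℂ) * (G : ℂ)) -
    2 * (k : ℂ) ^ 3 * (D : ℂ) * ((x.1 : ℂ) ^ 2 + (x.2 : ℂ) ^ 2 + Complex.I * x.1 * x.2)) * hI

theorem disc_eq2 (k : ℝ) (x : ℝ × ℝ) :
    -Complex.I * fderiv ℝ (ve1 k) x (1, 0) + fderiv ℝ (ve1 k) x (0, 1) = (k : ℂ) * ve2 k x := by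
  have hd : DifferentiableAt ℝ (ve1 k) x :=
    ((contDiff_ve1 k 1).differentiable (by norm_num)).differentiableAt
  set t := k ^ 2 * (x.1 ^ 2 + x.2 ^ 2) with ht
  have hg : HasDerivAt g0 (-(g1 t) / 2) t := hasDerivAt_g0 t
  have e1 : HasDerivAt (fun s : ℝ => ve1 k (s, x.2))
      (((-(g1 t) / 2 * (2 * k ^ 2 * x.1) : ℝ)) : ℂ) x.1 := by
    have h1 : HasDerivAt (fun s : ℝ => g0 (k ^ 2 * (s ^ 2 + x.2 ^ 2)))
        (-(g1 t) / 2 * (2 * k ^ 2 * x.1)) x.1 := by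
      have hg' : HasDerivAt g0 (-(g1 t) / 2) ((fun s : ℝ => k ^ 2 * (s ^ 2 + x.2 ^ 2)) x.1) := hg
      exact hg'.comp x.1 (hasDerivAt_tt k (x.2 ^ 2) x.1)
    exact h1.ofReal_comp
  have e2 : HasDerivAt (fun s : ℝ => ve1 k (x.1, s))
      (((-(g1 t) / 2 * (2 * k ^ 2 * x.2) : ℝ)) : ℂ) x.2 := by
    have h0 := hasDerivAt_tt k (x.1 ^ 2) x.2
    have h0' : HasDerivAt (fun s : ℝ => k ^ 2 * (x.1 ^ 2 + s ^ 2)) (2 * k ^ 2 * x.2) x.2 := by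
      have : (fun s : ℝ => k ^ 2 * (x.1 ^ 2 + s ^ 2)) = fun s : ℝ => k ^ 2 * (s ^ 2 + x.1 ^ 2) := by
        funext s; ring
      rw [this]; exact h0
    have h1 : HasDerivAt (fun s : ℝ => g0 (k ^ 2 * (x.1 ^ 2 + s ^ 2)))
        (-(g1 t) / 2 * (2 * k ^ 2 * x.2)) x.2 := by
      have hg' : HasDerivAt g0 (-(g1 t) / 2) ((fun s : ℝ => k ^ 2 * (x.1 ^ 2 + s ^ 2)) x.2) := hg
      exact hg'.comp x.2 h0'
    exact h1.ofReal_comp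
  rw [fderiv_fst_of hd e1, fderiv_snd_of hd e2]
  unfold ve2
  rw [← ht]
  generalize g1 t = G
  push_cast
  have hI : Complex.I ^ 2 = -1 := Complex.I_sq
  linear_combination (-((k : ℂ) ^ 2 * (G : ℂ) * (x.2 : ℂ))) * hI

theorem disc_eig {X : ℝ} (hX : Profile X) {r : ℝ} (hr : 0 < r) :
    ∃ v₁ v₂ : ℝ × ℝ → ℂ,
      (∀ k : ℕ, ContDiff ℝ k v₁) ∧ (∀ k : ℕ, ContDiff ℝ k v₂) ∧
      (∃ x : ℝ × ℝ, x.1 ^ 2 + x.2 ^ 2 < r ^ 2 ∧ (v₁ x ≠ 0 ∨ v₂ x ≠ 0)) ∧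
      (∀ x : ℝ × ℝ, x.1 ^ 2 + x.2 ^ 2 < r ^ 2 →
        -Complex.I * fderiv ℝ v₂ x (1, 0) - fderiv ℝ v₂ x (0, 1) = ((X / r : ℝ) : ℂ) * v₁ x ∧
        -Complex.I * fderiv ℝ v₁ x (1, 0) + fderiv ℝ v₁ x (0, 1) = ((X / r : ℝ) : ℂ) * v₂ x) ∧
      (∀ x : ℝ × ℝ, x.1 ^ 2 + x.2 ^ 2 = r ^ 2 →
        Complex.I * (((x.1 / r : ℝ) : ℂ) + Complex.I * ((x.2 / r : ℝ) : ℂ)) * v₁ x = v₂ x) := by
  refine ⟨ve1 (X / r), ve2 (X / r), contDiff_ve1 _, contDiff_ve2 _, ⟨(0, 0), ?_, Or.inl ?_⟩,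
    fun x _ => ⟨disc_eq1 _ x, disc_eq2 _ x⟩, fun x hx => ?_⟩
  · have h1 : 0 < r ^ 2 := by positivity
    simpa using h1
  · unfold ve1
    simp [g0_zero]
  · unfold ve1 ve2
    have h1 : (X / r) ^ 2 * (x.1 ^ 2 + x.2 ^ 2) = X ^ 2 := by
      rw [hx]; field_simp
    rw [h1]
    have h2 : g0 (X ^ 2) = X * g1 (X ^ 2) := hX.root
    rw [h2]
    push_cast
    field_simp

end Pool.Agent.FK
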