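import Mathlib
import Pool.Agent.Helper99.FK.Defs

/-! FK-4: calculus with Wirtinger derivatives -/

set_option autoImplicit false

open Complex MeasureTheory Set Metric
open scoped ComplexConjugate Topology

namespace Pool.Agent.FK

variable {f g : ℂ → ℂ} {h k : ℂ → ℝ} {z : ℂ}

/-- every real derivative is given by the two Wirtinger derivatives -/
theorem fderiv_eq (f : ℂ → ℂ) (z v : ℂ) :
    fderiv ℝ f z v = dz f z * v + dzb f z * conj v := by
  have h1 : fderiv ℝ f z v = v.re * fderiv ℝ f z 1 + v.im * fderiv ℝ f z I := by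
    have h2 : v = (v.re : ℝ) • (1 : ℂ) + (v.im : ℝ) • I := by
      rw [real_smul, real_smul, mul_one]
      exact (re_add_im v).symm
    conv_lhs => rw [h2]
    rw [map_add, map_smul, map_smul, real_smul, real_smul]
  rw [h1]
  unfold dz dzb
  have h3 : (v.re : ℂ) = (v + conj v) / 2 := by
    rw [add_conj]; push_cast; ring
  have h4 : (v.im : ℂ) = (v - conj v) / (2 * I) := by
    rw [sub_conj]
    field_simp
    push_cast
    ring
  rw [h3, h4]
  have hI : I ≠ 0 := I_ne_zero
  field_simp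
  ring_nf
  simp only [I_sq]
  ring

theorem dz_mul (hf : DifferentiableAt ℝ f z) (hg : DifferentiableAt ℝ g z) :
    dz (fun w => f w * g w) z = dz f z * g z + f z * dz g z := by
  unfold dz
  rw [fderiv_fun_mul hf hg]
  simp only [add_apply, smul_apply, smul_eq_mul]
  ring

theorem dzb_mul (hf : DifferentiableAt ℝ f z) (hg : DifferentiableAt ℝ g z) :
    dzb (fun w => f w * g w) z = dzb f z * g z + f z * dzb g z := by
  unfold dzb
  rw [fderiv_fun_mul hf hg]
  simp only [add_apply, smul_apply, smul_eq_mul]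
  ring

theorem dz_add (hf : DifferentiableAt ℝ f z) (hg : DifferentiableAt ℝ g z) :
    dz (fun w => f w + g w) z = dz f z + dz g z := by
  unfold dz
  rw [fderiv_fun_add hf hg]
  simp only [add_apply]
  ring

theorem dzb_add (hf : DifferentiableAt ℝ f z) (hg : DifferentiableAt ℝ g z) :
    dzb (fun w => f w + g w) z = dzb f z + dzb g z := by
  unfold dzb
  rw [fderiv_fun_add hf hg]
  simp only [add_apply]
  ring

theorem dz_sub (hf : DifferentiableAt ℝ f z) (hg : DifferentiableAt ℝ g z) :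
    dz (fun w => f w - g w) z = dz f z - dz g z := by
  unfold dz
  rw [fderiv_fun_sub hf hg]
  simp only [sub_apply]
  ring

theorem dzb_sub (hf : DifferentiableAt ℝ f z) (hg : DifferentiableAt ℝ g z) :
    dzb (fun w => f w - g w) z = dzb f z - dzb g z := by
  unfold dzb
  rw [fderiv_fun_sub hf hg]
  simp only [sub_apply]
  ring

theorem dz_const (c : ℂ) : dz (fun _ => c) z = 0 := by
  unfold dz
  simp

theorem dzb_const (c : ℂ) : dzb (fun _ => c) z = 0 := by
  unfold dzb
  simp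

/-- derivative of the conjugate function, without differentiability assumption -/
theorem fderiv_conj (f : ℂ → ℂ) (z v : ℂ) :
    fderiv ℝ (fun w => conj (f w)) z v = conj (fderiv ℝ f z v) := by
  have h1 := conjCLE.comp_fderiv (f := f) (x := z)
  have h2 : (conjCLE : ℂ → ℂ) ∘ f = fun w => conj (f w) := by
    funext w
    simp
  rw [h2] at h1
  rw [h1]
  simp

theorem dz_conj (f : ℂ → ℂ) (z : ℂ) : dz (fun w => conj (f w)) z = conj (dzb f z) := by
  unfold dz dzb
  rw [fderiv_conj, fderiv_conj, map_div₀, map_add, map_mul, conj_I]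
  simp only [map_ofNat]
  ring

theorem dzb_conj (f : ℂ → ℂ) (z : ℂ) : dzb (fun w => conj (f w)) z = conj (dz f z) := by
  unfold dz dzb
  rw [fderiv_conj, fderiv_conj, map_div₀, map_sub, map_mul, conj_I]
  simp only [map_ofNat]
  ring

theorem dz_inv (hf : DifferentiableAt ℝ f z) (h0 : f z ≠ 0) :
    dz (fun w => (f w)⁻¹) z = - dz f z / f z ^ 2 := by
  have h1 : DifferentiableAt ℝ (fun w => (f w)⁻¹) z := hf.inv h0
  have h2 : dz (fun w => f w * (f w)⁻¹) z = dz f z * (f z)⁻¹ + f z * dz (fun w => (f w)⁻¹) z :=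
    dz_mul hf h1
  have h3 : (fun w => f w * (f w)⁻¹) =ᶠ[𝓝 z] fun _ => 1 := by
    have h4 : ∀ᶠ w in 𝓝 z, f w ≠ 0 := hf.continuousAt.eventually_ne h0
    filter_upwards [h4] with w hw
    exact mul_inv_cancel₀ hw
  have h5 : dz (fun w => f w * (f w)⁻¹) z = 0 := by
    unfold dz
    rw [h3.fderiv_eq]
    simp
  rw [h5] at h2
  have h6 : f z * dz (fun w => (f w)⁻¹) z = - (dz f z * (f z)⁻¹) := by
    linear_combination -h2
  field_simp at h6 ⊢
  linear_combination h6

/-- derivative of a real function viewed as a complex function -/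
theorem fderiv_ofReal' (h : ℂ → ℝ) (z v : ℂ) (hh : DifferentiableAt ℝ h z) :
    fderiv ℝ (fun w => (h w : ℂ)) z v = (fderiv ℝ h z v : ℝ) := by
  have h1 : HasFDerivAt (fun w => (h w : ℂ)) (ofRealCLM.comp (fderiv ℝ h z)) z :=
    ofRealCLM.hasFDerivAt.comp z hh.hasFDerivAt
  rw [h1.fderiv]
  rfl

/-- for a real function the two Wirtinger derivatives are conjugate -/
theorem dz_ofReal (h : ℂ → ℝ) (z : ℂ) :
    dz (fun w => (h w : ℂ)) z = conj (dzb (fun w => (h w : ℂ)) z) := by
  rw [← dz_conj]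
  congr 1
  funext w
  exact (conj_ofReal _).symm

theorem dzb_ofReal (h : ℂ → ℝ) (z : ℂ) (hh : DifferentiableAt ℝ h z) :
    dzb (fun w => (h w : ℂ)) z = ((fderiv ℝ h z 1 : ℝ) + I * (fderiv ℝ h z I : ℝ)) / 2 := by
  unfold dzb
  rw [fderiv_ofReal' h z 1 hh, fderiv_ofReal' h z I hh]

theorem gsq_eq (h : ℂ → ℝ) (z : ℂ) (hh : DifferentiableAt ℝ h z) :
    gsq h z = 4 * ‖dzb (fun w => (h w : ℂ)) z‖ ^ 2 := by
  rw [dzb_ofReal h z hh, norm_div, div_pow, ← normSq_eq_norm_sq, normSq_apply]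
  unfold gsq
  simp only [add_re, ofReal_re, mul_re, I_re, I_im, ofReal_im, add_im, mul_im]
  norm_num
  ring

theorem gsq_eq_norm (h : ℂ → ℝ) (z : ℂ) : Real.sqrt (gsq h z) = ‖fderiv ℝ h z‖ := by
  set L := fderiv ℝ h z with hL
  unfold gsq
  rw [← hL]
  set a := L 1 with ha
  set b := L I with hb
  have hLv : ∀ v : ℂ, L v = v.re * a + v.im * b := by
    intro v
    have h2 : v = (v.re : ℝ) • (1 : ℂ) + (v.im : ℝ) • I := by
      rw [real_smul, real_smul, mul_one]
      exact (re_add_im v).symm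
    conv_lhs => rw [h2]
    rw [map_add, map_smul, map_smul, smul_eq_mul, smul_eq_mul]
  apply le_antisymm
  · by_cases h0 : a ^ 2 + b ^ 2 = 0
    · rw [h0, Real.sqrt_zero]
      exact norm_nonneg _
    · have hpos : 0 < a ^ 2 + b ^ 2 := lt_of_le_of_ne (by positivity) (Ne.symm h0)
      have h1 := L.le_opNorm (⟨a, b⟩ : ℂ)
      rw [hLv] at h1
      have h2 : ‖(⟨a, b⟩ : ℂ)‖ = Real.sqrt (a ^ 2 + b ^ 2) := by
        rw [Complex.norm_def, normSq_apply]
        congr 1
        ring
      rw [h2, Real.norm_eq_abs] at h1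
      have h3 : |a * a + b * b| = Real.sqrt (a ^ 2 + b ^ 2) * Real.sqrt (a ^ 2 + b ^ 2) := by
        rw [Real.mul_self_sqrt hpos.le, abs_of_nonneg (by nlinarith)]
        ring
      rw [h3] at h1
      exact le_of_mul_le_mul_right h1 (Real.sqrt_pos.mpr hpos)
  · apply ContinuousLinearMap.opNorm_le_bound _ (Real.sqrt_nonneg _)
    intro v
    rw [hLv, Real.norm_eq_abs, Complex.norm_def, normSq_apply, ← Real.sqrt_mul (by positivity)]
    apply Real.abs_le_sqrt
    nlinarith [sq_nonneg (v.re * b - v.im * a)]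

/-- composition of a real function with a function of one real variable -/
theorem dz_comp {r : ℝ → ℝ} (hr : DifferentiableAt ℝ r (h z)) (hh : DifferentiableAt ℝ h z) :
    dz (fun w => (r (h w) : ℂ)) z = deriv r (h z) * dz (fun w => (h w : ℂ)) z := by
  have h1 : HasFDerivAt (fun w => r (h w)) (deriv r (h z) • fderiv ℝ h z) z :=
    hr.hasDerivAt.comp_hasFDerivAt z hh.hasFDerivAt
  have h2 : DifferentiableAt ℝ (fun w => r (h w)) z := h1.differentiableAt
  unfold dz
  rw [fderiv_ofReal' _ z 1 h2, fderiv_ofReal' _ z I h2, fderiv_ofReal' h z 1 hh,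
    fderiv_ofReal' h z I hh, h1.fderiv]
  simp only [smul_apply, smul_eq_mul]
  push_cast
  ring

theorem wirt_diff_fderiv {F : Type*} [NormedAddCommGroup F] [NormedSpace ℝ F] {u : ℂ → F}
    (hu : ContDiffAt ℝ 2 u z) (v : ℂ) : DifferentiableAt ℝ (fun w => fderiv ℝ u w v) z := by
  have h1 : ContDiffAt ℝ 1 (fderiv ℝ u) z := hu.fderiv_right (by norm_num)
  exact (h1.differentiableAt (by norm_num)).clm_apply (differentiableAt_const v)

theorem wirt_symm {F : Type*} [NormedAddCommGroup F] [NormedSpace ℝ F] {u : ℂ → F}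
    (hu : ContDiffAt ℝ 2 u z) (v v' : ℂ) :
    fderiv ℝ (fun w => fderiv ℝ u w v) z v' = fderiv ℝ (fun w => fderiv ℝ u w v') z v := by
  have h1 : DifferentiableAt ℝ (fderiv ℝ u) z :=
    (hu.fderiv_right (m := 1) (by norm_num)).differentiableAt (by norm_num)
  have h2 : ∀ a b : ℂ, fderiv ℝ (fun w => fderiv ℝ u w a) z b =
      fderiv ℝ (fderiv ℝ u) z b a := by
    intro a b
    rw [fderiv_clm_apply h1 (differentiableAt_const a)]
    simp
  rw [h2, h2]
  have h3 : IsSymmSndFDerivAt ℝ u z := hu.isSymmSndFDerivAt (by simp)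
  exact h3 v' v

/-- the Laplacian is `4 ∂ ∂̄` -/
theorem lap_eq (hh : ContDiffAt ℝ 2 h z) :
    (lap h z : ℂ) = 4 * dz (fun w => dzb (fun v => (h v : ℂ)) w) z := by
  have hd : ∀ᶠ w in 𝓝 z, DifferentiableAt ℝ h w := by
    have h1 := hh.eventually (by norm_num)
    filter_upwards [h1] with w hw
    exact hw.differentiableAt (by norm_num)
  have he : (fun w => dzb (fun v => (h v : ℂ)) w) =ᶠ[𝓝 z]
      fun w => ((fderiv ℝ h w 1 : ℝ) + I * (fderiv ℝ h w I : ℝ)) / 2 := by
    filter_upwards [hd] with w hw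
    exact dzb_ofReal h w hw
  have h1 := wirt_diff_fderiv hh 1
  have h2 := wirt_diff_fderiv hh I
  have hsymm := wirt_symm hh 1 I
  have hder : ∀ v : ℂ, fderiv ℝ (fun w => dzb (fun v => (h v : ℂ)) w) z v =
      ((fderiv ℝ (fun w => fderiv ℝ h w 1) z v : ℝ) +
        I * (fderiv ℝ (fun w => fderiv ℝ h w I) z v : ℝ)) / 2 := by
    intro v
    rw [he.fderiv_eq]
    have h3 : HasFDerivAt (fun w => (fderiv ℝ h w 1 : ℂ))
        (ofRealCLM.comp (fderiv ℝ (fun w => fderiv ℝ h w 1) z)) z :=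
      ofRealCLM.hasFDerivAt.comp z h1.hasFDerivAt
    have h4 : HasFDerivAt (fun w => (fderiv ℝ h w I : ℂ))
        (ofRealCLM.comp (fderiv ℝ (fun w => fderiv ℝ h w I) z)) z :=
      ofRealCLM.hasFDerivAt.comp z h2.hasFDerivAt
    have h5 := (h3.add (h4.const_mul I)).mul_const ((2 : ℂ)⁻¹)
    have h6 : (fun w => ((fderiv ℝ h w 1 : ℝ) + I * (fderiv ℝ h w I : ℝ) : ℂ) / 2) =
        fun w => ((fderiv ℝ h w 1 : ℝ) + I * (fderiv ℝ h w I : ℝ) : ℂ) * (2 : ℂ)⁻¹ := by
      funext w
      rw [div_eq_mul_inv]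
    rw [h6]
    have h7 := h5.fderiv
    simp only [Pi.add_apply] at h7
    erw [h7]
    simp only [smul_apply, add_apply, ContinuousLinearMap.comp_apply, ofRealCLM_apply, smul_eq_mul]
    ring
  unfold dz
  rw [hder, hder]
  unfold lap
  rw [← hsymm]
  push_cast
  ring_nf
  simp only [I_sq]
  ring

/-- the Wirtinger derivatives commute -/
theorem dz_dzb_comm (hf : ContDiffAt ℝ 2 f z) :
    dz (fun w => dzb f w) z = dzb (fun w => dz f w) z := by
  have h1 := wirt_diff_fderiv hf 1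
  have h2 := wirt_diff_fderiv hf I
  have hsymm := wirt_symm hf 1 I
  have hder1 : ∀ v : ℂ, fderiv ℝ (fun w => dzb f w) z v =
      (fderiv ℝ (fun w => fderiv ℝ f w 1) z v + I * fderiv ℝ (fun w => fderiv ℝ f w I) z v) / 2 := by
    intro v
    have h5 := (h1.hasFDerivAt.add (h2.hasFDerivAt.const_mul I)).mul_const ((2 : ℂ)⁻¹)
    have h6 : (fun w => dzb f w) =
        fun w => (fderiv ℝ f w 1 + I * fderiv ℝ f w I) * (2 : ℂ)⁻¹ := by
      funext w
      rw [dzb, div_eq_mul_inv]
    rw [h6]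
    have h7 := h5.fderiv
    simp only [Pi.add_apply] at h7
    erw [h7]
    simp only [smul_apply, add_apply, smul_eq_mul]
    ring
  have hder2 : ∀ v : ℂ, fderiv ℝ (fun w => dz f w) z v =
      (fderiv ℝ (fun w => fderiv ℝ f w 1) z v - I * fderiv ℝ (fun w => fderiv ℝ f w I) z v) / 2 := by
    intro v
    have h5 := (h1.hasFDerivAt.sub (h2.hasFDerivAt.const_mul I)).mul_const ((2 : ℂ)⁻¹)
    have h6 : (fun w => dz f w) =
        fun w => (fderiv ℝ f w 1 - I * fderiv ℝ f w I) * (2 : ℂ)⁻¹ := by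
      funext w
      rw [dz, div_eq_mul_inv]
    rw [h6]
    have h7 := h5.fderiv
    simp only [Pi.sub_apply] at h7
    erw [h7]
    simp only [smul_apply, sub_apply, smul_eq_mul]
    ring
  rw [dz, dzb, hder1, hder1, hder2, hder2, hsymm]
  ring_nf

theorem contDiff_dz {n : ℕ} (hf : ContDiff ℝ (n + 1 : ℕ) f) : ContDiff ℝ n (dz f) := by
  have h1 : ∀ v : ℂ, ContDiff ℝ n (fun w => fderiv ℝ f w v) := by
    intro v
    exact (hf.fderiv_right (by norm_cast)).clm_apply contDiff_const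
  exact ((h1 1).sub (contDiff_const.mul (h1 I))).div_const 2

theorem contDiff_dzb {n : ℕ} (hf : ContDiff ℝ (n + 1 : ℕ) f) : ContDiff ℝ n (dzb f) := by
  have h1 : ∀ v : ℂ, ContDiff ℝ n (fun w => fderiv ℝ f w v) := by
    intro v
    exact (hf.fderiv_right (by norm_cast)).clm_apply contDiff_const
  exact ((h1 1).add (contDiff_const.mul (h1 I))).div_const 2

/-- Wirtinger derivatives at a point only depend on the germ -/
theorem dz_congr (hfg : f =ᶠ[𝓝 z] g) : dz f z = dz g z := by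
  unfold dz
  rw [hfg.fderiv_eq]

theorem dzb_congr (hfg : f =ᶠ[𝓝 z] g) : dzb f z = dzb g z := by
  unfold dzb
  rw [hfg.fderiv_eq]

end Pool.Agent.FK
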