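import Mathlib
import Pool.Agent.Helper99.FK.Wirt

/-! FK-24: the conformal map up to the boundary -/

set_option autoImplicit false

open Complex MeasureTheory Set Metric
open scoped ComplexConjugate Topology

namespace Pool.Agent.FK

variable {f : ℂ → ℂ} {Ω : Set ℂ} {z : ℂ}

theorem contDiff_DD (hf : Conf f Ω) (k : ℕ) : ContDiff ℝ k (DD f) := by
  have h1 : ContDiff ℝ k (fun z => fderiv ℝ f z (1 : ℂ)) :=
    ((hf.smooth (k + 1)).fderiv_right (by norm_cast)).clm_apply contDiff_const
  exact h1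

private lemma conf1_hasDeriv (hf : Conf f Ω) (hz : z ∈ ball (0 : ℂ) 1) :
    HasDerivAt f (deriv f z) z :=
  (hf.holo.differentiableAt (isOpen_ball.mem_nhds hz)).hasDerivAt

private lemma conf1_fderiv_ball (hf : Conf f Ω) (hz : z ∈ ball (0 : ℂ) 1) (v : ℂ) :
    fderiv ℝ f z v = deriv f z * v := by
  have h1 : HasFDerivAt f ((ContinuousLinearMap.toSpanSingleton ℂ (deriv f z)).restrictScalars ℝ)
      z := (conf1_hasDeriv hf hz).hasFDerivAt.restrictScalars ℝ
  rw [h1.fderiv]
  simp [ContinuousLinearMap.toSpanSingleton_apply, mul_comm]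

private lemma conf1_DD_ball (hf : Conf f Ω) (hz : z ∈ ball (0 : ℂ) 1) : DD f z = deriv f z := by
  unfold DD
  rw [conf1_fderiv_ball hf hz, mul_one]

private lemma conf1_closed {A : Type*} [TopologicalSpace A] [T2Space A] {a b : ℂ → A}
    (ha : Continuous a) (hb : Continuous b) (h : ∀ z ∈ ball (0 : ℂ) 1, a z = b z)
    (hz : z ∈ closedBall (0 : ℂ) 1) : a z = b z := by
  have h1 : IsClosed {z | a z = b z} := isClosed_eq ha hb
  have h2 : closure (ball (0 : ℂ) 1) ⊆ {z | a z = b z} := h1.closure_subset_iff.2 h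
  rw [closure_ball (0 : ℂ) one_ne_zero] at h2
  exact h2 hz

/-- the differential is complex linear on the closed disc -/
theorem conf_fderiv (hf : Conf f Ω) (hz : z ∈ closedBall (0 : ℂ) 1) (v : ℂ) :
    fderiv ℝ f z v = DD f z * v := by
  have h1 : Continuous (fun z => fderiv ℝ f z v) :=
    ((hf.smooth 1).continuous_fderiv (by norm_num)).clm_apply continuous_const
  have h2 : Continuous (fun z => DD f z * v) := (contDiff_DD hf 0).continuous.mul continuous_const
  refine conf1_closed (a := fun z => fderiv ℝ f z v) (b := fun z => DD f z * v) h1 h2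
    (fun w hw => ?_) hz
  change fderiv ℝ f w v = DD f w * v
  rw [conf1_DD_ball hf hw]
  exact conf1_fderiv_ball hf hw v

theorem DD_ne (hf : Conf f Ω) (hz : z ∈ closedBall (0 : ℂ) 1) : DD f z ≠ 0 := by
  intro h
  apply hf.nd z hz
  ext v
  rw [conf_fderiv hf hz, h]
  simp

theorem exists_R (hf : Conf f Ω) : ∃ R > 1, ∀ z ∈ ball (0 : ℂ) R, DD f z ≠ 0 := by
  have h1 : IsOpen {z | DD f z ≠ 0} :=
    isOpen_ne_fun (contDiff_DD hf 0).continuous continuous_const
  obtain ⟨δ, hδ, h2⟩ := (isCompact_closedBall (0 : ℂ) 1).exists_thickening_subset_open h1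
    (fun z hz => DD_ne hf hz)
  rw [thickening_closedBall hδ zero_le_one] at h2
  exact ⟨δ + 1, by linarith, fun z hz => h2 hz⟩

/-- `f'` is holomorphic in the open disc -/
theorem dzb_DD (hf : Conf f Ω) (hz : z ∈ ball (0 : ℂ) 1) : dzb (DD f) z = 0 := by
  have h1 : DD f =ᶠ[𝓝 z] deriv f := by
    filter_upwards [isOpen_ball.mem_nhds hz] with w hw
    exact conf1_DD_ball hf hw
  rw [dzb_congr h1]
  have h2 : DifferentiableAt ℂ (deriv f) z :=
    ((hf.holo.deriv isOpen_ball) z hz).differentiableAt (isOpen_ball.mem_nhds hz)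
  have h3 : HasFDerivAt (deriv f)
      ((ContinuousLinearMap.toSpanSingleton ℂ (deriv (deriv f) z)).restrictScalars ℝ) z :=
    h2.hasDerivAt.hasFDerivAt.restrictScalars ℝ
  unfold dzb
  rw [h3.fderiv]
  simp only [ContinuousLinearMap.coe_restrictScalars',
    ContinuousLinearMap.toSpanSingleton_apply, smul_eq_mul, one_mul]
  rw [← mul_assoc, I_mul_I]
  ring

theorem dzb_DD_closed (hf : Conf f Ω) (hz : z ∈ closedBall (0 : ℂ) 1) : dzb (DD f) z = 0 := by
  have h1 : Continuous (dzb (DD f)) :=
    (contDiff_dzb (n := 0) (by simpa using contDiff_DD hf 1)).continuous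
  exact conf1_closed h1 continuous_const (fun w hw => dzb_DD hf hw) hz

theorem conf_open (hf : Conf f Ω) : IsOpen Ω := by
  rw [hf.img, isOpen_iff_mem_nhds]
  rintro _ ⟨z, hz, rfl⟩
  have h1 : HasStrictDerivAt f (deriv f z) z := by
    have h2 : AnalyticAt ℂ f z := hf.holo.analyticAt (isOpen_ball.mem_nhds hz)
    exact h2.hasStrictDerivAt
  have h3 : deriv f z ≠ 0 := by
    rw [← conf1_DD_ball hf hz]
    exact DD_ne hf (ball_subset_closedBall hz)
  rw [← h1.map_nhds_eq h3]
  exact Filter.image_mem_map (isOpen_ball.mem_nhds hz)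

private lemma conf1_compact (hf : Conf f Ω) : IsCompact (f '' closedBall 0 1) :=
  (isCompact_closedBall (0 : ℂ) 1).image (hf.smooth 0).continuous

theorem conf_bdd (hf : Conf f Ω) : Bornology.IsBounded Ω := by
  rw [hf.img]
  exact (conf1_compact hf).isBounded.subset (image_mono ball_subset_closedBall)

theorem conf_frontier (hf : Conf f Ω) : frontier Ω = f '' sphere 0 1 := by
  have h1 : closure Ω = f '' closedBall 0 1 := by
    apply subset_antisymm
    · refine closure_minimal ?_ (conf1_compact hf).isClosed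
      rw [hf.img]
      exact image_mono ball_subset_closedBall
    · rw [hf.img, ← closure_ball (0 : ℂ) one_ne_zero]
      exact image_closure_subset_closure_image (hf.smooth 0).continuous
  rw [(conf_open hf).frontier_eq, h1, hf.img]
  ext w
  constructor
  · rintro ⟨⟨z, hz, rfl⟩, h2⟩
    refine ⟨z, ?_, rfl⟩
    rw [mem_sphere]
    rcases (mem_closedBall.1 hz).lt_or_eq with h3 | h3
    · exact absurd ⟨z, mem_ball.2 h3, rfl⟩ h2
    · exact h3
  · rintro ⟨z, hz, rfl⟩
    refine ⟨⟨z, sphere_subset_closedBall hz, rfl⟩, ?_⟩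
    rintro ⟨y, hy, hyz⟩
    have h3 : y = z := hf.inj (ball_subset_closedBall hy) (sphere_subset_closedBall hz) hyz
    rw [h3, mem_ball, mem_sphere.1 hz] at hy
    exact lt_irrefl _ hy

end Pool.Agent.FK
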