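import Mathlib
import Pool.Agent.Helper99.FK.Conf1

/-! FK-28a: conversion between functions on `ℝ × ℝ` and on `ℂ` -/

set_option autoImplicit false

open Complex MeasureTheory Set Metric
open scoped ComplexConjugate Topology

namespace Pool.Agent.FK

theorem conv_fderiv {u : ℝ × ℝ → ℂ} (hu : ContDiff ℝ 1 u) (z v : ℂ) :
    fderiv ℝ (fun z : ℂ => u (z.re, z.im)) z v = fderiv ℝ u (z.re, z.im) (v.re, v.im) := by
  have h1 : HasFDerivAt u (fderiv ℝ u (z.re, z.im)) (Complex.equivRealProdCLM z) :=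
    (hu.differentiable (by norm_num)).differentiableAt.hasFDerivAt
  have h2 : HasFDerivAt (fun z : ℂ => Complex.equivRealProdCLM z)
      (Complex.equivRealProdCLM : ℂ →L[ℝ] ℝ × ℝ) z :=
    Complex.equivRealProdCLM.hasFDerivAt
  have h3 := h1.comp z h2
  have h4 : HasFDerivAt (fun z : ℂ => u (z.re, z.im))
      ((fderiv ℝ u (z.re, z.im)).comp (Complex.equivRealProdCLM : ℂ →L[ℝ] ℝ × ℝ)) z := h3
  rw [h4.fderiv]
  rfl

/-- the equations of the frozen statement in complex notation -/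
theorem toSol {ν : ℝ} (hν : 0 < ν) {Ω : Set (ℝ × ℝ)} (hΩ : IsOpen Ω) {u₁ u₂ : ℝ × ℝ → ℂ}
    (h₁ : ∀ k : ℕ, ContDiff ℝ k u₁) (h₂ : ∀ k : ℕ, ContDiff ℝ k u₂)
    (he : ∀ x ∈ Ω,
      -Complex.I * fderiv ℝ u₂ x (1, 0) - fderiv ℝ u₂ x (0, 1) = (ν : ℂ) * u₁ x ∧
      -Complex.I * fderiv ℝ u₁ x (1, 0) + fderiv ℝ u₁ x (0, 1) = (ν : ℂ) * u₂ x) :
    Sol ν {z : ℂ | (z.re, z.im) ∈ Ω} (fun z => u₁ (z.re, z.im)) (fun z => u₂ (z.re, z.im)) := by
  have hsm : ∀ k : ℕ, ContDiff ℝ k (fun z : ℂ => (z.re, z.im)) := fun k =>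
    Complex.equivRealProdCLM.contDiff
  refine ⟨hν, hΩ.preimage (by fun_prop), fun k => (h₁ k).comp (hsm k),
    fun k => (h₂ k).comp (hsm k), ?_, ?_⟩
  · intro z hz
    have h := (he _ hz).2
    unfold dzb
    rw [conv_fderiv (by exact_mod_cast h₁ 1), conv_fderiv (by exact_mod_cast h₁ 1)]
    simp only [Complex.one_re, Complex.one_im, Complex.I_re, Complex.I_im]
    have h5 : I * (-I * fderiv ℝ u₁ (z.re, z.im) (1, 0) + fderiv ℝ u₁ (z.re, z.im) (0, 1)) =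
        fderiv ℝ u₁ (z.re, z.im) (1, 0) + I * fderiv ℝ u₁ (z.re, z.im) (0, 1) := by
      rw [mul_add, ← mul_assoc, mul_neg, Complex.I_mul_I]
      ring
    rw [← h5, h]
    ring
  · intro z hz
    have h := (he _ hz).1
    unfold dz
    rw [conv_fderiv (by exact_mod_cast h₂ 1), conv_fderiv (by exact_mod_cast h₂ 1)]
    simp only [Complex.one_re, Complex.one_im, Complex.I_re, Complex.I_im]
    have h5 : I * (-I * fderiv ℝ u₂ (z.re, z.im) (1, 0) - fderiv ℝ u₂ (z.re, z.im) (0, 1)) =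
        fderiv ℝ u₂ (z.re, z.im) (1, 0) - I * fderiv ℝ u₂ (z.re, z.im) (0, 1) := by
      rw [mul_sub, ← mul_assoc, mul_neg, Complex.I_mul_I]
      ring
    rw [← h5, h]
    ring

theorem volume_conv (Ω : Set (ℝ × ℝ)) (hΩ : MeasurableSet Ω) :
    volume {z : ℂ | (z.re, z.im) ∈ Ω} = volume Ω := by
  have h := Complex.volume_preserving_equiv_real_prod.measure_preimage hΩ.nullMeasurableSet
  exact h

theorem volume_disc {r : ℝ} (hr : 0 < r) :
    (volume {x : ℝ × ℝ | x.1 ^ 2 + x.2 ^ 2 < r ^ 2}).toReal = Real.pi * r ^ 2 := by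
  have hm : MeasurableSet {x : ℝ × ℝ | x.1 ^ 2 + x.2 ^ 2 < r ^ 2} := by
    apply IsOpen.measurableSet
    exact isOpen_lt (by fun_prop) continuous_const
  rw [← volume_conv _ hm]
  have h1 : {z : ℂ | (z.re, z.im) ∈ {x : ℝ × ℝ | x.1 ^ 2 + x.2 ^ 2 < r ^ 2}} =
      Metric.ball (0 : ℂ) r := by
    ext z
    rw [mem_ball_zero_iff]
    change z.re ^ 2 + z.im ^ 2 < r ^ 2 ↔ ‖z‖ < r
    have h2 : z.re ^ 2 + z.im ^ 2 = ‖z‖ ^ 2 := by
      rw [Complex.sq_norm, Complex.normSq_apply]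
      ring
    rw [h2]
    exact sq_lt_sq₀ (norm_nonneg z) hr.le
  rw [h1, Complex.volume_ball]
  rw [ENNReal.toReal_mul, ENNReal.toReal_pow, ENNReal.toReal_ofReal hr.le]
  simp [mul_comm]

end Pool.Agent.FK
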