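import Mathlib
import Pool.Agent.Helper99.FK.Defs

/-! FK-19: Green formula on the unit disc -/

set_option autoImplicit false

open Complex MeasureTheory Set Metric
open scoped ComplexConjugate Topology

namespace Pool.Agent.FK

namespace GreenAux

/-- polar coordinates -/
noncomputable def pp (x : ℝ × ℝ) : ℂ := (x.1 : ℂ) * exp (x.2 * I)

theorem norm_pp (x : ℝ × ℝ) : ‖pp x‖ = |x.1| := by
  simp [pp, norm_exp_ofReal_mul_I]

theorem contDiff_pp : ContDiff ℝ 1 pp := by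
  unfold pp
  apply ContDiff.mul
  · exact Complex.ofRealCLM.contDiff.comp contDiff_fst
  · have h1 : ContDiff ℝ 1 (fun x : ℝ × ℝ => (x.2 : ℂ)) :=
      Complex.ofRealCLM.contDiff.comp contDiff_snd
    exact (h1.mul contDiff_const).cexp

theorem symm_eq (x : ℝ × ℝ) : Complex.polarCoord.symm x = pp x := by
  rw [Complex.polarCoord_symm_apply, pp, exp_mul_I]
  push_cast
  ring

theorem hasDerivAt_r (r t : ℝ) : HasDerivAt (fun r : ℝ => pp (r, t)) (exp (t * I)) r := by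
  have h : HasDerivAt (fun r : ℝ => (r : ℂ)) 1 r := Complex.ofRealCLM.hasDerivAt
  simpa [pp] using h.mul_const (exp (t * I))

theorem hasDerivAt_t (r t : ℝ) :
    HasDerivAt (fun t : ℝ => pp (r, t)) (r * (exp (t * I) * I)) t := by
  have h : HasDerivAt (fun t : ℝ => (t : ℂ)) 1 t := Complex.ofRealCLM.hasDerivAt
  have h2 : HasDerivAt (fun t : ℝ => (t : ℂ) * I) I t := by
    simpa using h.mul_const I
  exact (h2.cexp).const_mul (r : ℂ)

theorem app_exp (L : ℂ →L[ℝ] ℝ) (t : ℝ) :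
    L (exp (t * I)) = Real.cos t * L 1 + Real.sin t * L I := by
  have h : exp (t * I) = Real.cos t • (1 : ℂ) + Real.sin t • I := by
    rw [exp_mul_I]; simp
  rw [h, map_add, map_smul, map_smul]; simp

theorem app_exp_I (L : ℂ →L[ℝ] ℝ) (r t : ℝ) :
    L (r * (exp (t * I) * I)) = r * (-(Real.sin t * L 1) + Real.cos t * L I) := by
  have h : (r : ℂ) * (exp (t * I) * I) = r • ((-Real.sin t) • (1 : ℂ) + Real.cos t • I) := by
    rw [exp_mul_I]
    simp only [real_smul, ofReal_neg, ofReal_sin, ofReal_cos, add_mul]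
    have : sin (t : ℂ) * I * I = - sin (t : ℂ) := by rw [mul_assoc, I_mul_I]; ring
    rw [this]; ring
  rw [h, map_smul, map_add, map_smul, map_smul]; simp

theorem mem_ball {R : ℝ} (hR : 1 < R) {x : ℝ × ℝ} (hx : x ∈ Icc ((0, -Real.pi) : ℝ × ℝ) (1, Real.pi)) :
    pp x ∈ ball (0 : ℂ) R := by
  rw [mem_ball_zero_iff, norm_pp, abs_of_nonneg hx.1.1]
  exact lt_of_le_of_lt hx.2.1 hR

theorem cont_fderiv {R : ℝ} {Y : ℂ → ℝ} (h : ContDiffOn ℝ 1 Y (ball 0 R)) (v : ℂ) :
    ContinuousOn (fun z => fderiv ℝ Y z v) (ball 0 R) :=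
  (h.continuousOn_fderiv_of_isOpen isOpen_ball le_rfl).clm_apply continuousOn_const

theorem ball_ae (D : ℂ → ℝ) :
    ∫ z in ball (0 : ℂ) 1, D z
      = ∫ x in Icc ((0, -Real.pi) : ℝ × ℝ) (1, Real.pi), x.1 * D (pp x) := by
  rw [← integral_indicator measurableSet_ball, ← Complex.integral_comp_polarCoord_symm]
  have ht : (_root_.polarCoord).target = Ioi (0 : ℝ) ×ˢ Ioo (-Real.pi) Real.pi := rfl
  have h1 : ∀ x : ℝ × ℝ, x ∈ (_root_.polarCoord).target →
      x.1 • (ball (0 : ℂ) 1).indicator D (Complex.polarCoord.symm x)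
        = ({x : ℝ × ℝ | x.1 < 1}).indicator (fun x => x.1 * D (pp x)) x := by
    intro x hx
    rw [ht] at hx
    have h0 : 0 < x.1 := hx.1
    by_cases h : x.1 < 1
    · rw [indicator_of_mem, indicator_of_mem, symm_eq, smul_eq_mul]
      · exact h
      · rw [mem_ball_zero_iff, symm_eq, norm_pp, abs_of_pos h0]; exact h
    · rw [indicator_of_notMem, indicator_of_notMem, smul_zero]
      · exact h
      · rw [mem_ball_zero_iff, symm_eq, norm_pp, abs_of_pos h0]; exact h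
  have hm : MeasurableSet (_root_.polarCoord).target := by
    rw [ht]
    exact measurableSet_Ioi.prod measurableSet_Ioo
  have hm2 : MeasurableSet {x : ℝ × ℝ | x.1 < 1} := measurableSet_lt measurable_fst measurable_const
  rw [setIntegral_congr_fun hm h1, setIntegral_indicator hm2]
  apply setIntegral_congr_set
  have e1 : (_root_.polarCoord).target ∩ {x : ℝ × ℝ | x.1 < 1}
      = Ioo (0 : ℝ) 1 ×ˢ Ioo (-Real.pi) Real.pi := by
    rw [ht]
    ext x
    simp only [mem_inter_iff, mem_prod, mem_Ioi, mem_Ioo, mem_ofPred_eq]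
    tauto
  rw [e1, ← Icc_prod_Icc]
  exact Measure.set_prod_ae_eq Ioo_ae_eq_Icc Ioo_ae_eq_Icc

end GreenAux

open GreenAux

/-- divergence theorem -/
theorem div_disc {R : ℝ} (hR : 1 < R) {Y₁ Y₂ : ℂ → ℝ} (h₁ : ContDiffOn ℝ 1 Y₁ (ball 0 R))
    (h₂ : ContDiffOn ℝ 1 Y₂ (ball 0 R)) :
    ∫ z in ball (0 : ℂ) 1, (fderiv ℝ Y₁ z 1 + fderiv ℝ Y₂ z I)
      = ∫ t in (-Real.pi)..Real.pi,
          (Y₁ (exp (t * I)) * Real.cos t + Y₂ (exp (t * I)) * Real.sin t) := by
  rw [ball_ae (fun z => fderiv ℝ Y₁ z 1 + fderiv ℝ Y₂ z I)]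
  have hpi := Real.pi_pos
  set f : ℝ × ℝ → ℝ := fun x => x.1 * (Y₁ (pp x) * Real.cos x.2 + Y₂ (pp x) * Real.sin x.2)
    with hf
  set g : ℝ × ℝ → ℝ := fun x => -(Y₁ (pp x) * Real.sin x.2) + Y₂ (pp x) * Real.cos x.2 with hg
  have hd1 : ∀ x ∈ Icc ((0, -Real.pi) : ℝ × ℝ) (1, Real.pi), DifferentiableAt ℝ Y₁ (pp x) :=
    fun x hx => (h₁.differentiableOn one_ne_zero).differentiableAt
      (isOpen_ball.mem_nhds (mem_ball hR hx))
  have hd2 : ∀ x ∈ Icc ((0, -Real.pi) : ℝ × ℝ) (1, Real.pi), DifferentiableAt ℝ Y₂ (pp x) :=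
    fun x hx => (h₂.differentiableOn one_ne_zero).differentiableAt
      (isOpen_ball.mem_nhds (mem_ball hR hx))
  have hdp : ∀ x, DifferentiableAt ℝ pp x := fun x => contDiff_pp.differentiable one_ne_zero x
  have hdf : ∀ x ∈ Icc ((0, -Real.pi) : ℝ × ℝ) (1, Real.pi), DifferentiableAt ℝ f x := by
    intro x hx
    have a1 := (hd1 x hx).comp x (hdp x)
    have a2 := (hd2 x hx).comp x (hdp x)
    exact differentiableAt_fst.mul ((a1.mul differentiableAt_snd.cos).add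
      (a2.mul differentiableAt_snd.sin))
  have hdg : ∀ x ∈ Icc ((0, -Real.pi) : ℝ × ℝ) (1, Real.pi), DifferentiableAt ℝ g x := by
    intro x hx
    have a1 := (hd1 x hx).comp x (hdp x)
    have a2 := (hd2 x hx).comp x (hdp x)
    exact ((a1.mul differentiableAt_snd.sin).neg).add
      (a2.mul differentiableAt_snd.cos)
  have key : ∀ x ∈ Icc ((0, -Real.pi) : ℝ × ℝ) (1, Real.pi),
      fderiv ℝ f x (1, 0) + fderiv ℝ g x (0, 1)
        = x.1 * (fderiv ℝ Y₁ (pp x) 1 + fderiv ℝ Y₂ (pp x) I) := by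
    rintro ⟨r, t⟩ hx
    have b1 := (hd1 _ hx).hasFDerivAt
    have b2 := (hd2 _ hx).hasFDerivAt
    have e1 : HasDerivAt (fun s : ℝ => f (s, t)) (fderiv ℝ f (r, t) (1, 0)) r := by
      have c := (hdf _ hx).hasFDerivAt
      have d : HasDerivAt (fun s : ℝ => (s, t)) ((1 : ℝ), (0 : ℝ)) r :=
        (hasDerivAt_id r).prodMk (hasDerivAt_const r t)
      exact c.comp_hasDerivAt r d
    have e2 : HasDerivAt (fun s : ℝ => g (r, s)) (fderiv ℝ g (r, t) (0, 1)) t := by
      have c := (hdg _ hx).hasFDerivAt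
      have d : HasDerivAt (fun s : ℝ => (r, s)) ((0 : ℝ), (1 : ℝ)) t :=
        (hasDerivAt_const t r).prodMk (hasDerivAt_id t)
      exact c.comp_hasDerivAt t d
    have c1 : HasDerivAt (fun s : ℝ => Y₁ (pp (s, t))) (fderiv ℝ Y₁ (pp (r, t)) (exp (t * I))) r :=
      b1.comp_hasDerivAt r (hasDerivAt_r r t)
    have c2 : HasDerivAt (fun s : ℝ => Y₂ (pp (s, t))) (fderiv ℝ Y₂ (pp (r, t)) (exp (t * I))) r :=
      b2.comp_hasDerivAt r (hasDerivAt_r r t)
    have c3 : HasDerivAt (fun s : ℝ => Y₁ (pp (r, s)))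
        (fderiv ℝ Y₁ (pp (r, t)) (r * (exp (t * I) * I))) t :=
      b1.comp_hasDerivAt t (hasDerivAt_t r t)
    have c4 : HasDerivAt (fun s : ℝ => Y₂ (pp (r, s)))
        (fderiv ℝ Y₂ (pp (r, t)) (r * (exp (t * I) * I))) t :=
      b2.comp_hasDerivAt t (hasDerivAt_t r t)
    have f1 := e1.unique ((hasDerivAt_id r).mul
      ((c1.mul_const (Real.cos t)).add (c2.mul_const (Real.sin t))))
    have f2 := e2.unique (((c3.mul (Real.hasDerivAt_sin t)).neg).add
      (c4.mul (Real.hasDerivAt_cos t)))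
    rw [f1, f2, app_exp, app_exp, app_exp_I, app_exp_I]
    have hcs := Real.sin_sq_add_cos_sq t
    simp only [id_eq]
    linear_combination (r * (fderiv ℝ Y₁ (pp (r, t)) 1 + fderiv ℝ Y₂ (pp (r, t)) I)) * hcs
  have hcp : Continuous pp := contDiff_pp.continuous
  have hmt : MapsTo pp (Icc ((0, -Real.pi) : ℝ × ℝ) (1, Real.pi)) (ball 0 R) :=
    fun x hx => mem_ball hR hx
  have hcont : ContinuousOn (fun x : ℝ × ℝ => x.1 * (fderiv ℝ Y₁ (pp x) 1 + fderiv ℝ Y₂ (pp x) I))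
      (Icc ((0, -Real.pi) : ℝ × ℝ) (1, Real.pi)) := by
    apply continuousOn_fst.mul
    exact ((cont_fderiv h₁ 1).comp hcp.continuousOn hmt).add
      ((cont_fderiv h₂ I).comp hcp.continuousOn hmt)
  have hint : IntegrableOn (fun x : ℝ × ℝ => x.1 * (fderiv ℝ Y₁ (pp x) 1 + fderiv ℝ Y₂ (pp x) I))
      (Icc ((0, -Real.pi) : ℝ × ℝ) (1, Real.pi)) :=
    hcont.integrableOn_compact isCompact_Icc
  have hsub : Ioo ((0 : ℝ)) 1 ×ˢ Ioo (-Real.pi) Real.pi ⊆ Icc ((0, -Real.pi) : ℝ × ℝ) (1, Real.pi) := by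
    rw [← Icc_prod_Icc]
    exact prod_mono Ioo_subset_Icc_self Ioo_subset_Icc_self
  have hmain := integral_divergence_prod_Icc_of_hasFDerivAt_off_countable_of_le f g
    (fderiv ℝ f) (fderiv ℝ g) ((0, -Real.pi) : ℝ × ℝ) (1, Real.pi)
    ⟨zero_le_one, by simp only; linarith⟩ ∅ countable_empty
    (fun x hx => (hdf x hx).continuousAt.continuousWithinAt)
    (fun x hx => (hdg x hx).continuousAt.continuousWithinAt)
    (fun x hx => (hdf x (hsub hx.1)).hasFDerivAt)
    (fun x hx => (hdg x (hsub hx.1)).hasFDerivAt)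
    ((integrableOn_congr_fun key measurableSet_Icc).2 hint)
  rw [setIntegral_congr_fun measurableSet_Icc key] at hmain
  rw [hmain]
  have z1 : ∀ x : ℝ, g (x, Real.pi) = g (x, -Real.pi) := by
    intro x
    simp only [hg, pp]
    have : exp ((Real.pi : ℝ) * I) = exp (((-Real.pi : ℝ) : ℂ) * I) := by
      push_cast
      rw [neg_mul, exp_neg, exp_pi_mul_I]; norm_num
    rw [this]
    simp
  simp only [z1, sub_self, zero_add]
  have z2 : ∀ y : ℝ, f (0, y) = 0 := by intro y; simp [hf]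
  simp only [z2, intervalIntegral.integral_zero, sub_zero]
  apply intervalIntegral.integral_congr
  intro t _
  simp [hf, pp]

theorem green {R : ℝ} (hR : 1 < R) {ψ h : ℂ → ℝ} (hψ : ContDiffOn ℝ 1 ψ (ball 0 R))
    (hh : ContDiffOn ℝ 2 h (ball 0 R)) :
    ∫ z in ball (0 : ℂ) 1,
        (ψ z * lap h z + (fderiv ℝ ψ z 1 * fderiv ℝ h z 1 + fderiv ℝ ψ z I * fderiv ℝ h z I))
      = ∫ t in (-Real.pi)..Real.pi,
          ψ (exp (t * I)) * fderiv ℝ h (exp (t * I)) (exp (t * I)) := by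
  have hd : ∀ v : ℂ, ContDiffOn ℝ 1 (fun z => fderiv ℝ h z v) (ball 0 R) := by
    intro v
    have := hh.fderiv_of_isOpen (m := 1) isOpen_ball (by norm_num)
    exact this.clm_apply contDiffOn_const
  have hmain := div_disc hR (Y₁ := fun z => ψ z * fderiv ℝ h z 1)
    (Y₂ := fun z => ψ z * fderiv ℝ h z I) (hψ.mul (hd 1)) (hψ.mul (hd I))
  have hl : ∫ z in ball (0 : ℂ) 1,
        (ψ z * lap h z + (fderiv ℝ ψ z 1 * fderiv ℝ h z 1 + fderiv ℝ ψ z I * fderiv ℝ h z I))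
      = ∫ z in ball (0 : ℂ) 1, (fderiv ℝ (fun z => ψ z * fderiv ℝ h z 1) z 1
          + fderiv ℝ (fun z => ψ z * fderiv ℝ h z I) z I) := by
    apply setIntegral_congr_fun measurableSet_ball
    intro z hz
    have hz' : z ∈ ball (0 : ℂ) R := ball_subset_ball hR.le hz
    have a0 : DifferentiableAt ℝ ψ z :=
      (hψ.differentiableOn one_ne_zero).differentiableAt (isOpen_ball.mem_nhds hz')
    have a1 : ∀ v : ℂ, DifferentiableAt ℝ (fun z => fderiv ℝ h z v) z := fun v =>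
      ((hd v).differentiableOn one_ne_zero).differentiableAt (isOpen_ball.mem_nhds hz')
    have b1 := fderiv_fun_mul a0 (a1 1)
    have b2 := fderiv_fun_mul a0 (a1 I)
    simp only [lap, b1, b2, add_apply, smul_apply,
      smul_eq_mul]
    ring
  rw [hl, hmain]
  apply intervalIntegral.integral_congr
  intro t _
  simp only
  rw [app_exp]
  ring

end Pool.Agent.FK
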