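import Mathlib
import Pool.Agent.Helper99.FK.Green

/-! FK-21: energy estimates on the disc -/

set_option autoImplicit false

open Complex MeasureTheory Set Metric
open scoped ComplexConjugate Topology

namespace Pool.Agent.FK

variable {R G : ℝ} {M Q g : ℂ → ℝ}

/-! ### regularity of derivatives -/

theorem dl_contDiffOn_fd {h : ℂ → ℝ} (hc : ContDiffOn ℝ 2 h (ball 0 R)) (v : ℂ) :
    ContDiffOn ℝ 1 (fun w => fderiv ℝ h w v) (ball 0 R) :=
  (hc.fderiv_of_isOpen isOpen_ball (by norm_num)).clm_apply contDiffOn_const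

theorem dl_continuousOn_fd {h : ℂ → ℝ} (hc : ContDiffOn ℝ 1 h (ball 0 R)) (v : ℂ) :
    ContinuousOn (fun w => fderiv ℝ h w v) (ball 0 R) :=
  (hc.continuousOn_fderiv_of_isOpen isOpen_ball le_rfl).clm_apply continuousOn_const

theorem dl_continuousOn_gsq {h : ℂ → ℝ} (hc : ContDiffOn ℝ 1 h (ball 0 R)) :
    ContinuousOn (gsq h) (ball 0 R) :=
  ((dl_continuousOn_fd hc 1).pow 2).add ((dl_continuousOn_fd hc I).pow 2)

theorem dl_continuousOn_lap {h : ℂ → ℝ} (hc : ContDiffOn ℝ 2 h (ball 0 R)) :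
    ContinuousOn (lap h) (ball 0 R) :=
  (dl_continuousOn_fd (dl_contDiffOn_fd hc 1) 1).add (dl_continuousOn_fd (dl_contDiffOn_fd hc I) I)

theorem dl_closedBall_sub (hR : 1 < R) : closedBall (0 : ℂ) 1 ⊆ ball 0 R :=
  closedBall_subset_ball hR

theorem dl_integrableOn_disc {F : ℂ → ℝ} (hF : ContinuousOn F (closedBall 0 1)) :
    IntegrableOn F (ball (0 : ℂ) 1) :=
  (hF.integrableOn_compact (isCompact_closedBall 0 1)).mono_set ball_subset_closedBall

theorem dl_integral_disc_const (c : ℝ) : ∫ _z in ball (0 : ℂ) 1, c = Real.pi * c := by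
  rw [setIntegral_const]
  simp [Measure.real]

/-! ### the function `log (M + ε)` -/

/-- the regularised logarithm -/
noncomputable def dlLog (M : ℂ → ℝ) (ε : ℝ) (z : ℂ) : ℝ := Real.log (M z + ε)

theorem dl_add_pos_of (h : DiscData R G M Q g) {ε : ℝ} (hε : 0 < ε) {z : ℂ}
    (hz : z ∈ ball (0 : ℂ) R) : 0 < M z + ε := by
  have := h.nonneg z hz
  linarith

theorem dl_contDiffOn_log (h : DiscData R G M Q g) {ε : ℝ} (hε : 0 < ε) :
    ContDiffOn ℝ 2 (dlLog M ε) (ball 0 R) :=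
  (h.smooth.add contDiffOn_const).log (fun _ hz => (dl_add_pos_of h hε hz).ne')

theorem dl_differentiableAt_of {h : ℂ → ℝ} {n : WithTop ℕ∞} (hn : n ≠ 0)
    (hc : ContDiffOn ℝ n h (ball 0 R)) {z : ℂ} (hz : z ∈ ball (0 : ℂ) R) :
    DifferentiableAt ℝ h z :=
  (hc.contDiffAt (isOpen_ball.mem_nhds hz)).differentiableAt hn

theorem dl_fderiv_log (h : DiscData R G M Q g) {ε : ℝ} (hε : 0 < ε) {z : ℂ}
    (hz : z ∈ ball (0 : ℂ) R) (v : ℂ) :
    fderiv ℝ (dlLog M ε) z v = fderiv ℝ M z v / (M z + ε) := by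
  have h1 : HasFDerivAt M (fderiv ℝ M z) z :=
    (dl_differentiableAt_of (by norm_num) h.smooth hz).hasFDerivAt
  have h2 : HasFDerivAt (fun w => M w + ε) (fderiv ℝ M z) z := h1.add_const ε
  have h3 := h2.log (dl_add_pos_of h hε hz).ne'
  have h4 : fderiv ℝ (dlLog M ε) z = (M z + ε)⁻¹ • fderiv ℝ M z := h3.fderiv
  rw [h4]
  simp [div_eq_inv_mul]

theorem dl_fderiv_fderiv_log (h : DiscData R G M Q g) {ε : ℝ} (hε : 0 < ε) {z : ℂ}
    (hz : z ∈ ball (0 : ℂ) R) (v : ℂ) :
    fderiv ℝ (fun w => fderiv ℝ (dlLog M ε) w v) z v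
      = fderiv ℝ (fun w => fderiv ℝ M w v) z v / (M z + ε)
        - (fderiv ℝ M z v) ^ 2 / (M z + ε) ^ 2 := by
  have hpos := dl_add_pos_of h hε hz
  have h1 : HasFDerivAt M (fderiv ℝ M z) z :=
    (dl_differentiableAt_of (by norm_num) h.smooth hz).hasFDerivAt
  have h2 : HasFDerivAt (fun w => M w + ε) (fderiv ℝ M z) z := h1.add_const ε
  have h3 : HasFDerivAt (fun w => fderiv ℝ M w v) (fderiv ℝ (fun w => fderiv ℝ M w v) z) z :=
    (dl_differentiableAt_of (by norm_num) (dl_contDiffOn_fd h.smooth v) hz).hasFDerivAt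
  have h4 : HasFDerivAt (fun w => (M w + ε)⁻¹) (-((M z + ε) ^ 2)⁻¹ • fderiv ℝ M z) z := by
    have := (hasDerivAt_inv hpos.ne').comp_hasFDerivAt z h2
    exact this
  have h5 := h3.mul h4
  have h6 : (fun w => fderiv ℝ (dlLog M ε) w v) =ᶠ[𝓝 z]
      ((fun w => fderiv ℝ M w v) * fun w => (M w + ε)⁻¹) := by
    filter_upwards [isOpen_ball.mem_nhds hz] with w hw
    rw [dl_fderiv_log h hε hw v]
    rfl
  rw [h6.fderiv_eq, h5.fderiv]
  simp only [add_apply, smul_apply, smul_eq_mul]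
  field_simp
  ring

theorem dl_lap_log (h : DiscData R G M Q g) {ε : ℝ} (hε : 0 < ε) {z : ℂ}
    (hz : z ∈ ball (0 : ℂ) R) :
    lap (dlLog M ε) z = lap M z / (M z + ε) - gsq M z / (M z + ε) ^ 2 := by
  unfold lap gsq
  rw [dl_fderiv_fderiv_log h hε hz 1, dl_fderiv_fderiv_log h hε hz I, add_div, add_div]
  abel

theorem dl_gsq_log (h : DiscData R G M Q g) {ε : ℝ} (hε : 0 < ε) {z : ℂ}
    (hz : z ∈ ball (0 : ℂ) R) :
    gsq (dlLog M ε) z = gsq M z / (M z + ε) ^ 2 := by
  unfold gsq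
  rw [dl_fderiv_log h hε hz 1, dl_fderiv_log h hε hz I, div_pow, div_pow, add_div]

theorem dl_ball_sub (hR : 1 < R) : ball (0 : ℂ) 1 ⊆ ball 0 R := ball_subset_ball hR.le

/-- pointwise lower bound of the Laplacian -/
theorem dl_lap_log_ge (h : DiscData R G M Q g) {ε : ℝ} (hε : 0 < ε) {z : ℂ}
    (hz : z ∈ ball (0 : ℂ) 1) :
    Q z / (M z + ε) ^ 2 - g z ≤ lap (dlLog M ε) z := by
  have hz' := dl_ball_sub h.one_lt hz
  have hpos := dl_add_pos_of h hε hz'
  have hM := h.nonneg z hz'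
  have hid := h.ident z hz
  have hge := h.lap_ge z hz
  have hg := h.gnonneg z hz
  rw [dl_lap_log h hε hz']
  have e1 : lap M z / (M z + ε) - gsq M z / (M z + ε) ^ 2
      = (Q z - g z * M z ^ 2 + ε * lap M z) / (M z + ε) ^ 2 := by
    rw [← hid]
    field_simp
    ring
  have e2 : Q z / (M z + ε) ^ 2 - g z
      = (Q z - g z * (M z + ε) ^ 2) / (M z + ε) ^ 2 := by
    field_simp
  rw [e1, e2]
  apply div_le_div_of_nonneg_right _ (by positivity)
  nlinarith [mul_nonneg hg hε.le, mul_nonneg (mul_nonneg hg hε.le) hM,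
    mul_nonneg (mul_nonneg hg hε.le) hε.le, mul_le_mul_of_nonneg_left hge hε.le]

theorem dl_circle_mem (hR : 1 < R) (t : ℝ) : exp ((t : ℂ) * I) ∈ ball (0 : ℂ) R := by
  rw [mem_ball_zero_iff, Complex.norm_exp_ofReal_mul_I]
  exact hR

theorem dl_circle_deriv (h : DiscData R G M Q g) {ε : ℝ} (hε : 0 < ε) (t : ℝ) :
    fderiv ℝ (dlLog M ε) (exp ((t : ℂ) * I)) (exp ((t : ℂ) * I))
      = - (M (exp ((t : ℂ) * I)) / (M (exp ((t : ℂ) * I)) + ε)) := by
  rw [dl_fderiv_log h hε (dl_circle_mem h.one_lt t),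
    h.bdry _ (Complex.norm_exp_ofReal_mul_I t), neg_div]

theorem dl_contM (h : DiscData R G M Q g) : ContinuousOn M (closedBall 0 1) :=
  h.smooth.continuousOn.mono (dl_closedBall_sub h.one_lt)

theorem dl_contOn_Q (h : DiscData R G M Q g) {ε : ℝ} (hε : 0 < ε) :
    ContinuousOn (fun z => Q z / (M z + ε) ^ 2) (closedBall 0 1) :=
  h.contQ.div (((dl_contM h).add continuousOn_const).pow 2)
    (fun _ hz => (pow_pos (dl_add_pos_of h hε (dl_closedBall_sub h.one_lt hz)) 2).ne')

theorem dl_contOn_lap (h : DiscData R G M Q g) {ε : ℝ} (hε : 0 < ε) :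
    ContinuousOn (lap (dlLog M ε)) (closedBall 0 1) :=
  (dl_continuousOn_lap (dl_contDiffOn_log h hε)).mono (dl_closedBall_sub h.one_lt)

theorem dl_integral_lap_log (h : DiscData R G M Q g) {ε : ℝ} (hε : 0 < ε) :
    ∫ z in ball (0 : ℂ) 1, lap (dlLog M ε) z
      = - ∫ t in (-Real.pi)..Real.pi, M (exp (t * I)) / (M (exp (t * I)) + ε) := by
  have hg := green h.one_lt (ψ := fun _ => (1 : ℝ)) contDiffOn_const (dl_contDiffOn_log h hε)
  simp only [fderiv_fun_const, Pi.zero_apply, zero_apply, zero_mul, add_zero, one_mul] at hg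
  rw [hg, ← intervalIntegral.integral_neg]
  refine intervalIntegral.integral_congr (fun t _ => ?_)
  exact dl_circle_deriv h hε t

theorem disc_curv (h : DiscData R G M Q g) {ε : ℝ} (hε : 0 < ε) :
    ∫ t in (-Real.pi)..Real.pi, M (exp (t * I)) / (M (exp (t * I)) + ε)
      ≤ ∫ z in ball (0 : ℂ) 1, (g z - Q z / (M z + ε) ^ 2) := by
  have h1 := dl_integral_lap_log h hε
  have h2 : ∫ t in (-Real.pi)..Real.pi, M (exp (t * I)) / (M (exp (t * I)) + ε)
      = ∫ z in ball (0 : ℂ) 1, - lap (dlLog M ε) z := by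
    rw [integral_neg, h1, neg_neg]
  rw [h2]
  refine setIntegral_mono_on (dl_integrableOn_disc (dl_contOn_lap h hε).neg)
    (dl_integrableOn_disc (h.contg.sub (dl_contOn_Q h hε))) measurableSet_ball (fun z hz => ?_)
  have := dl_lap_log_ge h hε hz
  linarith

theorem dl_circle_nonneg (h : DiscData R G M Q g) {ε : ℝ} (hε : 0 < ε) (t : ℝ) :
    0 ≤ M (exp ((t : ℂ) * I)) / (M (exp ((t : ℂ) * I)) + ε) :=
  div_nonneg (h.nonneg _ (dl_circle_mem h.one_lt t)) (dl_add_pos_of h hε (dl_circle_mem h.one_lt t)).le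

theorem dl_circle_le_one (h : DiscData R G M Q g) {ε : ℝ} (hε : 0 < ε) (t : ℝ) :
    M (exp ((t : ℂ) * I)) / (M (exp ((t : ℂ) * I)) + ε) ≤ 1 := by
  rw [div_le_one (dl_add_pos_of h hε (dl_circle_mem h.one_lt t))]
  linarith

theorem dl_pi_le : (-Real.pi) ≤ Real.pi := by linarith [Real.pi_pos]

theorem dl_integral_g_le (h : DiscData R G M Q g) :
    ∫ z in ball (0 : ℂ) 1, g z ≤ Real.pi * G := by
  rw [← dl_integral_disc_const G]
  exact setIntegral_mono_on (dl_integrableOn_disc h.contg)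
    (dl_integrableOn_disc continuousOn_const) measurableSet_ball h.gle

theorem disc_Q (h : DiscData R G M Q g) {ε : ℝ} (hε : 0 < ε) :
    ∫ z in ball (0 : ℂ) 1, Q z / (M z + ε) ^ 2 ≤ Real.pi * G := by
  have h1 := disc_curv h hε
  rw [integral_sub (dl_integrableOn_disc h.contg) (dl_integrableOn_disc (dl_contOn_Q h hε))] at h1
  have h2 : 0 ≤ ∫ t in (-Real.pi)..Real.pi, M (exp (t * I)) / (M (exp (t * I)) + ε) :=
    intervalIntegral.integral_nonneg dl_pi_le (fun t _ => dl_circle_nonneg h hε t)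
  have h3 := dl_integral_g_le h
  linarith

theorem disc_energy (h : DiscData R G M Q g) :
    ∃ C : ℝ, ∀ ε ∈ Ioo (0 : ℝ) 1,
      ∫ z in ball (0 : ℂ) 1, gsq M z / (M z + ε) ^ 2 ≤ C * (1 + |Real.log ε|) := by
  obtain ⟨K, hK⟩ := (isCompact_closedBall (0 : ℂ) 1).bddAbove_image (dl_contM h)
  have hK' : ∀ z ∈ closedBall (0 : ℂ) 1, M z ≤ K := fun z hz => hK ⟨z, hz, rfl⟩
  have hK0 : 0 ≤ K := (h.nonneg 0 (mem_ball_self (by linarith [h.one_lt]))).trans
    (hK' 0 (mem_closedBall_self zero_le_one))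
  have hG0 : 0 ≤ G := (h.gnonneg 0 (mem_ball_self one_pos)).trans (h.gle 0 (mem_ball_self one_pos))
  have hpi := Real.pi_pos
  set L : ℝ := Real.log (K + 1) with hL
  have hL0 : 0 ≤ L := Real.log_nonneg (by linarith)
  refine ⟨(L + 1) * (Real.pi * G + 2 * Real.pi), ?_⟩
  intro ε hε
  have hε0 : 0 < ε := hε.1
  have hε1 : ε < 1 := hε.2
  have hlog : Real.log ε < 0 := Real.log_neg hε0 hε1
  have habs : |Real.log ε| = - Real.log ε := abs_of_neg hlog
  -- bounds of `dlLog`
  have hup : ∀ z ∈ closedBall (0 : ℂ) 1, dlLog M ε z ≤ L := by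
    intro z hz
    exact Real.log_le_log (dl_add_pos_of h hε0 (dl_closedBall_sub h.one_lt hz))
      (by linarith [hK' z hz])
  have hlo : ∀ z ∈ closedBall (0 : ℂ) 1, Real.log ε ≤ dlLog M ε z := by
    intro z hz
    exact Real.log_le_log hε0 (by linarith [h.nonneg z (dl_closedBall_sub h.one_lt hz)])
  have hCD := dl_contDiffOn_log h hε0
  have hψCD : ContDiffOn ℝ 1 (fun z => L - dlLog M ε z) (ball 0 R) :=
    contDiffOn_const.sub (hCD.of_le (by norm_num))
  have hgr := green h.one_lt hψCD hCD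
  -- rewrite the left side
  have hfd : ∀ z ∈ ball (0 : ℂ) R, ∀ v : ℂ,
      fderiv ℝ (fun z => L - dlLog M ε z) z v = - fderiv ℝ (dlLog M ε) z v := by
    intro z hz v
    have h1 : HasFDerivAt (dlLog M ε) (fderiv ℝ (dlLog M ε) z) z :=
      (dl_differentiableAt_of (by norm_num) hCD hz).hasFDerivAt
    rw [(h1.const_sub L).fderiv]
    simp
  have hcψ : ContinuousOn (fun z => L - dlLog M ε z) (closedBall 0 1) :=
    hψCD.continuousOn.mono (dl_closedBall_sub h.one_lt)
  have hcl := dl_contOn_lap h hε0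
  have hcg : ContinuousOn (gsq (dlLog M ε)) (closedBall 0 1) :=
    (dl_continuousOn_gsq (hCD.of_le (by norm_num))).mono (dl_closedBall_sub h.one_lt)
  have hleft : ∫ z in ball (0 : ℂ) 1,
        ((L - dlLog M ε z) * lap (dlLog M ε) z +
          (fderiv ℝ (fun z => L - dlLog M ε z) z 1 * fderiv ℝ (dlLog M ε) z 1
            + fderiv ℝ (fun z => L - dlLog M ε z) z I * fderiv ℝ (dlLog M ε) z I))
      = (∫ z in ball (0 : ℂ) 1, (L - dlLog M ε z) * lap (dlLog M ε) z)
        - ∫ z in ball (0 : ℂ) 1, gsq (dlLog M ε) z := by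
    have e0 := integral_sub (dl_integrableOn_disc (hcψ.mul hcl)) (dl_integrableOn_disc hcg)
    simp only [Pi.mul_apply] at e0
    refine Eq.trans ?_ e0
    refine setIntegral_congr_fun measurableSet_ball (fun z hz => ?_)
    have hz' := dl_ball_sub h.one_lt hz
    simp only [hfd z hz', gsq]
    ring
  rw [hleft] at hgr
  -- the boundary term
  have hcirc : ∫ t in (-Real.pi)..Real.pi,
      (L - dlLog M ε (exp (t * I))) * fderiv ℝ (dlLog M ε) (exp (t * I)) (exp (t * I))
      ≥ - ((L + |Real.log ε|) * (2 * Real.pi)) := by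
    have e1 : - ((L + |Real.log ε|) * (2 * Real.pi))
        = ∫ _t in (-Real.pi)..Real.pi, (-(L + |Real.log ε|)) := by
      rw [intervalIntegral.integral_const]
      simp only [smul_eq_mul]
      ring
    rw [e1]
    have hcc : Continuous (fun t : ℝ => exp ((t : ℂ) * I)) := by fun_prop
    have hcont : Continuous (fun t : ℝ =>
        (L - dlLog M ε (exp (t * I))) * fderiv ℝ (dlLog M ε) (exp (t * I)) (exp (t * I))) := by
      have c1 : Continuous (fun t : ℝ => L - dlLog M ε (exp (t * I))) :=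
        hψCD.continuousOn.comp_continuous hcc (dl_circle_mem h.one_lt)
      have c2 : Continuous (fun t : ℝ =>
          M (exp ((t : ℂ) * I)) / (M (exp ((t : ℂ) * I)) + ε)) := by
        have c3 : Continuous (fun t : ℝ => M (exp ((t : ℂ) * I))) :=
          h.smooth.continuousOn.comp_continuous hcc (dl_circle_mem h.one_lt)
        exact c3.div (c3.add continuous_const)
          (fun t => (dl_add_pos_of h hε0 (dl_circle_mem h.one_lt t)).ne')
      have c4 : (fun t : ℝ => fderiv ℝ (dlLog M ε) (exp (t * I)) (exp (t * I)))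
          = fun t : ℝ => -(M (exp ((t : ℂ) * I)) / (M (exp ((t : ℂ) * I)) + ε)) := by
        funext t
        exact dl_circle_deriv h hε0 t
      exact c1.mul (c4 ▸ c2.neg)
    refine intervalIntegral.integral_mono_on dl_pi_le intervalIntegrable_const
      (hcont.intervalIntegrable _ _) (fun t _ => ?_)
    rw [dl_circle_deriv h hε0 t]
    have hmem : exp ((t : ℂ) * I) ∈ closedBall (0 : ℂ) 1 := by
      rw [mem_closedBall_zero_iff, Complex.norm_exp_ofReal_mul_I]
    have a1 := hup _ hmem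
    have a2 := hlo _ hmem
    have a3 := dl_circle_nonneg h hε0 t
    have a4 := dl_circle_le_one h hε0 t
    rw [habs]
    nlinarith
  -- the interior term
  have hint : ∫ z in ball (0 : ℂ) 1, (L - dlLog M ε z) * lap (dlLog M ε) z
      ≤ (L + |Real.log ε|) * (Real.pi * G) := by
    have e1 : ∫ z in ball (0 : ℂ) 1, (L - dlLog M ε z) * lap (dlLog M ε) z
        ≤ ∫ z in ball (0 : ℂ) 1, (L + |Real.log ε|) * (lap (dlLog M ε) z + g z) := by
      refine setIntegral_mono_on (dl_integrableOn_disc (hcψ.mul hcl))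
        (dl_integrableOn_disc (continuousOn_const.mul (hcl.add h.contg))) measurableSet_ball
        (fun z hz => ?_)
      have hzc := ball_subset_closedBall hz
      have a1 := hup z hzc
      have a2 := hlo z hzc
      have a3 := dl_lap_log_ge h hε0 hz
      have a4 := h.gnonneg z hz
      have a5 : 0 ≤ Q z / (M z + ε) ^ 2 := div_nonneg (h.Qnonneg z hz) (by positivity)
      rw [habs]
      have a6 : 0 ≤ lap (dlLog M ε) z + g z := by linarith
      have a7 : (L - dlLog M ε z) * lap (dlLog M ε) z ≤ (L - dlLog M ε z) * (lap (dlLog M ε) z + g z) :=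
        mul_le_mul_of_nonneg_left (by linarith) (by linarith)
      have a8 : (L - dlLog M ε z) * (lap (dlLog M ε) z + g z)
          ≤ (L + - Real.log ε) * (lap (dlLog M ε) z + g z) :=
        mul_le_mul_of_nonneg_right (by linarith) a6
      linarith
    have e2 : ∫ z in ball (0 : ℂ) 1, (L + |Real.log ε|) * (lap (dlLog M ε) z + g z)
        = (L + |Real.log ε|) * ((∫ z in ball (0 : ℂ) 1, lap (dlLog M ε) z)
          + ∫ z in ball (0 : ℂ) 1, g z) := by
      rw [integral_const_mul, integral_add (dl_integrableOn_disc hcl) (dl_integrableOn_disc h.contg)]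
    rw [e2] at e1
    refine e1.trans (mul_le_mul_of_nonneg_left ?_ (by positivity))
    have e3 := dl_integral_lap_log h hε0
    have e4 : 0 ≤ ∫ t in (-Real.pi)..Real.pi, M (exp (t * I)) / (M (exp (t * I)) + ε) :=
      intervalIntegral.integral_nonneg dl_pi_le (fun t _ => dl_circle_nonneg h hε0 t)
    have e5 := dl_integral_g_le h
    linarith
  have hfin : ∫ z in ball (0 : ℂ) 1, gsq M z / (M z + ε) ^ 2
      = ∫ z in ball (0 : ℂ) 1, gsq (dlLog M ε) z :=
    setIntegral_congr_fun measurableSet_ball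
      (fun z hz => (dl_gsq_log h hε0 (dl_ball_sub h.one_lt hz)).symm)
  rw [hfin]
  have hb : ∫ z in ball (0 : ℂ) 1, gsq (dlLog M ε) z
      ≤ (L + |Real.log ε|) * (Real.pi * G + 2 * Real.pi) := by linarith
  refine hb.trans ?_
  have a0 : 0 ≤ Real.pi * G + 2 * Real.pi := by positivity
  have a1 := abs_nonneg (Real.log ε)
  calc (L + |Real.log ε|) * (Real.pi * G + 2 * Real.pi)
      ≤ ((L + 1) * (1 + |Real.log ε|)) * (Real.pi * G + 2 * Real.pi) :=
        mul_le_mul_of_nonneg_right (by nlinarith) a0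
    _ = (L + 1) * (Real.pi * G + 2 * Real.pi) * (1 + |Real.log ε|) := by ring

end Pool.Agent.FK
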