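import Mathlib
import Pool.Agent.Helper99.FK.Defs

/-! FK-20a: Poincare inequality on the unit disc -/

set_option autoImplicit false

open Complex MeasureTheory Set Metric
open scoped ComplexConjugate Topology ENNReal

namespace Pool.Agent.FK

private theorem poin_conv {x y : ℂ} (hx : x ∈ ball (0 : ℂ) 1) (hy : y ∈ ball (0 : ℂ) 1) {t : ℝ}
    (h0 : 0 ≤ t) (h1 : t ≤ 1) : y + t * (x - y) ∈ ball (0 : ℂ) 1 := by
  have h := (convex_ball (0 : ℂ) 1) hy hx (a := 1 - t) (b := t) (by linarith) h0 (by ring)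
  convert h using 1
  simp only [Complex.real_smul]
  push_cast
  ring

private theorem poin_scale {g : ℂ → ℝ≥0∞} (hg : Measurable g) {w : ℂ} (hw : w ∈ ball (0 : ℂ) 1)
    {s : ℝ} (h0 : 1 / 2 ≤ s) (h1 : s ≤ 1) :
    ∫⁻ y in ball (0 : ℂ) 1, g (w + s * (y - w)) ≤ 4 * ∫⁻ z in ball (0 : ℂ) 1, g z := by
  set F : ℂ → ℝ≥0∞ := fun z => (ball (0 : ℂ) 1).indicator g ((1 - s : ℝ) * w + z) with hF
  have hFm : Measurable F :=
    (hg.indicator measurableSet_ball).comp (measurable_const.add measurable_id)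
  have hspos : s ≠ 0 := by linarith
  have h2 : ∫⁻ y in ball (0 : ℂ) 1, g (w + s * (y - w)) ≤ ∫⁻ y, F (s • y) := by
    rw [← lintegral_indicator measurableSet_ball]
    refine lintegral_mono fun y => ?_
    by_cases hy : y ∈ ball (0 : ℂ) 1
    · rw [indicator_of_mem hy, hF]
      have h3 : ((1 - s : ℝ) : ℂ) * w + s • y = w + s * (y - w) := by
        rw [Complex.real_smul]; push_cast; ring
      show g _ ≤ (ball (0 : ℂ) 1).indicator g (((1 - s : ℝ) : ℂ) * w + s • y)
      rw [h3, indicator_of_mem (poin_conv hy hw (by linarith) h1)]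
    · rw [indicator_of_notMem hy]; exact zero_le
  have h3 : ∫⁻ y, F (s • y) = ENNReal.ofReal |(s ^ 2)⁻¹| * ∫⁻ z, F z := by
    have h4 := Measure.map_addHaar_smul (volume : Measure ℂ) hspos
    rw [Complex.finrank_real_complex] at h4
    have h5 : ∫⁻ z, F z ∂(Measure.map (fun y : ℂ => s • y) volume) = ∫⁻ y, F (s • y) :=
      lintegral_map hFm (measurable_const_smul s)
    rw [← h5, h4, lintegral_smul_measure, smul_eq_mul]
  have h4 : ∫⁻ z, F z = ∫⁻ z in ball (0 : ℂ) 1, g z := by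
    rw [hF, lintegral_add_left_eq_self (fun z => (ball (0 : ℂ) 1).indicator g z)
      (((1 - s : ℝ) : ℂ) * w), lintegral_indicator measurableSet_ball]
  have h5 : ENNReal.ofReal |(s ^ 2)⁻¹| ≤ 4 := by
    have h6 : |(s ^ 2)⁻¹| ≤ 4 := by
      rw [abs_of_pos (by positivity)]
      rw [inv_le_comm₀ (by positivity) (by norm_num)]
      nlinarith
    calc ENNReal.ofReal |(s ^ 2)⁻¹| ≤ ENNReal.ofReal 4 := ENNReal.ofReal_le_ofReal h6
      _ = 4 := by norm_num
  calc _ ≤ _ := h2
    _ = _ := h3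
    _ = ENNReal.ofReal |(s ^ 2)⁻¹| * ∫⁻ z in ball (0 : ℂ) 1, g z := by rw [h4]
    _ ≤ _ := by gcongr

private theorem poin_vol : volume (ball (0 : ℂ) 1) = ENNReal.ofReal Real.pi := by
  rw [Complex.volume_ball]
  have h : ENNReal.ofReal Real.pi = (NNReal.pi : ℝ≥0∞) := by
    rw [ENNReal.ofReal, Real.toNNReal_of_nonneg Real.pi_pos.le]
    rfl
  rw [h]
  simp

/-- the average over all segments -/
private theorem poin_avg {g : ℂ → ℝ≥0∞} (hg : Measurable g) :
    ∫⁻ x in ball (0 : ℂ) 1, ∫⁻ y in ball (0 : ℂ) 1, ∫⁻ t in Ioc (0 : ℝ) 1, g (y + t * (x - y))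
      ≤ 4 * ENNReal.ofReal Real.pi * ∫⁻ z in ball (0 : ℂ) 1, g z := by
  set I := ∫⁻ z in ball (0 : ℂ) 1, g z with hI
  have hswap1 : ∀ x : ℂ, ∫⁻ y in ball (0 : ℂ) 1, ∫⁻ t in Ioc (0 : ℝ) 1, g (y + t * (x - y)) =
      ∫⁻ t in Ioc (0 : ℝ) 1, ∫⁻ y in ball (0 : ℂ) 1, g (y + t * (x - y)) := by
    intro x
    rw [lintegral_lintegral_swap]
    apply Measurable.aemeasurable
    apply hg.comp
    fun_prop
  have hmeas3 : Measurable (fun q : (ℂ × ℝ) × ℂ => g (q.2 + q.1.2 * (q.1.1 - q.2))) := by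
    apply hg.comp
    fun_prop
  have hmeas2 : Measurable (fun q : ℂ × ℝ => ∫⁻ y in ball (0 : ℂ) 1, g (y + q.2 * (q.1 - y))) :=
    hmeas3.lintegral_prod_right'
  calc ∫⁻ x in ball (0 : ℂ) 1, ∫⁻ y in ball (0 : ℂ) 1, ∫⁻ t in Ioc (0 : ℝ) 1,
        g (y + t * (x - y))
      = ∫⁻ x in ball (0 : ℂ) 1, ∫⁻ t in Ioc (0 : ℝ) 1, ∫⁻ y in ball (0 : ℂ) 1,
        g (y + t * (x - y)) := lintegral_congr fun x => hswap1 x
    _ = ∫⁻ t in Ioc (0 : ℝ) 1, ∫⁻ x in ball (0 : ℂ) 1, ∫⁻ y in ball (0 : ℂ) 1,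
        g (y + t * (x - y)) := by
        rw [lintegral_lintegral_swap]
        exact hmeas2.aemeasurable
    _ ≤ ∫⁻ _t in Ioc (0 : ℝ) 1, 4 * ENNReal.ofReal Real.pi * I := by
        refine setLIntegral_mono measurable_const fun t ht => ?_
        have hconst : ∫⁻ _x in ball (0 : ℂ) 1, 4 * I = 4 * ENNReal.ofReal Real.pi * I := by
          rw [lintegral_const, Measure.restrict_apply_univ, poin_vol]
          ring
        rcases le_total t (1 / 2) with h | h
        · rw [← hconst]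
          refine setLIntegral_mono measurable_const fun x hx => ?_
          have h1 := poin_scale hg hx (s := 1 - t) (by linarith) (by linarith [ht.1])
          refine le_trans (le_of_eq ?_) h1
          refine lintegral_congr fun y => ?_
          congr 1
          push_cast
          ring
        · have hsw : ∫⁻ x in ball (0 : ℂ) 1, ∫⁻ y in ball (0 : ℂ) 1, g (y + t * (x - y)) =
              ∫⁻ y in ball (0 : ℂ) 1, ∫⁻ x in ball (0 : ℂ) 1, g (y + t * (x - y)) := by
            rw [lintegral_lintegral_swap]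
            apply Measurable.aemeasurable
            apply hg.comp
            fun_prop
          rw [hsw, ← hconst]
          refine setLIntegral_mono measurable_const fun y hy => ?_
          exact poin_scale hg hy h ht.2
    _ = 4 * ENNReal.ofReal Real.pi * I := by
        rw [lintegral_const, Measure.restrict_apply_univ, Real.volume_Ioc]
        simp

private theorem poin_gsq_nonneg (X : ℂ → ℝ) (z : ℂ) : 0 ≤ gsq X z := by
  unfold gsq; positivity

private theorem poin_dir (X : ℂ → ℝ) (z v : ℂ) :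
    (fderiv ℝ X z v) ^ 2 ≤ ‖v‖ ^ 2 * gsq X z := by
  have h1 : v = v.re • (1 : ℂ) + v.im • I := by
    simp [Complex.real_smul, Complex.re_add_im]
  have h2 : fderiv ℝ X z v = v.re * fderiv ℝ X z 1 + v.im * fderiv ℝ X z I := by
    conv_lhs => rw [h1]
    rw [map_add, map_smul, map_smul, smul_eq_mul, smul_eq_mul]
  have h3 : ‖v‖ ^ 2 = v.re ^ 2 + v.im ^ 2 := by
    rw [Complex.sq_norm, Complex.normSq_apply]; ring
  rw [h2, h3]
  unfold gsq
  nlinarith [sq_nonneg (v.re * fderiv ℝ X z I - v.im * fderiv ℝ X z 1)]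

/-- the pointwise estimate -/
private theorem poin_point {R : ℝ} (hR : 1 < R) {X : ℂ → ℝ} (hX : ContDiffOn ℝ 1 X (ball 0 R))
    {x y : ℂ} (hx : x ∈ ball (0 : ℂ) 1) (hy : y ∈ ball (0 : ℂ) 1) :
    (X x - X y) ^ 2 ≤ 4 * ∫ t in Ioc (0 : ℝ) 1, gsq X (y + t * (x - y)) := by
  have hsub : ball (0 : ℂ) 1 ⊆ ball 0 R := ball_subset_ball hR.le
  have hdiff : ∀ z ∈ ball (0 : ℂ) R, DifferentiableAt ℝ X z := fun z hz =>
    (hX.differentiableOn (by norm_num)).differentiableAt (isOpen_ball.mem_nhds hz)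
  have hcont : ContinuousOn (fderiv ℝ X) (ball 0 R) :=
    hX.continuousOn_fderiv_of_isOpen isOpen_ball le_rfl
  have hpath : ∀ t ∈ Icc (0 : ℝ) 1, y + t * (x - y) ∈ ball (0 : ℂ) R := fun t ht =>
    hsub (poin_conv hx hy ht.1 ht.2)
  have hpc : Continuous (fun t : ℝ => y + (t : ℂ) * (x - y)) := by fun_prop
  have hder : ∀ t ∈ Icc (0 : ℝ) 1, HasDerivAt (fun t : ℝ => X (y + t * (x - y)))
      (fderiv ℝ X (y + t * (x - y)) (x - y)) t := by
    intro t ht
    have h1 : HasDerivAt (fun t : ℝ => y + (t : ℂ) * (x - y)) (x - y) t := by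
      have h2 : HasDerivAt (fun t : ℝ => (t : ℂ)) 1 t := Complex.ofRealCLM.hasDerivAt
      simpa using (h2.mul_const (x - y)).const_add y
    exact (hdiff _ (hpath t ht)).hasFDerivAt.comp_hasDerivAt t h1
  have hcd : ContinuousOn (fun t : ℝ => fderiv ℝ X (y + t * (x - y)) (x - y)) (Icc 0 1) := by
    have h1 : ContinuousOn (fun t : ℝ => fderiv ℝ X (y + t * (x - y))) (Icc 0 1) :=
      hcont.comp hpc.continuousOn (fun t ht => hpath t ht)
    exact h1.clm_apply continuousOn_const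
  have hcg : ContinuousOn (fun t : ℝ => gsq X (y + t * (x - y))) (Icc 0 1) := by
    have h1 : ContinuousOn (fun t : ℝ => fderiv ℝ X (y + t * (x - y))) (Icc 0 1) :=
      hcont.comp hpc.continuousOn (fun t ht => hpath t ht)
    unfold gsq
    exact ((h1.clm_apply continuousOn_const).pow 2).add
      ((h1.clm_apply continuousOn_const).pow 2)
  have hii : IntervalIntegrable (fun t : ℝ => fderiv ℝ X (y + t * (x - y)) (x - y)) volume 0 1 :=
    (by rw [uIcc_of_le zero_le_one]; exact hcd :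
      ContinuousOn _ (uIcc (0 : ℝ) 1)).intervalIntegrable
  have hig : IntervalIntegrable (fun t : ℝ => gsq X (y + t * (x - y))) volume 0 1 :=
    (by rw [uIcc_of_le zero_le_one]; exact hcg :
      ContinuousOn _ (uIcc (0 : ℝ) 1)).intervalIntegrable
  have hftc := intervalIntegral.integral_eq_sub_of_hasDerivAt
    (f := fun t : ℝ => X (y + t * (x - y)))
    (f' := fun t : ℝ => fderiv ℝ X (y + t * (x - y)) (x - y)) (a := 0) (b := 1)
    (fun t ht => hder t (by rwa [uIcc_of_le zero_le_one] at ht)) hii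
  have hval : ∫ t in (0 : ℝ)..1, fderiv ℝ X (y + t * (x - y)) (x - y) = X x - X y := by
    rw [hftc]
    simp
  set a : ℝ := X x - X y with ha
  have hnorm : ‖x - y‖ ^ 2 ≤ 4 := by
    have h1 : ‖x‖ < 1 := by simpa using hx
    have h2 : ‖y‖ < 1 := by simpa using hy
    have h3 := norm_sub_le x y
    have h4 := norm_nonneg (x - y)
    nlinarith
  have hle : ∫ t in (0 : ℝ)..1, (2 * a * fderiv ℝ X (y + t * (x - y)) (x - y) - a ^ 2) ≤
      ∫ t in (0 : ℝ)..1, 4 * gsq X (y + t * (x - y)) := by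
    refine intervalIntegral.integral_mono_on zero_le_one ((hii.const_mul _).sub
      intervalIntegrable_const) (hig.const_mul _) fun t ht => ?_
    have h1 := poin_dir X (y + t * (x - y)) (x - y)
    have h2 := poin_gsq_nonneg X (y + t * (x - y))
    have h3 : ‖x - y‖ ^ 2 * gsq X (y + t * (x - y)) ≤ 4 * gsq X (y + t * (x - y)) :=
      mul_le_mul_of_nonneg_right hnorm h2
    nlinarith [sq_nonneg (fderiv ℝ X (y + t * (x - y)) (x - y) - a)]
  rw [intervalIntegral.integral_sub (hii.const_mul _) intervalIntegrable_const,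
    intervalIntegral.integral_const_mul, hval, intervalIntegral.integral_const,
    intervalIntegral.integral_const_mul] at hle
  rw [intervalIntegral.integral_of_le zero_le_one] at hle
  simp only [sub_zero, one_smul] at hle
  nlinarith

theorem poin {R : ℝ} (hR : 1 < R) {X : ℂ → ℝ} (hX : ContDiffOn ℝ 1 X (ball 0 R)) :
    ∫ x in ball (0 : ℂ) 1, ∫ y in ball (0 : ℂ) 1, (X x - X y) ^ 2
      ≤ 16 * Real.pi * ∫ z in ball (0 : ℂ) 1, gsq X z := by
  have hgm : Measurable (fun z => ‖gsq X z‖ₑ) := by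
    unfold gsq
    fun_prop
  have hcont : ContinuousOn (fderiv ℝ X) (ball 0 R) :=
    hX.continuousOn_fderiv_of_isOpen isOpen_ball le_rfl
  have hcg : ContinuousOn (gsq X) (closedBall 0 1) := by
    have h1 : ContinuousOn (fderiv ℝ X) (closedBall 0 1) :=
      hcont.mono (closedBall_subset_ball hR)
    unfold gsq
    exact ((h1.clm_apply continuousOn_const).pow 2).add
      ((h1.clm_apply continuousOn_const).pow 2)
  have hint : IntegrableOn (gsq X) (ball (0 : ℂ) 1) :=
    (hcg.integrableOn_compact (isCompact_closedBall 0 1)).mono_set ball_subset_closedBall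
  have hI : ENNReal.ofReal (∫ z in ball (0 : ℂ) 1, gsq X z) =
      ∫⁻ z in ball (0 : ℂ) 1, ‖gsq X z‖ₑ := by
    rw [ofReal_integral_eq_lintegral_ofReal hint
      (Filter.Eventually.of_forall fun z => poin_gsq_nonneg X z)]
    refine lintegral_congr fun z => ?_
    rw [Real.enorm_of_nonneg (poin_gsq_nonneg X z)]
  have hR0 : 0 ≤ ∫ z in ball (0 : ℂ) 1, gsq X z :=
    integral_nonneg fun z => poin_gsq_nonneg X z
  have hmain : ENNReal.ofReal (∫ x in ball (0 : ℂ) 1, ∫ y in ball (0 : ℂ) 1, (X x - X y) ^ 2) ≤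
      ENNReal.ofReal (16 * Real.pi * ∫ z in ball (0 : ℂ) 1, gsq X z) := by
    calc ENNReal.ofReal (∫ x in ball (0 : ℂ) 1, ∫ y in ball (0 : ℂ) 1, (X x - X y) ^ 2)
        ≤ ‖∫ x in ball (0 : ℂ) 1, ∫ y in ball (0 : ℂ) 1, (X x - X y) ^ 2‖ₑ :=
          Real.ofReal_le_enorm _
      _ ≤ ∫⁻ x in ball (0 : ℂ) 1, ‖∫ y in ball (0 : ℂ) 1, (X x - X y) ^ 2‖ₑ :=
          enorm_integral_le_lintegral_enorm _
      _ ≤ ∫⁻ x in ball (0 : ℂ) 1, ∫⁻ y in ball (0 : ℂ) 1, ‖(X x - X y) ^ 2‖ₑ :=
          lintegral_mono fun x => enorm_integral_le_lintegral_enorm _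
      _ ≤ ∫⁻ x in ball (0 : ℂ) 1, ∫⁻ y in ball (0 : ℂ) 1,
            4 * ∫⁻ t in Ioc (0 : ℝ) 1, ‖gsq X (y + t * (x - y))‖ₑ := by
          refine lintegral_mono_ae ?_
          filter_upwards [ae_restrict_mem measurableSet_ball] with x hx
          refine lintegral_mono_ae ?_
          filter_upwards [ae_restrict_mem measurableSet_ball] with y hy
          have h1 := poin_point hR hX hx hy
          rw [Real.enorm_of_nonneg (sq_nonneg _)]
          calc ENNReal.ofReal ((X x - X y) ^ 2)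
              ≤ ENNReal.ofReal (4 * ∫ t in Ioc (0 : ℝ) 1, gsq X (y + t * (x - y))) :=
                ENNReal.ofReal_le_ofReal h1
            _ = 4 * ENNReal.ofReal (∫ t in Ioc (0 : ℝ) 1, gsq X (y + t * (x - y))) := by
                rw [ENNReal.ofReal_mul (by norm_num)]
                norm_num
            _ ≤ 4 * ‖∫ t in Ioc (0 : ℝ) 1, gsq X (y + t * (x - y))‖ₑ := by
                gcongr
                exact Real.ofReal_le_enorm _
            _ ≤ 4 * ∫⁻ t in Ioc (0 : ℝ) 1, ‖gsq X (y + t * (x - y))‖ₑ := by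
                gcongr
                exact enorm_integral_le_lintegral_enorm _
      _ = 4 * ∫⁻ x in ball (0 : ℂ) 1, ∫⁻ y in ball (0 : ℂ) 1,
            ∫⁻ t in Ioc (0 : ℝ) 1, ‖gsq X (y + t * (x - y))‖ₑ := by
          rw [← lintegral_const_mul' _ _ (by norm_num)]
          refine lintegral_congr fun x => ?_
          rw [← lintegral_const_mul' _ _ (by norm_num)]
      _ ≤ 4 * (4 * ENNReal.ofReal Real.pi * ∫⁻ z in ball (0 : ℂ) 1, ‖gsq X z‖ₑ) := by
          gcongr
          exact poin_avg hgm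
      _ = ENNReal.ofReal (16 * Real.pi * ∫ z in ball (0 : ℂ) 1, gsq X z) := by
          rw [ENNReal.ofReal_mul (by positivity), ENNReal.ofReal_mul (by norm_num), hI]
          have : ENNReal.ofReal 16 = 16 := by norm_num
          rw [this]
          ring
  exact (ENNReal.ofReal_le_ofReal_iff (by positivity)).1 hmain

end Pool.Agent.FK
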