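import Mathlib
import Pool.Agent.Helper99.FK.Defs

/-! FK-20b: trace inequality on the unit disc -/

set_option autoImplicit false

open Complex MeasureTheory Set Metric
open scoped ComplexConjugate Topology

namespace Pool.Agent.FK

/-- polar coordinates on the unit disc -/
theorem tr_polar (h : ℂ → ℝ) :
    ∫ z in ball (0 : ℂ) 1, h z =
      ∫ p in Ioo (0 : ℝ) 1 ×ˢ Ioo (-Real.pi) Real.pi, p.1 * h (p.1 * exp (p.2 * I)) := by
  have hsymm : ∀ p : ℝ × ℝ, Complex.polarCoord.symm p = p.1 * exp (p.2 * I) := by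
    intro p
    rw [Complex.polarCoord_symm_apply, Complex.exp_mul_I, Complex.ofReal_cos, Complex.ofReal_sin]
  rw [← integral_indicator measurableSet_ball, ← Complex.integral_comp_polarCoord_symm]
  have hsub : Ioo (0 : ℝ) 1 ×ˢ Ioo (-Real.pi) Real.pi ⊆ polarCoord.target := by
    rw [polarCoord_target]
    exact prod_mono Ioo_subset_Ioi_self subset_rfl
  rw [setIntegral_eq_of_subset_of_forall_sdiff_eq_zero polarCoord.open_target.measurableSet hsub]
  · apply setIntegral_congr_fun (measurableSet_Ioo.prod measurableSet_Ioo)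
    intro p hp
    have h1 : Complex.polarCoord.symm p ∈ ball (0 : ℂ) 1 := by
      rw [mem_ball_zero_iff, Complex.norm_polarCoord_symm, abs_of_pos hp.1.1]
      exact hp.1.2
    simp only [smul_eq_mul]
    rw [indicator_of_mem h1, hsymm]
  · intro p hp
    have h1 : Complex.polarCoord.symm p ∉ ball (0 : ℂ) 1 := by
      rw [mem_ball_zero_iff, Complex.norm_polarCoord_symm]
      intro h2
      apply hp.2
      have h3 : p ∈ polarCoord.target := hp.1
      rw [polarCoord_target] at h3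
      have h4 : 0 < p.1 := h3.1
      rw [abs_of_pos h4] at h2
      exact ⟨⟨h4, h2⟩, h3.2⟩
    rw [indicator_of_notMem h1, smul_zero]

theorem tr_gsq {X : ℂ → ℝ} {z : ℂ} (t : ℝ) : (fderiv ℝ X z (exp (t * I))) ^ 2 ≤ gsq X z := by
  have h1 : exp (t * I) = (Real.cos t) • (1 : ℂ) + (Real.sin t) • I := by
    rw [Complex.exp_mul_I, Complex.real_smul, Complex.real_smul, Complex.ofReal_cos,
      Complex.ofReal_sin, mul_one]
  rw [h1, map_add, map_smul, map_smul, smul_eq_mul, smul_eq_mul]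
  unfold gsq
  nlinarith [Real.sin_sq_add_cos_sq t, sq_nonneg (Real.cos t * fderiv ℝ X z I -
    Real.sin t * fderiv ℝ X z 1), sq_nonneg (fderiv ℝ X z 1), sq_nonneg (fderiv ℝ X z I)]

theorem trace {R : ℝ} (hR : 1 < R) {X : ℂ → ℝ} (hX : ContDiffOn ℝ 1 X (ball 0 R)) :
    ∫ r in (1 / 2 : ℝ)..1, ∫ t in (-Real.pi)..Real.pi,
        (X (exp (t * I)) - X (r * exp (t * I))) ^ 2
      ≤ ∫ z in ball (0 : ℂ) 1, gsq X z := by
  have hπ : -Real.pi ≤ Real.pi := by linarith [Real.pi_pos]
  -- continuity of the differential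
  have hD : ContinuousOn (fderiv ℝ X) (ball 0 R) :=
    hX.continuousOn_fderiv_of_isOpen isOpen_ball le_rfl
  have hg : ContinuousOn (gsq X) (ball 0 R) := by
    have h1 : ContinuousOn (fun z => fderiv ℝ X z 1) (ball 0 R) :=
      hD.clm_apply continuousOn_const
    have h2 : ContinuousOn (fun z => fderiv ℝ X z I) (ball 0 R) :=
      hD.clm_apply continuousOn_const
    exact (h1.pow 2).add (h2.pow 2)
  have hgn : ∀ z, 0 ≤ gsq X z := fun z => add_nonneg (sq_nonneg _) (sq_nonneg _)
  have hmem : ∀ s t : ℝ, s ∈ Icc (0 : ℝ) 1 → (s : ℂ) * exp (t * I) ∈ ball (0 : ℂ) R := by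
    intro s t hs
    rw [mem_ball_zero_iff, norm_mul, Complex.norm_exp_ofReal_mul_I, mul_one, Complex.norm_real,
      Real.norm_of_nonneg hs.1]
    linarith [hs.2]
  -- the kernel
  set K : ℝ × ℝ → ℝ := fun p => p.1 * gsq X (p.1 * exp (p.2 * I)) with hK
  have hKc : ContinuousOn K (Icc (0 : ℝ) 1 ×ˢ Icc (-Real.pi) Real.pi) := by
    have h1 : Continuous (fun p : ℝ × ℝ => (p.1 : ℂ) * exp (p.2 * I)) := by fun_prop
    refine continuousOn_fst.mul (hg.comp h1.continuousOn ?_)
    intro p hp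
    exact hmem p.1 p.2 hp.1
  have hKi : IntegrableOn K (Icc (0 : ℝ) 1 ×ˢ Icc (-Real.pi) Real.pi) :=
    hKc.integrableOn_compact (isCompact_Icc.prod isCompact_Icc)
  have hKn : ∀ p : ℝ × ℝ, 0 ≤ p.1 → 0 ≤ K p := fun p hp => mul_nonneg hp (hgn _)
  -- the right side
  have hpolar : ∫ z in ball (0 : ℂ) 1, gsq X z =
      ∫ p in Ioo (0 : ℝ) 1 ×ˢ Ioo (-Real.pi) Real.pi, K p := tr_polar (gsq X)
  have hK1 : IntegrableOn K (Ioo (0 : ℝ) 1 ×ˢ Ioo (-Real.pi) Real.pi) :=
    hKi.mono_set (prod_mono Ioo_subset_Icc_self Ioo_subset_Icc_self)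
  have hK2 : IntegrableOn K (Ioc (1 / 2 : ℝ) 1 ×ˢ Ioc (-Real.pi) Real.pi) :=
    hKi.mono_set (prod_mono (fun x hx => ⟨by linarith [hx.1], hx.2⟩) Ioc_subset_Icc_self)
  have hle1 : ∫ p in Ioc (1 / 2 : ℝ) 1 ×ˢ Ioc (-Real.pi) Real.pi, K p ≤
      ∫ p in Ioo (0 : ℝ) 1 ×ˢ Ioo (-Real.pi) Real.pi, K p := by
    have h1 : (Ioo (0 : ℝ) 1 ×ˢ Ioo (-Real.pi) Real.pi : Set (ℝ × ℝ)) =ᵐ[volume]
        (Ioc (0 : ℝ) 1 ×ˢ Ioc (-Real.pi) Real.pi : Set (ℝ × ℝ)) :=
      Measure.set_prod_ae_eq Ioo_ae_eq_Ioc Ioo_ae_eq_Ioc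
    rw [setIntegral_congr_set h1]
    refine setIntegral_mono_set (hK1.congr_set_ae h1.symm) ?_ ?_
    · filter_upwards [ae_restrict_mem (measurableSet_Ioc.prod measurableSet_Ioc)] with p hp
      exact hKn p hp.1.1.le
    · have h2 : (Ioc (1 / 2 : ℝ) 1) ⊆ Ioc (0 : ℝ) 1 := fun x hx => ⟨by linarith [hx.1], hx.2⟩
      exact (prod_mono h2 subset_rfl :
        (Ioc (1 / 2 : ℝ) 1 ×ˢ Ioc (-Real.pi) Real.pi : Set (ℝ × ℝ)) ⊆
          Ioc (0 : ℝ) 1 ×ˢ Ioc (-Real.pi) Real.pi).eventuallyLE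
  -- the inner integral
  set Φ : ℝ → ℝ := fun t => ∫ s in Ioc (1 / 2 : ℝ) 1, K (s, t) with hΦ
  have hK3 : Integrable K ((volume.restrict (Ioc (1 / 2 : ℝ) 1)).prod
      (volume.restrict (Ioc (-Real.pi) Real.pi))) := by
    rw [Measure.prod_restrict]
    exact hK2
  have hΦi : Integrable Φ (volume.restrict (Ioc (-Real.pi) Real.pi)) := hK3.integral_prod_right
  have hΦe : ∫ t in Ioc (-Real.pi) Real.pi, Φ t =
      ∫ p in Ioc (1 / 2 : ℝ) 1 ×ˢ Ioc (-Real.pi) Real.pi, K p := by
    have h1 := integral_prod_symm K hK3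
    rw [Measure.prod_restrict] at h1
    exact h1.symm
  -- pointwise bound
  have hpt : ∀ r ∈ Icc (1 / 2 : ℝ) 1, ∀ t : ℝ,
      (X (exp (t * I)) - X (r * exp (t * I))) ^ 2 ≤ Φ t := by
    intro r hr t
    set A := X (exp (t * I)) - X (r * exp (t * I)) with hA
    have hr0 : (0 : ℝ) ≤ r := by linarith [hr.1]
    have hcurve : Continuous (fun s : ℝ => (s : ℂ) * exp (t * I)) := by fun_prop
    have hd : ∀ s ∈ uIcc r 1, HasDerivAt (fun s : ℝ => X (s * exp (t * I)))
        (fderiv ℝ X (s * exp (t * I)) (exp (t * I))) s := by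
      intro s hs
      rw [uIcc_of_le hr.2] at hs
      have h1 : HasFDerivAt X (fderiv ℝ X (s * exp (t * I))) (s * exp (t * I)) := by
        have h2 : DifferentiableAt ℝ X (s * exp (t * I)) :=
          (hX.differentiableOn one_ne_zero).differentiableAt
            (isOpen_ball.mem_nhds (hmem s t ⟨by linarith [hs.1], hs.2⟩))
        exact h2.hasFDerivAt
      have h3 : HasDerivAt (fun s : ℝ => (s : ℂ) * exp (t * I)) (exp (t * I)) s := by
        simpa using (Complex.ofRealCLM.hasDerivAt (x := s)).mul_const (exp (t * I))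
      exact h1.comp_hasDerivAt s h3
    have hdc : ContinuousOn (fun s : ℝ => fderiv ℝ X (s * exp (t * I)) (exp (t * I)))
        (Icc r 1) := by
      refine (hD.comp hcurve.continuousOn ?_).clm_apply continuousOn_const
      intro s hs
      exact hmem s t ⟨by linarith [hs.1], hs.2⟩
    have hdi : IntervalIntegrable (fun s : ℝ => fderiv ℝ X (s * exp (t * I)) (exp (t * I)))
        volume r 1 := by
      apply ContinuousOn.intervalIntegrable
      rwa [uIcc_of_le hr.2]
    have hftc := intervalIntegral.integral_eq_sub_of_hasDerivAt hd hdi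
    have hKs : ContinuousOn (fun s : ℝ => K (s, t)) (Icc (1 / 2) 1) := by
      refine continuousOn_id.mul (hg.comp hcurve.continuousOn ?_)
      intro s hs
      exact hmem s t ⟨by linarith [hs.1], hs.2⟩
    have hKsi : IntervalIntegrable (fun s : ℝ => K (s, t)) volume (1 / 2) 1 := by
      apply ContinuousOn.intervalIntegrable
      rwa [uIcc_of_le (by norm_num)]
    have hKsi1 : IntervalIntegrable (fun s : ℝ => K (s, t)) volume r 1 := by
      apply ContinuousOn.intervalIntegrable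
      rw [uIcc_of_le hr.2]
      exact hKs.mono (Icc_subset_Icc_left hr.1)
    have h1 : ∫ s in r..1, (2 * A * fderiv ℝ X (s * exp (t * I)) (exp (t * I)) - 2 * A ^ 2) ≤
        ∫ s in r..1, K (s, t) := by
      apply intervalIntegral.integral_mono_on hr.2
      · exact (hdi.const_mul _).sub (by simp)
      · exact hKsi1
      · intro s hs
        have h2 := tr_gsq (X := X) (z := s * exp (t * I)) t
        have h3 : 1 / 2 ≤ s := hr.1.trans hs.1
        have h4 := hgn (s * exp (t * I))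
        change _ ≤ s * gsq X (s * exp (t * I))
        nlinarith [sq_nonneg (fderiv ℝ X (s * exp (t * I)) (exp (t * I)) - 2 * A),
          mul_le_mul_of_nonneg_right h3 h4]
    have h2 : ∫ s in r..1, (2 * A * fderiv ℝ X (s * exp (t * I)) (exp (t * I)) - 2 * A ^ 2) =
        2 * A ^ 2 * r := by
      rw [intervalIntegral.integral_sub (hdi.const_mul _) (by simp),
        intervalIntegral.integral_const_mul, hftc, intervalIntegral.integral_const]
      have h3 : X ((1 : ℝ) * exp (t * I)) - X (r * exp (t * I)) = A := by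
        rw [hA]
        simp
      rw [h3, smul_eq_mul]
      ring
    have h3 : ∫ s in r..1, K (s, t) ≤ Φ t := by
      have h4 : Φ t = ∫ s in (1 / 2 : ℝ)..1, K (s, t) := by
        rw [intervalIntegral.integral_of_le (by norm_num)]
      have hKsi0 : IntervalIntegrable (fun s : ℝ => K (s, t)) volume (1 / 2) r := by
        apply ContinuousOn.intervalIntegrable
        rw [uIcc_of_le hr.1]
        exact hKs.mono (Icc_subset_Icc_right hr.2)
      rw [h4, ← intervalIntegral.integral_add_adjacent_intervals hKsi0 hKsi1]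
      have h5 : 0 ≤ ∫ s in (1 / 2 : ℝ)..r, K (s, t) := by
        apply intervalIntegral.integral_nonneg hr.1
        intro s hs
        exact hKn (s, t) (by
          have := hs.1
          change (0 : ℝ) ≤ s
          linarith)
      linarith
    have h4 := mul_le_mul_of_nonneg_left hr.1 (sq_nonneg A)
    have h5 : A ^ 2 ≤ 2 * A ^ 2 * r := by linarith
    linarith
  -- the outer integral
  have hG : ∀ r ∈ Icc (1 / 2 : ℝ) 1, ∫ t in (-Real.pi)..Real.pi,
      (X (exp (t * I)) - X (r * exp (t * I))) ^ 2 ≤ ∫ t in Ioc (-Real.pi) Real.pi, Φ t := by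
    intro r hr
    rw [intervalIntegral.integral_of_le hπ]
    by_cases hi : Integrable (fun t : ℝ => (X (exp (t * I)) - X (r * exp (t * I))) ^ 2)
        (volume.restrict (Ioc (-Real.pi) Real.pi))
    · exact integral_mono hi hΦi (fun t => hpt r hr t)
    · rw [integral_undef hi]
      exact integral_nonneg (fun t => (sq_nonneg _).trans (hpt r hr t))
  set C := ∫ t in Ioc (-Real.pi) Real.pi, Φ t with hC
  have hC0 : 0 ≤ C := integral_nonneg (fun t => (sq_nonneg _).trans (hpt 1 ⟨by norm_num, le_rfl⟩ t))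
  have h1 : ‖∫ r in (1 / 2 : ℝ)..1, ∫ t in (-Real.pi)..Real.pi,
      (X (exp (t * I)) - X (r * exp (t * I))) ^ 2‖ ≤ C * |1 - 1 / 2| := by
    apply intervalIntegral.norm_integral_le_of_norm_le_const
    intro r hr
    rw [uIoc_of_le (by norm_num)] at hr
    rw [Real.norm_of_nonneg (intervalIntegral.integral_nonneg hπ (fun t _ => sq_nonneg _))]
    exact hG r ⟨hr.1.le, hr.2⟩
  have h2 := (le_abs_self _).trans h1
  rw [hpolar]
  refine h2.trans ((?_ : _ ≤ C).trans (hΦe.le.trans hle1))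
  have h3 : |(1 : ℝ) - 1 / 2| = 1 / 2 := by norm_num [abs_of_pos]
  rw [h3]
  linarith

end Pool.Agent.FK
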