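import Mathlib
import Pool.Agent.Helper99.FK.Abs1
import Pool.Agent.Helper99.FK.Poin
import Pool.Agent.Helper99.FK.Trace

/-! FK-22: the zero set is a null set, also on the circle -/

set_option autoImplicit false

open Complex MeasureTheory Set Metric
open scoped ComplexConjugate Topology

namespace Pool.Agent.FK

variable {R G : ℝ} {M Q g : ℂ → ℝ}

/-! ### the sequence of regularisations -/

/-- a sequence of small parameters -/
noncomputable def dlEps (n : ℕ) : ℝ := 1 / ((n : ℝ) + 2)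

theorem dlEps_pos (n : ℕ) : 0 < dlEps n := by
  unfold dlEps
  positivity

theorem dlEps_le (n : ℕ) : dlEps n ≤ 1 / 2 := by
  unfold dlEps
  apply one_div_le_one_div_of_le (by norm_num)
  linarith [(Nat.cast_nonneg n : (0 : ℝ) ≤ n)]

theorem dlEps_mem (n : ℕ) : dlEps n ∈ Ioo (0 : ℝ) 1 :=
  ⟨dlEps_pos n, (dlEps_le n).trans_lt (by norm_num)⟩

theorem dlEps_tendsto : Filter.Tendsto dlEps Filter.atTop (𝓝 0) := by
  unfold dlEps
  apply Filter.Tendsto.const_div_atTop
  exact Filter.tendsto_atTop_add_const_right _ _ tendsto_natCast_atTop_atTop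

theorem dlEps_tendsto' : Filter.Tendsto dlEps Filter.atTop (𝓝[>] 0) :=
  tendsto_nhdsWithin_iff.2 ⟨dlEps_tendsto, Filter.Eventually.of_forall dlEps_pos⟩

theorem dlEps_log_tendsto :
    Filter.Tendsto (fun n => Real.log (dlEps n)) Filter.atTop Filter.atBot :=
  Real.tendsto_log_nhdsGT_zero.comp dlEps_tendsto'

theorem dlEps_log_le (n : ℕ) : Real.log (dlEps n) ≤ - Real.log 2 := by
  have h := Real.log_le_log (dlEps_pos n) (dlEps_le n)
  rwa [one_div, Real.log_inv] at h

theorem log_two_pos' : 0 < Real.log 2 := Real.log_pos (by norm_num)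

/-- the normalised logarithm -/
noncomputable def dlX (M : ℂ → ℝ) (n : ℕ) (z : ℂ) : ℝ :=
  (Real.log (dlEps n))⁻¹ * dlLog M (dlEps n) z

theorem dlX_contDiffOn (h : DiscData R G M Q g) (n : ℕ) :
    ContDiffOn ℝ 2 (dlX M n) (ball 0 R) :=
  contDiffOn_const.mul (dl_contDiffOn_log h (dlEps_pos n))

theorem dlX_cont (h : DiscData R G M Q g) (n : ℕ) :
    ContinuousOn (dlX M n) (closedBall 0 1) :=
  (dlX_contDiffOn h n).continuousOn.mono (dl_closedBall_sub h.one_lt)

theorem dlX_gsq (h : DiscData R G M Q g) (n : ℕ) {z : ℂ} (hz : z ∈ ball (0 : ℂ) R) :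
    gsq (dlX M n) z
      = ((Real.log (dlEps n)) ^ 2)⁻¹ * (gsq M z / (M z + dlEps n) ^ 2) := by
  rw [← dl_gsq_log h (dlEps_pos n) hz]
  have h1 : DifferentiableAt ℝ (dlLog M (dlEps n)) z :=
    dl_differentiableAt_of (by norm_num) (dl_contDiffOn_log h (dlEps_pos n)) hz
  have h2 : fderiv ℝ (dlX M n) z
      = (Real.log (dlEps n))⁻¹ • fderiv ℝ (dlLog M (dlEps n)) z :=
    (h1.hasFDerivAt.const_mul _).fderiv
  unfold gsq
  rw [h2]
  simp only [smul_apply, smul_eq_mul]
  ring

theorem dlX_bound (h : DiscData R G M Q g) :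
    ∃ B : ℝ, 0 ≤ B ∧ ∀ n, ∀ z ∈ closedBall (0 : ℂ) 1, |dlX M n z| ≤ B := by
  obtain ⟨K, hK⟩ := (isCompact_closedBall (0 : ℂ) 1).bddAbove_image (dl_contM h)
  have hK' : ∀ z ∈ closedBall (0 : ℂ) 1, M z ≤ K := fun z hz => hK ⟨z, hz, rfl⟩
  have hK0 : 0 ≤ K := (h.nonneg 0 (mem_ball_self (by linarith [h.one_lt]))).trans
    (hK' 0 (mem_closedBall_self zero_le_one))
  have hL0 : 0 ≤ Real.log (K + 1) := Real.log_nonneg (by linarith)
  have h2 := log_two_pos'
  refine ⟨Real.log (K + 1) / Real.log 2 + 1, by positivity, ?_⟩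
  intro n z hz
  have hl := dlEps_log_le n
  have hpos := dl_add_pos_of h (dlEps_pos n) (dl_closedBall_sub h.one_lt hz)
  have a1 : dlLog M (dlEps n) z ≤ Real.log (K + 1) :=
    Real.log_le_log hpos (by linarith [hK' z hz, (dlEps_mem n).2])
  have a2 : Real.log (dlEps n) ≤ dlLog M (dlEps n) z :=
    Real.log_le_log (dlEps_pos n)
      (by linarith [h.nonneg z (dl_closedBall_sub h.one_lt hz)])
  have a3 : |dlLog M (dlEps n) z| ≤ Real.log (K + 1) + (- Real.log (dlEps n)) := by
    rw [abs_le]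
    constructor <;> linarith
  have a4 : |Real.log (dlEps n)| = - Real.log (dlEps n) := abs_of_neg (by linarith)
  have a5 : 0 < - Real.log (dlEps n) := by linarith
  unfold dlX
  rw [abs_mul, abs_inv, a4]
  calc (- Real.log (dlEps n))⁻¹ * |dlLog M (dlEps n) z|
      ≤ (- Real.log (dlEps n))⁻¹ * (Real.log (K + 1) + (- Real.log (dlEps n))) :=
        mul_le_mul_of_nonneg_left a3 (inv_nonneg.2 a5.le)
    _ = Real.log (K + 1) / (- Real.log (dlEps n)) + 1 := by
        rw [mul_add, inv_mul_cancel₀ a5.ne', div_eq_inv_mul]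
    _ ≤ Real.log (K + 1) / Real.log 2 + 1 := by
        have : Real.log (K + 1) / (- Real.log (dlEps n)) ≤ Real.log (K + 1) / Real.log 2 :=
          div_le_div_of_nonneg_left hL0 h2 (by linarith)
        linarith

/-- the closed zero set -/
def dlZ (M : ℂ → ℝ) : Set ℂ := closedBall 0 1 ∩ M ⁻¹' {0}

theorem dlZ_closed (h : DiscData R G M Q g) : IsClosed (dlZ M) :=
  (dl_contM h).preimage_isClosed_of_isClosed isClosed_closedBall isClosed_singleton

/-- the indicator of the zero set -/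
noncomputable def dlChi (M : ℂ → ℝ) : ℂ → ℝ := (dlZ M).indicator 1

theorem dlX_tendsto {z : ℂ} (hz : z ∈ closedBall (0 : ℂ) 1) :
    Filter.Tendsto (fun n => dlX M n z) Filter.atTop (𝓝 (dlChi M z)) := by
  by_cases hM : M z = 0
  · have hmem : z ∈ dlZ M := ⟨hz, hM⟩
    have e1 : (fun n => dlX M n z) = fun _ => (1 : ℝ) := by
      funext n
      have h1 : Real.log (dlEps n) ≠ 0 := by
        have := dlEps_log_le n
        have := log_two_pos'
        intro h0
        linarith
      simp only [dlX, dlLog, hM, zero_add]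
      exact inv_mul_cancel₀ h1
    rw [e1, dlChi, indicator_of_mem hmem]
    exact tendsto_const_nhds
  · have hnm : z ∉ dlZ M := fun hc => hM hc.2
    rw [dlChi, indicator_of_notMem hnm]
    have h1 : Filter.Tendsto (fun n => (Real.log (dlEps n))⁻¹) Filter.atTop (𝓝 0) :=
      tendsto_inv_atBot_zero.comp dlEps_log_tendsto
    have h2 : Filter.Tendsto (fun n => dlLog M (dlEps n) z) Filter.atTop
        (𝓝 (Real.log (M z + 0))) := by
      have h3 : Filter.Tendsto (fun n => M z + dlEps n) Filter.atTop (𝓝 (M z + 0)) :=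
        tendsto_const_nhds.add dlEps_tendsto
      exact (Real.continuousAt_log (by simpa using hM)).tendsto.comp h3
    have h4 := h1.mul h2
    rw [zero_mul] at h4
    exact h4

theorem dlX_energy_tendsto (h : DiscData R G M Q g) :
    Filter.Tendsto (fun n => ∫ z in ball (0 : ℂ) 1, gsq (dlX M n) z) Filter.atTop (𝓝 0) := by
  obtain ⟨C, hC⟩ := disc_energy h
  have hnn : ∀ n, 0 ≤ ∫ z in ball (0 : ℂ) 1, gsq (dlX M n) z := fun n =>
    integral_nonneg (fun z => by unfold gsq; positivity)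
  have hle : ∀ n, ∫ z in ball (0 : ℂ) 1, gsq (dlX M n) z
      ≤ (|C| * ((Real.log (dlEps n))⁻¹ ^ 2 + |(Real.log (dlEps n))⁻¹|)) := by
    intro n
    have e1 : ∫ z in ball (0 : ℂ) 1, gsq (dlX M n) z
        = ((Real.log (dlEps n)) ^ 2)⁻¹ *
          ∫ z in ball (0 : ℂ) 1, gsq M z / (M z + dlEps n) ^ 2 := by
      rw [← integral_const_mul]
      exact setIntegral_congr_fun measurableSet_ball
        (fun z hz => dlX_gsq h n (dl_ball_sub h.one_lt hz))
    rw [e1]
    have hl := dlEps_log_le n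
    have hl2 := log_two_pos'
    have hne : Real.log (dlEps n) ≠ 0 := by
      intro h0
      linarith
    have habs : 0 < |Real.log (dlEps n)| := abs_pos.2 hne
    calc ((Real.log (dlEps n)) ^ 2)⁻¹ *
          ∫ z in ball (0 : ℂ) 1, gsq M z / (M z + dlEps n) ^ 2
        ≤ ((Real.log (dlEps n)) ^ 2)⁻¹ * (C * (1 + |Real.log (dlEps n)|)) :=
          mul_le_mul_of_nonneg_left (hC _ (dlEps_mem n)) (by positivity)
      _ ≤ ((Real.log (dlEps n)) ^ 2)⁻¹ * (|C| * (1 + |Real.log (dlEps n)|)) := by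
          apply mul_le_mul_of_nonneg_left _ (by positivity)
          exact mul_le_mul_of_nonneg_right (le_abs_self C) (by positivity)
      _ = |C| * ((Real.log (dlEps n))⁻¹ ^ 2 + |(Real.log (dlEps n))⁻¹|) := by
          rw [abs_inv, ← sq_abs (Real.log (dlEps n)), ← sq_abs (Real.log (dlEps n))⁻¹, abs_inv]
          field_simp
  have hlim : Filter.Tendsto
      (fun n => |C| * ((Real.log (dlEps n))⁻¹ ^ 2 + |(Real.log (dlEps n))⁻¹|))
      Filter.atTop (𝓝 0) := by
    have h1 : Filter.Tendsto (fun n => (Real.log (dlEps n))⁻¹) Filter.atTop (𝓝 0) :=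
      tendsto_inv_atBot_zero.comp dlEps_log_tendsto
    have h2 := ((h1.pow 2).add h1.abs).const_mul |C|
    simpa using h2
  exact squeeze_zero hnn hle hlim

/-! ### limits of integrals -/

theorem dl_meas_ball : (volume.restrict (ball (0 : ℂ) 1)).real univ = Real.pi := by
  simp [Measure.real]

theorem dl_finite : IsFiniteMeasure (volume.restrict (ball (0 : ℂ) 1)) :=
  ⟨by
    rw [Measure.restrict_apply_univ]
    exact measure_ball_lt_top⟩

theorem dlX_int_tendsto (h : DiscData R G M Q g) :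
    Filter.Tendsto (fun n => ∫ z in ball (0 : ℂ) 1, dlX M n z) Filter.atTop
      (𝓝 (volume.real (dlZ M ∩ ball 0 1))) := by
  have := dl_finite
  obtain ⟨B, hB0, hB⟩ := dlX_bound h
  have e1 : volume.real (dlZ M ∩ ball 0 1) = ∫ z in ball (0 : ℂ) 1, dlChi M z := by
    unfold dlChi
    rw [integral_indicator_one (dlZ_closed h).measurableSet]
    simp only [Measure.real]
    rw [Measure.restrict_apply (dlZ_closed h).measurableSet]
  rw [e1]
  refine tendsto_integral_filter_of_dominated_convergence (fun _ => B) ?_ ?_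
    (integrable_const B) ?_
  · exact Filter.Eventually.of_forall
      (fun n => (dl_integrableOn_disc (dlX_cont h n)).aestronglyMeasurable)
  · refine Filter.Eventually.of_forall (fun n => ?_)
    filter_upwards [ae_restrict_mem measurableSet_ball] with z hz
    exact hB n z (ball_subset_closedBall hz)
  · filter_upwards [ae_restrict_mem measurableSet_ball] with z hz
    exact dlX_tendsto (ball_subset_closedBall hz)

theorem dlChi_sq (z : ℂ) : dlChi M z ^ 2 = dlChi M z := by
  unfold dlChi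
  by_cases hz : z ∈ dlZ M
  · rw [indicator_of_mem hz]
    simp
  · rw [indicator_of_notMem hz]
    simp

theorem dlX_sq_int_tendsto (h : DiscData R G M Q g) :
    Filter.Tendsto (fun n => ∫ z in ball (0 : ℂ) 1, dlX M n z ^ 2) Filter.atTop
      (𝓝 (volume.real (dlZ M ∩ ball 0 1))) := by
  have := dl_finite
  obtain ⟨B, hB0, hB⟩ := dlX_bound h
  have e1 : volume.real (dlZ M ∩ ball 0 1) = ∫ z in ball (0 : ℂ) 1, dlChi M z := by
    unfold dlChi
    rw [integral_indicator_one (dlZ_closed h).measurableSet]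
    simp only [Measure.real]
    rw [Measure.restrict_apply (dlZ_closed h).measurableSet]
  rw [e1]
  refine tendsto_integral_filter_of_dominated_convergence (fun _ => B ^ 2) ?_ ?_
    (integrable_const _) ?_
  · exact Filter.Eventually.of_forall
      (fun n => (dl_integrableOn_disc ((dlX_cont h n).pow 2)).aestronglyMeasurable)
  · refine Filter.Eventually.of_forall (fun n => ?_)
    filter_upwards [ae_restrict_mem measurableSet_ball] with z hz
    rw [Real.norm_eq_abs, abs_pow]
    exact pow_le_pow_left₀ (abs_nonneg _) (hB n z (ball_subset_closedBall hz)) 2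
  · filter_upwards [ae_restrict_mem measurableSet_ball] with z hz
    have h1 := (dlX_tendsto (M := M) (ball_subset_closedBall hz)).pow 2
    rwa [dlChi_sq] at h1

theorem dl_double {F : ℂ → ℝ} (hF : ContinuousOn F (closedBall 0 1)) :
    ∫ x in ball (0 : ℂ) 1, ∫ y in ball (0 : ℂ) 1, (F x - F y) ^ 2
      = 2 * Real.pi * (∫ x in ball (0 : ℂ) 1, F x ^ 2) - 2 * (∫ x in ball (0 : ℂ) 1, F x) ^ 2 := by
  set A := ∫ x in ball (0 : ℂ) 1, F x with hA
  set B := ∫ x in ball (0 : ℂ) 1, F x ^ 2 with hB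
  have i1 : IntegrableOn F (ball (0 : ℂ) 1) := dl_integrableOn_disc hF
  have i2 : IntegrableOn (fun x => F x ^ 2) (ball (0 : ℂ) 1) := dl_integrableOn_disc (hF.pow 2)
  have inner : ∀ x : ℂ, ∫ y in ball (0 : ℂ) 1, (F x - F y) ^ 2
      = Real.pi * F x ^ 2 - 2 * A * F x + B := by
    intro x
    have e1 : ∀ y : ℂ, (F x - F y) ^ 2 = (F x ^ 2 - (2 * F x) * F y) + F y ^ 2 := by
      intro y
      ring
    simp only [e1]
    have e2 := integral_add
      ((dl_integrableOn_disc (F := fun _ => F x ^ 2) continuousOn_const).sub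
        (i1.const_mul (2 * F x))) i2
    have e3 := integral_sub (dl_integrableOn_disc (F := fun _ => F x ^ 2) continuousOn_const)
        (i1.const_mul (2 * F x))
    have e4 : ∫ y in ball (0 : ℂ) 1, ((F x ^ 2 - (2 * F x) * F y) + F y ^ 2)
        = (∫ y in ball (0 : ℂ) 1, (F x ^ 2 - (2 * F x) * F y))
          + ∫ y in ball (0 : ℂ) 1, F y ^ 2 := e2
    rw [e4, e3, integral_const_mul, dl_integral_disc_const, ← hA, ← hB]
    ring
  simp only [inner]
  have i3 : IntegrableOn (fun x => Real.pi * F x ^ 2) (ball (0 : ℂ) 1) := i2.const_mul _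
  have i4 : IntegrableOn (fun x => 2 * A * F x) (ball (0 : ℂ) 1) := i1.const_mul _
  have e2 : ∫ x in ball (0 : ℂ) 1, (Real.pi * F x ^ 2 - 2 * A * F x + B)
      = (∫ x in ball (0 : ℂ) 1, (Real.pi * F x ^ 2 - 2 * A * F x))
        + ∫ _x in ball (0 : ℂ) 1, B :=
    integral_add (i3.sub i4) (dl_integrableOn_disc continuousOn_const)
  rw [e2, integral_sub i3 i4, integral_const_mul, integral_const_mul, dl_integral_disc_const,
    ← hA, ← hB]
  ring

theorem dl_null_real (h : DiscData R G M Q g) : volume.real (dlZ M ∩ ball 0 1) = 0 := by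
  set m := volume.real (dlZ M ∩ ball 0 1) with hm
  have hm0 : 0 ≤ m := measureReal_nonneg
  -- the measure is less than pi
  have hfin : volume (ball (0 : ℂ) 1) ≠ ⊤ := measure_ball_lt_top.ne
  have hball : volume.real (ball (0 : ℂ) 1) = Real.pi := by simp [Measure.real]
  have hlt : m < Real.pi := by
    obtain ⟨z0, hz0, hM0⟩ := h.ne
    -- an open set on which `M ≠ 0`
    have hopen : IsOpen (ball (0 : ℂ) 1 ∩ M ⁻¹' {0}ᶜ) :=
      (((dl_contM h).mono ball_subset_closedBall).isOpen_inter_preimage isOpen_ball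
        isOpen_compl_singleton)
    have hpos : 0 < volume (ball (0 : ℂ) 1 ∩ M ⁻¹' {0}ᶜ) :=
      hopen.measure_pos volume ⟨z0, hz0, hM0⟩
    have hposr : 0 < volume.real (ball (0 : ℂ) 1 ∩ M ⁻¹' {0}ᶜ) :=
      ENNReal.toReal_pos hpos.ne' (ne_top_of_le_ne_top hfin (measure_mono inter_subset_left))
    have hdisj : Disjoint (dlZ M ∩ ball 0 1) (ball (0 : ℂ) 1 ∩ M ⁻¹' {0}ᶜ) := by
      rw [Set.disjoint_left]
      rintro z ⟨⟨_, h1⟩, _⟩ ⟨_, h2⟩
      exact h2 h1
    have hun : volume.real ((dlZ M ∩ ball 0 1) ∪ (ball (0 : ℂ) 1 ∩ M ⁻¹' {0}ᶜ))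
        = m + volume.real (ball (0 : ℂ) 1 ∩ M ⁻¹' {0}ᶜ) :=
      measureReal_union hdisj hopen.measurableSet
        (ne_top_of_le_ne_top hfin (measure_mono inter_subset_right))
        (ne_top_of_le_ne_top hfin (measure_mono inter_subset_left))
    have hle : volume.real ((dlZ M ∩ ball 0 1) ∪ (ball (0 : ℂ) 1 ∩ M ⁻¹' {0}ᶜ))
        ≤ volume.real (ball (0 : ℂ) 1) :=
      measureReal_mono (union_subset inter_subset_right inter_subset_left) hfin
    linarith
  -- the limit inequality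
  have hA := dlX_int_tendsto h
  have hB := dlX_sq_int_tendsto h
  have hE := dlX_energy_tendsto h
  have hL : Filter.Tendsto (fun n => 2 * Real.pi * (∫ x in ball (0 : ℂ) 1, dlX M n x ^ 2)
      - 2 * (∫ x in ball (0 : ℂ) 1, dlX M n x) ^ 2) Filter.atTop
      (𝓝 (2 * Real.pi * m - 2 * m ^ 2)) :=
    (hB.const_mul _).sub ((hA.pow 2).const_mul _)
  have hR : Filter.Tendsto (fun n => 16 * Real.pi * ∫ z in ball (0 : ℂ) 1, gsq (dlX M n) z)
      Filter.atTop (𝓝 (16 * Real.pi * 0)) := hE.const_mul _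
  have hle : 2 * Real.pi * m - 2 * m ^ 2 ≤ 16 * Real.pi * 0 := by
    refine le_of_tendsto_of_tendsto' hL hR (fun n => ?_)
    rw [← dl_double (dlX_cont h n)]
    exact poin h.one_lt ((dlX_contDiffOn h n).of_le (by norm_num))
  have hkey : m * (Real.pi - m) ≤ 0 := by nlinarith
  by_contra hne
  have hmpos : 0 < m := lt_of_le_of_ne hm0 (Ne.symm hne)
  have := mul_pos hmpos (sub_pos.2 hlt)
  linarith

theorem disc_null (h : DiscData R G M Q g) : volume {z | z ∈ ball (0 : ℂ) 1 ∧ M z = 0} = 0 := by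
  have hset : {z | z ∈ ball (0 : ℂ) 1 ∧ M z = 0} = dlZ M ∩ ball 0 1 := by
    ext z
    constructor
    · rintro ⟨h1, h2⟩
      exact ⟨⟨ball_subset_closedBall h1, h2⟩, h1⟩
    · rintro ⟨⟨_, h2⟩, h1⟩
      exact ⟨h1, h2⟩
  rw [hset]
  have h0 := dl_null_real h
  rw [Measure.real, ENNReal.toReal_eq_zero_iff] at h0
  rcases h0 with h0 | h0
  · exact h0
  · exact absurd h0 (ne_top_of_le_ne_top measure_ball_lt_top.ne
      (measure_mono (inter_subset_right : dlZ M ∩ ball 0 1 ⊆ ball (0 : ℂ) 1)))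

/-! ### polar coordinates -/

theorem dl_polar {F : ℂ → ℝ} (hF : ContinuousOn F (closedBall 0 1))
    (hF0 : ∀ z ∈ closedBall (0 : ℂ) 1, 0 ≤ F z) :
    ∫ r in (1 / 2 : ℝ)..1, ∫ t in (-Real.pi)..Real.pi, F (r * exp (t * I))
      ≤ 2 * ∫ z in ball (0 : ℂ) 1, F z := by
  -- the annulus
  set A : Set ℂ := ball 0 1 ∩ {z | 1 / 2 < ‖z‖} with hAdef
  have hAm : MeasurableSet A :=
    measurableSet_ball.inter (isOpen_lt continuous_const continuous_norm).measurableSet
  have h1 : ∫ z in A, F z ≤ ∫ z in ball (0 : ℂ) 1, F z := by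
    refine setIntegral_mono_set (dl_integrableOn_disc hF) ?_
      (Filter.Eventually.of_forall inter_subset_left)
    filter_upwards [ae_restrict_mem measurableSet_ball] with z hz
    exact hF0 z (ball_subset_closedBall hz)
  have h2 : ∫ z in A, F z = ∫ z, A.indicator F z := (integral_indicator hAm).symm
  have h3 := Complex.integral_comp_polarCoord_symm (A.indicator F)
  -- the box
  set S : Set (ℝ × ℝ) := Ioo (1 / 2 : ℝ) 1 ×ˢ Ioo (-Real.pi) Real.pi with hS
  have hSm : MeasurableSet S := measurableSet_Ioo.prod measurableSet_Ioo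
  have hsymm : ∀ p : ℝ × ℝ, Complex.polarCoord.symm p = (p.1 : ℂ) * exp ((p.2 : ℂ) * I) := by
    intro p
    rw [Complex.polarCoord_symm_apply, Complex.exp_mul_I]
    push_cast
    ring
  have h4 : ∫ p in polarCoord.target, p.1 • A.indicator F (Complex.polarCoord.symm p)
      = ∫ p in S, p.1 * F ((p.1 : ℂ) * exp ((p.2 : ℂ) * I)) := by
    have hsub : S ⊆ polarCoord.target := by
      rintro ⟨r, t⟩ ⟨hr, ht⟩
      exact ⟨lt_trans (by norm_num) hr.1, ht⟩
    rw [setIntegral_eq_of_subset_of_forall_sdiff_eq_zero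
      polarCoord.open_target.measurableSet hsub]
    · refine setIntegral_congr_fun hSm (fun p hp => ?_)
      have hmem : Complex.polarCoord.symm p ∈ A := by
        have hn : ‖Complex.polarCoord.symm p‖ = |p.1| := Complex.norm_polarCoord_symm p
        have hp1 : |p.1| = p.1 := abs_of_pos (lt_trans (by norm_num) hp.1.1)
        refine ⟨?_, ?_⟩
        · rw [mem_ball_zero_iff, hn, hp1]
          exact hp.1.2
        · show 1 / 2 < ‖Complex.polarCoord.symm p‖
          rw [hn, hp1]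
          exact hp.1.1
      show p.1 • A.indicator F (Complex.polarCoord.symm p) = _
      rw [indicator_of_mem hmem, hsymm p, smul_eq_mul]
    · rintro p ⟨hp, hnp⟩
      have hnm : Complex.polarCoord.symm p ∉ A := by
        intro hc
        apply hnp
        have hn : ‖Complex.polarCoord.symm p‖ = |p.1| := Complex.norm_polarCoord_symm p
        have hp1 : |p.1| = p.1 := abs_of_pos hp.1
        have c1 : ‖Complex.polarCoord.symm p‖ < 1 := mem_ball_zero_iff.1 hc.1
        have c2 : 1 / 2 < ‖Complex.polarCoord.symm p‖ := hc.2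
        rw [hn, hp1] at c1 c2
        exact ⟨⟨c2, c1⟩, hp.2⟩
      rw [indicator_of_notMem hnm, smul_zero]
  -- continuity on the closed box
  have hcont : ContinuousOn (fun p : ℝ × ℝ => F ((p.1 : ℂ) * exp ((p.2 : ℂ) * I)))
      (Icc (1 / 2 : ℝ) 1 ×ˢ Icc (-Real.pi) Real.pi) := by
    refine hF.comp (by fun_prop) ?_
    rintro ⟨r, t⟩ ⟨hr, _⟩
    show (r : ℂ) * exp ((t : ℂ) * I) ∈ closedBall (0 : ℂ) 1
    rw [mem_closedBall_zero_iff, norm_mul, Complex.norm_exp_ofReal_mul_I, mul_one,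
      Complex.norm_real, Real.norm_eq_abs, abs_of_pos (lt_of_lt_of_le (by norm_num) hr.1)]
    exact hr.2
  have hcomp : IsCompact (Icc (1 / 2 : ℝ) 1 ×ˢ Icc (-Real.pi) Real.pi) :=
    isCompact_Icc.prod isCompact_Icc
  have hSsub : S ⊆ Icc (1 / 2 : ℝ) 1 ×ˢ Icc (-Real.pi) Real.pi :=
    prod_mono Ioo_subset_Icc_self Ioo_subset_Icc_self
  have hI1 : IntegrableOn (fun p : ℝ × ℝ => F ((p.1 : ℂ) * exp ((p.2 : ℂ) * I))) S :=
    (hcont.integrableOn_compact hcomp).mono_set hSsub
  have hI2 : IntegrableOn (fun p : ℝ × ℝ => p.1 * F ((p.1 : ℂ) * exp ((p.2 : ℂ) * I))) S :=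
    ((continuousOn_fst.mul hcont).integrableOn_compact hcomp).mono_set hSsub
  have h5 : (1 / 2 : ℝ) * ∫ p in S, F ((p.1 : ℂ) * exp ((p.2 : ℂ) * I))
      ≤ ∫ p in S, p.1 * F ((p.1 : ℂ) * exp ((p.2 : ℂ) * I)) := by
    rw [← integral_const_mul]
    refine setIntegral_mono_on (hI1.const_mul _) hI2 hSm (fun p hp => ?_)
    refine mul_le_mul_of_nonneg_right hp.1.1.le (hF0 _ ?_)
    have hp1 : |p.1| = p.1 := abs_of_pos (lt_trans (by norm_num) hp.1.1)
    rw [mem_closedBall_zero_iff, norm_mul, Complex.norm_exp_ofReal_mul_I, mul_one,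
      Complex.norm_real, Real.norm_eq_abs, hp1]
    exact hp.1.2.le
  have h6 : ∫ p in S, F ((p.1 : ℂ) * exp ((p.2 : ℂ) * I))
      = ∫ r in (1 / 2 : ℝ)..1, ∫ t in (-Real.pi)..Real.pi, F (r * exp (t * I)) := by
    have e1 : ∫ p in S, F ((p.1 : ℂ) * exp ((p.2 : ℂ) * I))
        = ∫ r in Ioo (1 / 2 : ℝ) 1, ∫ t in Ioo (-Real.pi) Real.pi,
            F ((r : ℂ) * exp ((t : ℂ) * I)) := by
      have hI1' := hI1
      rw [Measure.volume_eq_prod] at hI1' ⊢
      exact setIntegral_prod _ hI1'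
    rw [e1, intervalIntegral.integral_of_le (by norm_num : (1 / 2 : ℝ) ≤ 1),
      integral_Ioc_eq_integral_Ioo]
    refine setIntegral_congr_fun measurableSet_Ioo (fun r _ => ?_)
    show _ = ∫ t in (-Real.pi)..Real.pi, F ((r : ℂ) * exp ((t : ℂ) * I))
    rw [intervalIntegral.integral_of_le dl_pi_le, integral_Ioc_eq_integral_Ioo]
  rw [← h6]
  rw [h4, ← h2] at h3
  linarith

/-! ### the boundary -/

theorem dl_circle_mem_closed (t : ℝ) : exp ((t : ℂ) * I) ∈ closedBall (0 : ℂ) 1 := by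
  rw [mem_closedBall_zero_iff, Complex.norm_exp_ofReal_mul_I]

theorem dl_circle_cont : Continuous (fun t : ℝ => exp ((t : ℂ) * I)) := by fun_prop

theorem dlX_circle_cont (h : DiscData R G M Q g) (n : ℕ) :
    Continuous (fun t : ℝ => dlX M n (exp ((t : ℂ) * I))) :=
  (dlX_cont h n).comp_continuous dl_circle_cont dl_circle_mem_closed

theorem dl_circle_bound (h : DiscData R G M Q g) (n : ℕ) :
    ∫ t in (-Real.pi)..Real.pi, dlX M n (exp (t * I)) ^ 2
      ≤ 4 * (∫ z in ball (0 : ℂ) 1, gsq (dlX M n) z)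
        + 8 * ∫ z in ball (0 : ℂ) 1, dlX M n z ^ 2 := by
  have htr := trace h.one_lt ((dlX_contDiffOn h n).of_le (by norm_num) : ContDiffOn ℝ 1 _ _)
  have hpol := dl_polar (F := fun z => dlX M n z ^ 2) ((dlX_cont h n).pow 2)
    (fun z _ => sq_nonneg _)
  -- continuity of the two functions on the strip
  have hmem : ∀ r ∈ Icc (1 / 2 : ℝ) 1, ∀ t : ℝ, (r : ℂ) * exp ((t : ℂ) * I)
      ∈ closedBall (0 : ℂ) 1 := by
    intro r hr t
    rw [mem_closedBall_zero_iff, norm_mul, Complex.norm_exp_ofReal_mul_I, mul_one,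
      Complex.norm_real, Real.norm_eq_abs, abs_of_pos (lt_of_lt_of_le (by norm_num) hr.1)]
    exact hr.2
  have hb : ∀ r ∈ Icc (1 / 2 : ℝ) 1,
      Continuous (fun t : ℝ => dlX M n ((r : ℂ) * exp ((t : ℂ) * I))) := fun r hr =>
    (dlX_cont h n).comp_continuous (by fun_prop) (hmem r hr)
  have ha := dlX_circle_cont h n
  -- pointwise in r
  have hr : ∀ r ∈ Icc (1 / 2 : ℝ) 1,
      ∫ t in (-Real.pi)..Real.pi, dlX M n (exp (t * I)) ^ 2
        ≤ 2 * (∫ t in (-Real.pi)..Real.pi, (dlX M n (exp (t * I)) - dlX M n (r * exp (t * I))) ^ 2)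
          + 2 * ∫ t in (-Real.pi)..Real.pi, dlX M n (r * exp (t * I)) ^ 2 := by
    intro r hr
    rw [← intervalIntegral.integral_const_mul, ← intervalIntegral.integral_const_mul,
      ← intervalIntegral.integral_add]
    · refine intervalIntegral.integral_mono_on dl_pi_le ((ha.pow 2).intervalIntegrable _ _) ?_
        (fun t _ => ?_)
      · exact (((((ha.sub (hb r hr)).pow 2).const_mul 2)).add
          (((hb r hr).pow 2).const_mul 2)).intervalIntegrable _ _
      · nlinarith [sq_nonneg (dlX M n (exp (t * I)) - 2 * dlX M n (r * exp (t * I)))]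
    · exact (((ha.sub (hb r hr)).pow 2).const_mul 2).intervalIntegrable _ _
    · exact (((hb r hr).pow 2).const_mul 2).intervalIntegrable _ _
  -- integrate in r
  have hcontstrip : ∀ F : ℝ × ℝ → ℝ, ContinuousOn F (Icc (1 / 2 : ℝ) 1 ×ˢ univ) →
      IntervalIntegrable (fun r => ∫ t in (-Real.pi)..Real.pi, F (r, t)) volume (1 / 2) 1 := by
    intro F hF
    have hI : IntegrableOn F (Ioc (1 / 2 : ℝ) 1 ×ˢ Ioc (-Real.pi) Real.pi)
        ((volume : Measure ℝ).prod volume) := by
      rw [← Measure.volume_eq_prod]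
      refine ((hF.mono (prod_mono le_rfl (subset_univ _))).integrableOn_compact
        (isCompact_Icc.prod isCompact_Icc)).mono_set
        (prod_mono Ioc_subset_Icc_self Ioc_subset_Icc_self)
    rw [intervalIntegrable_iff_integrableOn_Ioc_of_le (by norm_num)]
    rw [IntegrableOn, ← Measure.prod_restrict] at hI
    have := hI.integral_prod_left
    simp only [intervalIntegral.integral_of_le dl_pi_le]
    exact this
  have hc1 : ContinuousOn (fun p : ℝ × ℝ => dlX M n ((p.1 : ℂ) * exp ((p.2 : ℂ) * I)))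
      (Icc (1 / 2 : ℝ) 1 ×ˢ univ) := by
    refine (dlX_cont h n).comp (by fun_prop) ?_
    rintro ⟨r, t⟩ ⟨hr, _⟩
    exact hmem r hr t
  have hc2 : ContinuousOn (fun p : ℝ × ℝ => dlX M n (exp ((p.2 : ℂ) * I)))
      (Icc (1 / 2 : ℝ) 1 ×ˢ univ) :=
    (ha.comp continuous_snd).continuousOn
  have hi1 := hcontstrip (fun p => (dlX M n (exp ((p.2 : ℂ) * I))
    - dlX M n ((p.1 : ℂ) * exp ((p.2 : ℂ) * I))) ^ 2) ((hc2.sub hc1).pow 2)
  have hi2 := hcontstrip (fun p => dlX M n ((p.1 : ℂ) * exp ((p.2 : ℂ) * I)) ^ 2) (hc1.pow 2)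
  simp only at hi1 hi2
  have hint : ∫ _r in (1 / 2 : ℝ)..1, (∫ t in (-Real.pi)..Real.pi, dlX M n (exp (t * I)) ^ 2)
      ≤ ∫ r in (1 / 2 : ℝ)..1,
        (2 * (∫ t in (-Real.pi)..Real.pi, (dlX M n (exp (t * I)) - dlX M n (r * exp (t * I))) ^ 2)
          + 2 * ∫ t in (-Real.pi)..Real.pi, dlX M n (r * exp (t * I)) ^ 2) := by
    refine intervalIntegral.integral_mono_on (by norm_num) intervalIntegrable_const ?_ hr
    exact (hi1.const_mul 2).add (hi2.const_mul 2)
  rw [intervalIntegral.integral_const, intervalIntegral.integral_add (hi1.const_mul 2)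
    (hi2.const_mul 2), intervalIntegral.integral_const_mul,
    intervalIntegral.integral_const_mul, smul_eq_mul] at hint
  linarith

theorem bdry_null (h : DiscData R G M Q g) :
    ∀ᵐ t : ℝ ∂(volume.restrict (Ioc (-Real.pi) Real.pi)), M (exp ((t : ℂ) * I)) ≠ 0 := by
  obtain ⟨B, hB0, hB⟩ := dlX_bound h
  -- limit of the squares on the circle
  have hlim1 : Filter.Tendsto (fun n => ∫ t in (-Real.pi)..Real.pi, dlX M n (exp (t * I)) ^ 2)
      Filter.atTop (𝓝 (∫ t in (-Real.pi)..Real.pi, dlChi M (exp (t * I)))) := by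
    refine intervalIntegral.tendsto_integral_filter_of_dominated_convergence (fun _ => B ^ 2)
      ?_ ?_ intervalIntegrable_const ?_
    · exact Filter.Eventually.of_forall
        (fun n => ((dlX_circle_cont h n).pow 2).aestronglyMeasurable)
    · refine Filter.Eventually.of_forall (fun n => Filter.Eventually.of_forall (fun t _ => ?_))
      rw [Real.norm_eq_abs, abs_pow]
      exact pow_le_pow_left₀ (abs_nonneg _) (hB n _ (dl_circle_mem_closed t)) 2
    · refine Filter.Eventually.of_forall (fun t _ => ?_)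
      have h1 := (dlX_tendsto (M := M) (dl_circle_mem_closed t)).pow 2
      rwa [dlChi_sq] at h1
  have hlim2 : Filter.Tendsto (fun n => 4 * (∫ z in ball (0 : ℂ) 1, gsq (dlX M n) z)
        + 8 * ∫ z in ball (0 : ℂ) 1, dlX M n z ^ 2) Filter.atTop (𝓝 0) := by
    have h1 := ((dlX_energy_tendsto h).const_mul 4).add ((dlX_sq_int_tendsto h).const_mul 8)
    rw [dl_null_real h] at h1
    simpa using h1
  have hle : ∫ t in (-Real.pi)..Real.pi, dlChi M (exp (t * I)) ≤ 0 :=
    le_of_tendsto_of_tendsto' hlim1 hlim2 (dl_circle_bound h)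
  have hnn : ∀ t : ℝ, 0 ≤ dlChi M (exp (t * I)) := fun t =>
    indicator_nonneg (fun _ _ => zero_le_one) _
  have hmeas : Measurable (fun t : ℝ => dlChi M (exp (t * I))) :=
    (measurable_one.indicator (dlZ_closed h).measurableSet).comp dl_circle_cont.measurable
  have hle1 : ∀ t : ℝ, dlChi M (exp (t * I)) ≤ 1 := fun t =>
    indicator_le_self' (fun _ _ => zero_le_one) _
  have hint : Integrable (fun t : ℝ => dlChi M (exp (t * I)))
      (volume.restrict (Ioc (-Real.pi) Real.pi)) := by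
    refine Integrable.mono' (integrable_const (1 : ℝ)) hmeas.aestronglyMeasurable
      (Filter.Eventually.of_forall (fun t => ?_))
    rw [Real.norm_eq_abs, abs_of_nonneg (hnn t)]
    exact hle1 t
  rw [intervalIntegral.integral_of_le dl_pi_le] at hle
  have h0 : ∫ t in Ioc (-Real.pi) Real.pi, dlChi M (exp (t * I)) = 0 :=
    le_antisymm hle (integral_nonneg hnn)
  rw [integral_eq_zero_iff_of_nonneg hnn hint] at h0
  filter_upwards [h0] with t ht hM
  have hmem : exp ((t : ℂ) * I) ∈ dlZ M := ⟨dl_circle_mem_closed t, hM⟩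
  have : dlChi M (exp (t * I)) = 1 := by
    unfold dlChi
    rw [indicator_of_mem hmem]
    rfl
  rw [this] at ht
  exact one_ne_zero ht

end Pool.Agent.FK
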