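import Mathlib
import Pool.Agent.Helper99.FK.Abs2

/-! FK-23: total curvature on the disc -/

set_option autoImplicit false

open Complex MeasureTheory Set Metric
open scoped ComplexConjugate Topology

namespace Pool.Agent.FK

variable {R G : ℝ} {M Q g : ℂ → ℝ}

/-- almost everywhere in the disc `M` does not vanish -/
theorem dl_ae_ne (h : DiscData R G M Q g) :
    ∀ᵐ z ∂(volume.restrict (ball (0 : ℂ) 1)), M z ≠ 0 := by
  rw [ae_restrict_iff' measurableSet_ball, ae_iff]
  have h0 := disc_null h
  convert h0 using 2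
  ext z
  simp only [mem_ofPred_eq, Classical.not_imp, not_not]

/-- pointwise limit -/
theorem dl_ptw {z : ℂ} (hM : M z ≠ 0) :
    Filter.Tendsto (fun n => Q z / (M z + dlEps n) ^ 2) Filter.atTop (𝓝 (Q z / M z ^ 2)) := by
  have h1 : Filter.Tendsto (fun n => (M z + dlEps n) ^ 2) Filter.atTop (𝓝 ((M z + 0) ^ 2)) :=
    (tendsto_const_nhds.add dlEps_tendsto).pow 2
  rw [add_zero] at h1
  exact tendsto_const_nhds.div h1 (pow_ne_zero 2 hM)

theorem dl_meas_quot (h : DiscData R G M Q g) :
    AEStronglyMeasurable (fun z => Q z / M z ^ 2) (volume.restrict (ball (0 : ℂ) 1)) := by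
  refine aestronglyMeasurable_of_tendsto_ae (u := Filter.atTop)
    (f := fun n z => Q z / (M z + dlEps n) ^ 2) (fun n => ?_) ?_
  · exact (dl_integrableOn_disc (dl_contOn_Q h (dlEps_pos n))).aestronglyMeasurable
  · filter_upwards [dl_ae_ne h] with z hz
    exact dl_ptw hz

theorem dl_integrable_quot (h : DiscData R G M Q g) :
    IntegrableOn (fun z => Q z / M z ^ 2) (ball 0 1) := by
  have hG0 : 0 ≤ G := (h.gnonneg 0 (mem_ball_self one_pos)).trans (h.gle 0 (mem_ball_self one_pos))
  refine ⟨dl_meas_quot h, ?_⟩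
  have hnn : ∀ᵐ z ∂(volume.restrict (ball (0 : ℂ) 1)), 0 ≤ Q z / M z ^ 2 := by
    filter_upwards [ae_restrict_mem measurableSet_ball] with z hz
    exact div_nonneg (h.Qnonneg z hz) (sq_nonneg _)
  rw [hasFiniteIntegral_iff_ofReal hnn]
  have hbd : ∀ n, ∫⁻ z in ball (0 : ℂ) 1, ENNReal.ofReal (Q z / (M z + dlEps n) ^ 2)
      ≤ ENNReal.ofReal (Real.pi * G) := by
    intro n
    have hnn' : 0 ≤ᵐ[volume.restrict (ball (0 : ℂ) 1)]
        fun z => Q z / (M z + dlEps n) ^ 2 := by
      filter_upwards [ae_restrict_mem measurableSet_ball] with z hz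
      exact div_nonneg (h.Qnonneg z hz) (sq_nonneg _)
    rw [← ofReal_integral_eq_lintegral_ofReal
      (dl_integrableOn_disc (dl_contOn_Q h (dlEps_pos n))) hnn']
    exact ENNReal.ofReal_le_ofReal (disc_Q h (dlEps_pos n))
  have hlim : ∀ᵐ z ∂(volume.restrict (ball (0 : ℂ) 1)),
      Filter.Tendsto (fun n => ENNReal.ofReal (Q z / (M z + dlEps n) ^ 2)) Filter.atTop
        (𝓝 (ENNReal.ofReal (Q z / M z ^ 2))) := by
    filter_upwards [dl_ae_ne h] with z hz
    exact (ENNReal.continuous_ofReal.tendsto _).comp (dl_ptw hz)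
  have hcongr : ∫⁻ z in ball (0 : ℂ) 1, ENNReal.ofReal (Q z / M z ^ 2)
      = ∫⁻ z in ball (0 : ℂ) 1,
          Filter.liminf (fun n => ENNReal.ofReal (Q z / (M z + dlEps n) ^ 2)) Filter.atTop := by
    refine lintegral_congr_ae ?_
    filter_upwards [hlim] with z hz
    exact hz.liminf_eq.symm
  have hfatou := lintegral_liminf_le' (u := Filter.atTop) (μ := volume.restrict (ball (0 : ℂ) 1))
    (f := fun n z => ENNReal.ofReal (Q z / (M z + dlEps n) ^ 2))
    (fun n => (dl_integrableOn_disc
      (dl_contOn_Q h (dlEps_pos n))).aestronglyMeasurable.aemeasurable.ennreal_ofReal)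
  have hle : Filter.liminf (fun n => ∫⁻ z in ball (0 : ℂ) 1,
      ENNReal.ofReal (Q z / (M z + dlEps n) ^ 2)) Filter.atTop ≤ ENNReal.ofReal (Real.pi * G) := by
    refine (Filter.liminf_le_liminf (Filter.Eventually.of_forall hbd)).trans ?_
    rw [Filter.liminf_const]
  rw [hcongr]
  exact (hfatou.trans hle).trans_lt ENNReal.ofReal_lt_top

theorem disc_total (h : DiscData R G M Q g) :
    IntegrableOn (fun z => Q z / M z ^ 2) (ball 0 1) ∧
      2 * Real.pi ≤ ∫ z in ball (0 : ℂ) 1, (g z - Q z / M z ^ 2) := by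
  have hI := dl_integrable_quot h
  refine ⟨hI, ?_⟩
  -- limit of the interior integrals
  have hR : Filter.Tendsto
      (fun n => ∫ z in ball (0 : ℂ) 1, (g z - Q z / (M z + dlEps n) ^ 2)) Filter.atTop
      (𝓝 (∫ z in ball (0 : ℂ) 1, (g z - Q z / M z ^ 2))) := by
    refine tendsto_integral_filter_of_dominated_convergence
      (fun z => |g z| + Q z / M z ^ 2) ?_ ?_ ?_ ?_
    · exact Filter.Eventually.of_forall (fun n =>
        (dl_integrableOn_disc (h.contg.sub (dl_contOn_Q h (dlEps_pos n)))).aestronglyMeasurable)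
    · refine Filter.Eventually.of_forall (fun n => ?_)
      filter_upwards [ae_restrict_mem measurableSet_ball, dl_ae_ne h] with z hz hne
      have hz' := dl_ball_sub h.one_lt hz
      have hM0 : 0 < M z := lt_of_le_of_ne (h.nonneg z hz') (Ne.symm hne)
      have hQ := h.Qnonneg z hz
      have h1 : Q z / (M z + dlEps n) ^ 2 ≤ Q z / M z ^ 2 := by
        apply div_le_div_of_nonneg_left hQ (by positivity)
        exact pow_le_pow_left₀ hM0.le (by linarith [dlEps_pos n]) 2
      have h2 : 0 ≤ Q z / (M z + dlEps n) ^ 2 := div_nonneg hQ (sq_nonneg _)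
      rw [Real.norm_eq_abs]
      calc |g z - Q z / (M z + dlEps n) ^ 2|
          ≤ |g z| + |Q z / (M z + dlEps n) ^ 2| := abs_sub _ _
        _ ≤ |g z| + Q z / M z ^ 2 := by
            rw [abs_of_nonneg h2]
            linarith
    · exact (dl_integrableOn_disc h.contg).abs.add hI
    · filter_upwards [dl_ae_ne h] with z hne
      exact tendsto_const_nhds.sub (dl_ptw hne)
  -- limit of the boundary integrals
  have hL : Filter.Tendsto
      (fun n => ∫ t in (-Real.pi)..Real.pi,
        M (exp (t * I)) / (M (exp (t * I)) + dlEps n)) Filter.atTop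
      (𝓝 (∫ _t in (-Real.pi)..Real.pi, (1 : ℝ))) := by
    have hcM : Continuous (fun t : ℝ => M (exp ((t : ℂ) * I))) :=
      (dl_contM h).comp_continuous dl_circle_cont dl_circle_mem_closed
    refine intervalIntegral.tendsto_integral_filter_of_dominated_convergence (fun _ => 1)
      ?_ ?_ intervalIntegrable_const ?_
    · refine Filter.Eventually.of_forall (fun n => ?_)
      exact (hcM.div (hcM.add continuous_const) (fun t =>
        (dl_add_pos_of h (dlEps_pos n) (dl_circle_mem h.one_lt t)).ne')).aestronglyMeasurable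
    · refine Filter.Eventually.of_forall (fun n => Filter.Eventually.of_forall (fun t _ => ?_))
      rw [Real.norm_eq_abs, abs_of_nonneg (dl_circle_nonneg h (dlEps_pos n) t)]
      exact dl_circle_le_one h (dlEps_pos n) t
    · have hb := bdry_null h
      rw [ae_restrict_iff' measurableSet_Ioc] at hb
      filter_upwards [hb] with t ht htm
      rw [uIoc_of_le dl_pi_le] at htm
      have hne := ht htm
      have h1 : Filter.Tendsto (fun n => M (exp (t * I)) + dlEps n) Filter.atTop
          (𝓝 (M (exp (t * I)) + 0)) := tendsto_const_nhds.add dlEps_tendsto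
      rw [add_zero] at h1
      have h2 := (tendsto_const_nhds (x := M (exp (t * I)))).div h1 hne
      rwa [div_self hne] at h2
  have hfin := le_of_tendsto_of_tendsto' hL hR (fun n => disc_curv h (dlEps_pos n))
  rw [intervalIntegral.integral_const, smul_eq_mul, mul_one] at hfin
  linarith

end Pool.Agent.FK
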