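import Mathlib
import Pool.Agent.Helper99.FK.Defs

/-! FK-5: smoothness of the fields (`u₁, u₂` smooth on the whole plane) -/

set_option autoImplicit false

open Complex MeasureTheory Set Metric
open scoped ComplexConjugate Topology

namespace Pool.Agent.FK

variable {E : ℝ} {u₁ u₂ : ℂ → ℂ} {z : ℂ}

theorem contDiff_NN (h₁ : ∀ k : ℕ, ContDiff ℝ k u₁) (h₂ : ∀ k : ℕ, ContDiff ℝ k u₂) (k : ℕ) :
    ContDiff ℝ k (NN u₁ u₂) :=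
  ((h₁ k).norm_sq ℝ).add ((h₂ k).norm_sq ℝ)

theorem contDiff_PP (h₁ : ∀ k : ℕ, ContDiff ℝ k u₁) (h₂ : ∀ k : ℕ, ContDiff ℝ k u₂) (k : ℕ) :
    ContDiff ℝ k (PP u₁ u₂) :=
  ((h₁ k).norm_sq ℝ).sub ((h₂ k).norm_sq ℝ)

namespace SmoothAux

theorem contDiff_conj {u : ℂ → ℂ} {k : ℕ} (h : ContDiff ℝ k u) :
    ContDiff ℝ k (fun z => conj (u z)) :=
  Complex.conjCLE.contDiff.comp h

theorem contDiff_ofReal {u : ℂ → ℝ} {k : ℕ} (h : ContDiff ℝ k u) :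
    ContDiff ℝ k (fun z => (u z : ℂ)) :=
  Complex.ofRealCLM.contDiff.comp h

theorem contDiff_fderiv {u : ℂ → ℂ} (h : ∀ k : ℕ, ContDiff ℝ k u) (v : ℂ) (k : ℕ) :
    ContDiff ℝ k (fun z => fderiv ℝ u z v) := by
  have := (h (k + 1)).fderiv_right (m := k) (by push_cast; exact le_rfl)
  exact this.clm_apply contDiff_const

theorem contDiff_dz {u : ℂ → ℂ} (h : ∀ k : ℕ, ContDiff ℝ k u) (k : ℕ) :
    ContDiff ℝ k (dz u) :=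
  ((contDiff_fderiv h 1 k).sub (contDiff_const.mul (contDiff_fderiv h I k))).div_const 2

theorem contDiff_dzb {u : ℂ → ℂ} (h : ∀ k : ℕ, ContDiff ℝ k u) (k : ℕ) :
    ContDiff ℝ k (dzb u) :=
  ((contDiff_fderiv h 1 k).add (contDiff_const.mul (contDiff_fderiv h I k))).div_const 2

end SmoothAux

open SmoothAux

theorem contDiff_qq (h₁ : ∀ k : ℕ, ContDiff ℝ k u₁) (h₂ : ∀ k : ℕ, ContDiff ℝ k u₂) (k : ℕ) :
    ContDiff ℝ k (qq u₁ u₂) :=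
  (contDiff_conj (h₁ k)).mul (h₂ k)

theorem contDiff_SS (h₁ : ∀ k : ℕ, ContDiff ℝ k u₁) (h₂ : ∀ k : ℕ, ContDiff ℝ k u₂) (k : ℕ) :
    ContDiff ℝ k (SS u₁ u₂) :=
  ((contDiff_conj (SmoothAux.contDiff_dz h₁ k)).mul (h₂ k)).sub
    ((SmoothAux.contDiff_dzb h₂ k).mul (contDiff_conj (h₁ k)))

theorem contDiffAt_cc (h₁ : ∀ k : ℕ, ContDiff ℝ k u₁) (h₂ : ∀ k : ℕ, ContDiff ℝ k u₂)
    (hz : NN u₁ u₂ z ≠ 0) (k : ℕ) : ContDiffAt ℝ k (cc u₁ u₂) z :=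
  (contDiff_PP h₁ h₂ k).contDiffAt.div (contDiff_NN h₁ h₂ k).contDiffAt hz

theorem contDiffAt_xi (h₁ : ∀ k : ℕ, ContDiff ℝ k u₁) (h₂ : ∀ k : ℕ, ContDiff ℝ k u₂)
    (hz : NN u₁ u₂ z ≠ 0) (k : ℕ) : ContDiffAt ℝ k (xi E u₁ u₂) z := by
  have hz' : (NN u₁ u₂ z : ℂ) ≠ 0 := by exact_mod_cast hz
  have a1 : ContDiffAt ℝ k (fun z => (NN u₁ u₂ z : ℂ)) z :=
    (contDiff_ofReal (contDiff_NN h₁ h₂ k)).contDiffAt
  have a2 := a1.inv hz'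
  have a3 := (a1.pow 2).inv (pow_ne_zero 2 hz')
  have a4 : ContDiffAt ℝ k (qq u₁ u₂) z := (contDiff_qq h₁ h₂ k).contDiffAt
  have a5 : ContDiffAt ℝ k (fun z => conj (qq u₁ u₂ z)) z :=
    (contDiff_conj (contDiff_qq h₁ h₂ k)).contDiffAt
  have a6 : ContDiffAt ℝ k (SS u₁ u₂) z := (contDiff_SS h₁ h₂ k).contDiffAt
  have e : xi E u₁ u₂ = fun z => (E * qq u₁ u₂ z) * (NN u₁ u₂ z : ℂ)⁻¹
      + 2 * I * conj (qq u₁ u₂ z) * SS u₁ u₂ z * ((NN u₁ u₂ z : ℂ) ^ 2)⁻¹ := by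
    funext w
    simp only [xi, div_eq_mul_inv]
  rw [e]
  exact ((contDiffAt_const.mul a4).mul a2).add (((contDiffAt_const.mul a5).mul a6).mul a3)

theorem contDiffAt_JJ (h₁ : ∀ k : ℕ, ContDiff ℝ k u₁) (h₂ : ∀ k : ℕ, ContDiff ℝ k u₂)
    (hz : NN u₁ u₂ z ≠ 0) (k : ℕ) : ContDiffAt ℝ k (JJ E u₁ u₂) z := by
  have a1 : ContDiffAt ℝ k (NN u₁ u₂) z := (contDiff_NN h₁ h₂ k).contDiffAt
  have a2 : ContDiffAt ℝ k (fun z => ‖SS u₁ u₂ z‖ ^ 2) z :=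
    ((contDiff_SS h₁ h₂ k).norm_sq ℝ).contDiffAt
  exact contDiffAt_const.sub ((contDiffAt_const.mul a2).div (a1.pow 2) (pow_ne_zero 2 hz))

theorem measurable_cc (h₁ : ∀ k : ℕ, ContDiff ℝ k u₁) (h₂ : ∀ k : ℕ, ContDiff ℝ k u₂) :
    Measurable (cc u₁ u₂) :=
  (contDiff_PP h₁ h₂ 0).continuous.measurable.div (contDiff_NN h₁ h₂ 0).continuous.measurable

theorem measurable_JJ (h₁ : ∀ k : ℕ, ContDiff ℝ k u₁) (h₂ : ∀ k : ℕ, ContDiff ℝ k u₂) :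
    Measurable (JJ E u₁ u₂) := by
  have a1 : Measurable (NN u₁ u₂) := (contDiff_NN h₁ h₂ 0).continuous.measurable
  have a2 : Measurable (SS u₁ u₂) := (contDiff_SS h₁ h₂ 0).continuous.measurable
  exact measurable_const.sub ((measurable_const.mul (a2.norm.pow_const 2)).div (a1.pow_const 2))

theorem measurable_xi (h₁ : ∀ k : ℕ, ContDiff ℝ k u₁) (h₂ : ∀ k : ℕ, ContDiff ℝ k u₂) :
    Measurable (xi E u₁ u₂) := by
  have a1 : Measurable (fun z => (NN u₁ u₂ z : ℂ)) :=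
    (contDiff_ofReal (contDiff_NN h₁ h₂ 0)).continuous.measurable
  have a2 : Measurable (SS u₁ u₂) := (contDiff_SS h₁ h₂ 0).continuous.measurable
  have a3 : Measurable (qq u₁ u₂) := (contDiff_qq h₁ h₂ 0).continuous.measurable
  have a4 : Measurable (fun z => conj (qq u₁ u₂ z)) :=
    (contDiff_conj (contDiff_qq h₁ h₂ 0)).continuous.measurable
  exact ((measurable_const.mul a3).div a1).add
    (((measurable_const.mul a4).mul a2).div (a1.pow_const 2))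

theorem measurable_gsq_cc (h₁ : ∀ k : ℕ, ContDiff ℝ k u₁) (h₂ : ∀ k : ℕ, ContDiff ℝ k u₂) :
    Measurable (gsq (cc u₁ u₂)) :=
  ((measurable_fderiv_apply_const ℝ (cc u₁ u₂) 1).pow_const 2).add
    ((measurable_fderiv_apply_const ℝ (cc u₁ u₂) I).pow_const 2)

theorem abs_cc_le (u₁ u₂ : ℂ → ℂ) (z : ℂ) : |cc u₁ u₂ z| ≤ 1 := by
  have h0 : 0 ≤ NN u₁ u₂ z := by unfold NN; positivity
  rw [cc, abs_div, abs_of_nonneg h0]
  apply div_le_one_of_le₀ _ h0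
  have a := sq_nonneg ‖u₁ z‖
  have b := sq_nonneg ‖u₂ z‖
  rw [abs_le]
  unfold PP NN
  constructor <;> linarith

/-- `4 |q|² = (1 - c²) N²` -/
theorem qq_sq (hz : NN u₁ u₂ z ≠ 0) :
    4 * ‖qq u₁ u₂ z‖ ^ 2 = (1 - cc u₁ u₂ z ^ 2) * NN u₁ u₂ z ^ 2 := by
  have h1 : (1 - cc u₁ u₂ z ^ 2) * NN u₁ u₂ z ^ 2 = NN u₁ u₂ z ^ 2 - PP u₁ u₂ z ^ 2 := by
    rw [cc]; field_simp
  rw [h1, qq, norm_mul, RCLike.norm_conj]
  unfold PP NN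
  ring

end Pool.Agent.FK
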