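import Mathlib
import Pool.Agent.Helper99.FK.Wirt
import Pool.Agent.Helper99.FK.Smooth

/-! FK-6: first derivatives of `N, P, q, S` for a solution -/

set_option autoImplicit false

open Complex MeasureTheory Set Metric
open scoped ComplexConjugate Topology

namespace Pool.Agent.FK

variable {E : ℝ} {Ω : Set ℂ} {u₁ u₂ : ℂ → ℂ} {z : ℂ}

private theorem a1_diff {u : ℂ → ℂ} (h : ∀ k : ℕ, ContDiff ℝ k u) (z : ℂ) :
    DifferentiableAt ℝ u z :=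
  ((h 1).differentiable (by norm_num)).differentiableAt

private theorem a1_conj {u : ℂ → ℂ} (h : DifferentiableAt ℝ u z) :
    DifferentiableAt ℝ (fun w => conj (u w)) z :=
  conjCLE.differentiableAt.comp z h

private theorem a1_dz {u : ℂ → ℂ} (h : ∀ k : ℕ, ContDiff ℝ k u) (k : ℕ) : ContDiff ℝ k (dz u) :=
  contDiff_dz (h (k + 1))

private theorem a1_dzb {u : ℂ → ℂ} (h : ∀ k : ℕ, ContDiff ℝ k u) (k : ℕ) :
    ContDiff ℝ k (dzb u) :=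
  contDiff_dzb (h (k + 1))

private theorem a1_NN (u₁ u₂ : ℂ → ℂ) : (fun w => (NN u₁ u₂ w : ℂ)) =
    fun w => u₁ w * conj (u₁ w) + u₂ w * conj (u₂ w) := by
  funext w
  rw [mul_conj', mul_conj']
  unfold NN
  push_cast
  rfl

private theorem a1_PP (u₁ u₂ : ℂ → ℂ) : (fun w => (PP u₁ u₂ w : ℂ)) =
    fun w => u₁ w * conj (u₁ w) - u₂ w * conj (u₂ w) := by
  funext w
  rw [mul_conj', mul_conj']
  unfold PP
  push_cast
  rfl

private theorem a1_e1 (h : Sol E Ω u₁ u₂) (hz : z ∈ Ω) : conj (dzb u₁ z) =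
    -(I * E / 2) * conj (u₂ z) := by
  rw [h.eq₁ z hz, map_mul, map_div₀, map_mul, conj_I, conj_ofReal]
  simp only [map_ofNat]
  ring

private theorem a1_e2 (h : Sol E Ω u₁ u₂) (hz : z ∈ Ω) : conj (dz u₂ z) =
    -(I * E / 2) * conj (u₁ z) := by
  rw [h.eq₂ z hz, map_mul, map_div₀, map_mul, conj_I, conj_ofReal]
  simp only [map_ofNat]
  ring

theorem dzb_NN (h : Sol E Ω u₁ u₂) (hz : z ∈ Ω) :
    dzb (fun w => (NN u₁ u₂ w : ℂ)) z = conj (dz u₁ z) * u₁ z + dzb u₂ z * conj (u₂ z) := by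
  have d1 := a1_diff h.smooth₁ z
  have d2 := a1_diff h.smooth₂ z
  rw [a1_NN, dzb_add (d1.fun_mul (a1_conj d1)) (d2.fun_mul (a1_conj d2)), dzb_mul d1 (a1_conj d1),
    dzb_mul d2 (a1_conj d2), dzb_conj, dzb_conj, a1_e2 h hz, h.eq₁ z hz]
  ring

theorem dzb_PP (h : Sol E Ω u₁ u₂) (hz : z ∈ Ω) :
    dzb (fun w => (PP u₁ u₂ w : ℂ)) z
      = I * E * qq u₁ u₂ z + conj (dz u₁ z) * u₁ z - dzb u₂ z * conj (u₂ z) := by
  have d1 := a1_diff h.smooth₁ z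
  have d2 := a1_diff h.smooth₂ z
  rw [a1_PP, dzb_sub (d1.fun_mul (a1_conj d1)) (d2.fun_mul (a1_conj d2)), dzb_mul d1 (a1_conj d1),
    dzb_mul d2 (a1_conj d2), dzb_conj, dzb_conj, a1_e2 h hz, h.eq₁ z hz]
  unfold qq
  ring

theorem dz_qq (h : Sol E Ω u₁ u₂) (hz : z ∈ Ω) :
    dz (qq u₁ u₂) z = I * E / 2 * PP u₁ u₂ z := by
  have d1 := a1_diff h.smooth₁ z
  have d2 := a1_diff h.smooth₂ z
  have hq : qq u₁ u₂ = fun w => conj (u₁ w) * u₂ w := rfl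
  have hP : (PP u₁ u₂ z : ℂ) = u₁ z * conj (u₁ z) - u₂ z * conj (u₂ z) :=
    congrFun (a1_PP u₁ u₂) z
  rw [hq, dz_mul (a1_conj d1) d2, dz_conj, a1_e1 h hz, h.eq₂ z hz, hP]
  ring

/-- `∂ conj q = conj (∂̄ q)`, where `∂̄ q = conj (∂ u₁) u₂ + conj u₁ ∂̄ u₂` -/
theorem dzb_qq (h : Sol E Ω u₁ u₂) (hz : z ∈ Ω) :
    dzb (qq u₁ u₂) z = conj (dz u₁ z) * u₂ z + conj (u₁ z) * dzb u₂ z := by
  have _ := hz
  have d1 := a1_diff h.smooth₁ z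
  have d2 := a1_diff h.smooth₂ z
  have hq : qq u₁ u₂ = fun w => conj (u₁ w) * u₂ w := rfl
  rw [hq, dzb_mul (a1_conj d1) d2, dzb_conj]

/-- second derivatives -/
private theorem a1_dzA (h : Sol E Ω u₁ u₂) (hz : z ∈ Ω) :
    dz (fun w => conj (dz u₁ w)) z = -(E ^ 2 / 4) * conj (u₁ z) := by
  have h1 : dzb (fun w => dz u₁ w) z = dz (fun w => dzb u₁ w) z :=
    (dz_dzb_comm ((h.smooth₁ 2).contDiffAt)).symm
  have h2 : (fun w => dzb u₁ w) =ᶠ[𝓝 z] fun w => (I * E / 2) * u₂ w := by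
    filter_upwards [h.isOpen.mem_nhds hz] with w hw
    exact h.eq₁ w hw
  have h3 : dz (fun w => (I * E / 2) * u₂ w) z = (I * E / 2) * (I * E / 2 * u₁ z) := by
    rw [dz_mul (differentiableAt_const _) (a1_diff h.smooth₂ z), dz_const, h.eq₂ z hz]
    ring
  rw [dz_conj]
  have h4 : dzb (fun w => dz u₁ w) z = dzb (dz u₁) z := rfl
  rw [← h4, h1, dz_congr h2, h3, map_mul, map_mul, map_div₀, map_mul, conj_I, conj_ofReal]
  simp only [map_ofNat]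
  ring_nf
  simp only [I_sq]
  ring

private theorem a1_dzB (h : Sol E Ω u₁ u₂) (hz : z ∈ Ω) :
    dz (dzb u₂) z = -(E ^ 2 / 4) * u₂ z := by
  have h1 : dz (fun w => dzb u₂ w) z = dzb (fun w => dz u₂ w) z :=
    dz_dzb_comm ((h.smooth₂ 2).contDiffAt)
  have h2 : (fun w => dz u₂ w) =ᶠ[𝓝 z] fun w => (I * E / 2) * u₁ w := by
    filter_upwards [h.isOpen.mem_nhds hz] with w hw
    exact h.eq₂ w hw
  have h3 : dzb (fun w => (I * E / 2) * u₁ w) z = (I * E / 2) * (I * E / 2 * u₂ z) := by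
    rw [dzb_mul (differentiableAt_const _) (a1_diff h.smooth₁ z), dzb_const, h.eq₁ z hz]
    ring
  have h4 : dz (fun w => dzb u₂ w) z = dz (dzb u₂) z := rfl
  rw [← h4, h1, dzb_congr h2, h3]
  ring_nf
  simp only [I_sq]
  ring

theorem dz_SS (h : Sol E Ω u₁ u₂) (hz : z ∈ Ω) :
    dz (SS u₁ u₂) z = I * E / 2 * dzb (fun w => (NN u₁ u₂ w : ℂ)) z := by
  have d1 := a1_diff h.smooth₁ z
  have d2 := a1_diff h.smooth₂ z
  have dA : DifferentiableAt ℝ (fun w => conj (dz u₁ w)) z :=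
    a1_conj (a1_diff (a1_dz h.smooth₁) z)
  have dB : DifferentiableAt ℝ (dzb u₂) z := a1_diff (a1_dzb h.smooth₂) z
  have hS : SS u₁ u₂ = fun w => conj (dz u₁ w) * u₂ w - dzb u₂ w * conj (u₁ w) := rfl
  rw [hS, dz_sub (dA.fun_mul d2) (dB.fun_mul (a1_conj d1)), dz_mul dA d2, dz_mul dB (a1_conj d1),
    a1_dzA h hz, a1_dzB h hz, dz_conj, a1_e1 h hz, h.eq₂ z hz, dzb_NN h hz]
  ring

/-- `Δ N = 4 (|∂ u₁|² + |∂̄ u₂|²) - E² N` -/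
private theorem a1_lap (h : Sol E Ω u₁ u₂) (hz : z ∈ Ω) :
    lap (NN u₁ u₂) z = 4 * (‖dz u₁ z‖ ^ 2 + ‖dzb u₂ z‖ ^ 2) - E ^ 2 * NN u₁ u₂ z := by
  have d1 := a1_diff h.smooth₁ z
  have d2 := a1_diff h.smooth₂ z
  have dA : DifferentiableAt ℝ (fun w => conj (dz u₁ w)) z :=
    a1_conj (a1_diff (a1_dz h.smooth₁) z)
  have dB : DifferentiableAt ℝ (dzb u₂) z := a1_diff (a1_dzb h.smooth₂) z
  have h1 := lap_eq ((contDiff_NN h.smooth₁ h.smooth₂ 2).contDiffAt (x := z))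
  have h2 : (fun w => dzb (fun v => (NN u₁ u₂ v : ℂ)) w) =ᶠ[𝓝 z]
      fun w => conj (dz u₁ w) * u₁ w + dzb u₂ w * conj (u₂ w) := by
    filter_upwards [h.isOpen.mem_nhds hz] with w hw
    exact dzb_NN h hw
  rw [dz_congr h2, dz_add (dA.fun_mul d1) (dB.fun_mul (a1_conj d2)), dz_mul dA d1,
    dz_mul dB (a1_conj d2), a1_dzA h hz, a1_dzB h hz, dz_conj] at h1
  have h3 : (NN u₁ u₂ z : ℂ) = u₁ z * conj (u₁ z) + u₂ z * conj (u₂ z) :=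
    congrFun (a1_NN u₁ u₂) z
  have h4 : (lap (NN u₁ u₂) z : ℂ) =
      ((4 * (‖dz u₁ z‖ ^ 2 + ‖dzb u₂ z‖ ^ 2) - E ^ 2 * NN u₁ u₂ z : ℝ) : ℂ) := by
    rw [h1]
    push_cast
    rw [h3, ← mul_conj' (dz u₁ z), ← mul_conj' (dzb u₂ z)]
    ring
  exact_mod_cast h4

private theorem a1_lagrange (A B x y : ℂ) :
    (‖A‖ ^ 2 + ‖B‖ ^ 2) * (‖x‖ ^ 2 + ‖y‖ ^ 2) =
      ‖conj A * x + B * conj y‖ ^ 2 + ‖conj A * y - B * conj x‖ ^ 2 := by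
  simp only [← normSq_eq_norm_sq, normSq_apply, add_re, add_im, sub_re, sub_im, mul_re, mul_im,
    conj_re, conj_im]
  ring

/-- `N Δ N - |∇ N|² = 4 |S|² - E² N²` -/
theorem lap_NN (h : Sol E Ω u₁ u₂) (hz : z ∈ Ω) :
    NN u₁ u₂ z * lap (NN u₁ u₂) z - gsq (NN u₁ u₂) z
      = 4 * ‖SS u₁ u₂ z‖ ^ 2 - E ^ 2 * NN u₁ u₂ z ^ 2 := by
  have hd : DifferentiableAt ℝ (NN u₁ u₂) z :=
    ((contDiff_NN h.smooth₁ h.smooth₂ 1).differentiable (by norm_num)).differentiableAt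
  rw [a1_lap h hz, gsq_eq _ _ hd, dzb_NN h hz]
  have h1 := a1_lagrange (dz u₁ z) (dzb u₂ z) (u₁ z) (u₂ z)
  have h2 : SS u₁ u₂ z = conj (dz u₁ z) * u₂ z - dzb u₂ z * conj (u₁ z) := rfl
  have h3 : NN u₁ u₂ z = ‖u₁ z‖ ^ 2 + ‖u₂ z‖ ^ 2 := rfl
  rw [h2]
  rw [← h3] at h1
  linear_combination 4 * h1

theorem lap_NN_ge (h : Sol E Ω u₁ u₂) (hz : z ∈ Ω) :
    -(E ^ 2 * NN u₁ u₂ z) ≤ lap (NN u₁ u₂) z := by
  rw [a1_lap h hz]
  have h1 : 0 ≤ ‖dz u₁ z‖ ^ 2 + ‖dzb u₂ z‖ ^ 2 := by positivity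
  linarith

end Pool.Agent.FK
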