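import Mathlib
import Pool.Agent.Helper99.FK.Alg1

/-! FK-7: pointwise inequalities for the gradient of `c` and for `ξ` -/

set_option autoImplicit false

open Complex MeasureTheory Set Metric
open scoped ComplexConjugate Topology

namespace Pool.Agent.FK

variable {E : ℝ} {Ω : Set ℂ} {u₁ u₂ : ℂ → ℂ} {z : ℂ}

namespace Alg2Aux

theorem NN_nonneg (u₁ u₂ : ℂ → ℂ) (z : ℂ) : 0 ≤ NN u₁ u₂ z := by
  unfold NN; positivity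

theorem two_qq_le (u₁ u₂ : ℂ → ℂ) (z : ℂ) : 2 * ‖qq u₁ u₂ z‖ ≤ NN u₁ u₂ z := by
  rw [qq, norm_mul, RCLike.norm_conj]
  unfold NN
  nlinarith [sq_nonneg (‖u₁ z‖ - ‖u₂ z‖)]

end Alg2Aux

open Alg2Aux

/-- `∂̄ c = (i E N q + 2 conj q S) / N²` -/
theorem dzb_cc (h : Sol E Ω u₁ u₂) (hz : z ∈ Ω) (hN : NN u₁ u₂ z ≠ 0) :
    dzb (fun w => (cc u₁ u₂ w : ℂ)) z
      = (I * E * NN u₁ u₂ z * qq u₁ u₂ z + 2 * conj (qq u₁ u₂ z) * SS u₁ u₂ z)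
        / (NN u₁ u₂ z : ℂ) ^ 2 := by
  have hN' : (NN u₁ u₂ z : ℂ) ≠ 0 := by exact_mod_cast hN
  have dN : DifferentiableAt ℝ (NN u₁ u₂) z :=
    (contDiff_NN h.smooth₁ h.smooth₂ 1).differentiable (by norm_num) z
  have dc : DifferentiableAt ℝ (cc u₁ u₂) z :=
    (contDiffAt_cc h.smooth₁ h.smooth₂ hN 1).differentiableAt (by norm_num)
  have dN' : DifferentiableAt ℝ (fun w => (NN u₁ u₂ w : ℂ)) z :=
    Complex.ofRealCLM.differentiableAt.comp z dN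
  have dc' : DifferentiableAt ℝ (fun w => (cc u₁ u₂ w : ℂ)) z :=
    Complex.ofRealCLM.differentiableAt.comp z dc
  have hev : (fun w => (PP u₁ u₂ w : ℂ)) =ᶠ[𝓝 z]
      (fun w => (cc u₁ u₂ w : ℂ) * (NN u₁ u₂ w : ℂ)) := by
    filter_upwards [dN.continuousAt.eventually_ne hN] with w hw
    have hw' : (NN u₁ u₂ w : ℂ) ≠ 0 := by exact_mod_cast hw
    rw [cc]
    push_cast
    field_simp
  have h1 := dzb_congr hev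
  rw [dzb_mul dc' dN', dzb_PP h hz, dzb_NN h hz] at h1
  have h2 : dzb (fun w => (cc u₁ u₂ w : ℂ)) z * NN u₁ u₂ z
      = (I * E * qq u₁ u₂ z + conj (dz u₁ z) * u₁ z - dzb u₂ z * conj (u₂ z))
        - (cc u₁ u₂ z : ℂ) * (conj (dz u₁ z) * u₁ z + dzb u₂ z * conj (u₂ z)) := by
    rw [h1]; ring
  have h3 : (cc u₁ u₂ z : ℂ) = (PP u₁ u₂ z : ℂ) / (NN u₁ u₂ z : ℂ) := by
    rw [cc]; push_cast; rfl
  rw [h3] at h2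
  have hNc : (NN u₁ u₂ z : ℂ) = u₁ z * conj (u₁ z) + u₂ z * conj (u₂ z) := by
    rw [NN]; push_cast; rw [← mul_conj', ← mul_conj']
  have hPc : (PP u₁ u₂ z : ℂ) = u₁ z * conj (u₁ z) - u₂ z * conj (u₂ z) := by
    rw [PP]; push_cast; rw [← mul_conj', ← mul_conj']
  have hq : qq u₁ u₂ z = conj (u₁ z) * u₂ z := rfl
  have hS : SS u₁ u₂ z = conj (dz u₁ z) * u₂ z - dzb u₂ z * conj (u₁ z) := rfl
  have hqc : conj (qq u₁ u₂ z) = u₁ z * conj (u₂ z) := by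
    rw [hq, map_mul, conj_conj]
  rw [eq_div_iff (pow_ne_zero 2 hN')]
  have h4 : dzb (fun w => (cc u₁ u₂ w : ℂ)) z * (NN u₁ u₂ z : ℂ) ^ 2
      = (I * E * qq u₁ u₂ z + conj (dz u₁ z) * u₁ z - dzb u₂ z * conj (u₂ z)) * NN u₁ u₂ z
        - (PP u₁ u₂ z : ℂ) * (conj (dz u₁ z) * u₁ z + dzb u₂ z * conj (u₂ z)) := by
    rw [pow_two, ← mul_assoc, h2]
    field_simp
  rw [h4, hqc, hS, hq, hNc, hPc]
  ring

namespace Alg2Aux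

/-- the numerator of `∂̄ c` -/
noncomputable def XX (E : ℝ) (u₁ u₂ : ℂ → ℂ) (z : ℂ) : ℂ :=
  I * E * NN u₁ u₂ z * qq u₁ u₂ z + 2 * conj (qq u₁ u₂ z) * SS u₁ u₂ z

theorem diff_cc (h : Sol E Ω u₁ u₂) (hN : NN u₁ u₂ z ≠ 0) :
    DifferentiableAt ℝ (cc u₁ u₂) z :=
  (contDiffAt_cc h.smooth₁ h.smooth₂ hN 1).differentiableAt (by norm_num)

theorem norm_dzb (h : Sol E Ω u₁ u₂) (hz : z ∈ Ω) (hN : NN u₁ u₂ z ≠ 0) :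
    ‖dzb (fun w => (cc u₁ u₂ w : ℂ)) z‖ = ‖XX E u₁ u₂ z‖ / NN u₁ u₂ z ^ 2 := by
  rw [dzb_cc h hz hN, norm_div, norm_pow, norm_real, Real.norm_of_nonneg (NN_nonneg u₁ u₂ z)]
  rfl

theorem sqrt_gsq (h : Sol E Ω u₁ u₂) (hz : z ∈ Ω) (hN : NN u₁ u₂ z ≠ 0) :
    Real.sqrt (gsq (cc u₁ u₂) z) = 2 * ‖XX E u₁ u₂ z‖ / NN u₁ u₂ z ^ 2 := by
  rw [gsq_eq _ _ (diff_cc h hN), norm_dzb h hz hN]
  have : 4 * (‖XX E u₁ u₂ z‖ / NN u₁ u₂ z ^ 2) ^ 2 = (2 * ‖XX E u₁ u₂ z‖ / NN u₁ u₂ z ^ 2) ^ 2 := by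
    ring
  rw [this, Real.sqrt_sq (by positivity)]

theorem norm_A (h : Sol E Ω u₁ u₂) :
    ‖I * E * NN u₁ u₂ z * qq u₁ u₂ z‖ = E * NN u₁ u₂ z * ‖qq u₁ u₂ z‖ := by
  rw [norm_mul, norm_mul, norm_mul, norm_I, one_mul, norm_real, norm_real,
    Real.norm_of_nonneg h.pos.le, Real.norm_of_nonneg (NN_nonneg u₁ u₂ z)]

theorem norm_B : ‖2 * conj (qq u₁ u₂ z) * SS u₁ u₂ z‖ = 2 * ‖qq u₁ u₂ z‖ * ‖SS u₁ u₂ z‖ := by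
  rw [norm_mul, norm_mul, RCLike.norm_conj]
  norm_num

theorem sqrt_one_sub (hN : NN u₁ u₂ z ≠ 0) :
    Real.sqrt (1 - cc u₁ u₂ z ^ 2) = 2 * ‖qq u₁ u₂ z‖ / NN u₁ u₂ z := by
  have h0 := NN_nonneg u₁ u₂ z
  have h1 : 1 - cc u₁ u₂ z ^ 2 = (2 * ‖qq u₁ u₂ z‖ / NN u₁ u₂ z) ^ 2 := by
    have := qq_sq hN
    rw [div_pow, eq_div_iff (pow_ne_zero 2 hN), ← this]
    ring
  rw [h1, Real.sqrt_sq (by positivity)]

end Alg2Aux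

/-- the main pointwise inequality `|∇θ|² + J ≤ 2 E |∇θ|` -/
theorem grad_ineq (h : Sol E Ω u₁ u₂) (hz : z ∈ Ω) (hN : NN u₁ u₂ z ≠ 0) :
    gsq (cc u₁ u₂) z + (1 - cc u₁ u₂ z ^ 2) * JJ E u₁ u₂ z
      ≤ 2 * E * Real.sqrt (1 - cc u₁ u₂ z ^ 2) * Real.sqrt (gsq (cc u₁ u₂) z) := by
  have hN0 : 0 < NN u₁ u₂ z := lt_of_le_of_ne (NN_nonneg u₁ u₂ z) hN.symm
  have h1 : 1 - cc u₁ u₂ z ^ 2 = (2 * ‖qq u₁ u₂ z‖ / NN u₁ u₂ z) ^ 2 := by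
    have := qq_sq hN
    rw [div_pow, eq_div_iff (pow_ne_zero 2 hN), ← this]
    ring
  have h2 : gsq (cc u₁ u₂) z = 4 * (‖XX E u₁ u₂ z‖ / NN u₁ u₂ z ^ 2) ^ 2 := by
    rw [gsq_eq _ _ (diff_cc h hN), norm_dzb h hz hN]
  rw [sqrt_gsq h hz hN, sqrt_one_sub hN, h2, h1, JJ]
  set N := NN u₁ u₂ z with hNd
  set s := ‖SS u₁ u₂ z‖ with hs
  set x := ‖XX E u₁ u₂ z‖ with hx
  set q := ‖qq u₁ u₂ z‖ with hq
  have hkey : (x - E * N * q) ^ 2 ≤ (2 * q * s) ^ 2 := by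
    apply sq_le_sq'
    · have e := norm_sub_norm_le (I * E * NN u₁ u₂ z * qq u₁ u₂ z) (XX E u₁ u₂ z)
      have e2 : I * E * NN u₁ u₂ z * qq u₁ u₂ z - XX E u₁ u₂ z
          = -(2 * conj (qq u₁ u₂ z) * SS u₁ u₂ z) := by
        rw [XX]; ring
      rw [e2, norm_neg, norm_B, norm_A h] at e
      linarith
    · have e := norm_sub_norm_le (XX E u₁ u₂ z) (I * E * NN u₁ u₂ z * qq u₁ u₂ z)
      have e2 : XX E u₁ u₂ z - I * E * NN u₁ u₂ z * qq u₁ u₂ z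
          = 2 * conj (qq u₁ u₂ z) * SS u₁ u₂ z := by
        rw [XX]; ring
      rw [e2, norm_B, norm_A h] at e
      linarith
  have e1 : 2 * E * (2 * q / N) * (2 * x / N ^ 2)
      - (4 * (x / N ^ 2) ^ 2 + (2 * q / N) ^ 2 * (E ^ 2 - 4 * s ^ 2 / N ^ 2))
      = 4 / N ^ 4 * ((2 * q * s) ^ 2 - (x - E * N * q) ^ 2) := by
    field_simp
    ring
  have e3 : 0 ≤ 4 / N ^ 4 * ((2 * q * s) ^ 2 - (x - E * N * q) ^ 2) :=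
    mul_nonneg (by positivity) (by linarith)
  linarith

theorem grad_le (h : Sol E Ω u₁ u₂) (hz : z ∈ Ω) (hN : NN u₁ u₂ z ≠ 0) :
    Real.sqrt (gsq (cc u₁ u₂) z) ≤ E + 2 * ‖SS u₁ u₂ z‖ / NN u₁ u₂ z := by
  have hN0 : 0 < NN u₁ u₂ z := lt_of_le_of_ne (NN_nonneg u₁ u₂ z) hN.symm
  rw [sqrt_gsq h hz hN]
  have h1 : ‖XX E u₁ u₂ z‖ ≤ E * NN u₁ u₂ z * ‖qq u₁ u₂ z‖
      + 2 * ‖qq u₁ u₂ z‖ * ‖SS u₁ u₂ z‖ := by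
    rw [XX, ← norm_A h, ← norm_B]
    exact norm_add_le _ _
  have h2 := two_qq_le u₁ u₂ z
  have hE := h.pos
  have h3 : E + 2 * ‖SS u₁ u₂ z‖ / NN u₁ u₂ z
      = NN u₁ u₂ z * (E * NN u₁ u₂ z + 2 * ‖SS u₁ u₂ z‖) / NN u₁ u₂ z ^ 2 := by
    field_simp
  rw [h3]
  apply div_le_div_of_nonneg_right _ (by positivity)
  have h4 : 2 * ‖qq u₁ u₂ z‖ * (E * NN u₁ u₂ z + 2 * ‖SS u₁ u₂ z‖)
      ≤ NN u₁ u₂ z * (E * NN u₁ u₂ z + 2 * ‖SS u₁ u₂ z‖) :=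
    mul_le_mul_of_nonneg_right h2 (by positivity)
  nlinarith

theorem xi_le (h : Sol E Ω u₁ u₂) (hN : NN u₁ u₂ z ≠ 0) :
    ‖xi E u₁ u₂ z‖ ≤ E / 2 + ‖SS u₁ u₂ z‖ / NN u₁ u₂ z := by
  have hN0 : 0 < NN u₁ u₂ z := lt_of_le_of_ne (NN_nonneg u₁ u₂ z) hN.symm
  have hE := h.pos
  have h2 := two_qq_le u₁ u₂ z
  have h1 : ‖xi E u₁ u₂ z‖ ≤ E * ‖qq u₁ u₂ z‖ / NN u₁ u₂ z
      + 2 * ‖qq u₁ u₂ z‖ * ‖SS u₁ u₂ z‖ / NN u₁ u₂ z ^ 2 := by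
    rw [xi]
    refine (norm_add_le _ _).trans (le_of_eq ?_)
    rw [norm_div, norm_div, norm_mul, norm_mul, norm_mul, norm_mul, RCLike.norm_conj, norm_pow,
      norm_real, norm_real, norm_I, Real.norm_of_nonneg hE.le, Real.norm_of_nonneg hN0.le]
    norm_num
  refine h1.trans (add_le_add ?_ ?_)
  · rw [div_le_div_iff₀ hN0 two_pos]
    nlinarith
  · rw [div_le_div_iff₀ (by positivity) hN0]
    have : 2 * ‖qq u₁ u₂ z‖ * (‖SS u₁ u₂ z‖ * NN u₁ u₂ z)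
        ≤ NN u₁ u₂ z * (‖SS u₁ u₂ z‖ * NN u₁ u₂ z) :=
      mul_le_mul_of_nonneg_right h2 (by positivity)
    nlinarith

/-- where `c = 0` and `∇ c = 0` also `J = 0` -/
theorem JJ_eq_zero (h : Sol E Ω u₁ u₂) (hz : z ∈ Ω) (hN : NN u₁ u₂ z ≠ 0)
    (hc : cc u₁ u₂ z = 0) (hd : fderiv ℝ (cc u₁ u₂) z = 0) : JJ E u₁ u₂ z = 0 := by
  have hN0 : 0 < NN u₁ u₂ z := lt_of_le_of_ne (NN_nonneg u₁ u₂ z) hN.symm
  have h1 : Real.sqrt (gsq (cc u₁ u₂) z) = 0 := by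
    rw [gsq, hd]; simp
  rw [sqrt_gsq h hz hN] at h1
  have h2 : ‖XX E u₁ u₂ z‖ = 0 := by
    have hp : (0 : ℝ) < NN u₁ u₂ z ^ 2 := by positivity
    have := (div_eq_zero_iff.1 h1).resolve_right hp.ne'
    linarith
  have h3 : XX E u₁ u₂ z = 0 := norm_eq_zero.1 h2
  have h4 : ‖I * E * NN u₁ u₂ z * qq u₁ u₂ z‖ = ‖2 * conj (qq u₁ u₂ z) * SS u₁ u₂ z‖ := by
    have : I * E * NN u₁ u₂ z * qq u₁ u₂ z = -(2 * conj (qq u₁ u₂ z) * SS u₁ u₂ z) := by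
      rw [XX] at h3; linear_combination h3
    rw [this, norm_neg]
  rw [norm_A h, norm_B] at h4
  have h5 := qq_sq hN
  rw [hc] at h5
  have h6 : 0 < ‖qq u₁ u₂ z‖ := by
    apply lt_of_le_of_ne (norm_nonneg _)
    intro h0
    rw [← h0] at h5
    have : 0 < NN u₁ u₂ z ^ 2 := by positivity
    nlinarith
  have h7 : E * NN u₁ u₂ z = 2 * ‖SS u₁ u₂ z‖ := by
    apply mul_right_cancel₀ h6.ne'
    linarith
  rw [JJ]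
  have h8 : E ^ 2 = 4 * ‖SS u₁ u₂ z‖ ^ 2 / NN u₁ u₂ z ^ 2 := by
    rw [eq_div_iff (by positivity), ← mul_pow, h7]
    ring
  rw [← h8, sub_self]

end Pool.Agent.FK
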