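import Mathlib
import Pool.Agent.Helper99.FK.Alg2

/-! FK-8: the divergence identity behind the curvature distribution -/

set_option autoImplicit false

open Complex MeasureTheory Set Metric
open scoped ComplexConjugate Topology

namespace Pool.Agent.FK

variable {E : ℝ} {Ω : Set ℂ} {u₁ u₂ : ℂ → ℂ} {z : ℂ}

private theorem im_aux (p w : ℂ) : (conj (I * p + w) * (p + I * w)).im = ‖w‖ ^ 2 - ‖p‖ ^ 2 := by
  rw [← normSq_eq_norm_sq, ← normSq_eq_norm_sq, normSq_apply, normSq_apply]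
  simp only [map_add, map_mul, conj_I, mul_im, add_re, neg_mul, neg_re, mul_re, I_re, conj_re,
    zero_mul, I_im, conj_im, one_mul, add_im, neg_im]
  ring

/-- `4 Im (∂c ξ) = -(1 - c²) J` -/
theorem im_dz_cc (h : Sol E Ω u₁ u₂) (hz : z ∈ Ω) (hN : NN u₁ u₂ z ≠ 0) :
    4 * (dz (fun w => (cc u₁ u₂ w : ℂ)) z * xi E u₁ u₂ z).im
      = -((1 - cc u₁ u₂ z ^ 2) * JJ E u₁ u₂ z) := by
  have hNc : (NN u₁ u₂ z : ℂ) ≠ 0 := by exact_mod_cast hN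
  have h1 : dz (fun w => (cc u₁ u₂ w : ℂ)) z * xi E u₁ u₂ z =
      (((NN u₁ u₂ z ^ 4)⁻¹ : ℝ) : ℂ) *
        (conj (I * (E * NN u₁ u₂ z * qq u₁ u₂ z) + 2 * conj (qq u₁ u₂ z) * SS u₁ u₂ z) *
        ((E * NN u₁ u₂ z * qq u₁ u₂ z) + I * (2 * conj (qq u₁ u₂ z) * SS u₁ u₂ z))) := by
    rw [dz_ofReal, dzb_cc h hz hN, xi, map_div₀, map_pow, conj_ofReal]
    push_cast
    have h2 : I * ↑E * ↑(NN u₁ u₂ z) * qq u₁ u₂ z =
        I * (↑E * ↑(NN u₁ u₂ z) * qq u₁ u₂ z) := by ring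
    rw [h2]
    field_simp
  rw [h1, im_ofReal_mul, im_aux]
  have h3 : ‖2 * conj (qq u₁ u₂ z) * SS u₁ u₂ z‖ ^ 2 =
      4 * ‖qq u₁ u₂ z‖ ^ 2 * ‖SS u₁ u₂ z‖ ^ 2 := by
    rw [norm_mul, norm_mul, RCLike.norm_conj]
    norm_num
    ring
  have h4 : ‖(E : ℂ) * NN u₁ u₂ z * qq u₁ u₂ z‖ ^ 2 =
      E ^ 2 * NN u₁ u₂ z ^ 2 * ‖qq u₁ u₂ z‖ ^ 2 := by
    rw [norm_mul, norm_mul, norm_real, norm_real, Real.norm_eq_abs, Real.norm_eq_abs, mul_pow,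
      mul_pow, sq_abs, sq_abs]
  rw [h3, h4]
  have h5 := qq_sq (u₁ := u₁) (u₂ := u₂) (z := z) hN
  have h6 : ‖qq u₁ u₂ z‖ ^ 2 = (1 - cc u₁ u₂ z ^ 2) * NN u₁ u₂ z ^ 2 / 4 := by
    linarith
  rw [h6, JJ]
  field_simp
  ring

/-- `4 Im ∂ξ = 2 c J` -/
theorem im_dz_xi (h : Sol E Ω u₁ u₂) (hz : z ∈ Ω) (hN : NN u₁ u₂ z ≠ 0) :
    4 * (dz (xi E u₁ u₂) z).im = 2 * cc u₁ u₂ z * JJ E u₁ u₂ z := by
  have hNc : (NN u₁ u₂ z : ℂ) ≠ 0 := by exact_mod_cast hN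
  have dq : DifferentiableAt ℝ (qq u₁ u₂) z :=
    ((contDiff_qq h.smooth₁ h.smooth₂ 1).differentiable (by norm_num)) z
  have dS : DifferentiableAt ℝ (SS u₁ u₂) z :=
    ((contDiff_SS h.smooth₁ h.smooth₂ 1).differentiable (by norm_num)) z
  have dN0 : DifferentiableAt ℝ (NN u₁ u₂) z :=
    ((contDiff_NN h.smooth₁ h.smooth₂ 1).differentiable (by norm_num)) z
  have dN : DifferentiableAt ℝ (fun w => (NN u₁ u₂ w : ℂ)) z :=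
    ofRealCLM.differentiableAt.comp z dN0
  have dqc : DifferentiableAt ℝ (fun w => conj (qq u₁ u₂ w)) z :=
    conjCLE.toContinuousLinearMap.differentiableAt.comp z dq
  have dNi : DifferentiableAt ℝ (fun w => ((NN u₁ u₂ w : ℂ))⁻¹) z := dN.inv hNc
  have e1 : xi E u₁ u₂ = fun w => (E * qq u₁ u₂ w) * ((NN u₁ u₂ w : ℂ))⁻¹ +
      ((2 * I * conj (qq u₁ u₂ w)) * SS u₁ u₂ w) *
        (((NN u₁ u₂ w : ℂ))⁻¹ * ((NN u₁ u₂ w : ℂ))⁻¹) := by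
    funext w
    rw [xi, div_eq_mul_inv, div_eq_mul_inv, pow_two, mul_inv]
  have d1 : DifferentiableAt ℝ (fun w => (E : ℂ) * qq u₁ u₂ w) z := dq.const_mul _
  have d2 : DifferentiableAt ℝ (fun w => 2 * I * conj (qq u₁ u₂ w)) z := dqc.const_mul _
  have d3 : DifferentiableAt ℝ (fun w => (2 * I * conj (qq u₁ u₂ w)) * SS u₁ u₂ w) z := d2.mul dS
  have d4 : DifferentiableAt ℝ (fun w => ((NN u₁ u₂ w : ℂ))⁻¹ * ((NN u₁ u₂ w : ℂ))⁻¹) z :=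
    dNi.mul dNi
  have m1 : DifferentiableAt ℝ (fun w => (E * qq u₁ u₂ w) * ((NN u₁ u₂ w : ℂ))⁻¹) z :=
    d1.mul dNi
  have m2 : DifferentiableAt ℝ (fun w => ((2 * I * conj (qq u₁ u₂ w)) * SS u₁ u₂ w) *
      (((NN u₁ u₂ w : ℂ))⁻¹ * ((NN u₁ u₂ w : ℂ))⁻¹)) z := d3.mul d4
  have e2 : dz (xi E u₁ u₂) z =
      ((E * dz (qq u₁ u₂) z) * ((NN u₁ u₂ z : ℂ))⁻¹ + (E * qq u₁ u₂ z) *
          (-dz (fun w => (NN u₁ u₂ w : ℂ)) z / (NN u₁ u₂ z : ℂ) ^ 2)) +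
      (((2 * I * dz (fun w => conj (qq u₁ u₂ w)) z) * SS u₁ u₂ z +
          (2 * I * conj (qq u₁ u₂ z)) * dz (SS u₁ u₂) z) *
        (((NN u₁ u₂ z : ℂ))⁻¹ * ((NN u₁ u₂ z : ℂ))⁻¹) +
        ((2 * I * conj (qq u₁ u₂ z)) * SS u₁ u₂ z) *
          ((-dz (fun w => (NN u₁ u₂ w : ℂ)) z / (NN u₁ u₂ z : ℂ) ^ 2) * ((NN u₁ u₂ z : ℂ))⁻¹ +
            ((NN u₁ u₂ z : ℂ))⁻¹ *
              (-dz (fun w => (NN u₁ u₂ w : ℂ)) z / (NN u₁ u₂ z : ℂ) ^ 2))) := by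
    rw [e1, dz_add m1 m2, dz_mul d1 dNi, dz_mul d3 d4, dz_mul dNi dNi,
      dz_inv dN hNc, dz_mul d2 dS, dz_mul (differentiableAt_const _) dqc,
      dz_mul (differentiableAt_const _) dq, dz_const, dz_const]
    ring
  rw [dz_conj, dz_qq h hz, dzb_qq h hz, dz_SS h hz, dz_ofReal, dzb_NN h hz] at e2
  have eN : (NN u₁ u₂ z : ℂ) = conj (u₁ z) * u₁ z + conj (u₂ z) * u₂ z := by
    rw [NN]
    push_cast
    rw [conj_mul', conj_mul']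
  have eP : (PP u₁ u₂ z : ℂ) = conj (u₁ z) * u₁ z - conj (u₂ z) * u₂ z := by
    rw [PP]
    push_cast
    rw [conj_mul', conj_mul']
  have key : conj (conj (dz u₁ z) * u₂ z + conj (u₁ z) * dzb u₂ z) * NN u₁ u₂ z -
      2 * conj (qq u₁ u₂ z) * conj (conj (dz u₁ z) * u₁ z + dzb u₂ z * conj (u₂ z)) =
      -(PP u₁ u₂ z * conj (SS u₁ u₂ z)) := by
    rw [eN, eP, qq, SS]
    simp only [map_add, map_mul, map_sub, conj_conj]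
    ring
  set D := conj (dz u₁ z) * u₁ z + dzb u₂ z * conj (u₂ z) with hD
  set B := conj (dz u₁ z) * u₂ z + conj (u₁ z) * dzb u₂ z with hB
  have e3 : dz (xi E u₁ u₂) z =
      ((E ^ 2 * PP u₁ u₂ z / (2 * NN u₁ u₂ z) -
        2 * PP u₁ u₂ z * ‖SS u₁ u₂ z‖ ^ 2 / NN u₁ u₂ z ^ 3 : ℝ) : ℂ) * I -
      ((E / NN u₁ u₂ z ^ 2 * (2 * (qq u₁ u₂ z * conj D).re) : ℝ) : ℂ) := by
    have h1 : ((2 * (qq u₁ u₂ z * conj D).re : ℝ) : ℂ) =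
        qq u₁ u₂ z * conj D + conj (qq u₁ u₂ z) * D := by
      rw [← add_conj, map_mul, conj_conj]
    have h2 : ((‖SS u₁ u₂ z‖ : ℂ)) ^ 2 = conj (SS u₁ u₂ z) * SS u₁ u₂ z := by
      rw [conj_mul']
    rw [ofReal_mul, h1, e2]
    push_cast
    rw [h2]
    have h3 : conj B = (-(PP u₁ u₂ z * conj (SS u₁ u₂ z)) +
        2 * conj (qq u₁ u₂ z) * conj D) / NN u₁ u₂ z := by
      rw [eq_div_iff hNc, ← key]
      ring
    rw [h3]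
    field_simp
    ring_nf
    simp only [I_sq]
    ring
  rw [e3, sub_im, ofReal_im, sub_zero, im_ofReal_mul, I_im, JJ, cc]
  field_simp
  ring

theorem im_dz_rho (h : Sol E Ω u₁ u₂) (hz : z ∈ Ω) (hN : NN u₁ u₂ z ≠ 0) {ρ : ℝ → ℝ}
    (hρ : ContDiff ℝ 1 ρ) :
    4 * (dz (fun w => (ρ (cc u₁ u₂ w) : ℂ) * xi E u₁ u₂ w) z).im
      = -(((1 - cc u₁ u₂ z ^ 2) * deriv ρ (cc u₁ u₂ z) - 2 * cc u₁ u₂ z * ρ (cc u₁ u₂ z))
          * JJ E u₁ u₂ z) := by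
  have dc : DifferentiableAt ℝ (cc u₁ u₂) z :=
    (contDiffAt_cc h.smooth₁ h.smooth₂ hN 1).differentiableAt (by norm_num)
  have dx : DifferentiableAt ℝ (xi E u₁ u₂) z :=
    (contDiffAt_xi h.smooth₁ h.smooth₂ hN 1).differentiableAt (by norm_num)
  have dr : DifferentiableAt ℝ ρ (cc u₁ u₂ z) := (hρ.differentiable (by norm_num)) _
  have d1 : DifferentiableAt ℝ (fun w => (ρ (cc u₁ u₂ w) : ℂ)) z :=
    ofRealCLM.differentiableAt.comp z (dr.comp z dc)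
  rw [dz_mul d1 dx, dz_comp dr dc, add_im, mul_assoc, im_ofReal_mul, im_ofReal_mul]
  have h1 := im_dz_cc h hz hN
  have h2 := im_dz_xi h hz hN
  linear_combination (deriv ρ (cc u₁ u₂ z)) * h1 + (ρ (cc u₁ u₂ z)) * h2

end Pool.Agent.FK
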