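import Mathlib
import Pool.Agent.Helper99.FK.Defs

/-! FK-15: comparison lemma for the distribution function -/

set_option autoImplicit false

open Complex MeasureTheory Set Metric
open scoped ComplexConjugate Topology

namespace Pool.Agent.FK

/-- one step of the comparison: an integrated inequality with a pointwise bound -/
theorem comp_step {X : ℝ} (hX : Profile X) {β : ℝ → ℝ} (hm : MonotoneOn β (Ioo 0 X))
    (h0 : ∀ x ∈ Ioo (0 : ℝ) X, 0 ≤ β x)
    (hi : ∀ x₁ x₂, 0 < x₁ → x₁ < x₂ → x₂ < X →
      ∫ x in x₁..x₂, (4 * (TT x - 1) * Real.sqrt (β x) + 2 * (2 - TT x) * x) / TT x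
        ≤ β x₂ - β x₁) {K : ℝ} (hK : 0 ≤ K) (hKb : ∀ x ∈ Ioo (0 : ℝ) X, TT x - 1 ≤ K * x ^ 2)
    {a s B : ℝ} (ha : 0 < a) (has : a < s) (hs : s < X) (hB : 0 ≤ B)
    (hD : ∀ t, a ≤ t → t ≤ s → t ^ 2 - β t ≤ B) :
    s ^ 2 - β s ≤ a ^ 2 - β a + 4 * K * X * B * (s - a) := by
  have hXpos := hX.pos
  have hsub : Icc a s ⊆ Ioo 0 X := fun t ht => ⟨ha.trans_le ht.1, ht.2.trans_lt hs⟩
  have huIcc : uIcc a s = Icc a s := uIcc_of_le has.le
  have hT1 : ∀ t ∈ Icc a s, 1 ≤ TT t := fun t ht => hX.T_ge t ⟨(hsub ht).1, (hsub ht).2.le⟩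
  have hTc : ContinuousOn TT (Icc a s) := by
    have h1 : ContinuousOn sn (Icc a s) :=
      hX.sn_cont.mono fun t ht => ⟨(hsub ht).1.le, (hsub ht).2.le⟩
    have h2 : ContinuousOn (fun t : ℝ => 2 - sn t / t) (Icc a s) :=
      continuousOn_const.sub (h1.div continuousOn_id fun t ht => (hsub ht).1.ne')
    exact h2
  have hsq : MonotoneOn (fun t => Real.sqrt (β t)) (uIcc a s) := by
    rw [huIcc]
    intro t ht t' ht' h
    exact Real.sqrt_le_sqrt (hm (hsub ht) (hsub ht') h)
  have hsqi : IntervalIntegrable (fun t => Real.sqrt (β t)) volume a s := hsq.intervalIntegrable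
  have hg : IntervalIntegrable
      (fun t => (4 * (TT t - 1) * Real.sqrt (β t) + 2 * (2 - TT t) * t) / TT t) volume a s := by
    have hc1 : ContinuousOn (fun t => 4 * (TT t - 1) / TT t) (uIcc a s) := by
      rw [huIcc]
      exact (continuousOn_const.mul (hTc.sub continuousOn_const)).div hTc
        fun t ht => (zero_lt_one.trans_le (hT1 t ht)).ne'
    have hc2 : ContinuousOn (fun t => 2 * (2 - TT t) * t / TT t) (uIcc a s) := by
      rw [huIcc]
      exact ((continuousOn_const.mul (continuousOn_const.sub hTc)).mul continuousOn_id).div hTc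
        fun t ht => (zero_lt_one.trans_le (hT1 t ht)).ne'
    have h1 := (hsqi.continuousOn_mul hc1).add hc2.intervalIntegrable
    refine h1.congr ?_
    intro t _
    simp only
    ring
  have hlin : IntervalIntegrable (fun t : ℝ => 2 * t) volume a s :=
    (continuous_const.mul continuous_id).intervalIntegrable a s
  have hint2 : ∫ t in a..s, 2 * t = s ^ 2 - a ^ 2 := by
    rw [intervalIntegral.integral_const_mul, integral_id]
    ring
  have hle : ∫ t in a..s, (2 * t - (4 * (TT t - 1) * Real.sqrt (β t) + 2 * (2 - TT t) * t) / TT t)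
      ≤ ∫ _ in a..s, 4 * K * X * B := by
    refine intervalIntegral.integral_mono_on has.le (hlin.sub hg)
      intervalIntegrable_const ?_
    intro t ht
    have htm := hsub ht
    have hT := hT1 t ht
    have hTpos : 0 < TT t := zero_lt_one.trans_le hT
    have hTK := hKb t htm
    have hβ := h0 t htm
    have hsqrt := Real.sqrt_nonneg (β t)
    have hsqs := Real.sq_sqrt hβ
    have hdt := hD t ht.1 ht.2
    have heq : 2 * t - (4 * (TT t - 1) * Real.sqrt (β t) + 2 * (2 - TT t) * t) / TT t =
        4 * (TT t - 1) * (t - Real.sqrt (β t)) / TT t := by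
      field_simp
      ring
    rw [heq, div_le_iff₀ hTpos]
    have hR : 0 ≤ 4 * K * X * B := by positivity
    by_cases hc : t ≤ Real.sqrt (β t)
    · have h1 : 4 * (TT t - 1) * (t - Real.sqrt (β t)) ≤ 0 :=
        mul_nonpos_of_nonneg_of_nonpos (by linarith) (by linarith)
      have h2 : 0 ≤ 4 * K * X * B * TT t := mul_nonneg hR hTpos.le
      linarith
    · push Not at hc
      -- `t - √β ≤ B / t`
      have h1 : t * (t - Real.sqrt (β t)) ≤ B := by
        have h2 : (t + Real.sqrt (β t)) * (t - Real.sqrt (β t)) ≤ B := by nlinarith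
        nlinarith
      have h3 : 0 ≤ t - Real.sqrt (β t) := by linarith
      calc 4 * (TT t - 1) * (t - Real.sqrt (β t))
          ≤ 4 * (K * t ^ 2) * (t - Real.sqrt (β t)) := by
            apply mul_le_mul_of_nonneg_right _ h3
            linarith
        _ = 4 * K * t * (t * (t - Real.sqrt (β t))) := by ring
        _ ≤ 4 * K * t * B := by
            apply mul_le_mul_of_nonneg_left h1
            have := htm.1
            positivity
        _ ≤ 4 * K * X * B := by
            apply mul_le_mul_of_nonneg_right _ hB
            apply mul_le_mul_of_nonneg_left htm.2.le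
            positivity
        _ ≤ 4 * K * X * B * TT t := by
            have := mul_le_mul_of_nonneg_left hT hR
            linarith
  rw [intervalIntegral.integral_sub hlin hg, hint2, intervalIntegral.integral_const,
    smul_eq_mul] at hle
  have h5 := hi a s ha has hs
  have h6 : (s - a) * (4 * K * X * B) = 4 * K * X * B * (s - a) := by ring
  linarith

theorem comp {X : ℝ} (hX : Profile X) {β : ℝ → ℝ} (hm : MonotoneOn β (Ioo 0 X))
    (h0 : ∀ x ∈ Ioo (0 : ℝ) X, 0 ≤ β x)
    (hi : ∀ x₁ x₂, 0 < x₁ → x₁ < x₂ → x₂ < X →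
      ∫ x in x₁..x₂, (4 * (TT x - 1) * Real.sqrt (β x) + 2 * (2 - TT x) * x) / TT x
        ≤ β x₂ - β x₁) :
    ∀ x ∈ Ioo (0 : ℝ) X, x ^ 2 ≤ β x := by
  obtain ⟨K, hK, hKb⟩ := hX.T_bound
  have hXpos := hX.pos
  set δ : ℝ := 1 / (8 * K * X + 1) with hδ
  have hden : 0 < 8 * K * X + 1 := by positivity
  have hδpos : 0 < δ := by positivity
  have hδK : 4 * K * X * δ ≤ 1 / 2 := by
    rw [hδ, mul_one_div, div_le_iff₀ hden]
    linarith
  have main : ∀ n : ℕ, ∀ x ∈ Ioo (0 : ℝ) X, x ≤ n * δ → x ^ 2 - β x ≤ 0 := by
    intro n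
    induction n with
    | zero =>
      intro x hx hxn
      rw [Nat.cast_zero, zero_mul] at hxn
      exact absurd hx.1 (not_lt.mpr hxn)
    | succ n ih =>
      -- geometric decay of the bound
      have hk : ∀ k : ℕ, ∀ x ∈ Ioo (0 : ℝ) X, x ≤ (n + 1 : ℕ) * δ →
          x ^ 2 - β x ≤ X ^ 2 * (1 / 2) ^ k := by
        intro k
        induction k with
        | zero =>
          intro x hx _
          have h1 := h0 x hx
          have h2 : x ^ 2 ≤ X ^ 2 := by
            have h3 := hx.1
            have h4 := hx.2
            nlinarith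
          rw [pow_zero, mul_one]
          linarith
        | succ k ihk =>
          intro x hx hxn
          set B : ℝ := X ^ 2 * (1 / 2) ^ k with hB
          have hB0 : 0 ≤ B := by positivity
          have hstep : ∀ a, 0 < a → a < x → x - a ≤ δ →
              x ^ 2 - β x ≤ a ^ 2 - β a + B / 2 := by
            intro a ha hax haδ
            have h1 := comp_step hX hm h0 hi hK hKb ha hax hx.2 hB0 (fun t hat hts =>
              ihk t ⟨ha.trans_le hat, hts.trans_lt hx.2⟩ (hts.trans hxn))
            have h2 : 4 * K * X * B * (x - a) ≤ B / 2 := by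
              calc 4 * K * X * B * (x - a) ≤ 4 * K * X * B * δ :=
                    mul_le_mul_of_nonneg_left haδ (by positivity)
                _ = (4 * K * X * δ) * B := by ring
                _ ≤ 1 / 2 * B := mul_le_mul_of_nonneg_right hδK hB0
                _ = B / 2 := by ring
            linarith
          have hgoal : X ^ 2 * (1 / 2) ^ (k + 1) = B / 2 := by
            rw [hB, pow_succ]
            ring
          rw [hgoal]
          by_cases hxa : x ≤ n * δ
          · have h1 := ih x hx hxa
            have h2 : 0 ≤ B / 2 := by positivity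
            linarith
          · push Not at hxa
            by_cases hn : n = 0
            · -- let the left end tend to zero
              have hxδ : x ≤ δ := by
                rw [hn] at hxn
                simpa using hxn
              refine le_of_forall_pos_le_add fun ε hε => ?_
              have hx0 := hx.1
              obtain ⟨a, ha0, hax, haε⟩ : ∃ a : ℝ, 0 < a ∧ a < x ∧ a ^ 2 ≤ ε := by
                refine ⟨min (x / 2) (Real.sqrt ε), lt_min (by linarith) (Real.sqrt_pos.mpr hε),
                  (min_le_left _ _).trans_lt (by linarith), ?_⟩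
                have h1 : min (x / 2) (Real.sqrt ε) ≤ Real.sqrt ε := min_le_right _ _
                have h2 : 0 ≤ min (x / 2) (Real.sqrt ε) :=
                  le_min (by linarith) (Real.sqrt_nonneg _)
                calc min (x / 2) (Real.sqrt ε) ^ 2 ≤ Real.sqrt ε ^ 2 := by gcongr
                  _ = ε := Real.sq_sqrt hε.le
              have h1 := hstep a ha0 hax (by linarith)
              have h2 := h0 a ⟨ha0, hax.trans hx.2⟩
              linarith
            · have hnpos : (0 : ℝ) < n := by exact_mod_cast Nat.pos_of_ne_zero hn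
              have ha0 : 0 < n * δ := by positivity
              have h1 := hstep (n * δ) ha0 hxa (by
                push_cast at hxn
                linarith)
              have h2 := ih (n * δ) ⟨ha0, hxa.trans hx.2⟩ le_rfl
              linarith
      intro x hx hxn
      have hlim : Filter.Tendsto (fun k : ℕ => X ^ 2 * (1 / 2 : ℝ) ^ k) Filter.atTop (𝓝 0) := by
        have h1 := (tendsto_pow_atTop_nhds_zero_of_lt_one (r := (1 / 2 : ℝ)) (by norm_num)
          (by norm_num)).const_mul (X ^ 2)
        rwa [mul_zero] at h1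
      exact ge_of_tendsto' hlim fun k => hk k x hx hxn
  intro x hx
  obtain ⟨n, hn⟩ := exists_nat_ge (x / δ)
  have h1 := main n x hx ((div_le_iff₀ hδpos).mp hn)
  linarith

end Pool.Agent.FK
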