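import Mathlib
import Pool.Agent.Helper99.FK.Conf1
import Pool.Agent.Helper99.FK.Alg1

/-! FK-25: the interior identity in the conformal chart -/

set_option autoImplicit false

open Complex MeasureTheory Set Metric
open scoped ComplexConjugate Topology

namespace Pool.Agent.FK

variable {E : ℝ} {f : ℂ → ℂ} {Ω : Set ℂ} {u₁ u₂ : ℂ → ℂ} {z : ℂ}

theorem cf_fderiv_mul {h k : ℂ → ℝ} (hh : DifferentiableAt ℝ h z) (hk : DifferentiableAt ℝ k z)
    (v : ℂ) : fderiv ℝ (fun w => h w * k w) z v = h z * fderiv ℝ k z v + k z * fderiv ℝ h z v := by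
  rw [fderiv_fun_mul hh hk]
  simp only [add_apply, smul_apply, smul_eq_mul]

theorem cf_gsq_mul {h k : ℂ → ℝ} (hh : DifferentiableAt ℝ h z) (hk : DifferentiableAt ℝ k z) :
    gsq (fun w => h w * k w) z = h z ^ 2 * gsq k z + k z ^ 2 * gsq h z
      + 2 * h z * k z * (fderiv ℝ h z 1 * fderiv ℝ k z 1 + fderiv ℝ h z I * fderiv ℝ k z I) := by
  unfold gsq
  rw [cf_fderiv_mul hh hk, cf_fderiv_mul hh hk]
  ring

theorem cf_lap_mul {h k : ℂ → ℝ} (hh : ContDiffAt ℝ 2 h z) (hk : ContDiffAt ℝ 2 k z) :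
    lap (fun w => h w * k w) z = h z * lap k z + k z * lap h z
      + 2 * (fderiv ℝ h z 1 * fderiv ℝ k z 1 + fderiv ℝ h z I * fderiv ℝ k z I) := by
  have hd : ∀ {u : ℂ → ℝ}, ContDiffAt ℝ 2 u z → ∀ᶠ w in 𝓝 z, DifferentiableAt ℝ u w := by
    intro u hu
    have h1 := hu.eventually (by norm_num)
    filter_upwards [h1] with w hw
    exact hw.differentiableAt (by norm_num)
  have he : ∀ v : ℂ, (fun w => fderiv ℝ (fun w => h w * k w) w v) =ᶠ[𝓝 z]
      fun w => h w * fderiv ℝ k w v + k w * fderiv ℝ h w v := by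
    intro v
    filter_upwards [hd hh, hd hk] with w hw hw'
    exact cf_fderiv_mul hw hw' v
  have hh1 : DifferentiableAt ℝ h z := hh.differentiableAt (by norm_num)
  have hk1 : DifferentiableAt ℝ k z := hk.differentiableAt (by norm_num)
  have key : ∀ v : ℂ, fderiv ℝ (fun w => fderiv ℝ (fun w => h w * k w) w v) z v =
      h z * fderiv ℝ (fun w => fderiv ℝ k w v) z v + k z * fderiv ℝ (fun w => fderiv ℝ h w v) z v
        + 2 * (fderiv ℝ h z v * fderiv ℝ k z v) := by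
    intro v
    have h1 := wirt_diff_fderiv hh v
    have h2 := wirt_diff_fderiv hk v
    have h3 : DifferentiableAt ℝ (fun w => h w * fderiv ℝ k w v) z := hh1.mul h2
    have h4 : DifferentiableAt ℝ (fun w => k w * fderiv ℝ h w v) z := hk1.mul h1
    rw [(he v).fderiv_eq, fderiv_fun_add h3 h4]
    rw [add_apply, cf_fderiv_mul hh1 h2, cf_fderiv_mul hk1 h1]
    ring
  unfold lap
  rw [key, key]
  ring

/-- the product rule for `M Δ M - |∇ M|²` -/
theorem cf_prod {h k : ℂ → ℝ} (hh : ContDiffAt ℝ 2 h z) (hk : ContDiffAt ℝ 2 k z) :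
    (h z * k z) * lap (fun w => h w * k w) z - gsq (fun w => h w * k w) z =
      h z ^ 2 * (k z * lap k z - gsq k z) + k z ^ 2 * (h z * lap h z - gsq h z) := by
  rw [cf_lap_mul hh hk, cf_gsq_mul (hh.differentiableAt (by norm_num))
    (hk.differentiableAt (by norm_num))]
  ring

/-- chain rule with a map whose differential is the multiplication by `a` -/
theorem cf_chain {u : ℂ → ℂ} {a : ℂ} (hu : DifferentiableAt ℝ u (f z))
    (hf : DifferentiableAt ℝ f z) (ha : ∀ v, fderiv ℝ f z v = a * v) :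
    dz (fun w => u (f w)) z = dz u (f z) * a ∧
      dzb (fun w => u (f w)) z = dzb u (f z) * conj a := by
  have key : ∀ v : ℂ, fderiv ℝ (fun w => u (f w)) z v =
      dz u (f z) * (a * v) + dzb u (f z) * (conj a * conj v) := by
    intro v
    have h1 : fderiv ℝ (fun w => u (f w)) z = (fderiv ℝ u (f z)).comp (fderiv ℝ f z) :=
      fderiv_fun_comp z hu hf
    rw [h1, ContinuousLinearMap.comp_apply, ha v, fderiv_eq u (f z) (a * v), map_mul]
  constructor
  · rw [dz, key, key, map_one, conj_I]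
    ring_nf
    simp only [I_sq]
    ring
  · rw [dzb, key, key, map_one, conj_I]
    ring_nf
    simp only [I_sq]
    ring

theorem cf_smooth_NN (h : Sol E Ω u₁ u₂) : ContDiff ℝ 2 (NN u₁ u₂) := by
  unfold NN
  exact ((h.smooth₁ 2).norm_sq ℝ).add ((h.smooth₂ 2).norm_sq ℝ)

/-- the composition with the conformal map: gradient and Laplacian -/
theorem cf_comp (hf : Conf f Ω) (hz : z ∈ ball (0 : ℂ) 1) {k : ℂ → ℝ} (hk : ContDiff ℝ 2 k) :
    gsq (fun w => k (f w)) z = ‖DD f z‖ ^ 2 * gsq k (f z) ∧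
      lap (fun w => k (f w)) z = ‖DD f z‖ ^ 2 * lap k (f z) := by
  have hfs : ContDiff ℝ 2 f := hf.smooth 2
  have hfd : ∀ w, DifferentiableAt ℝ f w := fun w =>
    hfs.contDiffAt.differentiableAt (by norm_num)
  have hkd : ∀ w, DifferentiableAt ℝ k w := fun w =>
    hk.contDiffAt.differentiableAt (by norm_num)
  have hkc : ContDiff ℝ 2 (fun w => (k w : ℂ)) := ofRealCLM.contDiff.comp hk
  have hkcd : ∀ w, DifferentiableAt ℝ (fun w => (k w : ℂ)) w := fun w =>
    hkc.contDiffAt.differentiableAt (by norm_num)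
  have hcomp : ContDiff ℝ 2 (fun w => k (f w)) := hk.comp hfs
  have hDD : ContDiff ℝ 2 (DD f) := contDiff_DD hf 2
  have hfz : ∀ w ∈ ball (0 : ℂ) 1, ∀ v, fderiv ℝ f w v = DD f w * v := fun w hw v =>
    conf_fderiv hf (ball_subset_closedBall hw) v
  have h1 : ∀ w ∈ ball (0 : ℂ) 1, dzb (fun v => (k (f v) : ℂ)) w =
      dzb (fun v => (k v : ℂ)) (f w) * conj (DD f w) := fun w hw =>
    (cf_chain (u := fun v => (k v : ℂ)) (hkcd _) (hfd w) (hfz w hw)).2
  constructor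
  · rw [gsq_eq _ z (hcomp.contDiffAt.differentiableAt (by norm_num)), gsq_eq k (f z) (hkd _),
      h1 z hz, norm_mul, RCLike.norm_conj]
    ring
  · have h2 : (fun w => dzb (fun v => (k (f v) : ℂ)) w) =ᶠ[𝓝 z]
        fun w => dzb (fun v => (k v : ℂ)) (f w) * conj (DD f w) := by
      filter_upwards [isOpen_ball.mem_nhds hz] with w hw
      exact h1 w hw
    have h3 : ContDiff ℝ 1 (dzb (fun v => (k v : ℂ))) := contDiff_dzb (n := 1) hkc
    have h4 : DifferentiableAt ℝ (fun w => dzb (fun v => (k v : ℂ)) (f w)) z :=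
      (h3.contDiffAt.differentiableAt (by norm_num)).comp z (hfd z)
    have h5 : DifferentiableAt ℝ (fun w => conj (DD f w)) z :=
      conjCLE.differentiableAt.comp z (hDD.contDiffAt.differentiableAt (by norm_num))
    have h6 := lap_eq (h := fun w => k (f w)) (z := z) hcomp.contDiffAt
    have h7 := lap_eq (h := k) (z := f z) hk.contDiffAt
    rw [dz_congr h2, dz_mul h4 h5, dz_conj, dzb_DD hf hz, map_zero, mul_zero, add_zero,
      (cf_chain (u := dzb (fun v => (k v : ℂ))) (h3.contDiffAt.differentiableAt (by norm_num))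
        (hfd z) (hfz z hz)).1] at h6
    have h8 : ((lap (fun w => k (f w)) z : ℝ) : ℂ) =
        ((‖DD f z‖ ^ 2 * lap k (f z) : ℝ) : ℂ) := by
      rw [h6]
      push_cast
      rw [h7, ← mul_conj']
      ring
    exact_mod_cast h8

/-- the absolute value of a holomorphic function without zeros -/
theorem cf_abs {g : ℂ → ℂ} (hg : ContDiff ℝ 2 g) (h0 : g z ≠ 0)
    (hb : ∀ᶠ w in 𝓝 z, dzb g w = 0) :
    ‖g z‖ * lap (fun w => ‖g w‖) z = gsq (fun w => ‖g w‖) z := by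
  have hA : ContDiffAt ℝ 2 (fun w => ‖g w‖) z := hg.contDiffAt.norm ℝ h0
  have hgd : ∀ w, DifferentiableAt ℝ g w := fun w =>
    hg.contDiffAt.differentiableAt (by norm_num)
  have hgcd : ∀ w, DifferentiableAt ℝ (fun w => conj (g w)) w := fun w =>
    conjCLE.differentiableAt.comp w (hgd w)
  have hAd : ∀ᶠ w in 𝓝 z, DifferentiableAt ℝ (fun w => ‖g w‖) w := by
    have h1 := hA.eventually (by norm_num)
    filter_upwards [h1] with w hw
    exact hw.differentiableAt (by norm_num)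
  have hcast : ∀ {w : ℂ} {r : ℂ → ℝ}, DifferentiableAt ℝ r w →
      DifferentiableAt ℝ (fun w => (r w : ℂ)) w := fun hr =>
    ofRealCLM.differentiableAt.comp _ hr
  -- first derivatives
  have h1 : ∀ᶠ w in 𝓝 z, 2 * (‖g w‖ : ℂ) * dzb (fun v => (‖g v‖ : ℂ)) w = g w * conj (dz g w) := by
    filter_upwards [hAd, hb] with w hw hw'
    have e1 : (fun v => (‖g v‖ : ℂ) * (‖g v‖ : ℂ)) = fun v => g v * conj (g v) := by
      funext v
      rw [mul_conj', sq]
    have e2 : dzb (fun v => (‖g v‖ : ℂ) * (‖g v‖ : ℂ)) w = dzb (fun v => g v * conj (g v)) w := by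
      rw [e1]
    rw [dzb_mul (hcast hw) (hcast hw), dzb_mul (hgd w) (hgcd w), dzb_conj, hw'] at e2
    linear_combination e2
  have h1z := h1.self_of_nhds
  have hA' : DifferentiableAt ℝ (fun w => (‖g w‖ : ℂ)) z :=
    hcast (hA.differentiableAt (by norm_num))
  have hdA : DifferentiableAt ℝ (fun w => dzb (fun v => (‖g v‖ : ℂ)) w) z := by
    have e0 : ContDiffAt ℝ 2 (fun w => (‖g w‖ : ℂ)) z := ofRealCLM.contDiff.contDiffAt.comp z hA
    have e1 := wirt_diff_fderiv e0 1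
    have e2 := wirt_diff_fderiv e0 I
    unfold dzb
    exact ((e1.add (e2.const_mul I)).mul_const ((2 : ℂ)⁻¹)).congr_of_eventuallyEq
      (Filter.Eventually.of_forall fun w => by
        simp only [div_eq_mul_inv, Pi.add_apply])
  have hdg : DifferentiableAt ℝ (dz g) z :=
    (contDiff_dz (n := 1) hg).contDiffAt.differentiableAt (by norm_num)
  have hdgc : DifferentiableAt ℝ (fun w => conj (dz g w)) z :=
    conjCLE.differentiableAt.comp z hdg
  have h2 : dz (fun w => 2 * (‖g w‖ : ℂ) * dzb (fun v => (‖g v‖ : ℂ)) w) z =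
      dz (fun w => g w * conj (dz g w)) z := dz_congr h1
  have h3 : dzb (dz g) z = 0 := by
    have e1 := dz_dzb_comm (f := g) (z := z) hg.contDiffAt
    have e2 : dz (fun w => dzb g w) z = 0 := by
      rw [dz_congr (g := fun _ => 0) hb, dz_const]
    rw [← e2, e1]
  have hcA : DifferentiableAt ℝ (fun w => (2 : ℂ) * (‖g w‖ : ℂ)) z := hA'.const_mul 2
  rw [dz_mul hcA hdA, dz_mul (hgd z) hdgc, dz_conj,
    dz_mul (f := fun _ => (2 : ℂ)) (differentiableAt_const _) hA', dz_const, h3, map_zero,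
    dz_ofReal (fun w => ‖g w‖)] at h2
  have h4 := lap_eq (h := fun w => ‖g w‖) hA
  have h5 := gsq_eq (fun w => ‖g w‖) z (hA.differentiableAt (by norm_num))
  set D := dzb (fun v => (‖g v‖ : ℂ)) z with hD
  have h6 : ‖dz g z‖ ^ 2 = 4 * ‖D‖ ^ 2 := by
    have e1 : ‖2 * (‖g z‖ : ℂ) * D‖ = ‖g z * conj (dz g z)‖ := by rw [h1z]
    rw [norm_mul, norm_mul, norm_mul, RCLike.norm_conj, Complex.norm_real, norm_norm] at e1
    have e2 : ‖g z‖ * (2 * ‖D‖) = ‖g z‖ * ‖dz g z‖ := by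
      rw [← e1, RCLike.norm_ofNat]
      ring
    have e3 := mul_left_cancel₀ (norm_ne_zero_iff.mpr h0) e2
    rw [← e3]
    ring
  have h7 : ((‖g z‖ * lap (fun w => ‖g w‖) z : ℝ) : ℂ) =
      ((gsq (fun w => ‖g w‖) z : ℝ) : ℂ) := by
    have e1 : (dz g z) * conj (dz g z) = ((4 * ‖D‖ ^ 2 : ℝ) : ℂ) := by
      rw [mul_conj', ← h6]
      push_cast
      ring
    have e2 : conj D * D = ((‖D‖ ^ 2 : ℝ) : ℂ) := by
      rw [conj_mul']
      push_cast
      ring
    rw [h5]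
    push_cast
    rw [h4]
    push_cast at e1 e2
    linear_combination 2 * h2 + 2 * e1 - 4 * e2
  exact_mod_cast h7

theorem cf_ev (hf : Conf f Ω) (hz : z ∈ ball (0 : ℂ) 1) :
    ‖DD f z‖ * lap (fun w => ‖DD f w‖) z = gsq (fun w => ‖DD f w‖) z := by
  apply cf_abs (contDiff_DD hf 2) (DD_ne hf (ball_subset_closedBall hz))
  filter_upwards [isOpen_ball.mem_nhds hz] with w hw
  exact dzb_DD hf hw

theorem cf_mem (hf : Conf f Ω) (hz : z ∈ ball (0 : ℂ) 1) : f z ∈ Ω := by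
  rw [hf.img]
  exact mem_image_of_mem f hz

theorem conf_ident (hf : Conf f Ω) (h : Sol E Ω u₁ u₂) (hz : z ∈ ball (0 : ℂ) 1) :
    (‖DD f z‖ * NN u₁ u₂ (f z)) * lap (fun w => ‖DD f w‖ * NN u₁ u₂ (f w)) z
        - gsq (fun w => ‖DD f w‖ * NN u₁ u₂ (f w)) z
      = 4 * ‖DD f z‖ ^ 4 * ‖SS u₁ u₂ (f z)‖ ^ 2
        - E ^ 2 * ‖DD f z‖ ^ 2 * (‖DD f z‖ * NN u₁ u₂ (f z)) ^ 2 := by
  have hA : ContDiffAt ℝ 2 (fun w => ‖DD f w‖) z :=
    (contDiff_DD hf 2).contDiffAt.norm ℝ (DD_ne hf (ball_subset_closedBall hz))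
  have hB : ContDiffAt ℝ 2 (fun w => NN u₁ u₂ (f w)) z :=
    ((cf_smooth_NN h).comp (hf.smooth 2)).contDiffAt
  have h1 := cf_prod hA hB
  obtain ⟨h2, h3⟩ := cf_comp hf hz (cf_smooth_NN h)
  have h4 := lap_NN h (cf_mem hf hz)
  have h5 := cf_ev hf hz
  rw [h1, h2, h3, h5]
  linear_combination (‖DD f z‖ ^ 4) * h4

theorem conf_lap_ge (hf : Conf f Ω) (h : Sol E Ω u₁ u₂) (hz : z ∈ ball (0 : ℂ) 1) :
    -(E ^ 2 * ‖DD f z‖ ^ 2 * (‖DD f z‖ * NN u₁ u₂ (f z)))
      ≤ lap (fun w => ‖DD f w‖ * NN u₁ u₂ (f w)) z := by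
  have hD : 0 < ‖DD f z‖ := norm_pos_iff.mpr (DD_ne hf (ball_subset_closedBall hz))
  have hN : 0 ≤ NN u₁ u₂ (f z) := by unfold NN; positivity
  rcases hN.eq_or_lt with h0 | h0
  · have hA : ContDiffAt ℝ 2 (fun w => ‖DD f w‖) z :=
      (contDiff_DD hf 2).contDiffAt.norm ℝ (DD_ne hf (ball_subset_closedBall hz))
    have hB : ContDiffAt ℝ 2 (fun w => NN u₁ u₂ (f w)) z :=
      ((cf_smooth_NN h).comp (hf.smooth 2)).contDiffAt
    obtain ⟨h2, h3⟩ := cf_comp hf hz (cf_smooth_NN h)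
    have h4 := lap_NN h (cf_mem hf hz)
    have h5 := lap_NN_ge h (cf_mem hf hz)
    rw [← h0] at h4 h5
    have h6 : gsq (fun w => NN u₁ u₂ (f w)) z ≤ 0 := by
      rw [h2]
      have : gsq (NN u₁ u₂) (f z) ≤ 0 := by nlinarith [sq_nonneg ‖SS u₁ u₂ (f z)‖]
      exact mul_nonpos_of_nonneg_of_nonpos (by positivity) this
    unfold gsq at h6
    have h7 : fderiv ℝ (fun w => NN u₁ u₂ (f w)) z 1 = 0 := by
      nlinarith [sq_nonneg (fderiv ℝ (fun w => NN u₁ u₂ (f w)) z 1),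
        sq_nonneg (fderiv ℝ (fun w => NN u₁ u₂ (f w)) z I)]
    have h8 : fderiv ℝ (fun w => NN u₁ u₂ (f w)) z I = 0 := by
      nlinarith [sq_nonneg (fderiv ℝ (fun w => NN u₁ u₂ (f w)) z 1),
        sq_nonneg (fderiv ℝ (fun w => NN u₁ u₂ (f w)) z I)]
    rw [cf_lap_mul hA hB, h7, h8, h3, ← h0]
    have h9 : 0 ≤ lap (NN u₁ u₂) (f z) := by linarith
    have : 0 ≤ ‖DD f z‖ * (‖DD f z‖ ^ 2 * lap (NN u₁ u₂) (f z)) := by positivity
    linarith
  · have h1 := conf_ident hf h hz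
    have h2 : 0 ≤ gsq (fun w => ‖DD f w‖ * NN u₁ u₂ (f w)) z := by
      unfold gsq
      positivity
    have hM : 0 < ‖DD f z‖ * NN u₁ u₂ (f z) := mul_pos hD h0
    have h3 : 0 ≤ 4 * ‖DD f z‖ ^ 4 * ‖SS u₁ u₂ (f z)‖ ^ 2 := by positivity
    have h4 : 0 ≤ (‖DD f z‖ * NN u₁ u₂ (f z)) *
        (lap (fun w => ‖DD f w‖ * NN u₁ u₂ (f w)) z +
          E ^ 2 * ‖DD f z‖ ^ 2 * (‖DD f z‖ * NN u₁ u₂ (f z))) := by
      nlinarith
    have h5 := nonneg_of_mul_nonneg_right h4 hM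
    linarith

end Pool.Agent.FK
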