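import Mathlib
import Pool.Agent.Helper99.FK.Conf1
import Pool.Agent.Helper99.FK.Alg1

/-! FK-26: the radial derivative on the unit circle -/

set_option autoImplicit false

open Complex MeasureTheory Set Metric
open scoped ComplexConjugate Topology

namespace Pool.Agent.FK

variable {E : ℝ} {f : ℂ → ℂ} {Ω : Set ℂ} {u₁ u₂ : ℂ → ℂ} {z : ℂ}

namespace Conf3Aux

/-- the algebra behind the boundary identity -/
theorem core (a b z D D' a1 b1 aT bT aR bR : ℂ) (m mr mt E : ℝ) (hz : z * conj z = 1)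
    (hm : (m : ℂ) ^ 2 = D * conj D) (hm0 : (m : ℂ) ≠ 0)
    (hmr : 2 * ((m : ℂ) * mr) = conj D * D' * z + D * conj D' * conj z)
    (h1 : (m : ℂ) * b = I * z * D * a)
    (h2 : (mt : ℂ) * b + m * bT = -(z * D * a) - z ^ 2 * D' * a + I * z * D * aT)
    (haT : aT = I * a1 * D * z + E / 2 * b * conj D * conj z)
    (hbT : bT = -(E / 2 * a * D * z) - I * b1 * conj D * conj z)
    (haR : aR = a1 * D * z + I * E / 2 * b * conj D * conj z)
    (hbR : bR = I * E / 2 * a * D * z + b1 * conj D * conj z) :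
    (mr : ℂ) * (a * conj a + b * conj b)
      + m * ((conj a * aR + a * conj aR) + (conj b * bR + b * conj bR))
      = -((m : ℂ) * (a * conj a + b * conj b)) := by
  have h1c : (m : ℂ) * conj b = -(I * conj z * conj D * conj a) := by
    have := congrArg conj h1
    simp only [map_mul, conj_ofReal, conj_I] at this
    rw [this]
    ring
  have h2c : (mt : ℂ) * conj b + m * conj bT =
      -(conj z * conj D * conj a) - conj z ^ 2 * conj D' * conj a
        - I * conj z * conj D * conj aT := by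
    have := congrArg conj h2
    simp only [map_mul, map_add, map_sub, map_neg, map_pow, conj_ofReal, conj_I] at this
    rw [this]
    ring
  have hbb : b * conj b = a * conj a := by
    have h3 : (m : ℂ) ^ 2 * (b * conj b) = (m : ℂ) ^ 2 * (a * conj a) := by
      linear_combination ((m : ℂ) * conj b) * h1 + (I * z * D * a) * h1c
        + (D * conj D * a * conj a) * hz - (a * conj a) * hm
        - (z * conj z * D * conj D * a * conj a) * I_sq
    exact mul_left_cancel₀ (pow_ne_zero 2 hm0) h3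
  -- the relation between radial and tangential derivatives
  have hconj : conj aT = -(I * conj a1 * conj D * conj z) + E / 2 * conj b * D * z := by
    rw [haT]
    simp only [map_mul, map_add, map_div₀, conj_ofReal, conj_I, conj_conj, map_ofNat]
    ring
  have hconj2 : conj bT = -(E / 2 * conj a * conj D * conj z) + I * conj b1 * D * z := by
    rw [hbT]
    simp only [map_mul, map_sub, map_neg, map_div₀, conj_ofReal, conj_I, conj_conj, map_ofNat]
    ring
  have hconj3 : conj aR = conj a1 * conj D * conj z - I * E / 2 * conj b * D * z := by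
    rw [haR]
    simp only [map_mul, map_add, map_div₀, conj_ofReal, conj_I, conj_conj, map_ofNat]
    ring
  have hconj4 : conj bR = -(I * E / 2 * conj a * conj D * conj z) + conj b1 * D * z := by
    rw [hbR]
    simp only [map_mul, map_add, map_div₀, conj_ofReal, conj_I, conj_conj, map_ofNat]
    ring
  have hR : (conj a * aR + a * conj aR) + (conj b * bR + b * conj bR)
      = I * (conj b * bT - b * conj bT) - I * (conj a * aT - a * conj aT) := by
    rw [hconj, hconj2, hconj3, hconj4, haT, hbT, haR, hbR]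
    linear_combination (conj b * b1 * conj D * conj z + b * conj b1 * D * z
      + conj a * a1 * D * z + a * conj a1 * conj D * conj z) * I_sq
  have hE2 : I * ((m : ℂ) * mt) * (b * conj b) + I * (m : ℂ) ^ 2 * (conj b * bT)
      = -(D * conj D * (a * conj a)) - z * conj D * D' * (a * conj a)
        + I * (D * conj D) * (conj a * aT) := by
    linear_combination (I * (m * conj b)) * h2
      + (I * (-(z * D * a) - z ^ 2 * D' * a + I * z * D * aT)) * h1c
      + (-(D * conj D * (a * conj a)) - z * conj D * D' * (a * conj a)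
        + I * (D * conj D) * (conj a * aT)) * hz
      - (conj z * conj D * conj a * (-(z * D * a) - z ^ 2 * D' * a + I * z * D * aT)) * I_sq
  have hE2c : -(I * ((m : ℂ) * mt) * (b * conj b)) - I * (m : ℂ) ^ 2 * (b * conj bT)
      = -(D * conj D * (a * conj a)) - conj z * D * conj D' * (a * conj a)
        - I * (D * conj D) * (a * conj aT) := by
    have := congrArg conj hE2
    simp only [map_mul, map_add, map_sub, map_neg, map_pow, conj_ofReal, conj_I, conj_conj] at this
    linear_combination this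
  have hfin : (m : ℂ) * ((mr : ℂ) * (a * conj a + b * conj b)
      + m * ((conj a * aR + a * conj aR) + (conj b * bR + b * conj bR)))
      = (m : ℂ) * (-((m : ℂ) * (a * conj a + b * conj b))) := by
    rw [hR, hbb]
    linear_combination hE2 + hE2c + (a * conj a) * hmr
      + (2 * (a * conj a) - I * (conj a * aT - a * conj aT)) * hm
  exact mul_left_cancel₀ hm0 hfin

theorem fderiv_norm_sq {V : ℂ → ℂ} (hV : DifferentiableAt ℝ V z) (v : ℂ) :
    ((fderiv ℝ (fun w => ‖V w‖ ^ 2) z v : ℝ) : ℂ)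
      = conj (V z) * fderiv ℝ V z v + V z * conj (fderiv ℝ V z v) := by
  have h1 := hV.hasFDerivAt.norm_sq
  rw [h1.fderiv]
  simp only [smul_apply, ContinuousLinearMap.comp_apply, innerSL_apply_apply, Complex.inner]
  have h2 : ((conj (V z) * fderiv ℝ V z v).re : ℂ) =
      (conj (V z) * fderiv ℝ V z v + conj (conj (V z) * fderiv ℝ V z v)) / 2 := by
    rw [add_conj]
    push_cast
    ring
  rw [two_nsmul, ofReal_add]
  rw [mul_comm (fderiv ℝ V z v)]
  rw [h2, map_mul, conj_conj]
  ring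

/-- a function which vanishes on the unit circle has zero tangential derivative -/
theorem tangent {Φ : ℂ → ℂ} (hΦ : DifferentiableAt ℝ Φ z) (hz : ‖z‖ = 1)
    (h0 : ∀ w : ℂ, ‖w‖ = 1 → Φ w = 0) : fderiv ℝ Φ z (I * z) = 0 := by
  have h1 : HasDerivAt (fun t : ℝ => exp (t * I) * z) (I * z) 0 := by
    have h2 : HasDerivAt (fun t : ℝ => (t : ℂ) * I) I 0 := by
      simpa using (hasDerivAt_id (0 : ℝ)).ofReal_comp.mul_const I
    have h3 := h2.cexp.mul_const z
    simpa using h3
  have h4 : HasFDerivAt Φ (fderiv ℝ Φ z) (exp (((0 : ℝ) : ℂ) * I) * z) := by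
    simpa using hΦ.hasFDerivAt
  have h5 := h4.comp_hasDerivAt (0 : ℝ) h1
  have h6 : (Φ ∘ fun t : ℝ => exp (t * I) * z) = fun _ => 0 := by
    funext t
    apply h0
    rw [norm_mul, norm_exp_ofReal_mul_I, hz, one_mul]
  rw [h6] at h5
  exact h5.unique (hasDerivAt_const _ _)

end Conf3Aux

open Conf3Aux

theorem conf_bdry (hf : Conf f Ω) (h : Sol E Ω u₁ u₂) (hb : Bc f u₁ u₂) (hz : ‖z‖ = 1) :
    fderiv ℝ (fun w => ‖DD f w‖ * NN u₁ u₂ (f w)) z z = - (‖DD f z‖ * NN u₁ u₂ (f z)) := by
  have hzc : z ∈ closedBall (0 : ℂ) 1 := by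
    rw [mem_closedBall_zero_iff]
    exact hz.le
  -- differentiability
  have hfd : Differentiable ℝ f := (hf.smooth 1).differentiable (by norm_num)
  have hDd : Differentiable ℝ (DD f) := (contDiff_DD hf 1).differentiable (by norm_num)
  have hu₁ : Differentiable ℝ u₁ := (h.smooth₁ 1).differentiable (by norm_num)
  have hu₂ : Differentiable ℝ u₂ := (h.smooth₂ 1).differentiable (by norm_num)
  have hV₁ : Differentiable ℝ (fun w => u₁ (f w)) := hu₁.comp hfd
  have hV₂ : Differentiable ℝ (fun w => u₂ (f w)) := hu₂.comp hfd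
  have hDne : DD f z ≠ 0 := DD_ne hf hzc
  have hmd : DifferentiableAt ℝ (fun w => ‖DD f w‖) z := hDd.differentiableAt.norm ℝ hDne
  -- the equations at the boundary point
  have hclos : closure (ball (0 : ℂ) 1) = closedBall 0 1 := closure_ball 0 one_ne_zero
  have he₁ : dzb u₁ (f z) = I * E / 2 * u₂ (f z) := by
    have hcl : IsClosed {w : ℂ | dzb u₁ (f w) = I * E / 2 * u₂ (f w)} := by
      refine isClosed_eq ?_ ?_
      · exact (contDiff_dzb (n := 0) (h.smooth₁ 1)).continuous.comp hfd.continuous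
      · exact continuous_const.mul hV₂.continuous
    have hsub : ball (0 : ℂ) 1 ⊆ {w : ℂ | dzb u₁ (f w) = I * E / 2 * u₂ (f w)} := by
      intro w hw
      exact h.eq₁ _ (by rw [hf.img]; exact mem_image_of_mem f hw)
    have := closure_minimal hsub hcl
    rw [hclos] at this
    exact this hzc
  have he₂ : dz u₂ (f z) = I * E / 2 * u₁ (f z) := by
    have hcl : IsClosed {w : ℂ | dz u₂ (f w) = I * E / 2 * u₁ (f w)} := by
      refine isClosed_eq ?_ ?_
      · exact (contDiff_dz (n := 0) (h.smooth₂ 1)).continuous.comp hfd.continuous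
      · exact continuous_const.mul hV₁.continuous
    have hsub : ball (0 : ℂ) 1 ⊆ {w : ℂ | dz u₂ (f w) = I * E / 2 * u₁ (f w)} := by
      intro w hw
      exact h.eq₂ _ (by rw [hf.img]; exact mem_image_of_mem f hw)
    have := closure_minimal hsub hcl
    rw [hclos] at this
    exact this hzc
  -- derivatives of the two components
  have hd₁ : ∀ v : ℂ, fderiv ℝ (fun w => u₁ (f w)) z v =
      dz u₁ (f z) * (DD f z * v) + I * E / 2 * u₂ (f z) * conj (DD f z * v) := by
    intro v
    have h1 : fderiv ℝ (fun w => u₁ (f w)) z = (fderiv ℝ u₁ (f z)).comp (fderiv ℝ f z) :=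
      fderiv_comp z hu₁.differentiableAt hfd.differentiableAt
    rw [h1, ContinuousLinearMap.comp_apply, conf_fderiv hf hzc, fderiv_eq, he₁]
  have hd₂ : ∀ v : ℂ, fderiv ℝ (fun w => u₂ (f w)) z v =
      I * E / 2 * u₁ (f z) * (DD f z * v) + dzb u₂ (f z) * conj (DD f z * v) := by
    intro v
    have h1 : fderiv ℝ (fun w => u₂ (f w)) z = (fderiv ℝ u₂ (f z)).comp (fderiv ℝ f z) :=
      fderiv_comp z hu₂.differentiableAt hfd.differentiableAt
    rw [h1, ContinuousLinearMap.comp_apply, conf_fderiv hf hzc, fderiv_eq, he₂]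
  have hdD : ∀ v : ℂ, fderiv ℝ (DD f) z v = dz (DD f) z * v := by
    intro v
    rw [fderiv_eq, dzb_DD_closed hf hzc]
    ring
  -- derivative of `|f'|`
  have hdm : ∀ v : ℂ, 2 * ((‖DD f z‖ : ℂ) * (fderiv ℝ (fun w => ‖DD f w‖) z v : ℝ)) =
      conj (DD f z) * fderiv ℝ (DD f) z v + DD f z * conj (fderiv ℝ (DD f) z v) := by
    intro v
    rw [← fderiv_norm_sq hDd.differentiableAt v]
    have h1 := hmd.hasFDerivAt.pow 2
    have h2 := h1.fderiv
    rw [h2]
    simp only [smul_apply, smul_eq_mul]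
    push_cast
    ring
  -- the tangential derivative of the boundary condition
  have hprod : HasFDerivAt (fun w => (‖DD f w‖ : ℂ) * u₂ (f w) - I * w * DD f w * u₁ (f w))
      (((‖DD f z‖ : ℂ) • fderiv ℝ (fun w => u₂ (f w)) z
        + u₂ (f z) • (ofRealCLM.comp (fderiv ℝ (fun w => ‖DD f w‖) z)))
      - ((I * z * DD f z) • fderiv ℝ (fun w => u₁ (f w)) z
        + u₁ (f z) • ((I * z) • fderiv ℝ (DD f) z
          + DD f z • (I • ContinuousLinearMap.id ℝ ℂ)))) z := by
    have h1 : HasFDerivAt (fun w => (‖DD f w‖ : ℂ))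
        (ofRealCLM.comp (fderiv ℝ (fun w => ‖DD f w‖) z)) z :=
      ofRealCLM.hasFDerivAt.comp z hmd.hasFDerivAt
    have h2 : HasFDerivAt (fun w : ℂ => I * w) (I • ContinuousLinearMap.id ℝ ℂ) z :=
      (hasFDerivAt_id z).const_mul I
    exact (h1.mul hV₂.differentiableAt.hasFDerivAt).sub
      ((h2.mul hDd.differentiableAt.hasFDerivAt).mul hV₁.differentiableAt.hasFDerivAt)
  have hvan : ∀ w : ℂ, ‖w‖ = 1 →
      (‖DD f w‖ : ℂ) * u₂ (f w) - I * w * DD f w * u₁ (f w) = 0 := by
    intro w hw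
    have hwc : w ∈ closedBall (0 : ℂ) 1 := by
      rw [mem_closedBall_zero_iff]
      exact hw.le
    have h1 : (‖DD f w‖ : ℂ) ≠ 0 := by
      rw [ofReal_ne_zero, norm_ne_zero_iff]
      exact DD_ne hf hwc
    rw [← hb w hw]
    field_simp
    ring
  have htan := tangent hprod.differentiableAt hz hvan
  rw [hprod.fderiv] at htan
  simp only [sub_apply, add_apply, smul_apply, ContinuousLinearMap.comp_apply, smul_eq_mul,
    ofRealCLM_apply, ContinuousLinearMap.id_apply] at htan
  -- the algebra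
  have hcore := core (u₁ (f z)) (u₂ (f z)) z (DD f z) (dz (DD f) z) (dz u₁ (f z)) (dzb u₂ (f z))
    (fderiv ℝ (fun w => u₁ (f w)) z (I * z)) (fderiv ℝ (fun w => u₂ (f w)) z (I * z))
    (fderiv ℝ (fun w => u₁ (f w)) z z) (fderiv ℝ (fun w => u₂ (f w)) z z)
    ‖DD f z‖ (fderiv ℝ (fun w => ‖DD f w‖) z z) (fderiv ℝ (fun w => ‖DD f w‖) z (I * z)) E
    (by rw [mul_conj, normSq_eq_norm_sq, hz]; norm_num)
    (by rw [mul_conj, normSq_eq_norm_sq]; push_cast; ring)
    (by rw [ofReal_ne_zero, norm_ne_zero_iff]; exact hDne)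
    (by rw [hdm z, hdD z, map_mul]; ring)
    (sub_eq_zero.mp (hvan z hz))
    (by
      rw [hdD] at htan
      linear_combination htan + (z * DD f z * u₁ (f z) + z ^ 2 * dz (DD f) z * u₁ (f z)) * I_sq)
    (by
      rw [hd₁, map_mul, map_mul, conj_I]
      linear_combination (-(E / 2 * u₂ (f z) * conj (DD f z) * conj z)) * I_sq)
    (by
      rw [hd₂, map_mul, map_mul, conj_I]
      linear_combination (E / 2 * u₁ (f z) * DD f z * z) * I_sq)
    (by rw [hd₁, map_mul]; ring)
    (by rw [hd₂, map_mul]; ring)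
  -- conclusion
  have hN : HasFDerivAt (fun w => NN u₁ u₂ (f w))
      (fderiv ℝ (fun w => ‖u₁ (f w)‖ ^ 2) z + fderiv ℝ (fun w => ‖u₂ (f w)‖ ^ 2) z) z := by
    have h1 : DifferentiableAt ℝ (fun w => ‖u₁ (f w)‖ ^ 2) z :=
      (hV₁.differentiableAt).norm_sq ℝ
    have h2 : DifferentiableAt ℝ (fun w => ‖u₂ (f w)‖ ^ 2) z :=
      (hV₂.differentiableAt).norm_sq ℝ
    exact h1.hasFDerivAt.add h2.hasFDerivAt
  have hM : fderiv ℝ (fun w => ‖DD f w‖ * NN u₁ u₂ (f w)) z =
      ‖DD f z‖ • (fderiv ℝ (fun w => ‖u₁ (f w)‖ ^ 2) z + fderiv ℝ (fun w => ‖u₂ (f w)‖ ^ 2) z)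
        + NN u₁ u₂ (f z) • fderiv ℝ (fun w => ‖DD f w‖) z := (hmd.hasFDerivAt.mul hN).fderiv
  have hM' : fderiv ℝ (fun w => ‖DD f w‖ * NN u₁ u₂ (f w)) z z =
      ‖DD f z‖ * (fderiv ℝ (fun w => ‖u₁ (f w)‖ ^ 2) z z + fderiv ℝ (fun w => ‖u₂ (f w)‖ ^ 2) z z)
        + NN u₁ u₂ (f z) * fderiv ℝ (fun w => ‖DD f w‖) z z := by
    rw [hM]
    simp only [add_apply, smul_apply, smul_eq_mul]
  have hNN : ((NN u₁ u₂ (f z) : ℝ) : ℂ) =
      u₁ (f z) * conj (u₁ (f z)) + u₂ (f z) * conj (u₂ (f z)) := by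
    unfold NN
    rw [mul_conj, mul_conj, normSq_eq_norm_sq, normSq_eq_norm_sq]
    push_cast
    ring
  have hgoal : ((fderiv ℝ (fun w => ‖DD f w‖ * NN u₁ u₂ (f w)) z z : ℝ) : ℂ) =
      ((- (‖DD f z‖ * NN u₁ u₂ (f z)) : ℝ) : ℂ) := by
    rw [hM']
    push_cast
    rw [fderiv_norm_sq hV₁.differentiableAt, fderiv_norm_sq hV₂.differentiableAt, hNN]
    linear_combination hcore
  exact_mod_cast hgoal

end Pool.Agent.FK
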