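import Mathlib
import Pool.Agent.Helper99.FK.Wirt
import Pool.Agent.Helper99.FK.Smooth

/-! FK-9a: logarithmic cutoff functions -/

set_option autoImplicit false

open Complex MeasureTheory Set Metric
open scoped ComplexConjugate Topology

namespace Pool.Agent.FK

variable {E : ℝ} {Ω : Set ℂ} {u₁ u₂ : ℂ → ℂ}

lemma cut1_deriv_zero {x : ℝ} (hx : x ∉ Icc (0 : ℝ) 1) : deriv Real.smoothTransition x = 0 := by
  rw [Set.mem_Icc, not_and_or, not_le, not_le] at hx
  rcases hx with hx | hx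
  · have h1 : Real.smoothTransition =ᶠ[𝓝 x] fun _ => (0 : ℝ) := by
      filter_upwards [Iio_mem_nhds hx] with y hy
      exact Real.smoothTransition.zero_of_nonpos (le_of_lt hy)
    rw [h1.deriv_eq, deriv_const]
  · have h1 : Real.smoothTransition =ᶠ[𝓝 x] fun _ => (1 : ℝ) := by
      filter_upwards [Ioi_mem_nhds hx] with y hy
      exact Real.smoothTransition.one_of_one_le (le_of_lt hy)
    rw [h1.deriv_eq, deriv_const]

lemma cut1_deriv_bound : ∃ C : ℝ, 0 ≤ C ∧ ∀ x, |deriv Real.smoothTransition x| ≤ C := by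
  have hc : Continuous (deriv Real.smoothTransition) :=
    (Real.smoothTransition.contDiff (n := 1)).continuous_deriv le_rfl
  obtain ⟨C, hC⟩ := (isCompact_Icc (a := (0 : ℝ)) (b := 1)).exists_bound_of_continuousOn
    hc.continuousOn
  refine ⟨max C 0, le_max_right _ _, fun x => ?_⟩
  by_cases hx : x ∈ Icc (0 : ℝ) 1
  · exact (hC x hx).trans (le_max_left _ _)
  · rw [cut1_deriv_zero hx, abs_zero]
    exact le_max_right _ _

/-- the cutoff function -/
noncomputable def cut1 (ε t : ℝ) : ℝ :=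
  if t ≤ 0 then 0 else Real.smoothTransition (2 - 2 * Real.log t / Real.log ε)

lemma cut1_zero {ε t : ℝ} (h0 : 0 < ε) (h1 : ε < 1) (ht : t ≤ ε) : cut1 ε t = 0 := by
  unfold cut1
  split_ifs with h
  · rfl
  · push Not at h
    apply Real.smoothTransition.zero_of_nonpos
    have hl : Real.log ε < 0 := Real.log_neg h0 h1
    have h2 : Real.log t ≤ Real.log ε := Real.log_le_log h ht
    have h3 : 2 ≤ 2 * Real.log t / Real.log ε := by
      rw [le_div_iff_of_neg hl]
      linarith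
    linarith

lemma cut1_one {ε t : ℝ} (h0 : 0 < ε) (h1 : ε < 1) (ht : Real.sqrt ε ≤ t) : cut1 ε t = 1 := by
  have hs : 0 < Real.sqrt ε := Real.sqrt_pos.mpr h0
  have ht0 : 0 < t := lt_of_lt_of_le hs ht
  unfold cut1
  rw [if_neg (not_le.mpr ht0)]
  apply Real.smoothTransition.one_of_one_le
  have hl : Real.log ε < 0 := Real.log_neg h0 h1
  have h2 : Real.log (Real.sqrt ε) ≤ Real.log t := Real.log_le_log hs ht
  rw [Real.log_sqrt h0.le] at h2
  have h3 : 2 * Real.log t / Real.log ε ≤ 1 := by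
    rw [div_le_iff_of_neg hl]
    linarith
  linarith

lemma cut1_contDiff {ε : ℝ} (h0 : 0 < ε) (h1 : ε < 1) : ContDiff ℝ 1 (cut1 ε) := by
  rw [contDiff_iff_contDiffAt]
  intro t
  rcases lt_or_ge t ε with ht | ht
  · have h2 : cut1 ε =ᶠ[𝓝 t] fun _ => (0 : ℝ) := by
      filter_upwards [Iio_mem_nhds ht] with y hy
      exact cut1_zero h0 h1 (le_of_lt hy)
    exact contDiffAt_const.congr_of_eventuallyEq h2
  · have ht0 : 0 < t := lt_of_lt_of_le h0 ht
    have h2 : cut1 ε =ᶠ[𝓝 t]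
        fun s => Real.smoothTransition (2 - 2 * Real.log s / Real.log ε) := by
      filter_upwards [Ioi_mem_nhds ht0] with y hy
      unfold cut1
      rw [if_neg (not_le.mpr hy)]
    refine ContDiffAt.congr_of_eventuallyEq ?_ h2
    apply (Real.smoothTransition.contDiff (n := 1)).contDiffAt.comp
    apply contDiffAt_const.sub
    apply ContDiffAt.div_const
    apply contDiffAt_const.mul
    exact Real.contDiffAt_log.mpr ht0.ne'

lemma cut1_deriv_le {ε C : ℝ} (h0 : 0 < ε) (h1 : ε < 1) (hC0 : 0 ≤ C)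
    (hC : ∀ x, |deriv Real.smoothTransition x| ≤ C) {t : ℝ} (ht0 : 0 ≤ t) :
    (deriv (cut1 ε) t) ^ 2 ≤ 16 * C ^ 2 / (Real.log ε) ^ 2 / (t + ε) ^ 2 := by
  have hl : Real.log ε < 0 := Real.log_neg h0 h1
  rcases lt_or_ge t ε with ht | ht
  · have h2 : cut1 ε =ᶠ[𝓝 t] fun _ => (0 : ℝ) := by
      filter_upwards [Iio_mem_nhds ht] with y hy
      exact cut1_zero h0 h1 (le_of_lt hy)
    rw [h2.deriv_eq, deriv_const, zero_pow two_ne_zero]
    positivity
  · have htp : 0 < t := lt_of_lt_of_le h0 ht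
    have h2 : cut1 ε =ᶠ[𝓝 t]
        fun s => Real.smoothTransition (2 - 2 * Real.log s / Real.log ε) := by
      filter_upwards [Ioi_mem_nhds htp] with y hy
      unfold cut1
      rw [if_neg (not_le.mpr hy)]
    have h3 : HasDerivAt (fun s => 2 - 2 * Real.log s / Real.log ε)
        (-(2 * t⁻¹ / Real.log ε)) t := by
      have := (((Real.hasDerivAt_log htp.ne').const_mul 2).div_const (Real.log ε)).const_sub 2
      simpa using this
    have h4 : HasDerivAt Real.smoothTransition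
        (deriv Real.smoothTransition (2 - 2 * Real.log t / Real.log ε))
        (2 - 2 * Real.log t / Real.log ε) :=
      ((Real.smoothTransition.contDiff (n := 1)).differentiable (by norm_num) _).hasDerivAt
    have h5 := h4.comp t h3
    have h6 : deriv (cut1 ε) t = deriv Real.smoothTransition (2 - 2 * Real.log t / Real.log ε) *
        (-(2 * t⁻¹ / Real.log ε)) := by
      rw [h2.deriv_eq]
      exact h5.deriv
    rw [h6, mul_pow]
    have h7 : (deriv Real.smoothTransition (2 - 2 * Real.log t / Real.log ε)) ^ 2 ≤ C ^ 2 := by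
      rw [← sq_abs]
      exact pow_le_pow_left₀ (abs_nonneg _) (hC _) 2
    have h8 : (-(2 * t⁻¹ / Real.log ε)) ^ 2 = 4 / (t ^ 2 * (Real.log ε) ^ 2) := by
      field_simp
      norm_num
    rw [h8]
    have h9 : 4 / (t ^ 2 * (Real.log ε) ^ 2) ≤ 16 / ((Real.log ε) ^ 2 * (t + ε) ^ 2) := by
      have hl2 : 0 < (Real.log ε) ^ 2 := by
        have := mul_pos_of_neg_of_neg hl hl
        rw [sq]; exact this
      have ht2 : 0 < t ^ 2 := pow_pos htp 2
      have hte : 0 < (t + ε) ^ 2 := pow_pos (by linarith) 2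
      rw [div_le_div_iff₀ (mul_pos ht2 hl2) (mul_pos hl2 hte)]
      have h10 : (t + ε) ^ 2 ≤ 4 * t ^ 2 := by nlinarith
      have h11 := mul_le_mul_of_nonneg_left h10 hl2.le
      linarith
    calc (deriv Real.smoothTransition (2 - 2 * Real.log t / Real.log ε)) ^ 2 *
          (4 / (t ^ 2 * (Real.log ε) ^ 2))
        ≤ C ^ 2 * (16 / ((Real.log ε) ^ 2 * (t + ε) ^ 2)) :=
          mul_le_mul h7 h9 (by positivity) (by positivity)
      _ = 16 * C ^ 2 / (Real.log ε) ^ 2 / (t + ε) ^ 2 := by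
          rw [div_div]
          ring

lemma cut1_exists_eps (K : ℝ) (hK : 0 ≤ K) {η : ℝ} (hη : 0 < η) :
    ∃ ε : ℝ, 0 < ε ∧ ε < 1 ∧ Real.sqrt ε ≤ η ∧
      K / (Real.log ε) ^ 2 * (1 + |Real.log ε|) ≤ η := by
  -- take ε = exp (-s) with s large
  obtain ⟨s, hs1, hs2, hs3⟩ : ∃ s : ℝ, 1 ≤ s ∧ Real.exp (-(s / 2)) ≤ η ∧ 2 * K / s ≤ η := by
    refine ⟨max 1 (max (2 / η) (2 * K / η)), le_max_left _ _, ?_, ?_⟩
    · set s := max 1 (max (2 / η) (2 * K / η)) with hs
      have h1 : 2 / η ≤ s := (le_max_left _ _).trans (le_max_right _ _)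
      have hs0 : 0 < s := lt_of_lt_of_le one_pos (le_max_left _ _)
      have h2 : s / 2 < Real.exp (s / 2) := by
        have := Real.add_one_le_exp (s / 2)
        linarith
      rw [Real.exp_neg]
      have h3 : (Real.exp (s / 2))⁻¹ ≤ (s / 2)⁻¹ := inv_anti₀ (by positivity) h2.le
      refine h3.trans ?_
      rw [inv_le_comm₀ (by positivity) hη]
      rw [div_le_iff₀ hη] at h1
      rw [inv_le_iff_one_le_mul₀ hη]
      linarith
    · set s := max 1 (max (2 / η) (2 * K / η)) with hs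
      have h1 : 2 * K / η ≤ s := (le_max_right _ _).trans (le_max_right _ _)
      have hs0 : 0 < s := lt_of_lt_of_le one_pos (le_max_left _ _)
      rw [div_le_iff₀ hs0]
      rw [div_le_iff₀ hη] at h1
      linarith
  have hs0 : 0 < s := by linarith
  refine ⟨Real.exp (-s), Real.exp_pos _, ?_, ?_, ?_⟩
  · rw [Real.exp_lt_one_iff]; linarith
  · rw [Real.sqrt_eq_rpow, ← Real.exp_mul]
    convert hs2 using 2
    ring
  · rw [Real.log_exp, abs_neg, abs_of_pos hs0, neg_sq]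
    calc K / s ^ 2 * (1 + s) ≤ K / s ^ 2 * (2 * s) :=
          mul_le_mul_of_nonneg_left (by linarith) (by positivity)
      _ = 2 * K / s := by field_simp
      _ ≤ η := hs3

/-- cutoff functions of `N` with small energy -/
theorem exists_cutoff (h : Good E Ω u₁ u₂) {η : ℝ} (hη : 0 < η) :
    ∃ ε > 0, ∃ l : ℝ → ℝ, ContDiff ℝ 1 l ∧ (∀ t, l t ∈ Icc (0 : ℝ) 1) ∧ (∀ t ≤ ε, l t = 0) ∧
      (∀ t ≥ η, l t = 1) ∧
      IntegrableOn (fun z => (deriv l (NN u₁ u₂ z)) ^ 2 * gsq (NN u₁ u₂) z) Ω ∧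
      ∫ z in Ω, (deriv l (NN u₁ u₂ z)) ^ 2 * gsq (NN u₁ u₂) z ≤ η := by
  obtain ⟨C, hC0, hC⟩ := cut1_deriv_bound
  obtain ⟨D, hD⟩ := h.energy
  obtain ⟨ε, h0, h1, h2, h3⟩ := cut1_exists_eps (16 * C ^ 2 * |D|) (by positivity) hη
  have hN : ContDiff ℝ 1 (NN u₁ u₂) := by
    exact_mod_cast contDiff_NN h.sol.smooth₁ h.sol.smooth₂ 1
  have hNc : Continuous (NN u₁ u₂) := hN.continuous
  have hNnn : ∀ z, 0 ≤ NN u₁ u₂ z := by
    intro z
    unfold NN
    positivity
  have hgc : Continuous (gsq (NN u₁ u₂)) := by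
    have hf := hN.continuous_fderiv (by norm_num)
    unfold gsq
    exact ((hf.clm_apply continuous_const).pow 2).add ((hf.clm_apply continuous_const).pow 2)
  have hgnn : ∀ z, 0 ≤ gsq (NN u₁ u₂) z := by
    intro z
    unfold gsq
    positivity
  have hl := cut1_contDiff h0 h1
  have hlc : Continuous (deriv (cut1 ε)) := hl.continuous_deriv le_rfl
  have hint : ∀ F : ℂ → ℝ, Continuous F → IntegrableOn F Ω := by
    intro F hF
    obtain ⟨r, hr⟩ := h.bdd.subset_closedBall (0 : ℂ)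
    exact (hF.continuousOn.integrableOn_compact (isCompact_closedBall (0 : ℂ) r)).mono_set hr
  have hF1 : Continuous (fun z => (deriv (cut1 ε) (NN u₁ u₂ z)) ^ 2 * gsq (NN u₁ u₂) z) :=
    ((hlc.comp hNc).pow 2).mul hgc
  have hF2 : Continuous (fun z => gsq (NN u₁ u₂) z / (NN u₁ u₂ z + ε) ^ 2) := by
    apply hgc.div ((hNc.add continuous_const).pow 2)
    intro z
    have hpos : 0 < NN u₁ u₂ z + ε := by linarith [hNnn z]
    exact (pow_pos hpos 2).ne'
  refine ⟨ε, h0, cut1 ε, hl, ?_, ?_, ?_, hint _ hF1, ?_⟩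
  · intro t
    unfold cut1
    split_ifs
    · exact ⟨le_rfl, zero_le_one⟩
    · exact ⟨Real.smoothTransition.nonneg _, Real.smoothTransition.le_one _⟩
  · intro t ht
    exact cut1_zero h0 h1 ht
  · intro t ht
    exact cut1_one h0 h1 (h2.trans ht)
  · have hb : ∀ z, (deriv (cut1 ε) (NN u₁ u₂ z)) ^ 2 * gsq (NN u₁ u₂) z ≤
        16 * C ^ 2 / (Real.log ε) ^ 2 * (gsq (NN u₁ u₂) z / (NN u₁ u₂ z + ε) ^ 2) := by
      intro z
      have h4 := cut1_deriv_le h0 h1 hC0 hC (hNnn z)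
      calc (deriv (cut1 ε) (NN u₁ u₂ z)) ^ 2 * gsq (NN u₁ u₂) z
          ≤ 16 * C ^ 2 / (Real.log ε) ^ 2 / (NN u₁ u₂ z + ε) ^ 2 * gsq (NN u₁ u₂) z :=
            mul_le_mul_of_nonneg_right h4 (hgnn z)
        _ = 16 * C ^ 2 / (Real.log ε) ^ 2 * (gsq (NN u₁ u₂) z / (NN u₁ u₂ z + ε) ^ 2) := by
            ring
    have h5 := hD ε ⟨h0, h1⟩
    calc ∫ z in Ω, (deriv (cut1 ε) (NN u₁ u₂ z)) ^ 2 * gsq (NN u₁ u₂) z
        ≤ ∫ z in Ω, 16 * C ^ 2 / (Real.log ε) ^ 2 *
            (gsq (NN u₁ u₂) z / (NN u₁ u₂ z + ε) ^ 2) :=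
          integral_mono (hint _ hF1) ((hint _ hF2).const_mul _) hb
      _ = 16 * C ^ 2 / (Real.log ε) ^ 2 *
            ∫ z in Ω, gsq (NN u₁ u₂) z / (NN u₁ u₂ z + ε) ^ 2 := integral_const_mul _ _
      _ ≤ 16 * C ^ 2 / (Real.log ε) ^ 2 * (|D| * (1 + |Real.log ε|)) := by
          apply mul_le_mul_of_nonneg_left _ (by positivity)
          refine h5.trans (mul_le_mul_of_nonneg_right (le_abs_self D) ?_)
          have := abs_nonneg (Real.log ε)
          linarith
      _ = 16 * C ^ 2 * |D| / (Real.log ε) ^ 2 * (1 + |Real.log ε|) := by ring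
      _ ≤ η := h3

end Pool.Agent.FK
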