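import Mathlib
import Pool.Agent.Helper99.FK.Cut1

/-! FK-9b: extension by zero, integrability -/

set_option autoImplicit false

open Complex MeasureTheory Set Metric
open scoped ComplexConjugate Topology

namespace Pool.Agent.FK

variable {E : ℝ} {Ω : Set ℂ} {u₁ u₂ : ℂ → ℂ}

/-- a function which is smooth on `Ω ∩ {N ≠ 0}` and vanishes where `|c|` or `N` is small extends
by zero to a smooth function with compact support -/
theorem ext_smooth (h : Good E Ω u₁ u₂) {V : Type*} [NormedAddCommGroup V] [NormedSpace ℝ V]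
    {F : ℂ → V} {α ε : ℝ} (hα : 0 < α) (hε : 0 < ε)
    (hF : ∀ z ∈ Ω, NN u₁ u₂ z ≠ 0 → ContDiffAt ℝ 1 F z)
    (h0 : ∀ z ∈ Ω, (|cc u₁ u₂ z| < α ∨ NN u₁ u₂ z < ε) → F z = 0) :
    ContDiff ℝ 1 (Ω.indicator F) ∧ HasCompactSupport (Ω.indicator F) := by
  classical
  have hNc : Continuous (NN u₁ u₂) := (contDiff_NN h.sol.smooth₁ h.sol.smooth₂ 0).continuous
  have hPc : Continuous (PP u₁ u₂) := (contDiff_PP h.sol.smooth₁ h.sol.smooth₂ 0).continuous
  set K : Set ℂ := closure Ω ∩ ({z | ε ≤ NN u₁ u₂ z} ∩ {z | α * NN u₁ u₂ z ≤ |PP u₁ u₂ z|}) with hK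
  have hKcl : IsClosed K := by
    apply isClosed_closure.inter
    apply IsClosed.inter
    · exact isClosed_le continuous_const hNc
    · exact isClosed_le (continuous_const.mul hNc) hPc.abs
  have hKc : IsCompact K :=
    Metric.isCompact_of_isClosed_isBounded hKcl (h.bdd.closure.subset inter_subset_left)
  have hKΩ : K ⊆ Ω := by
    intro z hz
    by_contra hzΩ
    have hfr : z ∈ frontier Ω := by
      rw [h.sol.isOpen.frontier_eq]
      exact ⟨hz.1, hzΩ⟩
    have h1 := h.bdry z hfr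
    have h2 : ε ≤ NN u₁ u₂ z := hz.2.1
    have h3 : α * NN u₁ u₂ z ≤ |PP u₁ u₂ z| := hz.2.2
    rw [h1, abs_zero] at h3
    have h4 : 0 < α * NN u₁ u₂ z := mul_pos hα (lt_of_lt_of_le hε h2)
    linarith
  have hzero : ∀ z, z ∉ K → Ω.indicator F z = 0 := by
    intro z hz
    by_cases hzΩ : z ∈ Ω
    · rw [indicator_of_mem hzΩ]
      apply h0 z hzΩ
      by_contra hcon
      push Not at hcon
      obtain ⟨h1, h2⟩ := hcon
      apply hz
      refine ⟨subset_closure hzΩ, h2, ?_⟩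
      have hNpos : 0 < NN u₁ u₂ z := lt_of_lt_of_le hε h2
      unfold cc at h1
      rw [abs_div, abs_of_pos hNpos, le_div_iff₀ hNpos] at h1
      exact h1
    · exact indicator_of_notMem hzΩ _
  constructor
  · rw [contDiff_iff_contDiffAt]
    intro z
    by_cases hz : z ∈ K
    · have hzΩ := hKΩ hz
      have hN : NN u₁ u₂ z ≠ 0 := (lt_of_lt_of_le hε hz.2.1).ne'
      apply (hF z hzΩ hN).congr_of_eventuallyEq
      filter_upwards [h.sol.isOpen.mem_nhds hzΩ] with w hw
      exact indicator_of_mem hw _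
    · apply (contDiffAt_const (c := (0 : V))).congr_of_eventuallyEq
      filter_upwards [hKcl.isOpen_compl.mem_nhds hz] with w hw
      exact hzero w hw
  · exact HasCompactSupport.intro hKc hzero

/-- the integral of a Wirtinger derivative of a compactly supported function vanishes -/
theorem integral_dz {Y : ℂ → ℂ} (hY : ContDiff ℝ 1 Y) (hc : HasCompactSupport Y) :
    ∫ z, dz Y z = 0 := by
  have hint : Integrable Y := hY.continuous.integrable_of_hasCompactSupport hc
  have hfc : Continuous (fderiv ℝ Y) := hY.continuous_fderiv (by norm_num)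
  have hfs : HasCompactSupport (fderiv ℝ Y) := hc.fderiv ℝ
  have hfi : ∀ v : ℂ, Integrable (fun z => fderiv ℝ Y z v) := by
    intro v
    apply Continuous.integrable_of_hasCompactSupport
    · fun_prop
    · apply hfs.mono'
      intro z hz
      apply subset_tsupport
      intro h
      apply hz
      show fderiv ℝ Y z v = 0
      rw [h]
      simp
  have key : ∀ v : ℂ, ∫ z, fderiv ℝ Y z v = 0 := by
    intro v
    have h1 := integral_mul_fderiv_eq_neg_fderiv_mul_of_integrable (μ := (volume : Measure ℂ))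
      (f := fun _ : ℂ => (1 : ℂ)) (g := Y) (v := v) (by simp) (by simpa using hfi v)
      (by simpa using hint) (fun x _ => differentiableAt_const _)
      (fun x _ => (hY.differentiable (by norm_num)).differentiableAt)
    simpa using h1
  unfold dz
  rw [integral_div, integral_sub (hfi 1) ((hfi I).const_mul I), integral_const_mul, key, key]
  simp

theorem integrable_JJ (h : Good E Ω u₁ u₂) : IntegrableOn (JJ E u₁ u₂) Ω := by
  have hfin : volume Ω ≠ ⊤ := h.bdd.measure_lt_top.ne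
  have h1 : IntegrableOn (fun _ : ℂ => E ^ 2) Ω := integrableOn_const hfin
  have h2 : IntegrableOn (fun z => 4 * (‖SS u₁ u₂ z‖ ^ 2 / NN u₁ u₂ z ^ 2)) Ω :=
    h.integrable.const_mul 4
  have h3 := h1.sub h2
  apply h3.congr
  filter_upwards with z
  simp only [JJ, Pi.sub_apply]
  ring

theorem integrable_xi_sq (h : Good E Ω u₁ u₂) :
    IntegrableOn (fun z => ‖xi E u₁ u₂ z‖ ^ 2) Ω := by
  have hfin : volume Ω ≠ ⊤ := h.bdd.measure_lt_top.ne
  have h1 : IntegrableOn (fun _ : ℂ => E ^ 2 / 2) Ω := integrableOn_const hfin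
  have h2 : IntegrableOn (fun z => 2 * (‖SS u₁ u₂ z‖ ^ 2 / NN u₁ u₂ z ^ 2)) Ω :=
    h.integrable.const_mul 2
  have hm : Measurable (xi E u₁ u₂) := measurable_xi h.sol.smooth₁ h.sol.smooth₂
  refine Integrable.mono' (h1.add h2) (hm.norm.pow_const 2).aestronglyMeasurable ?_
  filter_upwards with z
  rw [Real.norm_eq_abs, abs_of_nonneg (sq_nonneg _)]
  simp only [Pi.add_apply]
  have hE : 0 < E := h.sol.pos
  have hN0 : 0 ≤ NN u₁ u₂ z := by unfold NN; positivity
  have hq : ‖qq u₁ u₂ z‖ ≤ NN u₁ u₂ z / 2 := by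
    unfold qq NN
    rw [norm_mul, RCLike.norm_conj]
    nlinarith [sq_nonneg (‖u₁ z‖ - ‖u₂ z‖)]
  have hq0 : 0 ≤ ‖qq u₁ u₂ z‖ := norm_nonneg _
  have hS0 : 0 ≤ ‖SS u₁ u₂ z‖ := norm_nonneg _
  rcases hN0.eq_or_lt with hN | hN
  · have : xi E u₁ u₂ z = 0 := by
      unfold xi
      rw [← hN]
      simp
    rw [this, ← hN]
    simp
    positivity
  · have hx : ‖xi E u₁ u₂ z‖ ≤ E / 2 + ‖SS u₁ u₂ z‖ / NN u₁ u₂ z := by
      unfold xi
      refine (norm_add_le _ _).trans ?_
      apply add_le_add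
      · rw [norm_div, norm_mul, Complex.norm_real, Complex.norm_real, Real.norm_eq_abs,
          Real.norm_eq_abs, abs_of_pos hE, abs_of_pos hN, div_le_iff₀ hN]
        nlinarith
      · rw [norm_div, norm_mul, norm_mul, norm_mul, RCLike.norm_conj, norm_pow, Complex.norm_real,
          Real.norm_eq_abs, abs_of_pos hN, Complex.norm_I, Complex.norm_ofNat, mul_one,
          div_le_div_iff₀ (by positivity) hN]
        have : 2 * ‖qq u₁ u₂ z‖ ≤ NN u₁ u₂ z := by linarith
        have h5 : 2 * ‖qq u₁ u₂ z‖ * (‖SS u₁ u₂ z‖ * NN u₁ u₂ z) ≤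
            NN u₁ u₂ z * (‖SS u₁ u₂ z‖ * NN u₁ u₂ z) :=
          mul_le_mul_of_nonneg_right this (by positivity)
        nlinarith
    have hx0 : 0 ≤ ‖xi E u₁ u₂ z‖ := norm_nonneg _
    have h6 : ‖xi E u₁ u₂ z‖ ^ 2 ≤ (E / 2 + ‖SS u₁ u₂ z‖ / NN u₁ u₂ z) ^ 2 :=
      pow_le_pow_left₀ hx0 hx 2
    have h7 : ‖SS u₁ u₂ z‖ ^ 2 / NN u₁ u₂ z ^ 2 = (‖SS u₁ u₂ z‖ / NN u₁ u₂ z) ^ 2 :=
      (div_pow _ _ _).symm
    rw [h7]
    nlinarith [sq_nonneg (E / 2 - ‖SS u₁ u₂ z‖ / NN u₁ u₂ z)]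

end Pool.Agent.FK
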