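import Mathlib
import Pool.Agent.Helper99.FK.Iso1
import Pool.Agent.Helper99.FK.Alg2
import Pool.Agent.Helper99.FK.Cut

/-! FK-13: isoperimetric inequality for the level sets of `|c|` -/

set_option autoImplicit false

open Complex MeasureTheory Set Metric
open scoped ComplexConjugate Topology

namespace Pool.Agent.FK

variable {E : ℝ} {Ω : Set ℂ} {u₁ u₂ : ℂ → ℂ}

theorem iso2_vol_lt (h : Good E Ω u₁ u₂) : volume Ω < ⊤ := h.bdd.measure_lt_top

theorem iso2_ae (h : Good E Ω u₁ u₂) : ∀ᵐ z ∂(volume.restrict Ω), NN u₁ u₂ z ≠ 0 := by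
  rw [ae_restrict_iff' h.sol.isOpen.measurableSet, ae_iff]
  refine measure_mono_null ?_ h.null
  intro z hz
  simp only [mem_ofPred_eq] at hz ⊢
  push Not at hz
  exact hz

theorem integrable_grad (h : Good E Ω u₁ u₂) :
    IntegrableOn (fun z => Real.sqrt (gsq (cc u₁ u₂) z)) Ω := by
  have hfin := iso2_vol_lt h
  have hb : IntegrableOn (fun z => (E + 1) + ‖SS u₁ u₂ z‖ ^ 2 / NN u₁ u₂ z ^ 2) Ω :=
    (integrableOn_const hfin.ne).add h.integrable
  refine Integrable.mono' hb ?_ ?_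
  · exact (measurable_gsq_cc h.sol.smooth₁ h.sol.smooth₂).sqrt.aestronglyMeasurable
  · filter_upwards [iso2_ae h, ae_restrict_mem h.sol.isOpen.measurableSet] with z hz hzΩ
    rw [Real.norm_eq_abs, abs_of_nonneg (Real.sqrt_nonneg _)]
    refine (grad_le h.sol hzΩ hz).trans ?_
    have h1 : 0 ≤ (‖SS u₁ u₂ z‖ / NN u₁ u₂ z - 1) ^ 2 := sq_nonneg _
    have h2 : (‖SS u₁ u₂ z‖ / NN u₁ u₂ z) ^ 2 = ‖SS u₁ u₂ z‖ ^ 2 / NN u₁ u₂ z ^ 2 := div_pow _ _ _
    have h3 : 2 * ‖SS u₁ u₂ z‖ / NN u₁ u₂ z = 2 * (‖SS u₁ u₂ z‖ / NN u₁ u₂ z) := by ring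
    rw [h3]
    nlinarith

/-! ### the primitive of the weight -/

/-- primitive -/
noncomputable def iso2P (k : ℝ → ℝ) (t : ℝ) : ℝ := ∫ s in (0 : ℝ)..t, k s

theorem iso2P_hasDerivAt {k : ℝ → ℝ} (hk : Continuous k) (t : ℝ) :
    HasDerivAt (iso2P k) (k t) t :=
  (hk.integral_hasStrictDerivAt 0 t).hasDerivAt

theorem iso2P_mono {k : ℝ → ℝ} (hk : Continuous k) (h0 : ∀ t, 0 ≤ k t) :
    Monotone (iso2P k) := by
  refine monotone_of_deriv_nonneg (fun t => (iso2P_hasDerivAt hk t).differentiableAt) fun t => ?_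
  rw [(iso2P_hasDerivAt hk t).deriv]
  exact h0 t

theorem iso2_kzero {k : ℝ → ℝ} (hk : Continuous k) {a b : ℝ}
    (hs : ∀ t, t ∉ Icc a b → k t = 0) {t : ℝ} (ht : t ≤ a) : k t = 0 := by
  have hcl : IsClosed {t | k t = 0} := isClosed_eq hk continuous_const
  have hsub : Iio a ⊆ {t | k t = 0} := by
    intro s hsa
    exact hs s (fun h => absurd h.1 (not_le.mpr hsa))
  have := hcl.closure_subset_iff.mpr hsub
  rw [closure_Iio] at this
  exact this ht

theorem iso2P_zero {k : ℝ → ℝ} (hk : Continuous k) {a b : ℝ} (ha : 0 < a)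
    (hs : ∀ t, t ∉ Icc a b → k t = 0) {t : ℝ} (ht : t ≤ a) : iso2P k t = 0 := by
  unfold iso2P
  rw [intervalIntegral.integral_congr (g := fun _ => (0 : ℝ))]
  · simp
  · intro s hs'
    refine iso2_kzero hk hs ?_
    have h1 : s ≤ max 0 t := by
      rcases le_total 0 t with h | h
      · rw [uIcc_of_le h] at hs'; rw [max_eq_right h]; exact hs'.2
      · rw [uIcc_of_ge h] at hs'; rw [max_eq_left h]; exact hs'.2
    exact h1.trans (max_le ha.le ht)

/-- the even extension -/
noncomputable def iso2Q (k : ℝ → ℝ) (t : ℝ) : ℝ := iso2P k t + iso2P k (-t)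

theorem iso2Q_eq {k : ℝ → ℝ} (hk : Continuous k) {a b : ℝ} (ha : 0 < a)
    (hs : ∀ t, t ∉ Icc a b → k t = 0) (t : ℝ) : iso2Q k t = iso2P k |t| := by
  unfold iso2Q
  rcases le_total 0 t with h | h
  · rw [abs_of_nonneg h, iso2P_zero hk ha hs (by linarith : -t ≤ a), add_zero]
  · rw [abs_of_nonpos h, iso2P_zero hk ha hs (by linarith : t ≤ a), zero_add]

theorem iso2Q_hasDerivAt {k : ℝ → ℝ} (hk : Continuous k) (t : ℝ) :
    HasDerivAt (iso2Q k) (k t - k (-t)) t := by
  have h1 := iso2P_hasDerivAt hk t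
  have h2 : HasDerivAt (fun s => iso2P k (-s)) (-(k (-t))) t := by
    have := (iso2P_hasDerivAt hk (-t)).comp t (hasDerivAt_neg t)
    simpa using! this
  have := h1.add h2
  rw [← sub_eq_add_neg] at this
  exact this

theorem iso2Q_contDiff {k : ℝ → ℝ} (hk : Continuous k) : ContDiff ℝ 1 (iso2Q k) := by
  rw [contDiff_one_iff_deriv]
  refine ⟨fun t => (iso2Q_hasDerivAt hk t).differentiableAt, ?_⟩
  have : deriv (iso2Q k) = fun t => k t - k (-t) := by
    ext t; exact (iso2Q_hasDerivAt hk t).deriv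
  rw [this]
  fun_prop

theorem iso2Q_deriv_abs {k : ℝ → ℝ} (hk : Continuous k) (h0 : ∀ t, 0 ≤ k t) {a b : ℝ} (ha : 0 < a)
    (hs : ∀ t, t ∉ Icc a b → k t = 0) (t : ℝ) : |k t - k (-t)| = k |t| := by
  rcases le_total 0 t with h | h
  · rw [iso2_kzero hk hs (by linarith : -t ≤ a), sub_zero, abs_of_nonneg h, abs_of_nonneg (h0 t)]
  · rw [iso2_kzero hk hs (by linarith : t ≤ a), zero_sub, abs_neg, abs_of_nonpos h,
      abs_of_nonneg (h0 _)]

/-! ### the approximating inequality -/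

theorem iso2_step (h : Good E Ω u₁ u₂) {k : ℝ → ℝ} (hk : Continuous k) (h0 : ∀ t, 0 ≤ k t)
    {a b : ℝ} (ha : 0 < a) (hs : ∀ t, t ∉ Icc a b → k t = 0) {η : ℝ} (hη : 0 < η) :
    2 * Real.sqrt Real.pi * ∫ t in Ioi (0 : ℝ),
        Real.sqrt (volume {z | z ∈ Ω ∧ η ≤ NN u₁ u₂ z ∧ t < iso2P k |cc u₁ u₂ z|}).toReal
      ≤ (∫ z in Ω, k |cc u₁ u₂ z| * Real.sqrt (gsq (cc u₁ u₂) z)) +
        iso2P k 1 * (Real.sqrt η * ((volume Ω).toReal + 1) / 2) := by
  have hfin := iso2_vol_lt h
  have hΩm := h.sol.isOpen.measurableSet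
  have hPm := iso2P_mono hk h0
  have hP0 : ∀ t, t ≤ a → iso2P k t = 0 := fun t ht => iso2P_zero hk ha hs ht
  have hPnn : ∀ t, 0 ≤ iso2P k t := by
    intro t
    rcases le_total t 0 with ht | ht
    · rw [hP0 t (by linarith)]
    · rw [← hP0 0 ha.le]; exact hPm ht
  obtain ⟨ε, hε, l, hl1, hl2, hl3, hl4, hl5, hl6⟩ := exists_cutoff h hη
  have hNc := fun n : ℕ => contDiff_NN h.sol.smooth₁ h.sol.smooth₂ n
  set F : ℂ → ℝ := fun z => l (NN u₁ u₂ z) * iso2Q k (cc u₁ u₂ z) with hF
  set g : ℂ → ℝ := Ω.indicator F with hg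
  have hFsm : ∀ z ∈ Ω, NN u₁ u₂ z ≠ 0 → ContDiffAt ℝ 1 F z := by
    intro z hz hN
    have e1 : ContDiffAt ℝ 1 (fun w => l (NN u₁ u₂ w)) z := by
      have := hNc 1
      exact (hl1.contDiffAt).comp z (by exact_mod_cast this.contDiffAt)
    have e2 : ContDiffAt ℝ 1 (fun w => iso2Q k (cc u₁ u₂ w)) z := by
      have := contDiffAt_cc h.sol.smooth₁ h.sol.smooth₂ hN 1
      exact ((iso2Q_contDiff hk).contDiffAt).comp z (by exact_mod_cast this)
    exact e1.mul e2
  have hF0 : ∀ z ∈ Ω, (|cc u₁ u₂ z| < a ∨ NN u₁ u₂ z < ε) → F z = 0 := by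
    rintro z hz (hc | hN)
    · simp only [hF]
      rw [iso2Q_eq hk ha hs, hP0 _ hc.le, mul_zero]
    · simp only [hF]
      rw [hl3 _ hN.le, zero_mul]
  obtain ⟨hgs, hgc⟩ := ext_smooth h ha hε hFsm hF0
  have hFnn : ∀ z, 0 ≤ F z := by
    intro z
    simp only [hF]
    rw [iso2Q_eq hk ha hs]
    exact mul_nonneg (hl2 _).1 (hPnn _)
  have hFle : ∀ z, F z ≤ iso2P k |cc u₁ u₂ z| := by
    intro z
    simp only [hF]
    rw [iso2Q_eq hk ha hs]
    exact mul_le_of_le_one_left (hPnn _) (hl2 _).2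
  have hcle : ∀ z, iso2P k |cc u₁ u₂ z| ≤ iso2P k 1 := fun z => hPm (abs_cc_le u₁ u₂ z)
  have hgnn : ∀ z, 0 ≤ g z := fun z => indicator_nonneg (fun z _ => hFnn z) z
  have hiso := iso1 hgs hgc hgnn
  -- upper bound for the gradient
  have hup : ∀ z, Real.sqrt (gsq g z) ≤ Ω.indicator (fun z =>
      k |cc u₁ u₂ z| * Real.sqrt (gsq (cc u₁ u₂) z) +
        iso2P k 1 * (|deriv l (NN u₁ u₂ z)| * Real.sqrt (gsq (NN u₁ u₂) z))) z := by
    intro z
    by_cases hz : z ∈ Ω
    · rw [indicator_of_mem hz]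
      have hgF : g =ᶠ[𝓝 z] F := by
        filter_upwards [h.sol.isOpen.mem_nhds hz] with w hw
        exact indicator_of_mem hw F
      rw [gsq_eq_norm, hgF.fderiv_eq]
      by_cases hN : NN u₁ u₂ z = 0
      · have hN0 : F =ᶠ[𝓝 z] fun _ => (0 : ℝ) := by
          have hcont : Continuous (NN u₁ u₂) := (hNc 0).continuous
          have : ∀ᶠ w in 𝓝 z, NN u₁ u₂ w < ε := by
            apply hcont.continuousAt.eventually_lt_const
            rw [hN]; exact hε
          filter_upwards [this] with w hw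
          simp only [hF]
          rw [hl3 _ hw.le, zero_mul]
        rw [hN0.fderiv_eq]
        simp only [fderiv_fun_const, Pi.zero_apply, norm_zero]
        have e1 : 0 ≤ iso2P k 1 := hPnn 1
        have e2 := h0 |cc u₁ u₂ z|
        positivity
      · have hNd : DifferentiableAt ℝ (NN u₁ u₂) z :=
          ((hNc 1).differentiable (by norm_num)).differentiableAt
        have hcd : DifferentiableAt ℝ (cc u₁ u₂) z :=
          (contDiffAt_cc h.sol.smooth₁ h.sol.smooth₂ hN 1).differentiableAt (by norm_num)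
        have hld : DifferentiableAt ℝ l (NN u₁ u₂ z) :=
          (hl1.differentiable (by norm_num)).differentiableAt
        have e1 : HasFDerivAt (fun w => l (NN u₁ u₂ w))
            (deriv l (NN u₁ u₂ z) • fderiv ℝ (NN u₁ u₂) z) z :=
          hld.hasDerivAt.comp_hasFDerivAt z hNd.hasFDerivAt
        have e2 : HasFDerivAt (fun w => iso2Q k (cc u₁ u₂ w))
            ((k (cc u₁ u₂ z) - k (-(cc u₁ u₂ z))) • fderiv ℝ (cc u₁ u₂) z) z :=
          (iso2Q_hasDerivAt hk _).comp_hasFDerivAt z hcd.hasFDerivAt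
        have e3 := e1.mul e2
        have e4 : HasFDerivAt F _ z := e3
        rw [e4.fderiv]
        refine (norm_add_le _ _).trans ?_
        rw [norm_smul, norm_smul, norm_smul, norm_smul, Real.norm_eq_abs, Real.norm_eq_abs,
          Real.norm_eq_abs, Real.norm_eq_abs, iso2Q_deriv_abs hk h0 ha hs, iso2Q_eq hk ha hs,
          gsq_eq_norm, gsq_eq_norm, abs_of_nonneg (hl2 _).1, abs_of_nonneg (hPnn _)]
        have e5 : 0 ≤ k |cc u₁ u₂ z| * ‖fderiv ℝ (cc u₁ u₂) z‖ :=
          mul_nonneg (h0 _) (norm_nonneg _)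
        have e6 : 0 ≤ |deriv l (NN u₁ u₂ z)| * ‖fderiv ℝ (NN u₁ u₂) z‖ := by positivity
        have e7 : l (NN u₁ u₂ z) * (k |cc u₁ u₂ z| * ‖fderiv ℝ (cc u₁ u₂) z‖) ≤
            k |cc u₁ u₂ z| * ‖fderiv ℝ (cc u₁ u₂) z‖ :=
          mul_le_of_le_one_left e5 (hl2 _).2
        have e8 : iso2P k |cc u₁ u₂ z| * (|deriv l (NN u₁ u₂ z)| * ‖fderiv ℝ (NN u₁ u₂) z‖) ≤
            iso2P k 1 * (|deriv l (NN u₁ u₂ z)| * ‖fderiv ℝ (NN u₁ u₂) z‖) :=
          mul_le_mul_of_nonneg_right (hcle z) e6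
        exact add_le_add e7 e8
    · rw [indicator_of_notMem hz]
      have hg0 : g z = 0 := indicator_of_notMem hz F
      have hmin : IsLocalMin g z := Filter.Eventually.of_forall fun w => by
        rw [hg0]; exact hgnn w
      rw [gsq_eq_norm, hmin.fderiv_eq_zero, norm_zero]
  -- integrability
  have hkb : ∃ C, ∀ t ∈ Icc (0 : ℝ) 1, ‖k t‖ ≤ C :=
    isCompact_Icc.exists_bound_of_continuousOn hk.continuousOn
  obtain ⟨C, hC⟩ := hkb
  have hmeasc := measurable_cc h.sol.smooth₁ h.sol.smooth₂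
  have i1 : IntegrableOn (fun z => k |cc u₁ u₂ z| * Real.sqrt (gsq (cc u₁ u₂) z)) Ω := by
    refine Integrable.bdd_mul (c := C) (integrable_grad h) ?_ ?_
    · exact (hk.measurable.comp hmeasc.abs).aestronglyMeasurable
    · refine Filter.Eventually.of_forall fun z => ?_
      exact hC _ ⟨abs_nonneg _, abs_cc_le u₁ u₂ z⟩
  have hgsqN : Continuous (gsq (NN u₁ u₂)) := by
    have e1 : Continuous (fderiv ℝ (NN u₁ u₂)) := (hNc 1).continuous_fderiv (by norm_num)
    unfold gsq
    fun_prop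
  have hdl : Continuous (deriv l) := hl1.continuous_deriv (by norm_num)
  have hNcont : Continuous (NN u₁ u₂) := (hNc 0).continuous
  set X : ℂ → ℝ := fun z => |deriv l (NN u₁ u₂ z)| * Real.sqrt (gsq (NN u₁ u₂) z) with hX
  have hXc : Continuous X := by
    simp only [hX]
    exact ((hdl.comp hNcont).abs).mul (hgsqN.sqrt)
  have hgsq0 : ∀ z, 0 ≤ gsq (NN u₁ u₂) z := fun z => by unfold gsq; positivity
  have hX2 : ∀ z, X z ^ 2 = (deriv l (NN u₁ u₂ z)) ^ 2 * gsq (NN u₁ u₂) z := by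
    intro z
    simp only [hX]
    rw [mul_pow, sq_abs, Real.sq_sqrt (hgsq0 z)]
  have hsη : 0 < Real.sqrt η := Real.sqrt_pos.mpr hη
  have hXle : ∀ z, X z ≤ (Real.sqrt η + (Real.sqrt η)⁻¹ *
      ((deriv l (NN u₁ u₂ z)) ^ 2 * gsq (NN u₁ u₂) z)) / 2 := by
    intro z
    rw [← hX2]
    have e1 : 0 ≤ (Real.sqrt η)⁻¹ * (X z - Real.sqrt η) ^ 2 := by positivity
    have e2 : (Real.sqrt η)⁻¹ * (X z - Real.sqrt η) ^ 2 =
        Real.sqrt η + (Real.sqrt η)⁻¹ * X z ^ 2 - 2 * X z := by
      field_simp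
      ring
    linarith
  have hX0 : ∀ z, 0 ≤ X z := fun z => by simp only [hX]; positivity
  have i2' : IntegrableOn (fun z => (Real.sqrt η + (Real.sqrt η)⁻¹ *
      ((deriv l (NN u₁ u₂ z)) ^ 2 * gsq (NN u₁ u₂) z)) / 2) Ω :=
    ((integrableOn_const hfin.ne).add (hl5.const_mul _)).div_const 2
  have i2 : IntegrableOn X Ω := by
    refine Integrable.mono' i2' hXc.aestronglyMeasurable ?_
    refine Filter.Eventually.of_forall fun z => ?_
    rw [Real.norm_eq_abs, abs_of_nonneg (hX0 z)]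
    exact hXle z
  have hXint : ∫ z in Ω, X z ≤ Real.sqrt η * ((volume Ω).toReal + 1) / 2 := by
    refine (integral_mono i2 i2' hXle).trans ?_
    have ic : IntegrableOn (fun _ : ℂ => Real.sqrt η) Ω := integrableOn_const hfin.ne
    have il := hl5.const_mul ((Real.sqrt η)⁻¹)
    rw [integral_div, integral_add ic il,
      integral_const_mul, setIntegral_const, smul_eq_mul]
    have e1 : (Real.sqrt η)⁻¹ * ∫ z in Ω, (deriv l (NN u₁ u₂ z)) ^ 2 * gsq (NN u₁ u₂) z ≤
        Real.sqrt η := by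
      calc (Real.sqrt η)⁻¹ * ∫ z in Ω, (deriv l (NN u₁ u₂ z)) ^ 2 * gsq (NN u₁ u₂) z
          ≤ (Real.sqrt η)⁻¹ * η := mul_le_mul_of_nonneg_left hl6 (by positivity)
        _ = (Real.sqrt η)⁻¹ * (Real.sqrt η * Real.sqrt η) := by
            rw [Real.mul_self_sqrt hη.le]
        _ = Real.sqrt η := by field_simp
    have e2 : volume.real Ω = (volume Ω).toReal := rfl
    rw [e2]
    nlinarith
  have hright : ∫ z, Real.sqrt (gsq g z) ≤
      (∫ z in Ω, k |cc u₁ u₂ z| * Real.sqrt (gsq (cc u₁ u₂) z)) +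
        iso2P k 1 * (Real.sqrt η * ((volume Ω).toReal + 1) / 2) := by
    have e1 : ∫ z, Real.sqrt (gsq g z) ≤ ∫ z, Ω.indicator (fun z =>
      k |cc u₁ u₂ z| * Real.sqrt (gsq (cc u₁ u₂) z) + iso2P k 1 * X z) z := by
      refine integral_mono_of_nonneg ?_ ?_ ?_
      · exact Filter.Eventually.of_forall fun z => Real.sqrt_nonneg _
      · rw [integrable_indicator_iff hΩm]
        exact i1.add (i2.const_mul _)
      · exact Filter.Eventually.of_forall hup
    refine e1.trans ?_
    rw [integral_indicator hΩm, integral_add i1 (i2.const_mul _), integral_const_mul]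
    gcongr
    exact hPnn 1
  -- lower bound for the left side
  have hleft : ∫ t in Ioi (0 : ℝ),
        Real.sqrt (volume {z | z ∈ Ω ∧ η ≤ NN u₁ u₂ z ∧ t < iso2P k |cc u₁ u₂ z|}).toReal ≤
      ∫ t in Ioi (0 : ℝ), Real.sqrt (volume {z | t < g z}).toReal := by
    set h1 : ℝ → ℝ := fun t => Real.sqrt (volume {z | z ∈ Ω ∧ t < g z}).toReal with hh1
    have hant : Antitone h1 := by
      intro s t hst
      simp only [hh1]
      apply Real.sqrt_le_sqrt
      apply ENNReal.toReal_mono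
      · exact ((measure_mono (fun z hz => hz.1)).trans_lt hfin).ne
      · exact measure_mono fun z hz => ⟨hz.1, hst.trans_lt hz.2⟩
    have heq : ∀ t ∈ Ioi (0 : ℝ), h1 t = Real.sqrt (volume {z | t < g z}).toReal := by
      intro t ht
      simp only [hh1]
      congr 3
      ext z
      simp only [mem_ofPred_eq]
      constructor
      · exact fun h' => h'.2
      · intro h'
        refine ⟨?_, h'⟩
        by_contra hz
        rw [hg, indicator_of_notMem hz] at h'
        exact absurd (ht.trans h') (lt_irrefl _)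
    have hzero : ∀ t, iso2P k 1 ≤ t → h1 t = 0 := by
      intro t ht
      simp only [hh1]
      have : {z | z ∈ Ω ∧ t < g z} = ∅ := by
        ext z
        simp only [mem_ofPred_eq, mem_empty_iff_false, iff_false, not_and, not_lt]
        intro hz
        rw [hg, indicator_of_mem hz]
        exact ((hFle z).trans (hcle z)).trans ht
      rw [this]; simp
    have hint : IntegrableOn h1 (Ioi 0) := by
      have hb : IntegrableOn ((Ioc (0 : ℝ) (iso2P k 1)).indicator
          (fun _ => Real.sqrt (volume Ω).toReal)) (Ioi 0) := by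
        rw [IntegrableOn, integrable_indicator_iff measurableSet_Ioc]
        refine integrableOn_const ?_
        refine ne_of_lt (lt_of_le_of_lt (Measure.restrict_le_self _) ?_)
        simp
      refine Integrable.mono' hb hant.measurable.aestronglyMeasurable ?_
      filter_upwards [ae_restrict_mem measurableSet_Ioi] with t ht
      rw [Real.norm_eq_abs, abs_of_nonneg (Real.sqrt_nonneg _)]
      by_cases htm : t ≤ iso2P k 1
      · rw [indicator_of_mem (show t ∈ Ioc 0 (iso2P k 1) from ⟨ht, htm⟩)]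
        apply Real.sqrt_le_sqrt
        exact ENNReal.toReal_mono hfin.ne (measure_mono fun z hz => hz.1)
      · have hz0 := hzero t (not_le.mp htm).le
        simp only [hh1] at hz0 ⊢
        rw [hz0]
        exact indicator_nonneg (fun _ _ => Real.sqrt_nonneg _) _
    rw [← setIntegral_congr_fun measurableSet_Ioi heq]
    refine integral_mono_of_nonneg ?_ hint ?_
    · exact Filter.Eventually.of_forall fun t => Real.sqrt_nonneg _
    · refine Filter.Eventually.of_forall fun t => ?_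
      simp only [hh1]
      apply Real.sqrt_le_sqrt
      apply ENNReal.toReal_mono
      · exact ((measure_mono (fun z hz => hz.1)).trans_lt hfin).ne
      · refine measure_mono fun z hz => ⟨hz.1, ?_⟩
        rw [hg, indicator_of_mem hz.1]
        simp only [hF]
        rw [hl4 _ hz.2.1, one_mul, iso2Q_eq hk ha hs]
        exact hz.2.2
  calc 2 * Real.sqrt Real.pi * ∫ t in Ioi (0 : ℝ),
        Real.sqrt (volume {z | z ∈ Ω ∧ η ≤ NN u₁ u₂ z ∧ t < iso2P k |cc u₁ u₂ z|}).toReal
      ≤ 2 * Real.sqrt Real.pi * ∫ t in Ioi (0 : ℝ), Real.sqrt (volume {z | t < g z}).toReal :=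
        mul_le_mul_of_nonneg_left hleft (by positivity)
    _ ≤ ∫ z, Real.sqrt (gsq g z) := hiso
    _ ≤ _ := hright

theorem iso2 (h : Good E Ω u₁ u₂) {k : ℝ → ℝ} (hk : Continuous k) (h0 : ∀ t, 0 ≤ k t) {a b : ℝ}
    (ha : 0 < a) (hb : b < 1) (hs : ∀ t, t ∉ Icc a b → k t = 0) :
    2 * Real.sqrt Real.pi * ∫ t in (0 : ℝ)..1,
        k t * Real.sqrt (volume {z | z ∈ Ω ∧ t < |cc u₁ u₂ z|}).toReal
      ≤ ∫ z in Ω, k |cc u₁ u₂ z| * Real.sqrt (gsq (cc u₁ u₂) z) := by
  have hfin := iso2_vol_lt h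
  have hPm := iso2P_mono hk h0
  have hPd := iso2P_hasDerivAt hk
  have hPc : Continuous (iso2P k) := by
    rw [continuous_iff_continuousAt]; exact fun t => (hPd t).continuousAt
  have hP0 : iso2P k 0 = 0 := iso2P_zero hk ha hs ha.le
  have hcle : ∀ z, iso2P k |cc u₁ u₂ z| ≤ iso2P k 1 := fun z => hPm (abs_cc_le u₁ u₂ z)
  set m := iso2P k 1 with hm
  have hm0 : 0 ≤ m := by rw [← hP0]; exact hPm zero_le_one
  set G : ℝ → ℝ := fun t =>
    Real.sqrt (volume {z | z ∈ Ω ∧ t < iso2P k |cc u₁ u₂ z|}).toReal with hG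
  set Gn : ℕ → ℝ → ℝ := fun n t => Real.sqrt (volume {z | z ∈ Ω ∧ 1 / ((n : ℝ) + 1) ≤ NN u₁ u₂ z ∧
    t < iso2P k |cc u₁ u₂ z|}).toReal with hGn
  have hNnn : ∀ z, 0 ≤ NN u₁ u₂ z := fun z => by unfold NN; positivity
  have hGant : ∀ n, Antitone (Gn n) := by
    intro n s t hst
    simp only [hGn]
    apply Real.sqrt_le_sqrt
    apply ENNReal.toReal_mono
    · exact ((measure_mono (fun z hz => hz.1)).trans_lt hfin).ne
    · exact measure_mono fun z hz => ⟨hz.1, hz.2.1, hst.trans_lt hz.2.2⟩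
  have hGzero : ∀ t, m ≤ t → G t = 0 := by
    intro t ht
    simp only [hG]
    have : {z | z ∈ Ω ∧ t < iso2P k |cc u₁ u₂ z|} = ∅ := by
      ext z
      simp only [mem_ofPred_eq, mem_empty_iff_false, iff_false, not_and, not_lt]
      intro _
      exact (hcle z).trans ht
    rw [this]; simp
  have hGle : ∀ n t, Gn n t ≤ G t := by
    intro n t
    simp only [hGn, hG]
    apply Real.sqrt_le_sqrt
    apply ENNReal.toReal_mono
    · exact ((measure_mono (fun z hz => hz.1)).trans_lt hfin).ne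
    · exact measure_mono fun z hz => ⟨hz.1, hz.2.2⟩
  have hbound : IntegrableOn ((Ioc (0 : ℝ) m).indicator
      (fun _ => Real.sqrt (volume Ω).toReal)) (Ioi 0) := by
    rw [IntegrableOn, integrable_indicator_iff measurableSet_Ioc]
    refine integrableOn_const ?_
    refine ne_of_lt (lt_of_le_of_lt (Measure.restrict_le_self _) ?_)
    simp
  -- the limit
  have hlim : Filter.Tendsto (fun n => ∫ t in Ioi (0 : ℝ), Gn n t) Filter.atTop
      (𝓝 (∫ t in Ioi (0 : ℝ), G t)) := by
    refine tendsto_integral_of_dominated_convergence _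
      (fun n => (hGant n).measurable.aestronglyMeasurable) hbound ?_ ?_
    · intro n
      filter_upwards [ae_restrict_mem measurableSet_Ioi] with t ht
      rw [Real.norm_eq_abs, abs_of_nonneg (Real.sqrt_nonneg _)]
      by_cases htm : t ≤ m
      · rw [indicator_of_mem (show t ∈ Ioc 0 m from ⟨ht, htm⟩)]
        apply Real.sqrt_le_sqrt
        exact ENNReal.toReal_mono hfin.ne (measure_mono fun z hz => hz.1)
      · refine (hGle n t).trans ?_
        rw [hGzero t (not_le.mp htm).le]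
        exact indicator_nonneg (fun _ _ => Real.sqrt_nonneg _) _
    · filter_upwards [ae_restrict_mem measurableSet_Ioi] with t ht
      simp only [hGn, hG]
      refine (Real.continuous_sqrt.tendsto _).comp ?_
      refine (ENNReal.tendsto_toReal
        ((measure_mono (fun z hz => hz.1)).trans_lt hfin).ne).comp ?_
      have hmono : Monotone (fun n : ℕ => {z | z ∈ Ω ∧ 1 / ((n : ℝ) + 1) ≤ NN u₁ u₂ z ∧
          t < iso2P k |cc u₁ u₂ z|}) := by
        intro n n' hnn z hz
        refine ⟨hz.1, le_trans ?_ hz.2.1, hz.2.2⟩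
        have : (n : ℝ) ≤ n' := by exact_mod_cast hnn
        gcongr
      have hU : (⋃ n : ℕ, {z | z ∈ Ω ∧ 1 / ((n : ℝ) + 1) ≤ NN u₁ u₂ z ∧
          t < iso2P k |cc u₁ u₂ z|}) = {z | z ∈ Ω ∧ t < iso2P k |cc u₁ u₂ z|} := by
        ext z
        simp only [mem_iUnion, mem_ofPred_eq]
        constructor
        · rintro ⟨n, h1, h2, h3⟩; exact ⟨h1, h3⟩
        · rintro ⟨h1, h3⟩
          have hNz : 0 < NN u₁ u₂ z := by
            rcases (hNnn z).lt_or_eq with hlt | heq
            · exact hlt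
            · exfalso
              have : cc u₁ u₂ z = 0 := by unfold cc; rw [← heq, div_zero]
              rw [this, abs_zero, hP0] at h3
              exact absurd (ht.trans h3) (lt_irrefl _)
          obtain ⟨n, hn⟩ := exists_nat_one_div_lt hNz
          exact ⟨n, h1, hn.le, h3⟩
      rw [← hU]
      exact tendsto_measure_iUnion_atTop hmono
  have hstep : 2 * Real.sqrt Real.pi * ∫ t in Ioi (0 : ℝ), G t ≤
      ∫ z in Ω, k |cc u₁ u₂ z| * Real.sqrt (gsq (cc u₁ u₂) z) := by
    have l1 := hlim.const_mul (2 * Real.sqrt Real.pi)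
    have l2 : Filter.Tendsto (fun n : ℕ => (∫ z in Ω, k |cc u₁ u₂ z| *
        Real.sqrt (gsq (cc u₁ u₂) z)) +
        m * (Real.sqrt (1 / ((n : ℝ) + 1)) * ((volume Ω).toReal + 1) / 2)) Filter.atTop
        (𝓝 ((∫ z in Ω, k |cc u₁ u₂ z| * Real.sqrt (gsq (cc u₁ u₂) z)) +
        m * (Real.sqrt 0 * ((volume Ω).toReal + 1) / 2))) := by
      refine Filter.Tendsto.const_add _ (Filter.Tendsto.const_mul _ ?_)
      refine Filter.Tendsto.div_const (Filter.Tendsto.mul_const _ ?_) _
      exact (Real.continuous_sqrt.tendsto 0).comp tendsto_one_div_add_atTop_nhds_zero_nat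
    rw [Real.sqrt_zero, zero_mul, zero_div, mul_zero, add_zero] at l2
    refine le_of_tendsto_of_tendsto' l1 l2 fun n => ?_
    exact iso2_step h hk h0 ha hs (η := 1 / ((n : ℝ) + 1)) (by positivity)
  refine le_trans (le_of_eq ?_) hstep
  congr 1
  -- substitution
  have himg : iso2P k '' Icc 0 1 = Icc 0 m := by
    apply Subset.antisymm
    · rintro _ ⟨t, ht, rfl⟩
      exact ⟨by rw [← hP0]; exact hPm ht.1, hPm ht.2⟩
    · have := intermediate_value_Icc (zero_le_one) hPc.continuousOn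
      rwa [hP0] at this
  have hsub := integral_image_eq_integral_deriv_smul_of_monotoneOn (s := Icc (0 : ℝ) 1)
    measurableSet_Icc (fun x _ => (hPd x).hasDerivWithinAt) (hPm.monotoneOn _) G
  rw [himg] at hsub
  have hIoi : ∫ t in Ioi (0 : ℝ), G t = ∫ t in Icc 0 m, G t := by
    rw [integral_Icc_eq_integral_Ioc]
    refine setIntegral_eq_of_subset_of_forall_sdiff_eq_zero measurableSet_Ioi
      Ioc_subset_Ioi_self ?_
    intro t ht
    refine hGzero t ?_
    by_contra hcon
    exact ht.2 ⟨ht.1, (not_le.mp hcon).le⟩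
  rw [hIoi, hsub, intervalIntegral.integral_of_le zero_le_one, integral_Icc_eq_integral_Ioc]
  refine setIntegral_congr_fun measurableSet_Ioc fun t ht => ?_
  simp only [smul_eq_mul, hG]
  rcases (h0 t).lt_or_eq with hlt | heq
  · congr 4
    ext z
    simp only [mem_ofPred_eq]
    refine and_congr_right fun _ => ?_
    constructor
    · intro hz
      have hpos : 0 < ∫ s in t..|cc u₁ u₂ z|, k s :=
        intervalIntegral.integral_pos hz hk.continuousOn (fun s _ => h0 s)
          ⟨t, left_mem_Icc.mpr hz.le, hlt⟩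
      have hadd : iso2P k t + ∫ s in t..|cc u₁ u₂ z|, k s = iso2P k |cc u₁ u₂ z| := by
        unfold iso2P
        exact intervalIntegral.integral_add_adjacent_intervals
          (hk.intervalIntegrable _ _) (hk.intervalIntegrable _ _)
      linarith
    · intro hz
      by_contra hcon
      exact absurd (hPm (not_lt.mp hcon)) (not_le.mpr hz)
  · rw [← heq]; simp

end Pool.Agent.FK
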