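import Mathlib
import Pool.Agent.Helper99.FK.Cut
import Pool.Agent.Helper99.FK.Alg3

/-! FK-10: the curvature distribution, first form -/

set_option autoImplicit false

open Complex MeasureTheory Set Metric
open scoped ComplexConjugate Topology

namespace Pool.Agent.FK

variable {E : ℝ} {Ω : Set ℂ} {u₁ u₂ : ℂ → ℂ}

lemma k1_NN_nonneg (u₁ u₂ : ℂ → ℂ) (z : ℂ) : 0 ≤ NN u₁ u₂ z := by
  unfold NN
  positivity

/-- outside `Ω` the extension by zero vanishes locally -/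
lemma k1_local_zero (h : Good E Ω u₁ u₂) {F : ℂ → ℂ} {α ε : ℝ} (hα : 0 < α) (hε : 0 < ε)
    (h0 : ∀ z ∈ Ω, (|cc u₁ u₂ z| < α ∨ NN u₁ u₂ z < ε) → F z = 0) {z : ℂ} (hz : z ∉ Ω) :
    Ω.indicator F =ᶠ[𝓝 z] fun _ => 0 := by
  have hNc : Continuous (NN u₁ u₂) :=
    (contDiff_NN h.sol.smooth₁ h.sol.smooth₂ 1).continuous
  by_cases hcl : z ∈ closure Ω
  · have hfr : z ∈ frontier Ω := by
      rw [h.sol.isOpen.frontier_eq]
      exact ⟨hcl, hz⟩
    have hP := h.bdry z hfr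
    by_cases hN : NN u₁ u₂ z = 0
    · have h1 : ∀ᶠ w in 𝓝 z, NN u₁ u₂ w < ε := by
        apply hNc.continuousAt.eventually_lt continuousAt_const
        rw [hN]; exact hε
      filter_upwards [h1] with w hw
      by_cases hwΩ : w ∈ Ω
      · rw [Set.indicator_of_mem hwΩ]
        exact h0 w hwΩ (Or.inr hw)
      · rw [Set.indicator_of_notMem hwΩ]
    · have hcc : cc u₁ u₂ z = 0 := by
        unfold cc
        rw [hP, zero_div]
      have hcont : ContinuousAt (fun w => |cc u₁ u₂ w|) z :=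
        (contDiffAt_cc h.sol.smooth₁ h.sol.smooth₂ hN 1).continuousAt.abs
      have h1 : ∀ᶠ w in 𝓝 z, |cc u₁ u₂ w| < α := by
        apply hcont.eventually_lt continuousAt_const
        rw [hcc, abs_zero]; exact hα
      filter_upwards [h1] with w hw
      by_cases hwΩ : w ∈ Ω
      · rw [Set.indicator_of_mem hwΩ]
        exact h0 w hwΩ (Or.inl hw)
      · rw [Set.indicator_of_notMem hwΩ]
  · have h1 : ∀ᶠ w in 𝓝 z, w ∈ (closure Ω)ᶜ := isClosed_closure.isOpen_compl.mem_nhds hcl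
    filter_upwards [h1] with w hw
    rw [Set.indicator_of_notMem (fun hw' => hw (subset_closure hw'))]

/-- the tested function -/
noncomputable def k1F (E : ℝ) (u₁ u₂ : ℂ → ℂ) (l ρ : ℝ → ℝ) (w : ℂ) : ℂ :=
  (l (NN u₁ u₂ w) : ℂ) * ((ρ (cc u₁ u₂ w) : ℂ) * xi E u₁ u₂ w)

/-- the error term -/
noncomputable def k1A (E : ℝ) (u₁ u₂ : ℂ → ℂ) (l ρ : ℝ → ℝ) (z : ℂ) : ℝ :=
  4 * ((((deriv l (NN u₁ u₂ z) : ℝ) : ℂ) * dz (fun w => (NN u₁ u₂ w : ℂ)) z) *
    ((ρ (cc u₁ u₂ z) : ℂ) * xi E u₁ u₂ z)).im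

/-- the main term -/
noncomputable def k1P (E : ℝ) (u₁ u₂ : ℂ → ℂ) (ρ : ℝ → ℝ) (z : ℂ) : ℝ :=
  ((1 - cc u₁ u₂ z ^ 2) * deriv ρ (cc u₁ u₂ z) - 2 * cc u₁ u₂ z * ρ (cc u₁ u₂ z)) *
    JJ E u₁ u₂ z

lemma k1_pointwise (h : Good E Ω u₁ u₂) {l ρ : ℝ → ℝ} (hl : ContDiff ℝ 1 l)
    (hρ : ContDiff ℝ 1 ρ) {ε : ℝ} (hε : 0 < ε) (hl0 : ∀ t ≤ ε, l t = 0) {z : ℂ} (hz : z ∈ Ω) :
    4 * (dz (k1F E u₁ u₂ l ρ) z).im
      = k1A E u₁ u₂ l ρ z - l (NN u₁ u₂ z) * k1P E u₁ u₂ ρ z := by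
  have hNs : ContDiff ℝ 1 (NN u₁ u₂) := by
    exact_mod_cast contDiff_NN h.sol.smooth₁ h.sol.smooth₂ 1
  by_cases hN : NN u₁ u₂ z = 0
  · have h1 : k1F E u₁ u₂ l ρ =ᶠ[𝓝 z] fun _ => 0 := by
      have h2 : ∀ᶠ w in 𝓝 z, NN u₁ u₂ w < ε := by
        apply hNs.continuous.continuousAt.eventually_lt continuousAt_const
        rw [hN]; exact hε
      filter_upwards [h2] with w hw
      unfold k1F
      rw [hl0 _ hw.le]
      simp
    have h2 : deriv l (NN u₁ u₂ z) = 0 := by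
      have h3 : l =ᶠ[𝓝 (NN u₁ u₂ z)] fun _ => (0 : ℝ) := by
        rw [hN]
        filter_upwards [Iio_mem_nhds hε] with t ht
        exact hl0 t (le_of_lt ht)
      rw [h3.deriv_eq, deriv_const]
    rw [dz_congr h1, dz_const]
    unfold k1A
    rw [h2, hl0 _ (by rw [hN]; exact hε.le)]
    simp
  · have hdN : DifferentiableAt ℝ (NN u₁ u₂) z := hNs.differentiable (by norm_num) z
    have hdl : DifferentiableAt ℝ l (NN u₁ u₂ z) := hl.differentiable (by norm_num) _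
    have hcA := contDiffAt_cc h.sol.smooth₁ h.sol.smooth₂ hN 1
    have hdc : DifferentiableAt ℝ (cc u₁ u₂) z := hcA.differentiableAt (by norm_num)
    have hdρ : DifferentiableAt ℝ (fun w => (ρ (cc u₁ u₂ w) : ℂ)) z := by
      have h1 : DifferentiableAt ℝ (fun w => ρ (cc u₁ u₂ w)) z :=
        (hρ.differentiable (by norm_num) _).comp z hdc
      exact Complex.ofRealCLM.differentiableAt.comp z h1
    have hdxi : DifferentiableAt ℝ (xi E u₁ u₂) z :=
      (contDiffAt_xi h.sol.smooth₁ h.sol.smooth₂ hN 1).differentiableAt (by norm_num)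
    have hdl' : DifferentiableAt ℝ (fun w => (l (NN u₁ u₂ w) : ℂ)) z := by
      have h1 : DifferentiableAt ℝ (fun w => l (NN u₁ u₂ w)) z := hdl.comp z hdN
      exact Complex.ofRealCLM.differentiableAt.comp z h1
    have h1 := dz_mul hdl' (hdρ.mul hdxi)
    have h2 := dz_comp hdl hdN
    have h3 := im_dz_rho h.sol hz hN hρ
    have h4 : dz (k1F E u₁ u₂ l ρ) z =
        dz (fun w => (l (NN u₁ u₂ w) : ℂ)) z * ((ρ (cc u₁ u₂ z) : ℂ) * xi E u₁ u₂ z) +
        (l (NN u₁ u₂ z) : ℂ) * dz (fun w => (ρ (cc u₁ u₂ w) : ℂ) * xi E u₁ u₂ w) z := h1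
    rw [h4, h2, Complex.add_im, Complex.im_ofReal_mul, mul_add]
    unfold k1A k1P
    linear_combination (l (NN u₁ u₂ z)) * h3

lemma k1_integral (h : Good E Ω u₁ u₂) {l ρ : ℝ → ℝ} (hl : ContDiff ℝ 1 l)
    (hρ : ContDiff ℝ 1 ρ) {ε δ : ℝ} (hε : 0 < ε) (hl0 : ∀ t ≤ ε, l t = 0) (hδ : 0 < δ)
    (h0 : ∀ t, |t| < δ → ρ t = 0) :
    ∫ z in Ω, (k1A E u₁ u₂ l ρ z - l (NN u₁ u₂ z) * k1P E u₁ u₂ ρ z) = 0 := by
  have hF0 : ∀ z ∈ Ω, (|cc u₁ u₂ z| < δ ∨ NN u₁ u₂ z < ε) → k1F E u₁ u₂ l ρ z = 0 := by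
    intro z _ hz
    unfold k1F
    rcases hz with hz | hz
    · rw [h0 _ hz]; simp
    · rw [hl0 _ hz.le]; simp
  have hFs : ∀ z ∈ Ω, NN u₁ u₂ z ≠ 0 → ContDiffAt ℝ 1 (k1F E u₁ u₂ l ρ) z := by
    intro z _ hN
    have hNs : ContDiffAt ℝ 1 (NN u₁ u₂) z := by
      exact_mod_cast (contDiff_NN h.sol.smooth₁ h.sol.smooth₂ 1).contDiffAt
    have hcs : ContDiffAt ℝ 1 (cc u₁ u₂) z := by
      exact_mod_cast contDiffAt_cc h.sol.smooth₁ h.sol.smooth₂ hN 1
    have hxs : ContDiffAt ℝ 1 (xi E u₁ u₂) z := by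
      exact_mod_cast contDiffAt_xi (E := E) h.sol.smooth₁ h.sol.smooth₂ hN 1
    have h1 : ContDiffAt ℝ 1 (fun w => (l (NN u₁ u₂ w) : ℂ)) z :=
      Complex.ofRealCLM.contDiff.contDiffAt.comp z (hl.contDiffAt.comp z hNs)
    have h2 : ContDiffAt ℝ 1 (fun w => (ρ (cc u₁ u₂ w) : ℂ)) z :=
      Complex.ofRealCLM.contDiff.contDiffAt.comp z (hρ.contDiffAt.comp z hcs)
    exact h1.mul (h2.mul hxs)
  obtain ⟨hY, hYc⟩ := ext_smooth h hδ hε hFs hF0
  have h1 := integral_dz hY hYc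
  have h2 : ∫ z, dz (Ω.indicator (k1F E u₁ u₂ l ρ)) z = ∫ z in Ω, dz (k1F E u₁ u₂ l ρ) z := by
    rw [← integral_indicator h.sol.isOpen.measurableSet]
    congr 1
    funext z
    by_cases hz : z ∈ Ω
    · rw [Set.indicator_of_mem hz]
      apply dz_congr
      filter_upwards [h.sol.isOpen.mem_nhds hz] with w hw
      rw [Set.indicator_of_mem hw]
    · rw [Set.indicator_of_notMem hz, dz_congr (k1_local_zero h hδ hε hF0 hz), dz_const]
  rw [h2] at h1
  have h3 : ∫ z in Ω, (k1A E u₁ u₂ l ρ z - l (NN u₁ u₂ z) * k1P E u₁ u₂ ρ z) =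
      ∫ z in Ω, 4 * (dz (k1F E u₁ u₂ l ρ) z).im := by
    apply setIntegral_congr_fun h.sol.isOpen.measurableSet
    intro z hz
    exact (k1_pointwise h hl hρ hε hl0 hz).symm
  rw [h3, integral_const_mul]
  have h4 : IntegrableOn (fun z => dz (k1F E u₁ u₂ l ρ) z) Ω := by
    have h5 : Integrable (fun z => dz (Ω.indicator (k1F E u₁ u₂ l ρ)) z) := by
      have hc : Continuous (fun z => dz (Ω.indicator (k1F E u₁ u₂ l ρ)) z) := by
        have hf := hY.continuous_fderiv (by norm_num)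
        unfold dz
        exact ((hf.clm_apply continuous_const).sub
          (continuous_const.mul (hf.clm_apply continuous_const))).div_const _
      have hcs : HasCompactSupport (fun z => dz (Ω.indicator (k1F E u₁ u₂ l ρ)) z) := by
        have hf := hYc.fderiv (𝕜 := ℝ)
        apply hf.mono'
        intro z hz
        apply subset_closure
        rw [Function.mem_support] at hz ⊢
        intro h0
        apply hz
        unfold dz
        rw [h0]
        simp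
      exact hc.integrable_of_hasCompactSupport hcs
    apply (h5.integrableOn (s := Ω)).congr_fun _ h.sol.isOpen.measurableSet
    intro z hz
    apply dz_congr
    filter_upwards [h.sol.isOpen.mem_nhds hz] with w hw
    rw [Set.indicator_of_mem hw]
  have h5 : ∫ z in Ω, (dz (k1F E u₁ u₂ l ρ) z).im = (∫ z in Ω, dz (k1F E u₁ u₂ l ρ) z).im := by
    have := (Complex.imCLM.integral_comp_comm h4)
    simpa using this
  rw [h5, h1]
  simp

lemma k1_dzN (h : Good E Ω u₁ u₂) (z : ℂ) :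
    (2 * ‖dz (fun w => (NN u₁ u₂ w : ℂ)) z‖) ^ 2 = gsq (NN u₁ u₂) z := by
  have hNs : ContDiff ℝ 1 (NN u₁ u₂) := by
    exact_mod_cast contDiff_NN h.sol.smooth₁ h.sol.smooth₂ 1
  rw [dz_ofReal, RCLike.norm_conj, gsq_eq _ _ (hNs.differentiable (by norm_num) z)]
  ring

lemma k1_bound (h : Good E Ω u₁ u₂) {l ρ : ℝ → ℝ} {C s : ℝ} (hs : 0 < s) (z : ℂ)
    (hC : |ρ (cc u₁ u₂ z)| ≤ C) :
    |k1A E u₁ u₂ l ρ z| ≤ C * (s * ((deriv l (NN u₁ u₂ z)) ^ 2 * gsq (NN u₁ u₂) z) +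
      ‖xi E u₁ u₂ z‖ ^ 2 / s) := by
  have hC0 : 0 ≤ C := (abs_nonneg _).trans hC
  rw [← k1_dzN h z]
  set d := ‖dz (fun w => (NN u₁ u₂ w : ℂ)) z‖ with hd
  set x := ‖xi E u₁ u₂ z‖ with hx
  have hd0 : 0 ≤ d := norm_nonneg _
  have hx0 : 0 ≤ x := norm_nonneg _
  have h1 : |k1A E u₁ u₂ l ρ z| ≤ 4 * (|deriv l (NN u₁ u₂ z)| * d * (|ρ (cc u₁ u₂ z)| * x)) := by
    unfold k1A
    rw [abs_mul, abs_of_nonneg (by norm_num : (0 : ℝ) ≤ 4)]
    apply mul_le_mul_of_nonneg_left _ (by norm_num)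
    refine (Complex.abs_im_le_norm _).trans (le_of_eq ?_)
    rw [norm_mul, norm_mul, norm_mul, Complex.norm_real, Complex.norm_real, Real.norm_eq_abs,
      Real.norm_eq_abs]
  set a := |deriv l (NN u₁ u₂ z)| * (2 * d) with ha
  have ha2 : (deriv l (NN u₁ u₂ z)) ^ 2 * (2 * d) ^ 2 = a ^ 2 := by
    rw [ha, mul_pow |deriv l (NN u₁ u₂ z)|, sq_abs]
  have ha0 : 0 ≤ a := by positivity
  rw [ha2]
  have h2 : 4 * (|deriv l (NN u₁ u₂ z)| * d * (|ρ (cc u₁ u₂ z)| * x)) ≤ C * (2 * a * x) := by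
    have h3 : 4 * (|deriv l (NN u₁ u₂ z)| * d * (|ρ (cc u₁ u₂ z)| * x)) =
        |ρ (cc u₁ u₂ z)| * (2 * a * x) := by rw [ha]; ring
    rw [h3]
    exact mul_le_mul_of_nonneg_right hC (by positivity)
  have h4 : 2 * a * x ≤ s * a ^ 2 + x ^ 2 / s := by
    have h5 : s * a ^ 2 + x ^ 2 / s - 2 * a * x = (s * a - x) ^ 2 / s := by
      field_simp
      ring
    have h6 : 0 ≤ (s * a - x) ^ 2 / s := by positivity
    linarith
  exact h1.trans (h2.trans (mul_le_mul_of_nonneg_left h4 hC0))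

lemma k1A_measurable (h : Good E Ω u₁ u₂) {l ρ : ℝ → ℝ} (hl : ContDiff ℝ 1 l)
    (hρ : ContDiff ℝ 1 ρ) : Measurable (k1A E u₁ u₂ l ρ) := by
  have hNs : ContDiff ℝ 1 (NN u₁ u₂) := by
    exact_mod_cast contDiff_NN h.sol.smooth₁ h.sol.smooth₂ 1
  have h1 : Measurable (fun z => deriv l (NN u₁ u₂ z)) :=
    ((hl.continuous_deriv le_rfl).comp hNs.continuous).measurable
  have h2 : Measurable (fun z => dz (fun w => (NN u₁ u₂ w : ℂ)) z) := by
    have h3 : ContDiff ℝ 1 (fun w => (NN u₁ u₂ w : ℂ)) := Complex.ofRealCLM.contDiff.comp hNs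
    have hf := h3.continuous_fderiv (by norm_num)
    have hc : Continuous (fun z => dz (fun w => (NN u₁ u₂ w : ℂ)) z) := by
      unfold dz
      exact ((hf.clm_apply continuous_const).sub
        (continuous_const.mul (hf.clm_apply continuous_const))).div_const _
    exact hc.measurable
  have h3 : Measurable (fun z => ρ (cc u₁ u₂ z)) :=
    hρ.continuous.measurable.comp (measurable_cc h.sol.smooth₁ h.sol.smooth₂)
  have h4 : Measurable (xi E u₁ u₂) := measurable_xi h.sol.smooth₁ h.sol.smooth₂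
  unfold k1A
  exact (Complex.measurable_im.comp (((Complex.measurable_ofReal.comp h1).mul h2).mul
    ((Complex.measurable_ofReal.comp h3).mul h4))).const_mul 4

theorem K1 (h : Good E Ω u₁ u₂) {ρ : ℝ → ℝ} (hρ : ContDiff ℝ 1 ρ) {δ : ℝ} (hδ : 0 < δ)
    (h0 : ∀ t, |t| < δ → ρ t = 0) :
    ∫ z in Ω, ((1 - cc u₁ u₂ z ^ 2) * deriv ρ (cc u₁ u₂ z)
      - 2 * cc u₁ u₂ z * ρ (cc u₁ u₂ z)) * JJ E u₁ u₂ z = 0 := by
  change ∫ z in Ω, k1P E u₁ u₂ ρ z = 0
  have hccm : Measurable (cc u₁ u₂) := measurable_cc h.sol.smooth₁ h.sol.smooth₂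
  have hccI : ∀ z, cc u₁ u₂ z ∈ Icc (-1 : ℝ) 1 := fun z => abs_le.mp (abs_cc_le u₁ u₂ z)
  have hNc : Continuous (NN u₁ u₂) := (contDiff_NN h.sol.smooth₁ h.sol.smooth₂ 1).continuous
  -- bounds
  obtain ⟨C, hC⟩ := (isCompact_Icc (a := (-1 : ℝ)) (b := 1)).exists_bound_of_continuousOn
    hρ.continuous.continuousOn
  have hGc : Continuous (fun t : ℝ => (1 - t ^ 2) * deriv ρ t - 2 * t * ρ t) := by
    have := hρ.continuous_deriv le_rfl
    have := hρ.continuous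
    fun_prop
  obtain ⟨C', hC'⟩ := (isCompact_Icc (a := (-1 : ℝ)) (b := 1)).exists_bound_of_continuousOn
    hGc.continuousOn
  have hC0 : 0 ≤ C := (norm_nonneg _).trans (hC 0 (by norm_num))
  have hJ := integrable_JJ h
  have hP : IntegrableOn (k1P E u₁ u₂ ρ) Ω := by
    apply hJ.bdd_mul (c := C')
    · exact (hGc.measurable.comp hccm).aestronglyMeasurable
    · exact Filter.Eventually.of_forall fun z => hC' _ (hccI z)
  have hX := integrable_xi_sq h
  set X : ℝ := ∫ z in Ω, ‖xi E u₁ u₂ z‖ ^ 2 with hXdef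
  have hX0 : 0 ≤ X := integral_nonneg fun z => by positivity
  -- the cutoffs
  have hex : ∀ n : ℕ, ∃ l : ℝ → ℝ, ContDiff ℝ 1 l ∧ (∀ t, l t ∈ Icc (0 : ℝ) 1) ∧
      (∀ t ≥ 1 / ((n : ℝ) + 1) ^ 2, l t = 1) ∧
      |∫ z in Ω, l (NN u₁ u₂ z) * k1P E u₁ u₂ ρ z| ≤ C * (1 + X) / ((n : ℝ) + 1) := by
    intro n
    have hn : (0 : ℝ) < (n : ℝ) + 1 := by positivity
    obtain ⟨ε, hε, l, hl, hl01, hl0, hl1, hli, hlb⟩ :=
      exists_cutoff h (η := 1 / ((n : ℝ) + 1) ^ 2) (by positivity)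
    refine ⟨l, hl, hl01, hl1, ?_⟩
    have hb : ∀ z, |k1A E u₁ u₂ l ρ z| ≤ C * (((n : ℝ) + 1) *
        ((deriv l (NN u₁ u₂ z)) ^ 2 * gsq (NN u₁ u₂) z) + ‖xi E u₁ u₂ z‖ ^ 2 / ((n : ℝ) + 1)) :=
      fun z => k1_bound h hn z (hC _ (hccI z))
    have hbi : IntegrableOn (fun z => C * (((n : ℝ) + 1) *
        ((deriv l (NN u₁ u₂ z)) ^ 2 * gsq (NN u₁ u₂) z) +
          ‖xi E u₁ u₂ z‖ ^ 2 / ((n : ℝ) + 1))) Ω :=
      ((hli.const_mul _).add (hX.div_const _)).const_mul _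
    have hAi : IntegrableOn (k1A E u₁ u₂ l ρ) Ω := by
      apply Integrable.mono' hbi (k1A_measurable h hl hρ).aestronglyMeasurable
      exact Filter.Eventually.of_forall fun z => hb z
    have hlP : IntegrableOn (fun z => l (NN u₁ u₂ z) * k1P E u₁ u₂ ρ z) Ω := by
      apply hP.bdd_mul (c := 1)
      · exact (hl.continuous.comp hNc).measurable.aestronglyMeasurable
      · apply Filter.Eventually.of_forall
        intro z
        rw [Real.norm_eq_abs, abs_of_nonneg (hl01 _).1]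
        exact (hl01 _).2
    have h1 := k1_integral h hl hρ hε hl0 hδ h0
    rw [integral_sub hAi hlP] at h1
    have h2 : ∫ z in Ω, l (NN u₁ u₂ z) * k1P E u₁ u₂ ρ z = ∫ z in Ω, k1A E u₁ u₂ l ρ z := by
      linarith
    rw [h2]
    calc |∫ z in Ω, k1A E u₁ u₂ l ρ z|
        ≤ ∫ z in Ω, C * (((n : ℝ) + 1) *
            ((deriv l (NN u₁ u₂ z)) ^ 2 * gsq (NN u₁ u₂) z) +
            ‖xi E u₁ u₂ z‖ ^ 2 / ((n : ℝ) + 1)) := by
          rw [← Real.norm_eq_abs]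
          exact norm_integral_le_of_norm_le hbi (Filter.Eventually.of_forall fun z => hb z)
      _ = C * (((n : ℝ) + 1) * (∫ z in Ω, (deriv l (NN u₁ u₂ z)) ^ 2 * gsq (NN u₁ u₂) z) +
            X / ((n : ℝ) + 1)) := by
          rw [integral_const_mul, integral_add (hli.const_mul _) (hX.div_const _),
            integral_const_mul, integral_div]
      _ ≤ C * (((n : ℝ) + 1) * (1 / ((n : ℝ) + 1) ^ 2) + X / ((n : ℝ) + 1)) := by
          apply mul_le_mul_of_nonneg_left _ hC0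
          have := mul_le_mul_of_nonneg_left hlb hn.le
          linarith
      _ = C * (1 + X) / ((n : ℝ) + 1) := by
          field_simp
  choose l hl hl01 hl1 hlb using hex
  -- limits
  have hlim1 : Filter.Tendsto (fun n => ∫ z in Ω, l n (NN u₁ u₂ z) * k1P E u₁ u₂ ρ z)
      Filter.atTop (𝓝 0) := by
    rw [tendsto_zero_iff_abs_tendsto_zero]
    have h1 : Filter.Tendsto (fun n : ℕ => C * (1 + X) / ((n : ℝ) + 1)) Filter.atTop (𝓝 0) := by
      have := (tendsto_const_div_atTop_nhds_zero_nat (C * (1 + X))).comp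
        (Filter.tendsto_add_atTop_nat 1)
      refine this.congr fun n => ?_
      simp
    exact squeeze_zero (fun n => abs_nonneg _) hlb h1
  have hlim2 : Filter.Tendsto (fun n => ∫ z in Ω, l n (NN u₁ u₂ z) * k1P E u₁ u₂ ρ z)
      Filter.atTop (𝓝 (∫ z in Ω, k1P E u₁ u₂ ρ z)) := by
    apply tendsto_integral_of_dominated_convergence (fun z => ‖k1P E u₁ u₂ ρ z‖)
    · intro n
      exact (((hl n).continuous.comp hNc).measurable.aestronglyMeasurable).mul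
        hP.aestronglyMeasurable
    · exact hP.norm
    · intro n
      apply Filter.Eventually.of_forall
      intro z
      rw [norm_mul, Real.norm_eq_abs, abs_of_nonneg (hl01 n _).1]
      exact mul_le_of_le_one_left (norm_nonneg _) (hl01 n _).2
    · have hnull : ∀ᵐ z ∂(volume.restrict Ω), NN u₁ u₂ z ≠ 0 := by
        rw [ae_restrict_iff' h.sol.isOpen.measurableSet, ae_iff]
        convert h.null using 2
        ext z
        simp
      filter_upwards [hnull] with z hz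
      have hpos : 0 < NN u₁ u₂ z := lt_of_le_of_ne (k1_NN_nonneg u₁ u₂ z) (Ne.symm hz)
      have h1 : Filter.Tendsto (fun n : ℕ => 1 / ((n : ℝ) + 1) ^ 2) Filter.atTop (𝓝 0) := by
        have h2 := (tendsto_one_div_add_atTop_nhds_zero_nat (𝕜 := ℝ)).pow 2
        rw [zero_pow two_ne_zero] at h2
        refine h2.congr fun n => ?_
        rw [div_pow, one_pow]
      have h2 : ∀ᶠ n : ℕ in Filter.atTop, 1 / ((n : ℝ) + 1) ^ 2 < NN u₁ u₂ z :=
        h1.eventually_lt_const hpos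
      apply tendsto_const_nhds.congr'
      filter_upwards [h2] with n hn
      rw [hl1 n _ hn.le, one_mul]
  exact tendsto_nhds_unique hlim2 hlim1

end Pool.Agent.FK
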