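import Mathlib
import Pool.Agent.Helper99.FK.Defs

/-! FK-11: regular zeros of a smooth function form a null set -/

set_option autoImplicit false

open Complex MeasureTheory Set Metric
open scoped ComplexConjugate Topology

namespace Pool.Agent.FK

/-- A measurable set which meets each line of a fixed direction in a null set is null. -/
theorem null_of_lines {S : Set ℂ} (hS : MeasurableSet S) (v : ℂ)
    (h : ∀ z : ℂ, volume {t : ℝ | z + t • v ∈ S} = 0) : volume S = 0 := by
  let A : Set (ℂ × ℝ) := {p | p.1 + p.2 • v ∈ S}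
  have hA : MeasurableSet A := by
    have : Measurable (fun p : ℂ × ℝ => p.1 + p.2 • v) := by fun_prop
    exact this hS
  have h1 : (volume : Measure (ℂ × ℝ)) A = 0 := by
    rw [Measure.volume_eq_prod]
    refine Measure.measure_prod_null_of_ae_null hA (Filter.Eventually.of_forall fun z => ?_)
    exact h z
  have h2 : (volume.prod volume : Measure (ℝ × ℂ)) (Prod.swap ⁻¹' A) = 0 := by
    rw [(Measure.measurePreserving_swap (μ := (volume : Measure ℝ))
      (ν := (volume : Measure ℂ))).measure_preimage hA.nullMeasurableSet]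
    rw [← Measure.volume_eq_prod]
    exact h1
  have h3 := Measure.measure_ae_null_of_prod_null h2
  obtain ⟨t, ht⟩ := h3.exists
  have h4 : volume ((fun z : ℂ => z + t • v) ⁻¹' S) = 0 := ht
  rwa [measure_preimage_add_right] at h4

theorem null_regular {U : Set ℂ} (hU : IsOpen U) {h : ℂ → ℝ} (hh : ContDiffOn ℝ 1 h U) :
    volume {z | z ∈ U ∧ h z = 0 ∧ fderiv ℝ h z ≠ 0} = 0 := by
  have key : ∀ v : ℂ, volume {z | z ∈ U ∧ h z = 0 ∧ fderiv ℝ h z v ≠ 0} = 0 := by
    intro v
    have hc1 : ContinuousOn h U := hh.continuousOn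
    have hc2 : ContinuousOn (fun z => fderiv ℝ h z v) U :=
      (hh.continuousOn_fderiv_of_isOpen hU le_rfl).clm_apply continuousOn_const
    have o1 : IsOpen (U ∩ h ⁻¹' {0}ᶜ) := hc1.isOpen_inter_preimage hU isOpen_compl_singleton
    have o2 : IsOpen (U ∩ (fun z => fderiv ℝ h z v) ⁻¹' {0}ᶜ) :=
      hc2.isOpen_inter_preimage hU isOpen_compl_singleton
    have heq : {z | z ∈ U ∧ h z = 0 ∧ fderiv ℝ h z v ≠ 0} =
        (U ∩ (fun z => fderiv ℝ h z v) ⁻¹' {0}ᶜ) \ (U ∩ h ⁻¹' {0}ᶜ) := by
      ext z
      simp only [mem_setOf_eq, mem_diff, mem_inter_iff, mem_preimage, mem_compl_iff,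
        mem_singleton_iff]
      tauto
    have hm : MeasurableSet {z | z ∈ U ∧ h z = 0 ∧ fderiv ℝ h z v ≠ 0} := by
      rw [heq]
      exact o2.measurableSet.diff o1.measurableSet
    refine null_of_lines hm v fun z => ?_
    refine measure_null_of_locally_null _ fun t ht => ?_
    obtain ⟨h1, h2, h3⟩ := ht
    have hd : HasDerivAt (fun s : ℝ => h (z + s • v)) (fderiv ℝ h (z + t • v) v) t := by
      have hdiff : HasFDerivAt h (fderiv ℝ h (z + t • v)) (z + t • v) :=
        ((hh.differentiableOn one_ne_zero).differentiableAt (hU.mem_nhds h1)).hasFDerivAt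
      have hl : HasDerivAt (fun s : ℝ => z + s • v) v t := by
        have := ((hasDerivAt_id t).smul_const v).const_add z
        simpa using this
      exact hdiff.comp_hasDerivAt t hl
    have hne := hd.eventually_ne h3 (c := 0)
    refine ⟨{t}, ?_, by simp⟩
    rw [mem_nhdsWithin_iff_eventually]
    rw [eventually_nhdsWithin_iff] at hne
    filter_upwards [hne] with s hs hs'
    by_contra hcon
    exact hs hcon hs'.2.1
  have hsub : {z | z ∈ U ∧ h z = 0 ∧ fderiv ℝ h z ≠ 0} ⊆
      {z | z ∈ U ∧ h z = 0 ∧ fderiv ℝ h z 1 ≠ 0} ∪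
      {z | z ∈ U ∧ h z = 0 ∧ fderiv ℝ h z I ≠ 0} := by
    rintro z ⟨h1, h2, h3⟩
    by_contra hcon
    simp only [mem_union, mem_setOf_eq, h1, h2, true_and, not_or, not_not] at hcon
    apply h3
    ext w
    have : w = w.re • (1 : ℂ) + w.im • I := by
      apply Complex.ext <;> simp
    rw [this, map_add, map_smul, map_smul, hcon.1, hcon.2]
    simp
  exact measure_mono_null hsub (measure_union_null (key 1) (key I))

end Pool.Agent.FK
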