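import Mathlib

/-! FK-12a: the primitive needed for the curvature distribution -/

set_option autoImplicit false

open Complex MeasureTheory Set Metric
open scoped ComplexConjugate Topology

namespace Pool.Agent.FK

/-- the primitive needed for K1: for `g` continuous with `∫₀¹ g = 0`, zero near `0` and constant
near `1`, there is a `C¹` function `ρ` vanishing near `0` with
`(1 - c²) ρ' - 2 c ρ = - g(|c|)` on `[-1, 1]` -/
theorem exists_rho {g : ℝ → ℝ} (hg : Continuous g) {a b m : ℝ} (ha : 0 < a) (hb : b < 1)
    (h0 : ∀ t, t ≤ a → g t = 0) (h1 : ∀ t, b ≤ t → g t = m) (hi : ∫ t in (0 : ℝ)..1, g t = 0) :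
    ∃ ρ : ℝ → ℝ, ContDiff ℝ 1 ρ ∧ (∀ t, |t| < a → ρ t = 0) ∧
      ∀ c ∈ Icc (-1 : ℝ) 1, (1 - c ^ 2) * deriv ρ c - 2 * c * ρ c = - g |c| := by
  let G : ℝ → ℝ := fun c => - ∫ s in (0 : ℝ)..c, g |s|
  have hgc : Continuous (fun s : ℝ => g |s|) := hg.comp continuous_abs
  have hG : ∀ c, HasDerivAt G (- g |c|) c := by
    intro c
    exact (intervalIntegral.integral_hasDerivAt_right (hgc.intervalIntegrable _ _)
      (hgc.stronglyMeasurableAtFilter _ _) hgc.continuousAt).neg
  have hGd : ContDiff ℝ 1 G := by
    rw [contDiff_one_iff_deriv]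
    refine ⟨fun c => (hG c).differentiableAt, ?_⟩
    have : deriv G = fun c => - g |c| := funext fun c => (hG c).deriv
    rw [this]
    exact hgc.neg
  have hodd : ∀ c, G (-c) = - G c := by
    intro c
    have h2 := intervalIntegral.integral_comp_neg (a := 0) (b := c) (fun s => g |s|)
    simp only [abs_neg, neg_zero] at h2
    show - ∫ s in (0 : ℝ)..(-c), g |s| = - - ∫ s in (0 : ℝ)..c, g |s|
    rw [h2, intervalIntegral.integral_symm]
  have hG1 : ∀ c, b ≤ c → 0 ≤ c → G c = m * (1 - c) := by
    intro c hbc hc
    have e1 : ∫ s in (0 : ℝ)..1, g |s| = 0 := by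
      refine Eq.trans (intervalIntegral.integral_congr fun s hs => ?_) hi
      rw [uIcc_of_le zero_le_one] at hs
      simp only [abs_of_nonneg hs.1]
    have e2 : ∫ s in (1 : ℝ)..c, g |s| = m * (c - 1) := by
      have : ∫ s in (1 : ℝ)..c, g |s| = ∫ s in (1 : ℝ)..c, m := by
        refine intervalIntegral.integral_congr fun s hs => ?_
        have hs0 : 0 ≤ s := le_trans (le_min zero_le_one hc) hs.1
        have hsb : b ≤ s := le_trans (le_min hb.le hbc) hs.1
        simp only [abs_of_nonneg hs0]
        exact h1 s hsb
      rw [this, intervalIntegral.integral_const, smul_eq_mul, mul_comm]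
    show - ∫ s in (0 : ℝ)..c, g |s| = _
    rw [← intervalIntegral.integral_add_adjacent_intervals (hgc.intervalIntegrable 0 1)
      (hgc.intervalIntegrable 1 c), e1, e2]
    ring
  have hG2 : ∀ c, c ≤ -b → c ≤ 0 → G c = - (m * (1 + c)) := by
    intro c hbc hc
    have := hG1 (-c) (by linarith) (by linarith)
    rw [hodd] at this
    linarith
  let ρ : ℝ → ℝ := fun c => if |c| < 1 then G c / (1 - c ^ 2) else
    (if 0 < c then m / (1 + c) else - (m / (1 - c)))
  have hA : ∀ c, |c| < 1 → ρ c = G c / (1 - c ^ 2) := fun c hc => if_pos hc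
  have hpos : ∀ c : ℝ, |c| < 1 → 0 < 1 - c ^ 2 := by
    intro c hc
    have := (sq_lt_one_iff_abs_lt_one c).2 hc
    linarith
  have hB : ∀ c, b ≤ c → 0 < c → ρ c = m / (1 + c) := by
    intro c hbc hc
    by_cases h : |c| < 1
    · rw [hA c h, hG1 c hbc hc.le]
      have h2 := hpos c h
      have h3 : 0 < 1 + c := by linarith
      rw [div_eq_div_iff h2.ne' h3.ne']
      ring
    · show (if |c| < 1 then _ else _) = _
      rw [if_neg h, if_pos hc]
  have hB' : ∀ c, c ≤ -b → c < 0 → ρ c = - (m / (1 - c)) := by
    intro c hbc hc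
    by_cases h : |c| < 1
    · rw [hA c h, hG2 c hbc hc.le]
      have h2 := hpos c h
      have h3 : 0 < 1 - c := by linarith
      rw [neg_div, neg_inj, div_eq_div_iff h2.ne' h3.ne']
      ring
    · show (if |c| < 1 then _ else _) = _
      rw [if_neg h, if_neg (not_lt.2 hc.le)]
  have hid : ∀ c, (1 - c ^ 2) * ρ c = G c := by
    intro c
    by_cases h : |c| < 1
    · rw [hA c h, mul_div_cancel₀ _ (hpos c h).ne']
    · rcases lt_trichotomy c 0 with hc | hc | hc
      · rw [abs_of_neg hc, not_lt] at h
        rw [hB' c (by linarith) hc, hG2 c (by linarith) hc.le]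
        have h3 : (1 - c) ≠ 0 := by linarith
        field_simp
        ring
      · subst hc; simp at h
      · rw [abs_of_pos hc, not_lt] at h
        rw [hB c (by linarith) hc, hG1 c (by linarith) hc.le]
        have h3 : (1 + c) ≠ 0 := by linarith
        field_simp
        ring
  have hρ : ContDiff ℝ 1 ρ := by
    rw [contDiff_iff_contDiffAt]
    intro c
    by_cases h : |c| < 1
    · have hev : ρ =ᶠ[𝓝 c] fun c => G c / (1 - c ^ 2) := by
        filter_upwards [continuous_abs.continuousAt.eventually_lt continuousAt_const h] with x hx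
        exact hA x hx
      refine ContDiffAt.congr_of_eventuallyEq ?_ hev
      exact hGd.contDiffAt.div (by fun_prop) (hpos c h).ne'
    · rcases lt_trichotomy c 0 with hc | hc | hc
      · rw [abs_of_neg hc, not_lt] at h
        have hev : ρ =ᶠ[𝓝 c] fun c => - (m / (1 - c)) := by
          filter_upwards [eventually_lt_nhds (show c < -b by linarith),
            eventually_lt_nhds hc] with x hx hx'
          exact hB' x hx.le hx'
        refine ContDiffAt.congr_of_eventuallyEq ?_ hev
        exact (contDiffAt_const.div (by fun_prop) (by linarith)).neg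
      · subst hc; simp at h
      · rw [abs_of_pos hc, not_lt] at h
        have hev : ρ =ᶠ[𝓝 c] fun c => m / (1 + c) := by
          filter_upwards [eventually_gt_nhds (show b < c by linarith),
            eventually_gt_nhds hc] with x hx hx'
          exact hB x hx.le hx'
        refine ContDiffAt.congr_of_eventuallyEq ?_ hev
        exact contDiffAt_const.div (by fun_prop) (by linarith)
  refine ⟨ρ, hρ, ?_, ?_⟩
  · intro t ht
    by_cases h : |t| < 1
    · rw [hA t h]
      have : G t = 0 := by
        have e1 : ∫ s in (0 : ℝ)..t, g |s| = ∫ s in (0 : ℝ)..t, (0 : ℝ) := by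
          refine intervalIntegral.integral_congr fun s hs => ?_
          refine h0 _ ?_
          have : |s| ≤ |t| := by
            have := abs_sub_left_of_mem_uIcc hs
            simpa using this
          linarith
        show - ∫ s in (0 : ℝ)..t, g |s| = 0
        rw [e1]; simp
      rw [this, zero_div]
    · have hm : m = 0 := by
        rw [← h1 1 hb.le]
        exact h0 1 (by linarith [not_lt.1 h])
      show (if |t| < 1 then _ else _) = _
      rw [if_neg h, hm]
      simp
  · intro c _
    have hd : HasDerivAt ρ (deriv ρ c) c :=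
      (hρ.differentiable one_ne_zero).differentiableAt.hasDerivAt
    have h2 : HasDerivAt (fun x : ℝ => 1 - x ^ 2) (- (2 * c)) c := by
      have := ((hasDerivAt_id c).pow 2).const_sub 1
      simpa using this
    have h3 := h2.mul hd
    have h4 : (fun x : ℝ => 1 - x ^ 2) * ρ = G := by
      funext x; exact hid x
    rw [h4] at h3
    have h5 := h3.unique (hG c)
    linarith

end Pool.Agent.FK
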