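import Mathlib
import Pool.Agent.Helper99.FK.K1
import Pool.Agent.Helper99.FK.Null
import Pool.Agent.Helper99.FK.Rho

/-! FK-12b: curvature distribution -/

set_option autoImplicit false

open Complex MeasureTheory Set Metric
open scoped ComplexConjugate Topology

namespace Pool.Agent.FK

variable {E : ℝ} {Ω : Set ℂ} {u₁ u₂ : ℂ → ℂ}

/-- a continuous ramp: `0` for `t ≤ δ / 2`, `1` for `t ≥ δ` -/
noncomputable def k2eta (δ t : ℝ) : ℝ := max 0 (min 1 (2 * t / δ - 1))

theorem k2eta_cont (δ : ℝ) : Continuous (k2eta δ) := by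
  unfold k2eta
  fun_prop

theorem k2eta_nonneg (δ t : ℝ) : 0 ≤ k2eta δ t := le_max_left _ _

theorem k2eta_le (δ t : ℝ) : k2eta δ t ≤ 1 := max_le zero_le_one (min_le_left _ _)

theorem k2eta_zero {δ t : ℝ} (hδ : 0 < δ) (ht : t ≤ δ / 2) : k2eta δ t = 0 := by
  have h1 : 2 * t / δ - 1 ≤ 0 := by
    have : 2 * t / δ ≤ 1 := by rw [div_le_one hδ]; linarith
    linarith
  exact max_eq_left ((min_le_right _ _).trans h1)

theorem k2eta_one {δ t : ℝ} (hδ : 0 < δ) (ht : δ ≤ t) : k2eta δ t = 1 := by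
  have h1 : 1 ≤ 2 * t / δ - 1 := by
    have : 2 ≤ 2 * t / δ := by rw [le_div_iff₀ hδ]; linarith
    linarith
  unfold k2eta
  rw [min_eq_left h1]
  exact max_eq_right zero_le_one

/-- pointwise limit as the parameter tends to zero -/
theorem k2eta_tendsto {t : ℝ} (ht : 0 ≤ t) :
    Filter.Tendsto (fun n : ℕ => k2eta (1 / ((n : ℝ) + 2)) t) Filter.atTop
      (𝓝 (if t = 0 then 0 else 1)) := by
  by_cases h : t = 0
  · subst h
    simp only [if_true]
    refine tendsto_const_nhds.congr fun n => ?_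
    exact (k2eta_zero (by positivity) (by positivity)).symm
  · rw [if_neg h]
    have htp : 0 < t := lt_of_le_of_ne ht (Ne.symm h)
    have hlim : Filter.Tendsto (fun n : ℕ => 1 / ((n : ℝ) + 2)) Filter.atTop (𝓝 0) := by
      have h1 := (tendsto_one_div_add_atTop_nhds_zero_nat (𝕜 := ℝ)).comp
        (Filter.tendsto_add_atTop_nat 1)
      refine h1.congr fun n => ?_
      simp only [Function.comp]
      push_cast
      ring_nf
    refine tendsto_const_nhds.congr' ?_
    filter_upwards [hlim.eventually_lt_const htp] with n hn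
    exact (k2eta_one (by positivity) hn.le).symm

theorem k2eta_int_tendsto :
    Filter.Tendsto (fun n : ℕ => ∫ t in (0 : ℝ)..1, k2eta (1 / ((n : ℝ) + 2)) t) Filter.atTop
      (𝓝 1) := by
  have h1 : Filter.Tendsto (fun n : ℕ => ∫ t in (0 : ℝ)..1, k2eta (1 / ((n : ℝ) + 2)) t)
      Filter.atTop (𝓝 (∫ t in (0 : ℝ)..1, (1 : ℝ))) := by
    refine intervalIntegral.tendsto_integral_filter_of_dominated_convergence (fun _ => (1 : ℝ))
      (Filter.Eventually.of_forall fun n => (k2eta_cont _).aestronglyMeasurable)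
      (Filter.Eventually.of_forall fun n => Filter.Eventually.of_forall fun t _ => ?_)
      (by simp) (Filter.Eventually.of_forall fun t ht => ?_)
    · rw [Real.norm_eq_abs, abs_of_nonneg (k2eta_nonneg _ _)]
      exact k2eta_le _ _
    · rw [uIoc_of_le zero_le_one] at ht
      have := k2eta_tendsto ht.1.le
      rwa [if_neg ht.1.ne'] at this
  simpa using h1

/-- a function of `|c|` which is zero near zero and constant near one -/
theorem k2_test (h : Good E Ω u₁ u₂) {k : ℝ → ℝ} (hk : Continuous k) {a b : ℝ}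
    (ha : 0 < a) (hb : b < 1) (hs : ∀ t, t ∉ Icc a b → k t = 0) {δ : ℝ} (hδ : 0 < δ)
    (hδa : δ < a) (hδ1 : δ < 1) (hI : (∫ t in (0 : ℝ)..1, k2eta δ t) ≠ 0) :
    ∫ z in Ω, k |cc u₁ u₂ z| * JJ E u₁ u₂ z =
      (∫ t in (0 : ℝ)..1, k t) / (∫ t in (0 : ℝ)..1, k2eta δ t) *
        ∫ z in Ω, k2eta δ |cc u₁ u₂ z| * JJ E u₁ u₂ z := by
  set h1 := ∫ t in (0 : ℝ)..1, k t with hh1
  set I0 := ∫ t in (0 : ℝ)..1, k2eta δ t with hI0
  set g : ℝ → ℝ := fun t => h1 / I0 * k2eta δ t - k t with hg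
  have hgc : Continuous g := ((k2eta_cont δ).const_mul _).sub hk
  have hgi : ∫ t in (0 : ℝ)..1, g t = 0 := by
    simp only [hg]
    rw [intervalIntegral.integral_sub
      (((k2eta_cont δ).const_mul _).intervalIntegrable _ _) (hk.intervalIntegrable _ _),
      intervalIntegral.integral_const_mul, ← hI0, ← hh1, div_mul_cancel₀ _ hI, sub_self]
  obtain ⟨ρ, hρ, hρ0, hρe⟩ := exists_rho (g := g) (a := δ / 2) (b := max ((b + 1) / 2) δ)
    (m := h1 / I0) hgc (by positivity) (max_lt (by linarith) hδ1)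
    (fun t ht => by
      simp only [hg]
      rw [k2eta_zero hδ ht, hs t (fun hc => by linarith [hc.1])]
      ring)
    (fun t ht => by
      simp only [hg]
      have h1 : (b + 1) / 2 ≤ t := (le_max_left _ _).trans ht
      rw [k2eta_one hδ ((le_max_right _ _).trans ht), hs t (fun hc => by linarith [hc.2])]
      ring)
    hgi
  have hK := K1 h hρ (δ := δ / 2) (by positivity) hρ0
  have hpt : ∀ z ∈ Ω, ((1 - cc u₁ u₂ z ^ 2) * deriv ρ (cc u₁ u₂ z)
      - 2 * cc u₁ u₂ z * ρ (cc u₁ u₂ z)) * JJ E u₁ u₂ z =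
      k |cc u₁ u₂ z| * JJ E u₁ u₂ z - h1 / I0 * (k2eta δ |cc u₁ u₂ z| * JJ E u₁ u₂ z) := by
    intro z _
    rw [hρe _ (abs_le.1 (abs_cc_le u₁ u₂ z))]
    simp only [hg]
    ring
  have hJ := integrable_JJ h
  have hm := measurable_cc h.sol.smooth₁ h.sol.smooth₂
  have i1 : IntegrableOn (fun z => k |cc u₁ u₂ z| * JJ E u₁ u₂ z) Ω := by
    obtain ⟨C, hC⟩ := hk.bounded_above_of_compact_support
      (HasCompactSupport.intro isCompact_Icc hs)
    exact Integrable.bdd_mul (c := C) hJ (hk.measurable.comp hm.abs).aestronglyMeasurable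
      (Filter.Eventually.of_forall fun z => hC _)
  have i2 : IntegrableOn (fun z => k2eta δ |cc u₁ u₂ z| * JJ E u₁ u₂ z) Ω := by
    refine Integrable.bdd_mul (c := 1) hJ
      ((k2eta_cont δ).measurable.comp hm.abs).aestronglyMeasurable
      (Filter.Eventually.of_forall fun z => ?_)
    simp only [Function.comp, Real.norm_eq_abs]
    rw [abs_of_nonneg (k2eta_nonneg _ _)]
    exact k2eta_le _ _
  rw [setIntegral_congr_fun h.sol.isOpen.measurableSet hpt, integral_sub i1 (i2.const_mul _),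
    integral_const_mul] at hK
  linarith

/-- `J` vanishes almost everywhere on the zero set of `c` -/
theorem k2_null (h : Good E Ω u₁ u₂) :
    ∀ᵐ z ∂(volume.restrict Ω), cc u₁ u₂ z = 0 → JJ E u₁ u₂ z = 0 := by
  have hNc : Continuous (NN u₁ u₂) := (contDiff_NN h.sol.smooth₁ h.sol.smooth₂ 0).continuous
  have hU : IsOpen (Ω ∩ {z | NN u₁ u₂ z ≠ 0}) :=
    h.sol.isOpen.inter (isOpen_ne_fun hNc continuous_const)
  have h1 := null_regular hU (h := cc u₁ u₂) (fun z hz =>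
    (contDiffAt_cc h.sol.smooth₁ h.sol.smooth₂ hz.2 1).contDiffWithinAt)
  rw [ae_restrict_iff' h.sol.isOpen.measurableSet]
  filter_upwards [measure_eq_zero_iff_ae_notMem.1 h.null, measure_eq_zero_iff_ae_notMem.1 h1]
    with z hz1 hz2 hz hc
  have hN : NN u₁ u₂ z ≠ 0 := fun hN => hz1 ⟨hz, hN⟩
  have hd : fderiv ℝ (cc u₁ u₂) z = 0 := by
    by_contra hd
    exact hz2 ⟨⟨hz, hN⟩, hc, hd⟩
  exact JJ_eq_zero h.sol hz hN hc hd

theorem K2 (h : Good E Ω u₁ u₂) {k : ℝ → ℝ} (hk : Continuous k) (h0 : ∀ t, 0 ≤ k t) {a b : ℝ}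
    (ha : 0 < a) (hb : b < 1) (hs : ∀ t, t ∉ Icc a b → k t = 0) :
    2 * Real.pi * ∫ t in (0 : ℝ)..1, k t ≤ ∫ z in Ω, k |cc u₁ u₂ z| * JJ E u₁ u₂ z := by
  have hm := measurable_cc h.sol.smooth₁ h.sol.smooth₂
  have hJ := integrable_JJ h
  have t1 : Filter.Tendsto (fun n : ℕ => ∫ z in Ω,
      k2eta (1 / ((n : ℝ) + 2)) |cc u₁ u₂ z| * JJ E u₁ u₂ z) Filter.atTop
      (𝓝 (∫ z in Ω, JJ E u₁ u₂ z)) := by
    refine tendsto_integral_of_dominated_convergence (fun z => |JJ E u₁ u₂ z|)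
      (fun n => ((k2eta_cont _).measurable.comp hm.abs).aestronglyMeasurable.mul
        hJ.aestronglyMeasurable) hJ.abs
      (fun n => Filter.Eventually.of_forall fun z => ?_) ?_
    · rw [norm_mul, Real.norm_eq_abs, Real.norm_eq_abs, abs_of_nonneg (k2eta_nonneg _ _)]
      exact mul_le_of_le_one_left (abs_nonneg _) (k2eta_le _ _)
    · filter_upwards [k2_null h] with z hz
      have h1 := (k2eta_tendsto (abs_nonneg (cc u₁ u₂ z))).mul_const (JJ E u₁ u₂ z)
      by_cases hc : cc u₁ u₂ z = 0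
      · rw [hz hc]
        simp
      · rw [if_neg (abs_ne_zero.2 hc), one_mul] at h1
        exact h1
  have t2 : Filter.Tendsto (fun n : ℕ => (∫ t in (0 : ℝ)..1, k t) /
      (∫ t in (0 : ℝ)..1, k2eta (1 / ((n : ℝ) + 2)) t) *
        ∫ z in Ω, k2eta (1 / ((n : ℝ) + 2)) |cc u₁ u₂ z| * JJ E u₁ u₂ z) Filter.atTop
      (𝓝 ((∫ t in (0 : ℝ)..1, k t) / 1 * ∫ z in Ω, JJ E u₁ u₂ z)) :=
    (tendsto_const_nhds.div k2eta_int_tendsto one_ne_zero).mul t1
  have hlim : Filter.Tendsto (fun n : ℕ => 1 / ((n : ℝ) + 2)) Filter.atTop (𝓝 0) := by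
    have h1 := (tendsto_one_div_add_atTop_nhds_zero_nat (𝕜 := ℝ)).comp
      (Filter.tendsto_add_atTop_nat 1)
    refine h1.congr fun n => ?_
    simp only [Function.comp]
    push_cast
    ring_nf
  have t3 : ∫ z in Ω, k |cc u₁ u₂ z| * JJ E u₁ u₂ z =
      (∫ t in (0 : ℝ)..1, k t) / 1 * ∫ z in Ω, JJ E u₁ u₂ z := by
    refine tendsto_nhds_unique (tendsto_const_nhds.congr' ?_) t2
    filter_upwards [hlim.eventually_lt_const ha, hlim.eventually_lt_const one_pos,
      k2eta_int_tendsto.eventually_ne one_ne_zero] with n hn1 hn2 hn3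
    exact k2_test h hk ha hb hs (by positivity) hn1 hn2 hn3
  rw [t3, div_one]
  have h2 : 0 ≤ ∫ t in (0 : ℝ)..1, k t :=
    intervalIntegral.integral_nonneg zero_le_one fun t _ => h0 t
  calc 2 * Real.pi * ∫ t in (0 : ℝ)..1, k t = (∫ t in (0 : ℝ)..1, k t) * (2 * Real.pi) := by ring
    _ ≤ _ := mul_le_mul_of_nonneg_left h.total h2

end Pool.Agent.FK
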