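import Mathlib
import Pool.Agent.Helper99.FK.K2
import Pool.Agent.Helper99.FK.Iso2

/-! FK-14a: the differential inequality for the distribution function -/

set_option autoImplicit false

open Complex MeasureTheory Set Metric
open scoped ComplexConjugate Topology

namespace Pool.Agent.FK

variable {E X : ℝ} {Ω : Set ℂ} {u₁ u₂ : ℂ → ℂ}

/-- pointwise inequality: `E² T² ≥ 2 E (T - 1) |∇θ| + J` where `|∇θ| = |∇c| / √(1 - c²)` -/
theorem pointwise (h : Sol E Ω u₁ u₂) {z : ℂ} (hz : z ∈ Ω) (hN : NN u₁ u₂ z ≠ 0)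
    (hc : |cc u₁ u₂ z| < 1) (T : ℝ) :
    2 * E * (T - 1) * (Real.sqrt (gsq (cc u₁ u₂) z) / Real.sqrt (1 - cc u₁ u₂ z ^ 2))
      + JJ E u₁ u₂ z ≤ E ^ 2 * T ^ 2 := by
  have h1 := grad_ineq h hz hN
  have hg : 0 ≤ gsq (cc u₁ u₂) z := by unfold gsq; positivity
  have hD : 0 < 1 - cc u₁ u₂ z ^ 2 := by
    have := (sq_lt_one_iff_abs_lt_one (cc u₁ u₂ z)).2 hc
    linarith
  set D := 1 - cc u₁ u₂ z ^ 2 with hDdef
  set g := gsq (cc u₁ u₂) z with hgdef
  set J := JJ E u₁ u₂ z with hJ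
  have hsD : 0 < Real.sqrt D := Real.sqrt_pos.2 hD
  set G := Real.sqrt g / Real.sqrt D with hG
  have hG1 : Real.sqrt g = G * Real.sqrt D := by rw [hG]; field_simp
  have hG2 : g = G ^ 2 * D := by
    have e1 : g = Real.sqrt g ^ 2 := (Real.sq_sqrt hg).symm
    rw [e1, hG1, mul_pow, Real.sq_sqrt hD.le]
  have h2 : D * (G ^ 2 + J) ≤ D * (2 * E * G) := by
    have e : 2 * E * Real.sqrt D * Real.sqrt g = D * (2 * E * G) := by
      rw [hG1]
      have : Real.sqrt D * Real.sqrt D = D := Real.mul_self_sqrt hD.le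
      calc 2 * E * Real.sqrt D * (G * Real.sqrt D) = 2 * E * G * (Real.sqrt D * Real.sqrt D) := by
            ring
        _ = D * (2 * E * G) := by rw [this]; ring
    rw [e] at h1
    calc D * (G ^ 2 + J) = g + D * J := by rw [hG2]; ring
      _ ≤ _ := h1
  have h3 : G ^ 2 + J ≤ 2 * E * G := le_of_mul_le_mul_left h2 hD
  nlinarith [sq_nonneg (E * T - G)]

section profile

variable {xs : ℝ → ℝ}

theorem m1_TT_cont (hX : Profile X) : ContinuousOn TT (Ioo 0 X) := by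
  unfold TT
  refine continuousOn_const.sub (ContinuousOn.div (hX.sn_cont.mono Ioo_subset_Icc_self)
    continuousOn_id (fun x hx => hx.1.ne'))

theorem m1_anti (hX : Profile X) : StrictAntiOn cs (Icc 0 X) := by
  refine strictAntiOn_of_deriv_neg (convex_Icc 0 X) hX.cs_cont fun x hx => ?_
  rw [interior_Icc] at hx
  rw [(hX.deriv x hx).deriv]
  have h1 := hX.sn_pos x hx
  have h2 := hX.T_ge x ⟨hx.1, hx.2.le⟩
  have : 0 < sn x * TT x := by positivity
  linarith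

theorem m1_xs_cont (hX : Profile X) (hxs' : ∀ r ∈ Ioo (0 : ℝ) 1,
    xs r ∈ Ioo (0 : ℝ) X ∧ cs (xs r) = r) {r : ℝ} (hr : r ∈ Ioo (0 : ℝ) 1) :
    ContinuousAt xs r := by
  have hanti := m1_anti hX
  obtain ⟨hx, hcx⟩ := hxs' r hr
  have hev : ∀ᶠ r' in 𝓝 r, r' ∈ Ioo (0 : ℝ) 1 := isOpen_Ioo.mem_nhds hr
  refine tendsto_order.2 ⟨fun a' ha' => ?_, fun a' ha' => ?_⟩
  · have h1 : max a' (xs r / 2) < xs r := max_lt ha' (by linarith [hx.1])
    have h2 : 0 < max a' (xs r / 2) := lt_max_of_lt_right (by linarith [hx.1])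
    have h3 : max a' (xs r / 2) ∈ Icc 0 X := ⟨h2.le, (h1.trans hx.2).le⟩
    have h4 : r < cs (max a' (xs r / 2)) := by
      rw [← hcx]
      exact hanti (by rw [hcx]; exact h3) ⟨hx.1.le, hx.2.le⟩ (by rw [hcx]; exact h1)
    filter_upwards [hev, eventually_lt_nhds h4] with r' hr' hr''
    obtain ⟨hx', hcx'⟩ := hxs' r' hr'
    by_contra hcon
    have h5 : xs r' ≤ max a' (xs r / 2) := le_trans (not_lt.1 hcon) (le_max_left _ _)
    have h6 := hanti.antitoneOn ⟨hx'.1.le, hx'.2.le⟩ h3 h5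
    rw [hcx'] at h6
    linarith
  · have h1 : xs r < min a' ((xs r + X) / 2) := lt_min ha' (by linarith [hx.2])
    have h2 : min a' ((xs r + X) / 2) < X := min_lt_of_right_lt (by linarith [hx.2])
    have h3 : min a' ((xs r + X) / 2) ∈ Icc 0 X := ⟨(hx.1.trans h1).le, h2.le⟩
    have h4 : cs (min a' ((xs r + X) / 2)) < r := by
      have := hanti ⟨hx.1.le, hx.2.le⟩ h3 h1
      rwa [hcx] at this
    filter_upwards [hev, eventually_gt_nhds h4] with r' hr' hr''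
    obtain ⟨hx', hcx'⟩ := hxs' r' hr'
    by_contra hcon
    have h5 : min a' ((xs r + X) / 2) ≤ xs r' := le_trans (min_le_left _ _) (not_lt.1 hcon)
    have h6 := hanti.antitoneOn h3 ⟨hx'.1.le, hx'.2.le⟩ h5
    rw [hcx'] at h6
    linarith

/-- a function of `x` as a function of `r = cs x` -/
theorem m1_cont (hX : Profile X) (hxs' : ∀ r ∈ Ioo (0 : ℝ) 1,
    xs r ∈ Ioo (0 : ℝ) X ∧ cs (xs r) = r) {F : ℝ → ℝ} (hF : ContinuousOn F (Ioo 0 X))
    {a b : ℝ} (ha : 0 < a) (hab : a ≤ b) (hb : b < X) (hs : ∀ t, t ∉ Icc a b → F t = 0) :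
    (∀ r, r ∉ Icc (cs b) (cs a) → (Ioo (0 : ℝ) 1).indicator (fun r => F (xs r)) r = 0) ∧
    Continuous (fun r => (Ioo (0 : ℝ) 1).indicator (fun r => F (xs r)) r) := by
  have hanti := (m1_anti hX).antitoneOn
  have haI : a ∈ Icc 0 X := ⟨ha.le, hab.trans hb.le⟩
  have hbI : b ∈ Icc 0 X := ⟨ha.le.trans hab, hb.le⟩
  have h0 : ∀ r, r ∉ Icc (cs b) (cs a) →
      (Ioo (0 : ℝ) 1).indicator (fun r => F (xs r)) r = 0 := by
    intro r hr
    by_cases hr1 : r ∈ Ioo (0 : ℝ) 1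
    · rw [indicator_of_mem hr1]
      apply hs
      intro hx
      apply hr
      obtain ⟨hx1, hx2⟩ := hxs' r hr1
      rw [← hx2]
      exact ⟨hanti ⟨hx1.1.le, hx1.2.le⟩ hbI hx.2, hanti haI ⟨hx1.1.le, hx1.2.le⟩ hx.1⟩
    · rw [indicator_of_notMem hr1]
  refine ⟨h0, continuous_iff_continuousAt.2 fun r => ?_⟩
  by_cases hr : r ∈ Icc (cs b) (cs a)
  · have hr1 : r ∈ Ioo (0 : ℝ) 1 :=
      ⟨(hX.cs_mem b ⟨ha.trans_le hab, hb⟩).1.trans_le hr.1,
        hr.2.trans_lt (hX.cs_mem a ⟨ha, hab.trans_lt hb⟩).2⟩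
    have hev : (fun r => (Ioo (0 : ℝ) 1).indicator (fun r => F (xs r)) r) =ᶠ[𝓝 r]
        (fun r => F (xs r)) := by
      filter_upwards [isOpen_Ioo.mem_nhds hr1] with r' hr'
      exact indicator_of_mem hr' _
    refine ContinuousAt.congr ?_ hev.symm
    exact ContinuousAt.comp (hF.continuousAt (isOpen_Ioo.mem_nhds (hxs' r hr1).1))
      (m1_xs_cont hX hxs' hr1)
  · have hev : (fun r => (Ioo (0 : ℝ) 1).indicator (fun r => F (xs r)) r) =ᶠ[𝓝 r]
        (fun _ => (0 : ℝ)) := by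
      filter_upwards [isClosed_Icc.isOpen_compl.mem_nhds hr] with r' hr'
      exact h0 r' hr'
    exact continuousAt_const.congr hev.symm

/-- substitution `r = cs x` -/
theorem m1_subst (hX : Profile X) (hxs : ∀ x ∈ Ioo (0 : ℝ) X, xs (cs x) = x)
    (hxs' : ∀ r ∈ Ioo (0 : ℝ) 1, xs r ∈ Ioo (0 : ℝ) X ∧ cs (xs r) = r) (F B : ℝ → ℝ) :
    ∫ t in (0 : ℝ)..1, (Ioo (0 : ℝ) 1).indicator (fun r => F (xs r)) t * B t =
      ∫ x in Ioo (0 : ℝ) X, sn x * TT x * (F x * B (cs x)) := by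
  have himg : cs '' Ioo 0 X = Ioo 0 1 := by
    ext r
    constructor
    · rintro ⟨x, hx, rfl⟩
      exact hX.cs_mem x hx
    · intro hr
      exact ⟨xs r, (hxs' r hr).1, (hxs' r hr).2⟩
  have hinj : InjOn cs (Ioo 0 X) := (m1_anti hX).injOn.mono Ioo_subset_Icc_self
  rw [intervalIntegral.integral_of_le zero_le_one, integral_Ioc_eq_integral_Ioo, ← himg,
    integral_image_eq_integral_abs_deriv_smul measurableSet_Ioo
      (fun x hx => (hX.deriv x hx).hasDerivWithinAt) hinj]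
  refine setIntegral_congr_fun measurableSet_Ioo fun x hx => ?_
  have h1 := hX.sn_pos x hx
  have h2 := hX.T_ge x ⟨hx.1, hx.2.le⟩
  have h3 : 0 < sn x * TT x := by positivity
  have h4 : cs x ∈ cs '' Ioo 0 X := ⟨x, hx, rfl⟩
  simp only [abs_neg, abs_of_pos h3, indicator_of_mem h4, hxs x hx, smul_eq_mul]

theorem m1_nonneg (hxs' : ∀ r ∈ Ioo (0 : ℝ) 1,
    xs r ∈ Ioo (0 : ℝ) X ∧ cs (xs r) = r) {F : ℝ → ℝ} (hF : ∀ x ∈ Ioo 0 X, 0 ≤ F x) (r : ℝ) :
    0 ≤ (Ioo (0 : ℝ) 1).indicator (fun r => F (xs r)) r := by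
  by_cases hr : r ∈ Ioo (0 : ℝ) 1
  · rw [indicator_of_mem hr]; exact hF _ (hxs' r hr).1
  · rw [indicator_of_notMem hr]

theorem m1_sn (x : ℝ) (hx : x ≠ 0) : sn x = (2 - TT x) * x := by
  unfold TT
  field_simp
  ring

/-- a continuous function of `|c|` is measurable -/
theorem m1_meas (h : Good E Ω u₁ u₂) {k : ℝ → ℝ} (hk : Continuous k) :
    Measurable (fun z => k |cc u₁ u₂ z|) :=
  hk.measurable.comp (measurable_cc h.sol.smooth₁ h.sol.smooth₂).abs

theorem m1_bdd {k : ℝ → ℝ} (hk : Continuous k) {a b : ℝ} (h0 : ∀ r, r ∉ Icc a b → k r = 0) :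
    ∃ C, ∀ r, ‖k r‖ ≤ C :=
  hk.bounded_above_of_compact_support (HasCompactSupport.intro isCompact_Icc h0)

theorem m1_int (h : Good E Ω u₁ u₂) {k : ℝ → ℝ} (hk : Continuous k) {a b : ℝ}
    (h0 : ∀ r, r ∉ Icc a b → k r = 0) {g : ℂ → ℝ} (hg : IntegrableOn g Ω) :
    IntegrableOn (fun z => k |cc u₁ u₂ z| * g z) Ω := by
  obtain ⟨C, hC⟩ := m1_bdd hk h0
  exact Integrable.bdd_mul (c := C) hg (m1_meas h hk).aestronglyMeasurable
    (Filter.Eventually.of_forall fun z => hC _)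

theorem m1_bb_mono (h : Good E Ω u₁ u₂) (hX : Profile X) :
    MonotoneOn (fun x => Real.sqrt (bb Ω u₁ u₂ x)) (Icc 0 X) := by
  intro x hx y hy hxy
  apply Real.sqrt_le_sqrt
  unfold bb
  apply ENNReal.toReal_mono
  · exact (lt_of_le_of_lt (measure_mono fun z hz => hz.1) h.bdd.measure_lt_top).ne
  · apply measure_mono
    rintro z ⟨h1, h2⟩
    exact ⟨h1, lt_of_le_of_lt ((m1_anti hX).antitoneOn hx hy hxy) h2⟩

end profile

/-- tested version of the inequality in the variable `x` of the disc profile -/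
theorem meas_test (h : Good E Ω u₁ u₂) (hX : Profile X) {w : ℝ → ℝ} (hw : Continuous w)
    (h0 : ∀ t, 0 ≤ w t) {a b : ℝ} (ha : 0 < a) (hab : a ≤ b) (hb : b < X)
    (hs : ∀ t, t ∉ Icc a b → w t = 0) {xs : ℝ → ℝ}
    (hxs : ∀ x ∈ Ioo (0 : ℝ) X, xs (cs x) = x) (hxs' : ∀ r ∈ Ioo (0 : ℝ) 1,
      xs r ∈ Ioo (0 : ℝ) X ∧ cs (xs r) = r) :
    ∫ x in (0 : ℝ)..X, w x * ((4 * Real.sqrt Real.pi * E * (TT x - 1) * Real.sqrt (bb Ω u₁ u₂ x)
        + 2 * Real.pi * (2 - TT x) * x) / TT x)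
      ≤ E ^ 2 * ∫ z in Ω, (Ioo (0 : ℝ) 1).indicator (fun r => w (xs r)) |cc u₁ u₂ z| := by
  have hE := h.sol.pos
  have hTc := m1_TT_cont hX
  have hsc : ContinuousOn sn (Ioo 0 X) := hX.sn_cont.mono Ioo_subset_Icc_self
  have hT1 : ∀ x ∈ Ioo 0 X, 1 ≤ TT x := fun x hx => hX.T_ge x ⟨hx.1, hx.2.le⟩
  have hT0 : ∀ x ∈ Ioo 0 X, 0 < TT x := fun x hx => lt_of_lt_of_le one_pos (hT1 x hx)
  have hs0 : ∀ x ∈ Ioo 0 X, 0 < sn x := hX.sn_pos
  set F1 : ℝ → ℝ := fun x => w x * (2 * E * (TT x - 1) / (TT x ^ 2 * sn x)) with hF1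
  set F2 : ℝ → ℝ := fun x => w x * (1 / TT x ^ 2) with hF2
  have hF1c : ContinuousOn F1 (Ioo 0 X) := by
    refine hw.continuousOn.mul (ContinuousOn.div (by fun_prop) (by fun_prop) fun x hx => ?_)
    have h1 := hT0 x hx
    have h2 := hs0 x hx
    positivity
  have hF2c : ContinuousOn F2 (Ioo 0 X) := by
    refine hw.continuousOn.mul (ContinuousOn.div (by fun_prop) (by fun_prop) fun x hx => ?_)
    have h1 := hT0 x hx
    positivity
  have hF1n : ∀ x ∈ Ioo 0 X, 0 ≤ F1 x := by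
    intro x hx
    have h1 := hT0 x hx
    have h2 := hs0 x hx
    have h3 := hT1 x hx
    refine mul_nonneg (h0 x) (div_nonneg (mul_nonneg (by positivity) (by linarith)) (by positivity))
  have hF2n : ∀ x ∈ Ioo 0 X, 0 ≤ F2 x := by
    intro x hx
    exact mul_nonneg (h0 x) (by positivity)
  have hF1s : ∀ t, t ∉ Icc a b → F1 t = 0 := by
    intro t ht
    simp only [hF1, hs t ht, zero_mul]
  have hF2s : ∀ t, t ∉ Icc a b → F2 t = 0 := by
    intro t ht
    simp only [hF2, hs t ht, zero_mul]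
  set k1 : ℝ → ℝ := fun r => (Ioo (0 : ℝ) 1).indicator (fun r => F1 (xs r)) r with hk1
  set k2 : ℝ → ℝ := fun r => (Ioo (0 : ℝ) 1).indicator (fun r => F2 (xs r)) r with hk2
  set κ : ℝ → ℝ := fun r => (Ioo (0 : ℝ) 1).indicator (fun r => w (xs r)) r with hκ
  obtain ⟨k1s, k1c⟩ := m1_cont hX hxs' hF1c ha hab hb hF1s
  obtain ⟨k2s, k2c⟩ := m1_cont hX hxs' hF2c ha hab hb hF2s
  obtain ⟨κs, κc⟩ := m1_cont hX hxs' hw.continuousOn ha hab hb hs
  have haI : a ∈ Ioo 0 X := ⟨ha, hab.trans_lt hb⟩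
  have hbI : b ∈ Ioo 0 X := ⟨ha.trans_le hab, hb⟩
  have hcb : 0 < cs b := (hX.cs_mem b hbI).1
  have hca : cs a < 1 := (hX.cs_mem a haI).2
  have e1 := iso2 h k1c (m1_nonneg hxs' hF1n) hcb hca k1s
  have e2 := K2 h k2c (m1_nonneg hxs' hF2n) hcb hca k2s
  have i1 := m1_int h k1c k1s (integrable_grad h)
  have i2 := m1_int h k2c k2s (integrable_JJ h)
  have i3 : IntegrableOn (fun z => E ^ 2 * κ |cc u₁ u₂ z|) Ω := by
    obtain ⟨C, hC⟩ := m1_bdd κc κs
    refine Integrable.const_mul ?_ _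
    exact Measure.integrableOn_of_bounded (M := C) h.bdd.measure_lt_top.ne
      (m1_meas h κc).aestronglyMeasurable (Filter.Eventually.of_forall fun z => hC _)
  have e3 : ∫ z in Ω, (k1 |cc u₁ u₂ z| * Real.sqrt (gsq (cc u₁ u₂) z)
      + k2 |cc u₁ u₂ z| * JJ E u₁ u₂ z) ≤ ∫ z in Ω, E ^ 2 * κ |cc u₁ u₂ z| := by
    refine integral_mono_ae (i1.add i2) i3 ?_
    have hnull : ∀ᵐ z ∂(volume.restrict Ω), NN u₁ u₂ z ≠ 0 := by
      rw [ae_restrict_iff' h.sol.isOpen.measurableSet]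
      have : ∀ᵐ z ∂(volume : Measure ℂ), z ∉ {z | z ∈ Ω ∧ NN u₁ u₂ z = 0} :=
        measure_eq_zero_iff_ae_notMem.1 h.null
      filter_upwards [this] with z hz hzΩ hN
      exact hz ⟨hzΩ, hN⟩
    filter_upwards [hnull, ae_restrict_mem h.sol.isOpen.measurableSet] with z hN hz
    by_cases hr : |cc u₁ u₂ z| ∈ Ioo (0 : ℝ) 1
    · simp only [hk1, hk2, hκ, indicator_of_mem hr]
      obtain ⟨hx, hcx⟩ := hxs' _ hr
      set x := xs |cc u₁ u₂ z| with hxdef
      have hp := pointwise h.sol hz hN hr.2 (TT x)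
      have hsq : Real.sqrt (1 - cc u₁ u₂ z ^ 2) = sn x := by
        have h1 := hX.sq x ⟨hx.1.le, hx.2.le⟩
        rw [hcx, sq_abs] at h1
        rw [← h1, add_sub_cancel_left, Real.sqrt_sq (hs0 x hx).le]
      rw [hsq] at hp
      have h1 := hT0 x hx
      have h2 := hs0 x hx
      have h3 : F1 x * Real.sqrt (gsq (cc u₁ u₂) z) + F2 x * JJ E u₁ u₂ z =
          w x / TT x ^ 2 * (2 * E * (TT x - 1) * (Real.sqrt (gsq (cc u₁ u₂) z) / sn x)
            + JJ E u₁ u₂ z) := by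
        simp only [hF1, hF2]
        field_simp
      have h4 : E ^ 2 * w x = w x / TT x ^ 2 * (E ^ 2 * TT x ^ 2) := by
        field_simp
      rw [h3, h4]
      exact mul_le_mul_of_nonneg_left hp (div_nonneg (h0 x) (by positivity))
    · simp only [hk1, hk2, hκ, indicator_of_notMem hr]
      simp
  rw [integral_add i1 i2, integral_const_mul] at e3
  have s1 := m1_subst hX hxs hxs' F1
    (fun t => Real.sqrt (volume {z | z ∈ Ω ∧ t < |cc u₁ u₂ z|}).toReal)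
  have s2 := m1_subst hX hxs hxs' F2 (fun _ => 1)
  simp only [mul_one] at s2
  change ∫ t in (0 : ℝ)..1, k1 t * _ = _ at s1
  change ∫ t in (0 : ℝ)..1, k2 t = _ at s2
  rw [s1] at e1
  rw [s2] at e2
  refine le_trans (le_of_eq ?_) ((add_le_add e1 e2).trans e3)
  have hsplit : ∀ x ∈ Ioo 0 X, w x * ((4 * Real.sqrt Real.pi * E * (TT x - 1) *
        Real.sqrt (bb Ω u₁ u₂ x) + 2 * Real.pi * (2 - TT x) * x) / TT x) =
      2 * Real.sqrt Real.pi * (sn x * TT x * (F1 x * Real.sqrt (bb Ω u₁ u₂ x))) +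
      2 * Real.pi * (sn x * TT x * F2 x) := by
    intro x hx
    have h1 := hT0 x hx
    have h2 := hs0 x hx
    have h3 := m1_sn x hx.1.ne'
    simp only [hF1, hF2]
    have e : 2 * Real.pi * (2 - TT x) * x = 2 * Real.pi * sn x := by rw [h3]; ring
    rw [e]
    field_simp
    ring
  rw [intervalIntegral.integral_of_le hX.pos.le, integral_Ioc_eq_integral_Ioo,
    setIntegral_congr_fun measurableSet_Ioo hsplit, integral_add, integral_const_mul,
    integral_const_mul]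
  · rfl
  · refine Integrable.const_mul ?_ _
    have hm : MonotoneOn (fun x => Real.sqrt (bb Ω u₁ u₂ x)) (Icc a b) :=
      (m1_bb_mono h hX).mono (Icc_subset_Icc ha.le hb.le)
    have hi : IntegrableOn (fun x => Real.sqrt (bb Ω u₁ u₂ x) * (sn x * TT x * F1 x)) (Icc a b) := by
      refine IntegrableOn.mul_continuousOn (hm.integrableOn_isCompact isCompact_Icc) ?_ isCompact_Icc
      exact ((hsc.mul hTc).mul hF1c).mono fun x hx => ⟨ha.trans_le hx.1, hx.2.trans_lt hb⟩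
    have hi2 : IntegrableOn (fun x => sn x * TT x * (F1 x * Real.sqrt (bb Ω u₁ u₂ x)))
        (Icc a b) := by
      refine hi.congr_fun (fun x _ => ?_) measurableSet_Icc
      simp only []
      ring
    refine hi2.of_forall_sdiff_eq_zero measurableSet_Ioo fun x hx => ?_
    rw [hF1s x hx.2]
    ring
  · refine Integrable.const_mul ?_ _
    have hi : IntegrableOn (fun x => sn x * TT x * F2 x) (Icc a b) := by
      refine ContinuousOn.integrableOn_compact isCompact_Icc ?_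
      exact ((hsc.mul hTc).mul hF2c).mono fun x hx => ⟨ha.trans_le hx.1, hx.2.trans_lt hb⟩
    refine hi.of_forall_sdiff_eq_zero measurableSet_Ioo fun x hx => ?_
    rw [hF2s x hx.2]
    ring

end Pool.Agent.FK
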