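import Mathlib
import Pool.Agent.Helper99.FK.Meas1

/-! FK-14b: the integral inequality for the distribution function -/

set_option autoImplicit false

open Complex MeasureTheory Set Metric
open scoped ComplexConjugate Topology

namespace Pool.Agent.FK

variable {E X : ℝ} {Ω : Set ℂ} {u₁ u₂ : ℂ → ℂ}

theorem cs_strictAnti (hX : Profile X) : StrictAntiOn cs (Icc 0 X) := by
  apply strictAntiOn_of_deriv_neg (convex_Icc 0 X) hX.cs_cont
  intro x hx
  rw [interior_Icc] at hx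
  rw [(hX.deriv x hx).deriv]
  have h1 := hX.sn_pos x hx
  have h2 := hX.T_ge x ⟨hx.1, hx.2.le⟩
  nlinarith

theorem exists_xs (hX : Profile X) : ∃ xs : ℝ → ℝ, (∀ x ∈ Ioo (0 : ℝ) X, xs (cs x) = x) ∧
    ∀ r ∈ Ioo (0 : ℝ) 1, xs r ∈ Ioo (0 : ℝ) X ∧ cs (xs r) = r := by
  have hex : ∀ r ∈ Ioo (0 : ℝ) 1, ∃ x ∈ Ioo (0 : ℝ) X, cs x = r := by
    intro r hr
    have hI := intermediate_value_Icc' hX.pos.le hX.cs_cont
    obtain ⟨x, hx, hxr⟩ := hI (show r ∈ Icc (cs X) (cs 0) by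
      rw [hX.cs_X, hX.cs_zero]; exact ⟨hr.1.le, hr.2.le⟩)
    refine ⟨x, ⟨lt_of_le_of_ne hx.1 ?_, lt_of_le_of_ne hx.2 ?_⟩, hxr⟩
    · rintro rfl
      rw [hX.cs_zero] at hxr
      exact absurd hxr.symm hr.2.ne
    · rintro rfl
      rw [hX.cs_X] at hxr
      exact absurd hxr hr.1.ne
  choose! xs h1 h2 using hex
  refine ⟨xs, fun x hx => ?_, fun r hr => ⟨h1 r hr, h2 r hr⟩⟩
  have hm := hX.cs_mem x hx
  exact (cs_strictAnti hX).injOn ⟨(h1 _ hm).1.le, (h1 _ hm).2.le⟩ ⟨hx.1.le, hx.2.le⟩ (h2 _ hm)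

/-- The integrand. -/
noncomputable def phiM (E : ℝ) (Ω : Set ℂ) (u₁ u₂ : ℂ → ℂ) (x : ℝ) : ℝ :=
  (4 * Real.sqrt Real.pi * E * (TT x - 1) * Real.sqrt (bb Ω u₁ u₂ x)
    + 2 * Real.pi * (2 - TT x) * x) / TT x

theorem volume_ne_top (h : Good E Ω u₁ u₂) (S : Set ℂ) (hS : S ⊆ Ω) : volume S ≠ ⊤ :=
  ((measure_mono hS).trans_lt h.bdd.measure_lt_top).ne

theorem bb_mono (h : Good E Ω u₁ u₂) (hX : Profile X) : MonotoneOn (bb Ω u₁ u₂) (Icc 0 X) := by
  intro x hx y hy hxy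
  unfold bb
  apply ENNReal.toReal_mono (volume_ne_top h _ (fun z hz => hz.1))
  apply measure_mono
  intro z hz
  exact ⟨hz.1, ((cs_strictAnti hX).antitoneOn hx hy hxy).trans_lt hz.2⟩

theorem bb_le (h : Good E Ω u₁ u₂) (x : ℝ) : bb Ω u₁ u₂ x ≤ (volume Ω).toReal := by
  unfold bb
  exact ENNReal.toReal_mono (volume_ne_top h _ le_rfl) (measure_mono (fun z hz => hz.1))

theorem phiM_nonneg (h : Good E Ω u₁ u₂) (hX : Profile X) {x : ℝ} (hx : x ∈ Ioc (0 : ℝ) X) :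
    0 ≤ phiM E Ω u₁ u₂ x := by
  have h1 := hX.T_ge x hx
  have h2 := hX.T_lt x hx
  have hE := h.sol.pos
  have hx0 := hx.1
  have hp := Real.pi_pos
  unfold phiM
  have e1 : 0 ≤ TT x - 1 := by linarith
  have e2 : 0 ≤ 2 - TT x := by linarith
  have e3 : 0 ≤ TT x := by linarith
  positivity

theorem phiM_le (h : Good E Ω u₁ u₂) (hX : Profile X) {x : ℝ} (hx : x ∈ Ioc (0 : ℝ) X) :
    phiM E Ω u₁ u₂ x ≤ 4 * Real.sqrt Real.pi * E * Real.sqrt (volume Ω).toReal +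
      2 * Real.pi * X := by
  have h1 := hX.T_ge x hx
  have h2 := hX.T_lt x hx
  have hE := h.sol.pos
  have hx0 := hx.1
  have hp := Real.pi_pos
  have e1 : 0 ≤ TT x - 1 := by linarith
  have e2 : 0 ≤ 2 - TT x := by linarith
  have e3 : 0 ≤ TT x := by linarith
  have e4 : Real.sqrt (bb Ω u₁ u₂ x) ≤ Real.sqrt (volume Ω).toReal := Real.sqrt_le_sqrt (bb_le h x)
  have e5 : 0 ≤ Real.sqrt (bb Ω u₁ u₂ x) := Real.sqrt_nonneg _
  have hA : 0 ≤ 4 * Real.sqrt Real.pi * E := by positivity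
  have e6 : 4 * Real.sqrt Real.pi * E * (TT x - 1) * Real.sqrt (bb Ω u₁ u₂ x) ≤
      4 * Real.sqrt Real.pi * E * Real.sqrt (volume Ω).toReal := by
    calc 4 * Real.sqrt Real.pi * E * (TT x - 1) * Real.sqrt (bb Ω u₁ u₂ x)
        ≤ 4 * Real.sqrt Real.pi * E * 1 * Real.sqrt (volume Ω).toReal := by
          gcongr
          linarith
      _ = _ := by ring
  have e7 : 2 * Real.pi * (2 - TT x) * x ≤ 2 * Real.pi * X := by
    calc 2 * Real.pi * (2 - TT x) * x ≤ 2 * Real.pi * 1 * X := by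
          gcongr
          · linarith
          · exact hx.2
      _ = _ := by ring
  have e8 : 0 ≤ 4 * Real.sqrt Real.pi * E * (TT x - 1) * Real.sqrt (bb Ω u₁ u₂ x)
      + 2 * Real.pi * (2 - TT x) * x := by positivity
  unfold phiM
  calc _ ≤ (4 * Real.sqrt Real.pi * E * (TT x - 1) * Real.sqrt (bb Ω u₁ u₂ x)
      + 2 * Real.pi * (2 - TT x) * x) := div_le_self e8 h1
    _ ≤ _ := add_le_add e6 e7

theorem continuousOn_TT (hX : Profile X) : ContinuousOn TT (Ioc 0 X) := by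
  unfold TT
  apply ContinuousOn.sub continuousOn_const
  apply ContinuousOn.div (hX.sn_cont.mono Ioc_subset_Icc_self) continuousOn_id
  intro x hx
  exact hx.1.ne'

theorem aemeasurable_phiM (h : Good E Ω u₁ u₂) (hX : Profile X) :
    AEMeasurable (phiM E Ω u₁ u₂) (volume.restrict (Ioc 0 X)) := by
  have hT : AEMeasurable TT (volume.restrict (Ioc 0 X)) :=
    ((continuousOn_TT hX).aestronglyMeasurable measurableSet_Ioc).aemeasurable
  have hb : AEMeasurable (bb Ω u₁ u₂) (volume.restrict (Ioc 0 X)) :=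
    aemeasurable_restrict_of_monotoneOn measurableSet_Ioc
      ((bb_mono h hX).mono Ioc_subset_Icc_self)
  unfold phiM
  exact ((((hT.sub_const 1).const_mul _).mul (Real.continuous_sqrt.measurable.comp_aemeasurable
    hb)).add (((aemeasurable_const.sub hT).const_mul _).mul aemeasurable_id)).div hT

/-- Continuous functions which increase to the indicator of an open interval. -/
noncomputable def wn (x₁ x₂ : ℝ) (n : ℕ) (t : ℝ) : ℝ :=
  max 0 (min 1 ((n : ℝ) * min (t - x₁) (x₂ - t)))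

theorem continuous_wn (x₁ x₂ : ℝ) (n : ℕ) : Continuous (wn x₁ x₂ n) := by
  unfold wn
  fun_prop

theorem wn_nonneg (x₁ x₂ : ℝ) (n : ℕ) (t : ℝ) : 0 ≤ wn x₁ x₂ n t := le_max_left _ _

theorem wn_le_one (x₁ x₂ : ℝ) (n : ℕ) (t : ℝ) : wn x₁ x₂ n t ≤ 1 :=
  max_le zero_le_one (min_le_left _ _)

theorem wn_eq_zero (x₁ x₂ : ℝ) (n : ℕ) {t : ℝ} (ht : t ∉ Ioo x₁ x₂) : wn x₁ x₂ n t = 0 := by
  unfold wn
  apply max_eq_left
  apply (min_le_right _ _).trans
  apply mul_nonpos_of_nonneg_of_nonpos (Nat.cast_nonneg n)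
  rw [mem_Ioo, not_and_or, not_lt, not_lt] at ht
  rcases ht with ht | ht
  · exact (min_le_left _ _).trans (by linarith)
  · exact (min_le_right _ _).trans (by linarith)

theorem wn_tendsto (x₁ x₂ : ℝ) (t : ℝ) : Filter.Tendsto (fun n => wn x₁ x₂ n t) Filter.atTop
    (𝓝 ((Ioo x₁ x₂).indicator (fun _ => (1 : ℝ)) t)) := by
  by_cases ht : t ∈ Ioo x₁ x₂
  · rw [indicator_of_mem ht]
    have hpos : 0 < min (t - x₁) (x₂ - t) := lt_min (by linarith [ht.1]) (by linarith [ht.2])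
    obtain ⟨N, hN⟩ := exists_nat_gt (1 / min (t - x₁) (x₂ - t))
    apply tendsto_const_nhds.congr'
    filter_upwards [Filter.eventually_ge_atTop N] with n hn
    have h1 : (1 : ℝ) ≤ (n : ℝ) * min (t - x₁) (x₂ - t) := by
      rw [div_lt_iff₀ hpos] at hN
      have : (N : ℝ) ≤ n := by exact_mod_cast hn
      nlinarith
    unfold wn
    rw [min_eq_left h1]
    simp
  · rw [indicator_of_notMem ht]
    simp only [wn_eq_zero x₁ x₂ _ ht]
    exact tendsto_const_nhds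

theorem meas (h : Good E Ω u₁ u₂) (hX : Profile X) {x₁ x₂ : ℝ} (h1 : 0 < x₁) (h2 : x₁ < x₂)
    (h3 : x₂ < X) :
    ∫ x in x₁..x₂, (4 * Real.sqrt Real.pi * E * (TT x - 1) * Real.sqrt (bb Ω u₁ u₂ x)
        + 2 * Real.pi * (2 - TT x) * x) / TT x
      ≤ E ^ 2 * (bb Ω u₁ u₂ x₂ - bb Ω u₁ u₂ x₁) := by
  obtain ⟨xs, hxs, hxs'⟩ := exists_xs hX
  have hmeas : Measurable (fun z => |cc u₁ u₂ z|) :=
    (measurable_cc h.sol.smooth₁ h.sol.smooth₂).abs
  have hΩ : MeasurableSet Ω := h.sol.isOpen.measurableSet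
  set S : Set ℂ := {z | cs x₂ < |cc u₁ u₂ z| ∧ |cc u₁ u₂ z| ≤ cs x₁} with hS
  have hSm : MeasurableSet S :=
    (measurableSet_lt measurable_const hmeas).inter (measurableSet_le hmeas measurable_const)
  -- the right hand side
  have hfin : volume (Ω ∩ S) ≠ ⊤ := volume_ne_top h _ inter_subset_left
  have hbdiff : (volume (Ω ∩ S)).toReal = bb Ω u₁ u₂ x₂ - bb Ω u₁ u₂ x₁ := by
    have hcs : cs x₂ ≤ cs x₁ := (cs_strictAnti hX).antitoneOn ⟨h1.le, (h2.trans h3).le⟩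
      ⟨(h1.trans h2).le, h3.le⟩ h2.le
    have e1 : {z | z ∈ Ω ∧ cs x₂ < |cc u₁ u₂ z|} =
        {z | z ∈ Ω ∧ cs x₁ < |cc u₁ u₂ z|} ∪ (Ω ∩ S) := by
      ext z
      simp only [hS, mem_setOf_eq, mem_union, mem_inter_iff]
      constructor
      · rintro ⟨hz, hlt⟩
        rcases lt_or_ge (cs x₁) |cc u₁ u₂ z| with h' | h'
        · exact Or.inl ⟨hz, h'⟩
        · exact Or.inr ⟨hz, hlt, h'⟩
      · rintro (⟨hz, hlt⟩ | ⟨hz, hlt, -⟩)
        · exact ⟨hz, hcs.trans_lt hlt⟩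
        · exact ⟨hz, hlt⟩
    have e2 : Disjoint {z | z ∈ Ω ∧ cs x₁ < |cc u₁ u₂ z|} (Ω ∩ S) := by
      rw [Set.disjoint_left]
      rintro z ⟨-, hz⟩ ⟨-, -, hz'⟩
      exact absurd hz (not_lt.2 hz')
    unfold bb
    rw [e1, measure_union e2 (hΩ.inter hSm), ENNReal.toReal_add
      (volume_ne_top h _ (fun z hz => hz.1)) hfin]
    ring
  have hR : ∀ n, ∫ z in Ω, (Ioo (0 : ℝ) 1).indicator (fun r => wn x₁ x₂ n (xs r))
      |cc u₁ u₂ z| ≤ bb Ω u₁ u₂ x₂ - bb Ω u₁ u₂ x₁ := by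
    intro n
    rw [← hbdiff]
    have hint : IntegrableOn (S.indicator (fun _ => (1 : ℝ))) Ω := by
      rw [integrableOn_indicator_iff hSm]
      rw [inter_comm] at hfin
      exact integrableOn_const hfin
    have hval : ∫ z in Ω, S.indicator (fun _ => (1 : ℝ)) z = (volume (Ω ∩ S)).toReal := by
      rw [setIntegral_indicator hSm, setIntegral_const]
      simp [Measure.real]
    rw [← hval]
    apply integral_mono_of_nonneg
    · exact Filter.Eventually.of_forall fun z =>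
        indicator_nonneg (fun r _ => wn_nonneg x₁ x₂ n (xs r)) _
    · exact hint
    · refine Filter.Eventually.of_forall fun z => ?_
      by_cases hz : |cc u₁ u₂ z| ∈ Ioo (0 : ℝ) 1
      · simp only [indicator_of_mem hz]
        by_cases hx : xs |cc u₁ u₂ z| ∈ Ioo x₁ x₂
        · have hzS : z ∈ S := by
            obtain ⟨m1, m2⟩ := hxs' _ hz
            rw [hS, mem_setOf_eq, ← m2]
            constructor
            · exact cs_strictAnti hX ⟨m1.1.le, m1.2.le⟩ ⟨(h1.trans h2).le, h3.le⟩ hx.2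
            · exact (cs_strictAnti hX ⟨h1.le, (h2.trans h3).le⟩ ⟨m1.1.le, m1.2.le⟩ hx.1).le
          rw [indicator_of_mem hzS]
          exact wn_le_one _ _ _ _
        · rw [wn_eq_zero x₁ x₂ n hx]
          exact indicator_nonneg (fun _ _ => zero_le_one) _
      · simp only [indicator_of_notMem hz]
        exact indicator_nonneg (fun _ _ => zero_le_one) _
  have hL : ∀ n, ∫ x in (0 : ℝ)..X, wn x₁ x₂ n x * phiM E Ω u₁ u₂ x ≤
      E ^ 2 * (bb Ω u₁ u₂ x₂ - bb Ω u₁ u₂ x₁) := by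
    intro n
    have hm := meas_test h hX (continuous_wn x₁ x₂ n) (wn_nonneg x₁ x₂ n) h1 h2.le h3
      (fun t ht => wn_eq_zero x₁ x₂ n (fun h' => ht ⟨h'.1.le, h'.2.le⟩)) hxs hxs'
    refine hm.trans ?_
    exact mul_le_mul_of_nonneg_left (hR n) (sq_nonneg E)
  -- the limit of the left hand side
  set B : ℝ := 4 * Real.sqrt Real.pi * E * Real.sqrt (volume Ω).toReal + 2 * Real.pi * X with hB
  have hX0 : (0 : ℝ) ≤ X := hX.pos.le
  have hlim : Filter.Tendsto (fun n => ∫ x in (0 : ℝ)..X, wn x₁ x₂ n x * phiM E Ω u₁ u₂ x)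
      Filter.atTop (𝓝 (∫ x in (0 : ℝ)..X,
        (Ioo x₁ x₂).indicator (fun _ => (1 : ℝ)) x * phiM E Ω u₁ u₂ x)) := by
    apply intervalIntegral.tendsto_integral_filter_of_dominated_convergence (fun _ => B)
    · refine Filter.Eventually.of_forall fun n => ?_
      rw [uIoc_of_le hX0]
      exact ((continuous_wn x₁ x₂ n).measurable.aemeasurable.mul
        (aemeasurable_phiM h hX)).aestronglyMeasurable
    · refine Filter.Eventually.of_forall fun n => Filter.Eventually.of_forall fun x hx => ?_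
      rw [uIoc_of_le hX0] at hx
      have a1 := phiM_nonneg h hX hx
      have a2 := phiM_le h hX hx
      have a3 := wn_nonneg x₁ x₂ n x
      have a4 := wn_le_one x₁ x₂ n x
      rw [Real.norm_eq_abs, abs_of_nonneg (mul_nonneg a3 a1)]
      calc wn x₁ x₂ n x * phiM E Ω u₁ u₂ x ≤ 1 * B := mul_le_mul a4 a2 a1 zero_le_one
        _ = B := one_mul B
    · exact intervalIntegrable_const
    · exact Filter.Eventually.of_forall fun x _ => (wn_tendsto x₁ x₂ x).mul_const _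
  have hval : ∫ x in (0 : ℝ)..X, (Ioo x₁ x₂).indicator (fun _ => (1 : ℝ)) x * phiM E Ω u₁ u₂ x =
      ∫ x in x₁..x₂, phiM E Ω u₁ u₂ x := by
    have e1 : (fun x => (Ioo x₁ x₂).indicator (fun _ => (1 : ℝ)) x * phiM E Ω u₁ u₂ x) =
        (Ioo x₁ x₂).indicator (phiM E Ω u₁ u₂) := by
      funext x
      by_cases hx : x ∈ Ioo x₁ x₂
      · simp [indicator_of_mem hx]
      · simp [indicator_of_notMem hx]
    rw [e1, intervalIntegral.integral_of_le hX0, intervalIntegral.integral_of_le h2.le,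
      setIntegral_indicator measurableSet_Ioo, integral_Ioc_eq_integral_Ioo]
    have e2 : Ioo (0 : ℝ) X ∩ Ioo x₁ x₂ = Ioo x₁ x₂ := by
      apply inter_eq_right.2
      intro x hx
      exact ⟨h1.trans hx.1, hx.2.trans h3⟩
    have e3 : Ioc (0 : ℝ) X ∩ Ioo x₁ x₂ = Ioo x₁ x₂ := by
      apply inter_eq_right.2
      intro x hx
      exact ⟨h1.trans hx.1, (hx.2.trans h3).le⟩
    first
      | rw [e3]
      | rw [e2]
  rw [hval] at hlim
  exact le_of_tendsto' hlim hL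

end Pool.Agent.FK
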