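import Mathlib
import Pool.Agent.Helper99.FK.Conf1

/-! FK-28b: the outward unit normal in the conformal chart -/

set_option autoImplicit false

open Complex MeasureTheory Set Metric
open scoped ComplexConjugate Topology

namespace Pool.Agent.FK

private lemma normal_lin (L : ℝ × ℝ →L[ℝ] ℝ) (x y : ℝ) : L (x, y) = L (1, 0) * x + L (0, 1) * y := by
  have h1 : ((x, y) : ℝ × ℝ) = x • ((1, 0) : ℝ × ℝ) + y • ((0, 1) : ℝ × ℝ) := by
    ext <;> simp
  rw [h1, map_add, map_smul, map_smul, smul_eq_mul, smul_eq_mul]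
  ring

private lemma normal_alg {γ D w : ℂ} (hw : ‖w‖ = 1) (hγ : γ ≠ 0) (hD : D ≠ 0)
    (h : ∀ y : ℂ, ‖y‖ ≤ 1 → (conj γ * (D * (y - w))).re ≤ 0) :
    γ / (‖γ‖ : ℂ) = w * D / (‖D‖ : ℂ) := by
  have hγn : (‖γ‖ : ℂ) ≠ 0 := by exact_mod_cast norm_ne_zero_iff.2 hγ
  have hDn : (‖D‖ : ℂ) ≠ 0 := by exact_mod_cast norm_ne_zero_iff.2 hD
  set c : ℂ := conj γ * D with hc
  have hcn : ‖c‖ = ‖γ‖ * ‖D‖ := by rw [hc, norm_mul, norm_conj]
  have hc0 : ‖c‖ ≠ 0 := by
    rw [hcn]
    exact mul_ne_zero (norm_ne_zero_iff.2 hγ) (norm_ne_zero_iff.2 hD)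
  have h1 : ‖c‖ ≤ (c * w).re := by
    have h2 := h (conj c / (‖c‖ : ℂ)) (by
      rw [norm_div, norm_conj, norm_real, norm_norm, div_self hc0])
    have h3 : conj γ * (D * (conj c / (‖c‖ : ℂ) - w)) = (‖c‖ : ℂ) - c * w := by
      have h4 : c * conj c = (‖c‖ : ℂ) ^ 2 := by
        rw [mul_conj, normSq_eq_norm_sq]
        push_cast
        rfl
      have h5 : (‖c‖ : ℂ) ≠ 0 := by exact_mod_cast hc0
      have h6 : conj γ * (D * (conj c / (‖c‖ : ℂ) - w)) = c * conj c / (‖c‖ : ℂ) - c * w := by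
        rw [hc]
        ring
      rw [h6, h4]
      field_simp
    rw [h3, sub_re, ofReal_re] at h2
    linarith
  have h2 : (c * w).re = ‖c * w‖ := by
    apply le_antisymm (re_le_norm _)
    rw [norm_mul, hw, mul_one]
    exact h1
  have h3 : c * w = (‖γ‖ : ℂ) * (‖D‖ : ℂ) := by
    have h4 : (c * w).im = 0 := by
      apply Complex.abs_re_eq_norm.1
      rw [h2, abs_of_nonneg (norm_nonneg _)]
    have h5 : c * w = ((c * w).re : ℂ) := by
      apply Complex.ext
      · rw [ofReal_re]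
      · rw [ofReal_im]
        exact h4
    rw [h5, h2, norm_mul, hw, mul_one, hcn]
    push_cast
    rfl
  have h4 : γ * conj γ = (‖γ‖ : ℂ) ^ 2 := by
    rw [mul_conj, normSq_eq_norm_sq]
    push_cast
    rfl
  rw [div_eq_div_iff hγn hDn]
  have h5 : (‖γ‖ : ℂ) * (γ * (‖D‖ : ℂ)) = (‖γ‖ : ℂ) * (w * D * (‖γ‖ : ℂ)) := by
    have h6 : γ * (c * w) = (‖γ‖ : ℂ) ^ 2 * (D * w) := by
      rw [hc, ← h4]
      ring
    rw [h3] at h6
    linear_combination h6
  exact mul_left_cancel₀ hγn h5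

/-- the outward unit normal of `{φ < 0}` in terms of the conformal map -/
theorem normal_eq {φ : ℝ × ℝ → ℝ} (hφ : ∀ k : ℕ, ContDiff ℝ k φ)
    (hnd : ∀ x, φ x = 0 → fderiv ℝ φ x ≠ 0) {f : ℂ → ℂ} {Ω : Set ℂ} (hf : Conf f Ω)
    (hΩ : Ω = {z : ℂ | φ (z.re, z.im) < 0}) {w : ℂ} (hw : ‖w‖ = 1) :
    φ ((f w).re, (f w).im) = 0 ∧
    (((fderiv ℝ φ ((f w).re, (f w).im) (1, 0) /
        Real.sqrt (fderiv ℝ φ ((f w).re, (f w).im) (1, 0) ^ 2
          + fderiv ℝ φ ((f w).re, (f w).im) (0, 1) ^ 2) : ℝ) : ℂ)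
      + Complex.I * ((fderiv ℝ φ ((f w).re, (f w).im) (0, 1) /
        Real.sqrt (fderiv ℝ φ ((f w).re, (f w).im) (1, 0) ^ 2
          + fderiv ℝ φ ((f w).re, (f w).im) (0, 1) ^ 2) : ℝ) : ℂ))
      = w * DD f w / (‖DD f w‖ : ℂ) := by
  have hwc : w ∈ closedBall (0 : ℂ) 1 := by rw [mem_closedBall_zero_iff, hw]
  have hfc : Continuous f := (hf.smooth 0).continuous
  have hφc : Continuous φ := (hφ 0).continuous
  have hHc : Continuous (fun z => φ ((f z).re, (f z).im)) :=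
    hφc.comp ((continuous_re.comp hfc).prodMk (continuous_im.comp hfc))
  -- the function is nonpositive on the closed disc
  have hle : ∀ y ∈ closedBall (0 : ℂ) 1, φ ((f y).re, (f y).im) ≤ 0 := by
    have h1 : IsClosed {y : ℂ | φ ((f y).re, (f y).im) ≤ 0} := isClosed_le hHc continuous_const
    have h2 : closure (ball (0 : ℂ) 1) ⊆ {y : ℂ | φ ((f y).re, (f y).im) ≤ 0} := by
      refine h1.closure_subset_iff.2 (fun y hy => ?_)
      have h3 : f y ∈ Ω := by
        rw [hf.img]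
        exact ⟨y, hy, rfl⟩
      rw [hΩ] at h3
      exact (show φ ((f y).re, (f y).im) < 0 from h3).le
    rw [closure_ball (0 : ℂ) one_ne_zero] at h2
    exact h2
  have h0 : φ ((f w).re, (f w).im) = 0 := by
    apply le_antisymm (hle w hwc)
    have h1 : f w ∈ frontier Ω := by
      rw [conf_frontier hf]
      exact ⟨w, by rw [mem_sphere, dist_zero_right, hw], rfl⟩
    rw [(conf_open hf).frontier_eq] at h1
    by_contra h2
    apply h1.2
    rw [hΩ]
    exact not_le.1 h2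
  refine ⟨h0, ?_⟩
  set L : ℝ × ℝ →L[ℝ] ℝ := fderiv ℝ φ ((f w).re, (f w).im) with hL
  set a : ℝ := L (1, 0) with ha
  set b : ℝ := L (0, 1) with hb
  set γ : ℂ := ⟨a, b⟩ with hγ
  have hγ0 : γ ≠ 0 := by
    intro h
    have h1 : a = 0 := congrArg re h
    have h2 : b = 0 := congrArg im h
    apply hnd _ h0
    ext v
    · rw [← hL]
      simpa using h1
    · rw [← hL]
      simpa using h2
  have hD0 := DD_ne hf hwc
  have hfd : HasFDerivAt f (fderiv ℝ f w) w :=
    ((hf.smooth 1).differentiable (by norm_num) w).hasFDerivAt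
  have hφd : HasFDerivAt φ L ((f w).re, (f w).im) :=
    ((hφ 1).differentiable (by norm_num) _).hasFDerivAt
  have hpair : HasFDerivAt (fun z => ((f z).re, (f z).im))
      ((reCLM.comp (fderiv ℝ f w)).prod (imCLM.comp (fderiv ℝ f w))) w :=
    (reCLM.hasFDerivAt.comp w hfd).prodMk (imCLM.hasFDerivAt.comp w hfd)
  have hH : HasFDerivAt (fun z => φ ((f z).re, (f z).im))
      (L.comp ((reCLM.comp (fderiv ℝ f w)).prod (imCLM.comp (fderiv ℝ f w)))) w :=
    hφd.comp w hpair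
  have hmax : IsLocalMaxOn (fun z => φ ((f z).re, (f z).im)) (closedBall 0 1) w := by
    have h1 : IsMaxOn (fun z => φ ((f z).re, (f z).im)) (closedBall 0 1) w := by
      intro y hy
      change φ ((f y).re, (f y).im) ≤ φ ((f w).re, (f w).im)
      rw [h0]
      exact hle y hy
    exact h1.localize
  have hkey : ∀ y : ℂ, ‖y‖ ≤ 1 → (conj γ * (DD f w * (y - w))).re ≤ 0 := by
    intro y hy
    have h1 : y - w ∈ posTangentConeAt (closedBall (0 : ℂ) 1) w :=
      sub_mem_posTangentConeAt_of_segment_subset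
        ((convex_closedBall (0 : ℂ) 1).segment_subset hwc (by
          rw [mem_closedBall_zero_iff]; exact hy))
    have h2 := hmax.hasFDerivWithinAt_nonpos hH.hasFDerivWithinAt h1
    have h3 : (L.comp ((reCLM.comp (fderiv ℝ f w)).prod (imCLM.comp (fderiv ℝ f w)))) (y - w)
        = (conj γ * (DD f w * (y - w))).re := by
      change L ((fderiv ℝ f w (y - w)).re, (fderiv ℝ f w (y - w)).im) = _
      rw [normal_lin, conf_fderiv hf hwc, mul_re (conj γ), conj_re, conj_im]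
      change a * (DD f w * (y - w)).re + b * (DD f w * (y - w)).im
        = a * (DD f w * (y - w)).re - (-b) * (DD f w * (y - w)).im
      ring
    rw [h3] at h2
    exact h2
  have hfin := normal_alg hw hγ0 hD0 hkey
  rw [← hfin]
  have hn : Real.sqrt (a ^ 2 + b ^ 2) = ‖γ‖ := by
    rw [Complex.norm_def, normSq_apply]
    congr 1
    change a ^ 2 + b ^ 2 = a * a + b * b
    ring
  rw [hn]
  have hγ' : γ = (a : ℂ) + I * (b : ℂ) := by
    apply Complex.ext <;> simp [hγ]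
  have h7 : γ / (‖γ‖ : ℂ) = ((a : ℂ) + I * (b : ℂ)) / (‖γ‖ : ℂ) := by rw [← hγ']
  rw [h7, add_div, mul_div_assoc]
  push_cast
  rfl

end Pool.Agent.FK
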