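import Mathlib
import Pool.Agent.Helper99.FK.Conf2
import Pool.Agent.Helper99.FK.Conf3
import Pool.Agent.Helper99.FK.Abs3

/-! FK-27: transfer of the estimates from the disc to the domain -/

set_option autoImplicit false

open Complex MeasureTheory Set Metric
open scoped ComplexConjugate Topology

namespace Pool.Agent.FK

variable {E : ℝ} {f : ℂ → ℂ} {Ω : Set ℂ} {u₁ u₂ : ℂ → ℂ}

theorem NN_nonneg' (u₁ u₂ : ℂ → ℂ) (z : ℂ) : 0 ≤ NN u₁ u₂ z := by
  unfold NN; positivity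

theorem continuous_DD (hf : Conf f Ω) : Continuous (DD f) := (contDiff_DD hf 0).continuous

theorem contDiffOn_normDD (hf : Conf f Ω) {R : ℝ} (hR : ∀ z ∈ ball (0 : ℂ) R, DD f z ≠ 0) :
    ContDiffOn ℝ 2 (fun z => ‖DD f z‖) (ball 0 R) := by
  intro z hz
  exact ((contDiff_DD hf 2).contDiffAt.norm ℝ (hR z hz)).contDiffWithinAt

theorem contDiffOn_MM (hf : Conf f Ω) (h : Sol E Ω u₁ u₂) {R : ℝ}
    (hR : ∀ z ∈ ball (0 : ℂ) R, DD f z ≠ 0) :
    ContDiffOn ℝ 2 (fun z => ‖DD f z‖ * NN u₁ u₂ (f z)) (ball 0 R) := by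
  refine (contDiffOn_normDD hf hR).mul ?_
  exact ((contDiff_NN h.smooth₁ h.smooth₂ 2).comp (hf.smooth 2)).contDiffOn

theorem discData (hf : Conf f Ω) (h : Sol E Ω u₁ u₂) (hb : Bc f u₁ u₂)
    (hne : ∃ z ∈ Ω, u₁ z ≠ 0 ∨ u₂ z ≠ 0) :
    ∃ R G : ℝ, DiscData R G (fun z => ‖DD f z‖ * NN u₁ u₂ (f z))
      (fun z => 4 * ‖DD f z‖ ^ 4 * ‖SS u₁ u₂ (f z)‖ ^ 2) (fun z => E ^ 2 * ‖DD f z‖ ^ 2) := by
  obtain ⟨R, hR1, hR⟩ := exists_R hf
  have hDc := continuous_DD hf
  have hfc : Continuous f := (hf.smooth 0).continuous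
  have hSc : Continuous (SS u₁ u₂) := (contDiff_SS h.smooth₁ h.smooth₂ 0).continuous
  have hgc : Continuous (fun z => E ^ 2 * ‖DD f z‖ ^ 2) := by fun_prop
  obtain ⟨G, hG⟩ := ((isCompact_closedBall (0 : ℂ) 1).bddAbove_image hgc.continuousOn)
  refine ⟨R, G, hR1, contDiffOn_MM hf h hR, ?_, ?_, hgc.continuousOn, ?_, ?_, ?_, ?_, ?_, ?_, ?_⟩
  · intro z _
    exact mul_nonneg (norm_nonneg _) (NN_nonneg' _ _ _)
  · refine Continuous.continuousOn ?_
    have : Continuous (fun z => SS u₁ u₂ (f z)) := hSc.comp hfc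
    fun_prop
  · intro z _; positivity
  · intro z _; positivity
  · intro z hz
    exact hG (mem_image_of_mem _ (ball_subset_closedBall hz))
  · intro z hz
    exact conf_ident hf h hz
  · intro z hz
    exact conf_lap_ge hf h hz
  · intro z hz
    exact conf_bdry hf h hb hz
  · obtain ⟨z, hz, hu⟩ := hne
    rw [hf.img] at hz
    obtain ⟨w, hw, rfl⟩ := hz
    refine ⟨w, hw, ?_⟩
    have h1 : ‖DD f w‖ ≠ 0 := norm_ne_zero_iff.2 (DD_ne hf (ball_subset_closedBall hw))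
    have h2 : NN u₁ u₂ (f w) ≠ 0 := by
      have : 0 < NN u₁ u₂ (f w) := by
        unfold NN
        rcases hu with hu | hu
        · have := norm_pos_iff.2 hu; positivity
        · have := norm_pos_iff.2 hu; positivity
      exact this.ne'
    exact mul_ne_zero h1 h2

/-- The determinant of the differential. -/
theorem conf_det (hf : Conf f Ω) {z : ℂ} (hz : z ∈ closedBall (0 : ℂ) 1) :
    |(fderiv ℝ f z).det| = ‖DD f z‖ ^ 2 := by
  have h1 : ((fderiv ℝ f z : ℂ →L[ℝ] ℂ) : ℂ →ₗ[ℝ] ℂ) = Algebra.lmul ℝ ℂ (DD f z) := by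
    ext v <;> simp [conf_fderiv hf hz]
  have h2 : (fderiv ℝ f z).det = Complex.normSq (DD f z) := by
    rw [← Algebra.norm_complex_apply, Algebra.norm_apply, ← h1]
  rw [h2, Complex.normSq_eq_norm_sq, abs_of_nonneg (by positivity)]

theorem conf_deriv (hf : Conf f Ω) (z : ℂ) :
    HasFDerivAt f (fderiv ℝ f z) z :=
  ((hf.smooth 1).differentiable (by simp) z).hasFDerivAt

theorem conf_integrableOn (hf : Conf f Ω) (g : ℂ → ℝ) :
    IntegrableOn g Ω ↔ IntegrableOn (fun z => ‖DD f z‖ ^ 2 * g (f z)) (ball 0 1) := by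
  rw [hf.img, integrableOn_image_iff_integrableOn_abs_det_fderiv_smul volume measurableSet_ball
    (fun z _ => (conf_deriv hf z).hasFDerivWithinAt) (hf.inj.mono ball_subset_closedBall) g]
  refine integrableOn_congr_fun (fun z hz => ?_) measurableSet_ball
  simp only [smul_eq_mul]
  rw [conf_det hf (ball_subset_closedBall hz)]

theorem conf_integral (hf : Conf f Ω) (g : ℂ → ℝ) :
    ∫ z in Ω, g z = ∫ z in ball (0 : ℂ) 1, ‖DD f z‖ ^ 2 * g (f z) := by
  rw [hf.img, integral_image_eq_integral_abs_det_fderiv_smul volume measurableSet_ball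
    (fun z _ => (conf_deriv hf z).hasFDerivWithinAt) (hf.inj.mono ball_subset_closedBall) g]
  refine setIntegral_congr_fun measurableSet_ball (fun z hz => ?_)
  simp only [smul_eq_mul]
  rw [conf_det hf (ball_subset_closedBall hz)]

/-- Conformal invariance of the Dirichlet integrand. -/
theorem gsq_comp (hf : Conf f Ω) {B : ℂ → ℝ} {z : ℂ} (hz : z ∈ closedBall (0 : ℂ) 1)
    (hB : DifferentiableAt ℝ B (f z)) :
    gsq (fun w => B (f w)) z = ‖DD f z‖ ^ 2 * gsq B (f z) := by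
  have h1 : ∀ v : ℂ, fderiv ℝ (fun w => B (f w)) z v = fderiv ℝ B (f z) (DD f z * v) := by
    intro v
    have := (hB.hasFDerivAt.comp z (conf_deriv hf z)).fderiv
    have h2 : fderiv ℝ (fun w => B (f w)) z = (fderiv ℝ B (f z)).comp (fderiv ℝ f z) := this
    rw [h2, ContinuousLinearMap.comp_apply, conf_fderiv hf hz]
  have h3 : ∀ v : ℂ, fderiv ℝ B (f z) v
      = v.re * fderiv ℝ B (f z) 1 + v.im * fderiv ℝ B (f z) I := by
    intro v
    have : v = v.re • (1 : ℂ) + v.im • I := by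
      apply Complex.ext <;> simp
    conv_lhs => rw [this]
    rw [map_add, map_smul, map_smul, smul_eq_mul, smul_eq_mul]
  unfold gsq
  rw [h1, h1, h3 (DD f z * 1), h3 (DD f z * I), ← Complex.normSq_eq_norm_sq,
    Complex.normSq_apply]
  simp only [mul_one, Complex.mul_re, Complex.mul_im, Complex.I_re, Complex.I_im, mul_zero,
    zero_sub, add_zero]
  ring

/-- The pointwise comparison of the energies. -/
theorem energy_pointwise (hf : Conf f Ω) (h : Sol E Ω u₁ u₂) {z : ℂ}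
    (hz : z ∈ ball (0 : ℂ) 1) {m K : ℝ} (hm : 0 < m) (hm' : m ≤ ‖DD f z‖)
    (hK : gsq (fun w => ‖DD f w‖) z ≤ K) {ε : ℝ} (hε : 0 < ε) :
    ‖DD f z‖ ^ 2 * (gsq (NN u₁ u₂) (f z) / (NN u₁ u₂ (f z) + ε) ^ 2)
      ≤ 2 * (gsq (fun w => ‖DD f w‖ * NN u₁ u₂ (f w)) z /
          (‖DD f z‖ * NN u₁ u₂ (f z) + m * ε) ^ 2) + 2 * K / m ^ 2 := by
  set A : ℝ := ‖DD f z‖ with hA
  set B : ℝ := NN u₁ u₂ (f z) with hB
  have hzc : z ∈ closedBall (0 : ℂ) 1 := ball_subset_closedBall hz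
  have hB0 : 0 ≤ B := NN_nonneg' _ _ _
  have hA0 : 0 < A := hm.trans_le hm'
  have hNd : Differentiable ℝ (NN u₁ u₂) :=
    (contDiff_NN h.smooth₁ h.smooth₂ 1).differentiable (by simp)
  have hgc := gsq_comp hf hzc (hNd (f z))
  have hAd : DifferentiableAt ℝ (fun w => ‖DD f w‖) z :=
    (((contDiff_DD hf 1).contDiffAt.norm ℝ (DD_ne hf hzc)).differentiableAt (by simp))
  have hBd : DifferentiableAt ℝ (fun w => NN u₁ u₂ (f w)) z :=
    (hNd (f z)).comp z (conf_deriv hf z).differentiableAt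
  have hprod : ∀ v : ℂ, fderiv ℝ (fun w => ‖DD f w‖ * NN u₁ u₂ (f w)) z v
      = A * fderiv ℝ (fun w => NN u₁ u₂ (f w)) z v + B * fderiv ℝ (fun w => ‖DD f w‖) z v := by
    intro v
    have := fderiv_fun_mul hAd hBd
    rw [this]
    simp [hA, hB, smul_eq_mul]
  set a1 := fderiv ℝ (fun w => ‖DD f w‖) z 1 with ha1
  set a2 := fderiv ℝ (fun w => ‖DD f w‖) z I with ha2
  set b1 := fderiv ℝ (fun w => NN u₁ u₂ (f w)) z 1 with hb1
  set b2 := fderiv ℝ (fun w => NN u₁ u₂ (f w)) z I with hb2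
  have hgA : gsq (fun w => ‖DD f w‖) z = a1 ^ 2 + a2 ^ 2 := rfl
  have hgB : gsq (fun w => NN u₁ u₂ (f w)) z = b1 ^ 2 + b2 ^ 2 := rfl
  have hgM : gsq (fun w => ‖DD f w‖ * NN u₁ u₂ (f w)) z
      = (A * b1 + B * a1) ^ 2 + (A * b2 + B * a2) ^ 2 := by
    unfold gsq
    rw [hprod 1, hprod I]
  have hgc' : A ^ 2 * gsq (NN u₁ u₂) (f z) = b1 ^ 2 + b2 ^ 2 := by
    rw [← hgB, hgc]
  rw [hgA] at hK
  rw [← mul_div_assoc, hgc', hgM]
  have hBε : 0 < B + ε := by linarith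
  have hden : 0 < A * B + m * ε := by positivity
  have hle : A * B + m * ε ≤ A * (B + ε) := by
    have := mul_le_mul_of_nonneg_right hm' hε.le
    nlinarith
  have hle2 : m * B ≤ A * B + m * ε := by
    have := mul_le_mul_of_nonneg_right hm' hB0
    have := mul_pos hm hε
    linarith
  -- main inequality
  have h1 : (b1 ^ 2 + b2 ^ 2) / (B + ε) ^ 2 = A ^ 2 * (b1 ^ 2 + b2 ^ 2) / (A * (B + ε)) ^ 2 := by
    rw [mul_pow]
    field_simp
  have h2 : A ^ 2 * (b1 ^ 2 + b2 ^ 2) ≤ 2 * ((A * b1 + B * a1) ^ 2 + (A * b2 + B * a2) ^ 2)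
      + 2 * B ^ 2 * (a1 ^ 2 + a2 ^ 2) := by
    nlinarith [sq_nonneg (A * b1 + 2 * (B * a1)), sq_nonneg (A * b2 + 2 * (B * a2))]
  have h3 : A ^ 2 * (b1 ^ 2 + b2 ^ 2) / (A * (B + ε)) ^ 2
      ≤ A ^ 2 * (b1 ^ 2 + b2 ^ 2) / (A * B + m * ε) ^ 2 := by
    gcongr
  have h4 : 2 * B ^ 2 * (a1 ^ 2 + a2 ^ 2) / (A * B + m * ε) ^ 2 ≤ 2 * K / m ^ 2 := by
    rw [div_le_div_iff₀ (by positivity) (by positivity)]
    have e1 : (m * B) ^ 2 ≤ (A * B + m * ε) ^ 2 := by gcongr
    have e0 : 0 ≤ a1 ^ 2 + a2 ^ 2 := by positivity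
    calc 2 * B ^ 2 * (a1 ^ 2 + a2 ^ 2) * m ^ 2 = 2 * (a1 ^ 2 + a2 ^ 2) * (m * B) ^ 2 := by ring
      _ ≤ 2 * (a1 ^ 2 + a2 ^ 2) * (A * B + m * ε) ^ 2 := by gcongr
      _ ≤ 2 * K * (A * B + m * ε) ^ 2 := by gcongr
  calc (b1 ^ 2 + b2 ^ 2) / (B + ε) ^ 2 ≤ A ^ 2 * (b1 ^ 2 + b2 ^ 2) / (A * B + m * ε) ^ 2 := by
        rw [h1]; exact h3
    _ ≤ (2 * ((A * b1 + B * a1) ^ 2 + (A * b2 + B * a2) ^ 2)
      + 2 * B ^ 2 * (a1 ^ 2 + a2 ^ 2)) / (A * B + m * ε) ^ 2 := by gcongr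
    _ = 2 * (((A * b1 + B * a1) ^ 2 + (A * b2 + B * a2) ^ 2) / (A * B + m * ε) ^ 2)
      + 2 * B ^ 2 * (a1 ^ 2 + a2 ^ 2) / (A * B + m * ε) ^ 2 := by ring
    _ ≤ _ := by linarith

theorem continuousOn_gsq {M : ℂ → ℝ} {R : ℝ} (hM : ContDiffOn ℝ 2 M (ball 0 R)) :
    ContinuousOn (gsq M) (ball 0 R) := by
  have h1 : ContinuousOn (fderiv ℝ M) (ball 0 R) :=
    hM.continuousOn_fderiv_of_isOpen isOpen_ball (by norm_num)
  unfold gsq
  exact ((h1.clm_apply continuousOn_const).pow 2).add ((h1.clm_apply continuousOn_const).pow 2)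

theorem good_of_conf (hf : Conf f Ω) (h : Sol E Ω u₁ u₂) (hb : Bc f u₁ u₂)
    (hne : ∃ z ∈ Ω, u₁ z ≠ 0 ∨ u₂ z ≠ 0) : Good E Ω u₁ u₂ := by
  obtain ⟨R, G, hD⟩ := discData hf h hb hne
  obtain ⟨hint, htot⟩ := disc_total hD
  have hA0 : ∀ z ∈ closedBall (0 : ℂ) 1, 0 < ‖DD f z‖ := fun z hz =>
    norm_pos_iff.2 (DD_ne hf hz)
  have hQ : ∀ z ∈ ball (0 : ℂ) 1, 4 * ‖DD f z‖ ^ 4 * ‖SS u₁ u₂ (f z)‖ ^ 2 /
      (‖DD f z‖ * NN u₁ u₂ (f z)) ^ 2
      = ‖DD f z‖ ^ 2 * (4 * (‖SS u₁ u₂ (f z)‖ ^ 2 / NN u₁ u₂ (f z) ^ 2)) := by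
    intro z hz
    have := hA0 z (ball_subset_closedBall hz)
    by_cases hN : NN u₁ u₂ (f z) = 0
    · simp [hN]
    · field_simp
  refine ⟨h, conf_bdd hf, ?_, ?_, ?_, ?_, ?_⟩
  · -- null set
    have h1 := disc_null hD
    have h2 : {z | z ∈ Ω ∧ NN u₁ u₂ z = 0} ⊆
        f '' {z | z ∈ ball (0 : ℂ) 1 ∧ ‖DD f z‖ * NN u₁ u₂ (f z) = 0} := by
      rintro z ⟨hz, hN⟩
      rw [hf.img] at hz
      obtain ⟨w, hw, rfl⟩ := hz
      exact ⟨w, ⟨hw, by rw [hN, mul_zero]⟩, rfl⟩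
    refine measure_mono_null h2 ?_
    refine addHaar_image_eq_zero_of_differentiableOn_of_addHaar_eq_zero volume ?_ h1
    exact ((hf.smooth 1).differentiable (by simp)).differentiableOn
  · -- integrability
    rw [conf_integrableOn hf]
    have h1 : IntegrableOn (fun z => (1 / 4 : ℝ) * (4 * ‖DD f z‖ ^ 4 * ‖SS u₁ u₂ (f z)‖ ^ 2 /
      (‖DD f z‖ * NN u₁ u₂ (f z)) ^ 2)) (ball 0 1) := hint.const_mul _
    refine h1.congr_fun (fun z hz => ?_) measurableSet_ball
    simp only []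
    rw [hQ z hz]
    ring
  · -- total curvature
    rw [conf_integral hf]
    refine htot.trans_eq ?_
    refine setIntegral_congr_fun measurableSet_ball (fun z hz => ?_)
    rw [hQ z hz]
    unfold JJ
    ring
  · -- energy
    obtain ⟨C, hC⟩ := disc_energy hD
    have hcd : ContinuousOn (fun z => ‖DD f z‖) (closedBall (0 : ℂ) 1) :=
      (continuous_DD hf).norm.continuousOn
    obtain ⟨z₀, hz₀, hmin⟩ := (isCompact_closedBall (0 : ℂ) 1).exists_isMinOn
      ⟨0, mem_closedBall_self zero_le_one⟩ hcd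
    set m : ℝ := min ‖DD f z₀‖ 1 with hm
    have hm0 : 0 < m := lt_min (hA0 z₀ hz₀) one_pos
    have hm1 : m ≤ 1 := min_le_right _ _
    have hmle : ∀ z ∈ closedBall (0 : ℂ) 1, m ≤ ‖DD f z‖ := fun z hz =>
      (min_le_left _ _).trans (hmin hz)
    obtain ⟨R', hR'1, hR'⟩ := exists_R hf
    have hgA : ContinuousOn (gsq (fun w => ‖DD f w‖)) (closedBall (0 : ℂ) 1) :=
      (continuousOn_gsq (contDiffOn_normDD hf hR')).mono (closedBall_subset_ball hR'1)
    obtain ⟨K, hK⟩ := (isCompact_closedBall (0 : ℂ) 1).bddAbove_image hgA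
    have hK' : ∀ z ∈ ball (0 : ℂ) 1, gsq (fun w => ‖DD f w‖) z ≤ K := fun z hz =>
      hK (mem_image_of_mem _ (ball_subset_closedBall hz))
    have hK0 : 0 ≤ K := le_trans (by unfold gsq; positivity) (hK' 0 (mem_ball_self one_pos))
    have hgM : ContinuousOn (gsq (fun w => ‖DD f w‖ * NN u₁ u₂ (f w))) (closedBall (0 : ℂ) 1) :=
      (continuousOn_gsq (contDiffOn_MM hf h hR')).mono (closedBall_subset_ball hR'1)
    have hMc : Continuous (fun z => ‖DD f z‖ * NN u₁ u₂ (f z)) := by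
      have h1 := (continuous_DD hf).norm
      have h2 : Continuous (fun z => NN u₁ u₂ (f z)) :=
        (contDiff_NN h.smooth₁ h.smooth₂ 0).continuous.comp (hf.smooth 0).continuous
      exact h1.mul h2
    set C' : ℝ := max C 0 with hC'
    have hvol : volume.real (ball (0 : ℂ) 1) = Real.pi := by
      rw [measureReal_def, Complex.volume_ball]
      simp
    refine ⟨2 * C' * (1 + |Real.log m|) + 2 * K / m ^ 2 * Real.pi, ?_⟩
    intro ε hε
    have hε0 : 0 < ε := hε.1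
    have hmε : m * ε ∈ Ioo (0 : ℝ) 1 := by
      refine ⟨by positivity, ?_⟩
      calc m * ε ≤ 1 * ε := by gcongr
        _ < 1 := by rw [one_mul]; exact hε.2
    have hCε := hC (m * ε) hmε
    have hI : IntegrableOn (fun z => gsq (fun w => ‖DD f w‖ * NN u₁ u₂ (f w)) z /
        (‖DD f z‖ * NN u₁ u₂ (f z) + m * ε) ^ 2) (ball 0 1) := by
      refine IntegrableOn.mono_set ?_ ball_subset_closedBall
      refine ContinuousOn.integrableOn_compact (isCompact_closedBall 0 1) ?_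
      refine hgM.div ((hMc.add continuous_const).pow 2).continuousOn ?_
      intro z _
      have : 0 ≤ ‖DD f z‖ * NN u₁ u₂ (f z) := mul_nonneg (norm_nonneg _) (NN_nonneg' _ _ _)
      have := hmε.1
      positivity
    have hIc : IntegrableOn (fun _ : ℂ => 2 * K / m ^ 2) (ball 0 1) := by
      refine integrableOn_const ?_
      exact measure_ball_lt_top.ne
    rw [conf_integral hf]
    calc ∫ z in ball (0 : ℂ) 1, ‖DD f z‖ ^ 2 *
          (gsq (NN u₁ u₂) (f z) / (NN u₁ u₂ (f z) + ε) ^ 2)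
        ≤ ∫ z in ball (0 : ℂ) 1, (2 * (gsq (fun w => ‖DD f w‖ * NN u₁ u₂ (f w)) z /
          (‖DD f z‖ * NN u₁ u₂ (f z) + m * ε) ^ 2) + 2 * K / m ^ 2) := by
          refine integral_mono_of_nonneg ?_ ((hI.const_mul 2).add hIc) ?_
          · refine Filter.Eventually.of_forall (fun z => ?_)
            have : 0 ≤ gsq (NN u₁ u₂) (f z) := by unfold gsq; positivity
            simp only [Pi.zero_apply]
            positivity
          · refine (ae_restrict_iff' measurableSet_ball).2 (Filter.Eventually.of_forall ?_)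
            intro z hz
            exact energy_pointwise hf h hz hm0 (hmle z (ball_subset_closedBall hz)) (hK' z hz) hε0
      _ = 2 * (∫ z in ball (0 : ℂ) 1, gsq (fun w => ‖DD f w‖ * NN u₁ u₂ (f w)) z /
          (‖DD f z‖ * NN u₁ u₂ (f z) + m * ε) ^ 2) + 2 * K / m ^ 2 * Real.pi := by
          rw [integral_add (hI.const_mul 2) hIc, integral_const_mul, setIntegral_const, hvol,
            smul_eq_mul]
          ring
      _ ≤ 2 * (C' * (1 + (|Real.log m| + |Real.log ε|))) + 2 * K / m ^ 2 * Real.pi := by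
          have e1 : |Real.log (m * ε)| ≤ |Real.log m| + |Real.log ε| := by
            rw [Real.log_mul hm0.ne' hε0.ne']
            exact abs_add_le _ _
          have e2 : C * (1 + |Real.log (m * ε)|) ≤ C' * (1 + (|Real.log m| + |Real.log ε|)) := by
            have e3 : (0 : ℝ) ≤ 1 + |Real.log (m * ε)| := by positivity
            calc C * (1 + |Real.log (m * ε)|) ≤ C' * (1 + |Real.log (m * ε)|) := by
                  gcongr; exact le_max_left _ _
              _ ≤ C' * (1 + (|Real.log m| + |Real.log ε|)) := by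
                  have : 0 ≤ C' := le_max_right _ _
                  gcongr
          linarith
      _ ≤ (2 * C' * (1 + |Real.log m|) + 2 * K / m ^ 2 * Real.pi) * (1 + |Real.log ε|) := by
          have e1 : 0 ≤ C' := le_max_right _ _
          have e2 : 0 ≤ |Real.log m| := abs_nonneg _
          have e3 : 0 ≤ |Real.log ε| := abs_nonneg _
          have e4 : 0 ≤ 2 * K / m ^ 2 * Real.pi := by
            have := Real.pi_pos; positivity
          have e5 : 0 ≤ C' * (|Real.log m| * |Real.log ε|) := by positivity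
          have e6 : 0 ≤ 2 * K / m ^ 2 * Real.pi * |Real.log ε| := by positivity
          nlinarith
  · -- the boundary condition
    intro z hz
    rw [conf_frontier hf] at hz
    obtain ⟨w, hw, rfl⟩ := hz
    have hw1 : ‖w‖ = 1 := by simpa using hw
    have h1 := hb w hw1
    have h2 : ‖DD f w‖ ≠ 0 := by
      refine norm_ne_zero_iff.2 (DD_ne hf ?_)
      simp [hw1]
    have h3 : ‖u₂ (f w)‖ = ‖u₁ (f w)‖ := by
      rw [← h1, norm_mul, norm_mul, norm_div, norm_mul, hw1, Complex.norm_real, norm_norm,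
        Complex.norm_I, one_mul, one_mul, div_self h2, one_mul]
    unfold PP
    rw [h3, sub_self]

end Pool.Agent.FK
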