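import Mathlib
import Pool.Agent.Helper99.FK.Meas
import Pool.Agent.Helper99.FK.Comp
import Pool.Agent.Helper99.FK.Bes2
import Pool.Agent.Helper99.FK.Bes3
import Pool.Agent.Helper99.FK.Trans
import Pool.Agent.Helper99.FK.Conv
import Pool.Agent.Helper99.FK.Normal

/-! Faber-Krahn inequality: assembly -/

set_option autoImplicit false

open Complex MeasureTheory Set Metric
open scoped ComplexConjugate Topology

namespace Pool.Agent.FK

variable {E X : ℝ} {Ω : Set ℂ} {u₁ u₂ : ℂ → ℂ}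

theorem main_bb_le (h : Good E Ω u₁ u₂) (x : ℝ) : bb Ω u₁ u₂ x ≤ (volume Ω).toReal := by
  unfold bb
  refine ENNReal.toReal_mono h.bdd.measure_lt_top.ne (measure_mono fun z hz => hz.1)

theorem main_bb_mono (h : Good E Ω u₁ u₂) {x y : ℝ} (hxy : cs y ≤ cs x) :
    bb Ω u₁ u₂ x ≤ bb Ω u₁ u₂ y := by
  unfold bb
  refine ENNReal.toReal_mono ?_ (measure_mono fun z hz => ⟨hz.1, lt_of_le_of_lt hxy hz.2⟩)
  exact ((measure_mono (fun z hz => hz.1)).trans_lt h.bdd.measure_lt_top).ne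

theorem cs_anti (hX : Profile X) : AntitoneOn cs (Ioo 0 X) := by
  apply antitoneOn_of_deriv_nonpos (convex_Ioo 0 X)
  · intro x hx
    exact (hX.deriv x hx).continuousAt.continuousWithinAt
  · rw [interior_Ioo]
    intro x hx
    exact (hX.deriv x hx).differentiableAt.differentiableWithinAt
  · rw [interior_Ioo]
    intro x hx
    rw [(hX.deriv x hx).deriv]
    have h1 := hX.sn_pos x hx
    have h2 := hX.T_ge x ⟨hx.1, hx.2.le⟩
    have : 0 ≤ sn x * TT x := by positivity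
    linarith

theorem faber_krahn_good (h : Good E Ω u₁ u₂) (hX : Profile X) :
    Real.pi * X ^ 2 ≤ E ^ 2 * (volume Ω).toReal := by
  have hE : 0 < E := h.sol.pos
  have hpi := Real.pi_pos
  set β : ℝ → ℝ := fun x => E ^ 2 * bb Ω u₁ u₂ x / Real.pi with hβ
  have hb0 : ∀ x, 0 ≤ bb Ω u₁ u₂ x := fun x => ENNReal.toReal_nonneg
  have hmono : MonotoneOn β (Ioo 0 X) := by
    intro x hx y hy hxy
    have := main_bb_mono h (cs_anti hX hx hy hxy)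
    simp only [hβ]
    gcongr
  have hcomp := comp hX hmono (fun x _ => by
    have := hb0 x
    simp only [hβ]; positivity) ?_
  · have key : ∀ x ∈ Ioo (0 : ℝ) X, Real.pi * x ^ 2 ≤ E ^ 2 * (volume Ω).toReal := by
      intro x hx
      have h1 := hcomp x hx
      have h2 := main_bb_le h x
      simp only [hβ] at h1
      rw [le_div_iff₀ hpi] at h1
      nlinarith [sq_nonneg E, mul_le_mul_of_nonneg_left h2 (sq_nonneg E)]
    have hcl : X ∈ closure (Ioo (0 : ℝ) X) := by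
      rw [closure_Ioo hX.pos.ne]
      exact ⟨hX.pos.le, le_rfl⟩
    have hclosed : IsClosed {x : ℝ | Real.pi * x ^ 2 ≤ E ^ 2 * (volume Ω).toReal} := by
      apply isClosed_le <;> fun_prop
    exact closure_minimal (fun x hx => key x hx) hclosed hcl
  · intro x₁ x₂ h1 h2 h3
    have := meas h hX h1 h2 h3
    have e : ∀ x, (4 * (TT x - 1) * Real.sqrt (β x) + 2 * (2 - TT x) * x) / TT x
        = (1 / Real.pi) * ((4 * Real.sqrt Real.pi * E * (TT x - 1) * Real.sqrt (bb Ω u₁ u₂ x)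
        + 2 * Real.pi * (2 - TT x) * x) / TT x) := by
      intro x
      have e1 : Real.sqrt (β x) = E * Real.sqrt (bb Ω u₁ u₂ x) / Real.sqrt Real.pi := by
        simp only [hβ]
        rw [Real.sqrt_div (mul_nonneg (sq_nonneg E) (hb0 x)), Real.sqrt_mul (sq_nonneg E),
          Real.sqrt_sq hE.le]
      rw [e1]
      have hs : Real.sqrt Real.pi ≠ 0 := (Real.sqrt_pos.2 hpi).ne'
      have hs2 : Real.sqrt Real.pi * Real.sqrt Real.pi = Real.pi := Real.mul_self_sqrt hpi.le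
      have : E * Real.sqrt (bb Ω u₁ u₂ x) / Real.sqrt Real.pi
          = Real.sqrt Real.pi * E * Real.sqrt (bb Ω u₁ u₂ x) / Real.pi := by
        rw [div_eq_div_iff hs hpi.ne']
        linear_combination (-(E * Real.sqrt (bb Ω u₁ u₂ x))) * hs2
      rw [this]
      by_cases hT : TT x = 0
      · simp [hT]
      · field_simp
    simp_rw [e]
    rw [intervalIntegral.integral_const_mul]
    simp only [hβ]
    rw [one_div, inv_mul_le_iff₀ hpi]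
    calc _ ≤ _ := this
      _ = _ := by field_simp

/-- the inequality for domains given by a conformal map -/
theorem faber_krahn_conf {f : ℂ → ℂ} (hf : Conf f Ω) (h : Sol E Ω u₁ u₂) (hb : Bc f u₁ u₂)
    (hne : ∃ z ∈ Ω, u₁ z ≠ 0 ∨ u₂ z ≠ 0) (hX : Profile X) :
    Real.pi * X ^ 2 ≤ E ^ 2 * (volume Ω).toReal :=
  faber_krahn_good (good_of_conf hf h hb hne) hX

theorem fk_main (Ω : Set (ℝ × ℝ)) (φ : ℝ × ℝ → ℝ)
    (hφ : ∀ k : ℕ, ContDiff ℝ k φ)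
    (hΩ : Ω = {x | φ x < 0})
    (hnd : ∀ x, φ x = 0 → fderiv ℝ φ x ≠ 0)
    (hconf : ∃ f : ℂ → ℂ, (∀ k : ℕ, ContDiff ℝ k f) ∧ DifferentiableOn ℂ f (ball 0 1) ∧
      InjOn f (closedBall 0 1) ∧ (∀ z ∈ closedBall (0 : ℂ) 1, fderiv ℝ f z ≠ 0) ∧
      {z : ℂ | (z.re, z.im) ∈ Ω} = f '' ball 0 1)
    (r : ℝ) (hr : 0 < r)
    (hvol : volume Ω = volume {x : ℝ × ℝ | x.1 ^ 2 + x.2 ^ 2 < r ^ 2})
    (ν : ℝ) (hν : 0 < ν) (u₁ u₂ : ℝ × ℝ → ℂ)
    (h₁ : ∀ k : ℕ, ContDiff ℝ k u₁) (h₂ : ∀ k : ℕ, ContDiff ℝ k u₂)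
    (hne : ∃ x ∈ Ω, u₁ x ≠ 0 ∨ u₂ x ≠ 0)
    (he : ∀ x ∈ Ω,
      -Complex.I * fderiv ℝ u₂ x (1, 0) - fderiv ℝ u₂ x (0, 1) = (ν : ℂ) * u₁ x ∧
      -Complex.I * fderiv ℝ u₁ x (1, 0) + fderiv ℝ u₁ x (0, 1) = (ν : ℂ) * u₂ x)
    (hbc : ∀ x, φ x = 0 →
      Complex.I *
        (((fderiv ℝ φ x (1, 0) /
            Real.sqrt (fderiv ℝ φ x (1, 0) ^ 2 + fderiv ℝ φ x (0, 1) ^ 2) : ℝ) : ℂ) +
         Complex.I *
          ((fderiv ℝ φ x (0, 1) /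
            Real.sqrt (fderiv ℝ φ x (1, 0) ^ 2 + fderiv ℝ φ x (0, 1) ^ 2) : ℝ) : ℂ)) *
        u₁ x = u₂ x) :
    ∃ μ : ℝ, 0 < μ ∧ μ ≤ ν ∧
      ∃ v₁ v₂ : ℝ × ℝ → ℂ,
        (∀ k : ℕ, ContDiff ℝ k v₁) ∧ (∀ k : ℕ, ContDiff ℝ k v₂) ∧
        (∃ x : ℝ × ℝ, x.1 ^ 2 + x.2 ^ 2 < r ^ 2 ∧ (v₁ x ≠ 0 ∨ v₂ x ≠ 0)) ∧
        (∀ x : ℝ × ℝ, x.1 ^ 2 + x.2 ^ 2 < r ^ 2 →
          -Complex.I * fderiv ℝ v₂ x (1, 0) - fderiv ℝ v₂ x (0, 1) = (μ : ℂ) * v₁ x ∧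
          -Complex.I * fderiv ℝ v₁ x (1, 0) + fderiv ℝ v₁ x (0, 1) = (μ : ℂ) * v₂ x) ∧
        (∀ x : ℝ × ℝ, x.1 ^ 2 + x.2 ^ 2 = r ^ 2 →
          Complex.I * (((x.1 / r : ℝ) : ℂ) + Complex.I * ((x.2 / r : ℝ) : ℂ)) * v₁ x
            = v₂ x) := by
  obtain ⟨X, hX⟩ := exists_profile
  obtain ⟨f, hf1, hf2, hf3, hf4, hf5⟩ := hconf
  have hopen : IsOpen Ω := by
    rw [hΩ]
    exact isOpen_lt (hφ 0).continuous continuous_const
  set Ω' : Set ℂ := {z : ℂ | (z.re, z.im) ∈ Ω} with hΩ'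
  have hf : Conf f Ω' := ⟨hf1, hf2, hf3, hf4, hf5⟩
  have hsol := toSol hν hopen h₁ h₂ he
  have hΩ'' : Ω' = {z : ℂ | φ (z.re, z.im) < 0} := by
    rw [hΩ', hΩ]; rfl
  have hb : Bc f (fun z => u₁ (z.re, z.im)) (fun z => u₂ (z.re, z.im)) := by
    intro w hw
    obtain ⟨h1, h2⟩ := normal_eq hφ hnd hf hΩ'' hw
    rw [← h2]
    exact hbc _ h1
  have hne' : ∃ z ∈ Ω', u₁ (z.re, z.im) ≠ 0 ∨ u₂ (z.re, z.im) ≠ 0 := by
    obtain ⟨x, hx, h⟩ := hne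
    exact ⟨⟨x.1, x.2⟩, hx, h⟩
  have key := faber_krahn_conf hf hsol hb hne' hX
  have hv : (volume Ω').toReal = Real.pi * r ^ 2 := by
    rw [hΩ', volume_conv Ω hopen.measurableSet, hvol, volume_disc hr]
  rw [hv] at key
  refine ⟨X / r, div_pos hX.pos hr, ?_, disc_eig hX hr⟩
  rw [div_le_iff₀ hr]
  have hpi := Real.pi_pos
  have h3 : X ^ 2 ≤ (ν * r) ^ 2 := by
    have : Real.pi * X ^ 2 ≤ Real.pi * (ν * r) ^ 2 := by
      calc _ ≤ _ := key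
        _ = _ := by ring
    exact le_of_mul_le_mul_left this hpi
  exact le_of_sq_le_sq h3 (by positivity)

end Pool.Agent.FK
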